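import Pool.Agent.H37.CLO.CAbs

/-!
# The closing lemma, abstract form: the theorem
-/

set_option autoImplicit false

namespace Pool.CLO37

open Finset Real
open Pool.Agent.H49.Ent Pool.Agent.H32.Dense Pool.STK Pool.KAF Pool.KAL Pool.KS3 Pool.M3F
open Pool.KJA Pool.KA Pool.K2S

variable {σ : Type} [Fintype σ] {Mb : ℕ} {d : ℕ} {Ω Λ Λ₀ Ξ Z Z₀ Γ : Type} [Fintype Ω]

theorem Nk_nonneg (p : Ω → ℝ) (x : Ω → Ξ) (z : Ξ → σ → ℝ) (κ : Ξ → Γ) (h₀ : ℝ)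
    (mn : Fin Mb → MvPolynomial σ ℝ) (γ : Γ) (v : Fin Mb → ℝ) : 0 ≤ Nk p x z κ h₀ mn γ v :=
  mx_nonneg fun _ => Psi_nonneg _ _ _

theorem nrm_le_sum {ν : (Fin Mb → ℝ) → ℝ} (h : Nrm ν) {T : Fin Mb → Fin Mb → ℝ}
    (hT : ∀ i, ν (T i) ≤ 1) (v : Fin Mb → ℝ) : ν (∑ k, v k • T k) ≤ Mb * ‖v‖ := by
  refine (h.sum_le _ _).trans ?_
  calc ∑ i, ν (v i • T i) ≤ ∑ _i : Fin Mb, ‖v‖ := by
        refine Finset.sum_le_sum fun i _ => ?_
        rw [h.smul]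
        calc |v i| * ν (T i) ≤ ‖v‖ * 1 :=
              mul_le_mul (norm_le_pi_norm v i) (hT i) (h.nonneg _) (norm_nonneg _)
          _ = ‖v‖ := mul_one _
    _ = Mb * ‖v‖ := by
        rw [Finset.sum_const, Finset.card_univ, Fintype.card_fin, nsmul_eq_mul]

/-- One direction of the comparison of the norms. -/
theorem code_cmp {p : Ω → ℝ} {lam₀ : Ω → Λ₀} {x : Ω → Ξ} {z : Ξ → σ → ℝ} {zx : Ξ → Z}
    {Φ : Z → σ → MvPolynomial (Fin d) ℝ} {h₀ : ℝ} {κ : Ξ → Γ} {ζ : Ξ → Z₀} {ζl : Λ₀ → Z₀}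
    {Nm : Z₀ → (Fin Mb → ℝ) → ℝ} {mn : Fin Mb → MvPolynomial σ ℝ} {D : ℕ} {E : Ω × Ω → Prop}
    {Gd : Ω → Prop} {Cf Cu fl H₂ δ : ℝ} [Nonempty Ω]
    (hc : CodeOK p lam₀ x z zx Φ h₀ κ ζ ζl Nm mn D E Gd Cf Cu fl H₂ δ) (hCf : 1 ≤ Cf)
    (hfl : 0 ≤ fl) {ω₁ ω₂ : Ω} (h₁ : 0 < p ω₁) (hg₁ : Gd ω₁) {R : ℝ} (hR : 0 ≤ R)
    (hb : ∀ v, ∀ u ∈ ucube d, Psi (pol mn v) h₀ (cpt (Φ (zx (x ω₁))) u) ≤
      R * Nk p x z κ h₀ mn (κ (x ω₂)) v) (v : Fin Mb → ℝ) :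
    Nk p x z κ h₀ mn (κ (x ω₁)) v ≤
      Cf * (R * Nk p x z κ h₀ mn (κ (x ω₂)) v + fl * Nm (ζ (x ω₁)) v) := by
  have hN := Nk_nonneg p x z κ h₀ mn (κ (x ω₂)) v
  have hM := (hc.nrm ω₁ h₁).nonneg v
  refine mx_le (by positivity) fun ω' hω' => ?_
  obtain ⟨u, hu, h1⟩ := hc.near ω₁ ω' h₁ hg₁ hω'.1 hω'.2 v
  refine h1.trans (mul_le_mul_of_nonneg_left ?_ (by linarith))
  have := hb v u hu
  linarith

/-- **The closing lemma, abstract form.** -/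
theorem clo_abs (σ : Type) [Fintype σ] (d D k₀ Mb : ℕ) : ∃ C : ℝ, 1 ≤ C ∧
    ∀ (C₀ : ℝ) (Ω Λ Λ₀ Ξ Z Z₀ Γ : Type) [Fintype Ω] (p : Ω → ℝ) (lam : Ω → Λ) (lam₀ : Ω → Λ₀)
      (x : Ω → Ξ) (T : Ξ → ℕ) (z : Ξ → σ → ℝ) (A B : Λ → σ → ℝ) (zx : Ξ → Z) (zl : Λ → Z)
      (Yb : Ξ → Fin d → ℕ) (Ng : Z → Fin d → ℕ) (Φ : Z → σ → MvPolynomial (Fin d) ℝ)
      (M N : ℕ) (μ e₁ h : ℝ) (κ : Ξ → Γ) (ζ : Ξ → Z₀) (ζl : Λ₀ → Z₀)
      (Nm : Z₀ → (Fin Mb → ℝ) → ℝ) (mn : Fin Mb → MvPolynomial σ ℝ) (E : Ω × Ω → Prop)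
      (Gd : Ω → Prop) (Cf Cu fl H₂ δ ε K θ : ℝ),
      1 ≤ C₀ → 1 ≤ M → CLeaf k₀ C₀ M p lam x T z A B zx zl Yb Ng Φ →
      MxC N μ p lam x (fun ξ => ∑ i, Real.log (Ng (zx ξ) i)) Yb → 0 ≤ μ →
      Real.log M - CH p (fun ω => T (x ω)) lam ≤ e₁ → 0 ≤ e₁ → 0 < h →
      CodeOK p lam₀ x z zx Φ (C₀ / M) κ ζ ζl Nm mn D E Gd Cf Cu fl H₂ δ →
      0 < δ → 1 ≤ Cf → 1 ≤ Cu → 0 ≤ fl → fl ≤ 1 → 1 ≤ H₂ → 0 < ε → ε ≤ 1 →
      CH (cp p lam₀) (cod x κ E Prod.snd) (fun v => zx (x v.1)) ≤ θ →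
      CH (cp p lam₀) (cod x κ E Prod.fst) (fun v => zx (x v.2)) ≤ θ →
      4 * (2 * D * θ + C * ((N + 1) * (e₁ + 1) + μ)) ≤ h * Pe (cp p lam₀) E →
      0 < Pe (cp p lam₀) E →
      K = (1 + 3 * Cf * Real.exp h * H₂ * (3 * Cf * Real.exp h * H₂)) *
        (2 * (Mb * (Cu + 1))) / ε →
      (2 * Cf + 1) * fl * Mb < sg K Mb →
      ∃ (vx : Ξ → Fin Mb → ℝ) (vl : Λ₀ → Fin Mb → ℝ) (B' : Ω → Prop),
        Pe (cp p lam₀) E ≤ 2 * (Mb * 2 ^ Mb * Mb) * Pe p B' ∧ ∀ ω, B' ω → 0 < p ω ∧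
          1 ≤ Nm (ζ (x ω)) (vx (x ω)) ∧ Psi (pol mn (vx (x ω))) (C₀ / M) (z (x ω)) ≤ ε ∧
          Nm (ζ (x ω)) (vx (x ω) - vl (lam₀ ω)) ≤ Mb * ε := by
  classical
  obtain ⟨C, hC, hlrp⟩ := lrp_ev σ d D k₀
  refine ⟨C, hC, ?_⟩
  intro C₀ Ω Λ Λ₀ Ξ Z Z₀ Γ _ p lam lam₀ x T z A B zx zl Yb Ng Φ M N μ e₁ h κ ζ ζl Nm mn E Gd Cf Cu fl
    H₂ δ ε K θ hC₀ hM hL hmx hμ he₁ he₁0 hh hc hδ hCf hCu hfl0 hfl1 hH₂ hε hε1 hθ1 hθ2 hbud hE hK
    hfl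
  have hp := hL.inc.isLaw
  have hp0 := hp.nonneg
  have hne : Nonempty Ω := by
    by_contra hcon
    rw [not_nonempty_iff] at hcon
    have := hp.sum_one
    rw [Finset.univ_eq_empty, Finset.sum_empty] at this
    exact zero_ne_one this
  obtain ⟨r, hr⟩ : ∃ r, r = cp p lam₀ := ⟨_, rfl⟩
  rw [← hr] at hθ1 hθ2 hbud hE ⊢
  have hrl : IsLaw r := by rw [hr]; exact cp_isLaw hp
  have hr0 := hrl.nonneg
  obtain ⟨h₀, hh₀⟩ : ∃ h₀ : ℝ, h₀ = C₀ / M := ⟨_, rfl⟩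
  rw [← hh₀] at hc ⊢
  -- the bad events
  obtain ⟨bad, hbad⟩ : ∃ bad : (Ω × Ω → Ω) → (Ω × Ω → Ω) → Ω × Ω → Prop, bad = fun f g v =>
      E v ∧ ∃ (F : MvPolynomial σ ℝ) (u : Fin d → ℝ), F ≠ 0 ∧ F.totalDegree ≤ D ∧ u ∈ ucube d ∧
        ∀ v', 0 < r v' → E v' → zx (x (f v')) = zx (x (f v)) → κ (x (g v')) = κ (x (g v)) →
          Real.exp h * Psi F h₀ (z (x (f v'))) < Psi F h₀ (cpt (Φ (zx (x (f v)))) u) := ⟨_, rfl⟩
  have hnum : (2 * D * θ + C * ((N + 1) * (e₁ + 1) + μ)) / h ≤ Pe r E / 4 := by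
    rw [div_le_div_iff₀ hh (by norm_num)]
    linarith
  have hbd : ∀ (f g : Ω × Ω → Ω), (∀ ξ, law r (fun v => x (f v)) ξ = law p x ξ) →
      CH r (cod x κ E g) (fun v => zx (x (f v))) ≤ θ → Pe r (bad f g) ≤ Pe r E / 4 := by
    intro f g hf hθ
    have h1 := hlrp C₀ Ω Λ Ξ Z (Ω × Ω) Γ p lam x T z A B zx zl Yb Ng Φ M N μ e₁ h r
      (fun v => x (f v)) (fun v => κ (x (g v))) E hC₀ hM hL hmx hμ he₁ he₁0 hh hrl hf
    rw [← hh₀] at h1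
    refine le_trans ?_ (h1.trans (le_trans ?_ hnum))
    · rw [Pe_eq, hbad]
      exact le_of_eq (Finset.sum_congr rfl fun v _ => by congr 1)
    · refine div_le_div_of_nonneg_right ?_ hh.le
      have h2 : (2 * D : ℝ) * CH r (cod x κ E g) (fun v => zx (x (f v))) ≤ 2 * D * θ :=
        mul_le_mul_of_nonneg_left hθ (by positivity)
      have h3 : CH r (fun v => if E v then some (κ (x (g v))) else none)
          (fun v => zx (x (f v))) = CH r (cod x κ E g) (fun v => zx (x (f v))) := by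
        congr 1
      rw [h3]
      linarith
  have hb1 := hbd Prod.fst Prod.snd (fun ξ => by rw [hr]; exact cp_law_fst hp0 x ξ) hθ1
  have hb2 := hbd Prod.snd Prod.fst (fun ξ => by rw [hr]; exact cp_law_snd hp0 x ξ) hθ2
  -- the good event
  obtain ⟨G, hG⟩ : ∃ G : Ω × Ω → Prop, G = fun v => 0 < r v ∧ E v ∧ ¬ bad Prod.fst Prod.snd v ∧
      ¬ bad Prod.snd Prod.fst v := ⟨_, rfl⟩
  have hGm : Pe r E / 2 ≤ Pe r G := by
    have h1 : Pe r E ≤ Pe r G + Pe r (bad Prod.fst Prod.snd) + Pe r (bad Prod.snd Prod.fst) := by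
      simp_rw [Pe_eq]
      rw [← Finset.sum_add_distrib, ← Finset.sum_add_distrib]
      refine Finset.sum_le_sum fun v _ => ?_
      by_cases h1 : E v
      · rcases (hr0 v).eq_or_lt with h2 | h2
        · rw [← h2]
          simp
        · by_cases h3 : bad Prod.fst Prod.snd v
          · rw [if_pos h1, if_pos h3]
            have h4 : (0 : ℝ) ≤ if G v then r v else 0 := ite_nonneg h2.le le_rfl
            have h5 : (0 : ℝ) ≤ if bad Prod.snd Prod.fst v then r v else 0 :=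
              ite_nonneg h2.le le_rfl
            linarith
          · by_cases h6 : bad Prod.snd Prod.fst v
            · rw [if_pos h1, if_pos h6]
              have h4 : (0 : ℝ) ≤ if G v then r v else 0 := ite_nonneg h2.le le_rfl
              have h5 : (0 : ℝ) ≤ if bad Prod.fst Prod.snd v then r v else 0 :=
                ite_nonneg h2.le le_rfl
              linarith
            · have h7 : G v := by
                rw [hG]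
                exact ⟨h2, h1, h3, h6⟩
              rw [if_pos h1, if_pos h7]
              have h5 : (0 : ℝ) ≤ if bad Prod.fst Prod.snd v then r v else 0 :=
                ite_nonneg h2.le le_rfl
              have h8 : (0 : ℝ) ≤ if bad Prod.snd Prod.fst v then r v else 0 :=
                ite_nonneg h2.le le_rfl
              linarith
      · rw [if_neg h1]
        have h4 : (0 : ℝ) ≤ if G v then r v else 0 := ite_nonneg (hr0 v) le_rfl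
        have h5 : (0 : ℝ) ≤ if bad Prod.fst Prod.snd v then r v else 0 :=
          ite_nonneg (hr0 v) le_rfl
        have h8 : (0 : ℝ) ≤ if bad Prod.snd Prod.fst v then r v else 0 :=
          ite_nonneg (hr0 v) le_rfl
        linarith
    linarith
  obtain ⟨R, hR⟩ : ∃ R : ℝ, R = Real.exp h * H₂ := ⟨_, rfl⟩
  have hexp : 1 ≤ Real.exp h := Real.one_le_exp hh.le
  have hR1 : 1 ≤ R := by
    rw [hR]
    exact one_le_mul_of_one_le_of_one_le hexp hH₂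
  have hcmp : ∀ v, G v → (∀ w, ∀ u ∈ ucube d,
      Psi (pol mn w) h₀ (cpt (Φ (zx (x v.1))) u) ≤ R * Nk p x z κ h₀ mn (κ (x v.2)) w) ∧
      ∀ w, ∀ u ∈ ucube d,
      Psi (pol mn w) h₀ (cpt (Φ (zx (x v.2))) u) ≤ R * Nk p x z κ h₀ mn (κ (x v.1)) w := by
    intro v hv
    rw [hG] at hv
    obtain ⟨g1, g2, g3, g4⟩ := hv
    rw [hbad] at g3 g4
    constructor
    · intro w u hu
      by_cases hw : w = 0
      · rw [hw, (nrm_psi mn h₀ _).zero]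
        exact mul_nonneg (by linarith) (Nk_nonneg _ _ _ _ _ _ _ _)
      · by_contra hcon
        push Not at hcon
        refine g3 ⟨g2, pol mn w, u, hc.inj w hw, pol_deg hc.deg w, hu, fun v' h1 h2 _ h4 => ?_⟩
        rw [hr] at h1
        obtain ⟨p1, p2, p3⟩ := cp_pos hp0 h1
        have h5 := (hc.line v'.1 v'.2 p1 p2 p3 h2 w).1
        rw [h4] at h5
        refine lt_of_le_of_lt ?_ hcon
        rw [hR, mul_assoc]
        exact mul_le_mul_of_nonneg_left h5 (Real.exp_pos h).le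
    · intro w u hu
      by_cases hw : w = 0
      · rw [hw, (nrm_psi mn h₀ _).zero]
        exact mul_nonneg (by linarith) (Nk_nonneg _ _ _ _ _ _ _ _)
      · by_contra hcon
        push Not at hcon
        refine g4 ⟨g2, pol mn w, u, hc.inj w hw, pol_deg hc.deg w, hu, fun v' h1 h2 _ h4 => ?_⟩
        rw [hr] at h1
        obtain ⟨p1, p2, p3⟩ := cp_pos hp0 h1
        have h5 := (hc.line v'.1 v'.2 p1 p2 p3 h2 w).2
        rw [h4] at h5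
        refine lt_of_le_of_lt ?_ hcon
        rw [hR, mul_assoc]
        exact mul_le_mul_of_nonneg_left h5 (Real.exp_pos h).le
  -- the selection
  obtain ⟨w, hw⟩ := cp_sel (lam := lam₀) hp G (fun v hv => by
    rw [hG] at hv
    rw [← hr]
    exact hv.1)
  rw [← hr] at hw
  obtain ⟨A', hA'⟩ : ∃ A' : Ω → Prop, A' = fun ω => G (w (lam₀ ω), ω) := ⟨_, rfl⟩
  rw [← hA'] at hw
  have hA'0 : 0 < Pe p A' := by linarith
  -- facts on the good event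
  have hfact : ∀ ω, A' ω → 0 < p (w (lam₀ ω)) ∧ 0 < p ω ∧ lam₀ (w (lam₀ ω)) = lam₀ ω ∧
      G (w (lam₀ ω), ω) := by
    intro ω hω
    rw [hA'] at hω
    have h1 : 0 < cp p lam₀ (w (lam₀ ω), ω) := by
      rw [hG] at hω
      rw [← hr]
      exact hω.1
    obtain ⟨p1, p2, p3⟩ := cp_pos hp0 h1
    exact ⟨p1, p2, p3, hω⟩
  have hgd : ∀ ω, A' ω → Gd (w (lam₀ ω)) ∧ Gd ω := by
    intro ω hω
    obtain ⟨f1, f2, f3, f4⟩ := hfact ω hω
    rw [hG] at f4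
    exact hc.good _ _ f1 f2 f3 f4.2.1
  -- the bases
  have hMb : 1 ≤ Mb := by
    by_contra hcon
    have h0 : Mb = 0 := by omega
    subst h0
    obtain ⟨ω, hω⟩ : ∃ ω, A' ω := by
      by_contra hcon2
      push Not at hcon2
      have : Pe p A' = 0 := by
        rw [Pe_eq]
        exact Finset.sum_eq_zero fun ω _ => by rw [if_neg (hcon2 ω)]
      linarith
    obtain ⟨f1, f2, f3, f4⟩ := hfact ω hω
    rw [hG] at f4
    obtain ⟨v, hv, -⟩ := hc.eqn _ f1 (hc.good _ _ f1 f2 f3 f4.2.1).1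
    exact hv (Subsingleton.elim _ _)
  have hMb1 : (1 : ℝ) ≤ Mb := by exact_mod_cast hMb
  obtain ⟨Tb, hTb⟩ : ∃ Tb : Z₀ → Fin Mb → Fin Mb → ℝ, Tb = fun ζ₀ =>
      if hz : Nrm (Nm ζ₀) ∧ ∀ v, δ * ‖v‖ ≤ Nm ζ₀ v then (aub hz.1 hδ hz.2).choose
      else fun _ _ => 0 := ⟨_, rfl⟩
  have hT : ∀ ω, 0 < p ω → (∀ v : Fin Mb → ℝ, ∃ c : Fin Mb → ℝ, v = ∑ k, c k • Tb (ζ (x ω)) k) ∧
      (∀ i, Nm (ζ (x ω)) (Tb (ζ (x ω)) i) ≤ 1) ∧
      ∀ (c : Fin Mb → ℝ) (i : Fin Mb), |c i| ≤ Nm (ζ (x ω)) (∑ k, c k • Tb (ζ (x ω)) k) := by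
    intro ω hω
    rw [hTb]
    have hz : Nrm (Nm (ζ (x ω))) ∧ ∀ v, δ * ‖v‖ ≤ Nm (ζ (x ω)) v :=
      ⟨hc.nrm ω hω, hc.pos ω hω⟩
    simp only
    rw [dif_pos hz]
    exact (aub hz.1 hδ hz.2).choose_spec
  -- the norms
  obtain ⟨νx, hνx⟩ : ∃ νx : Ξ → (Fin Mb → ℝ) → ℝ, νx = fun ξ v =>
    Nk p x z κ h₀ mn (κ ξ) (∑ k, v k • Tb (ζ ξ) k) + fl * Nm (ζ ξ) (∑ k, v k • Tb (ζ ξ) k) :=
    ⟨_, rfl⟩
  obtain ⟨νl, hνl⟩ : ∃ νl : Λ₀ → (Fin Mb → ℝ) → ℝ, νl = fun s v =>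
    Nk p x z κ h₀ mn (κ (x (w s))) (∑ k, v k • Tb (ζl s) k) +
      fl * Nm (ζl s) (∑ k, v k • Tb (ζl s) k) := ⟨_, rfl⟩
  obtain ⟨H, hH⟩ : ∃ H : ℝ, H = 3 * Cf * Real.exp h * H₂ := ⟨_, rfl⟩
  rw [← hH] at hK
  have hH' : H = 3 * Cf * R := by
    rw [hH, hR]
    ring
  have hCfR : 1 ≤ Cf * R := one_le_mul_of_one_le_of_one_le hCf hR1
  have hCfCfR : Cf ≤ Cf * R := le_mul_of_one_le_right (by linarith) hR1
  have hH1 : 1 ≤ H := by
    rw [hH', mul_assoc]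
    linarith
  have hnk : ∀ γ, Nrm (Nk p x z κ h₀ mn γ) := fun γ => nrm_mx _ _ fun ω => nrm_psi mn h₀ _
  obtain ⟨qx, ql, B', hB', hPB', hq⟩ := core (M := Mb) (C₀ := Mb * (Cu + 1)) (H := H) (ε := ε)
    (K := K) hp0 x lam₀ A' hA'0 νx νl (by nlinarith) hH1 hε hε1 hK
    (by
      intro ω hω
      obtain ⟨f1, f2, f3, f4⟩ := hfact ω hω
      have h1 := (hnk (κ (x (w (lam₀ ω))))).comp_add (hc.nrm ω f2) hfl0 (Tb (ζ (x ω)))
      rw [hνl]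
      rw [hc.cls ω f2] at h1
      exact h1)
    (by
      intro ω hω v
      obtain ⟨f1, f2, f3, f4⟩ := hfact ω hω
      obtain ⟨t1, t2, t3⟩ := hT ω f2
      have e1 := hc.cls ω f2
      have e2 : ζ (x (w (lam₀ ω))) = ζ (x ω) := by
        rw [hc.cls _ f1, f3, e1]
      obtain ⟨u, hu⟩ : ∃ u : Fin Mb → ℝ, u = ∑ k, v k • Tb (ζ (x ω)) k := ⟨_, rfl⟩
      have h1 : Nk p x z κ h₀ mn (κ (x (w (lam₀ ω)))) u ≤ Cu * Nm (ζ (x ω)) u := by
        refine mx_le (mul_nonneg (by linarith) ((hc.nrm ω f2).nonneg _)) fun ω' hω' => ?_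
        have h2 := hc.upp ω' hω'.1 u
        rw [hc.fin _ ω' f1 hω'.1 hω'.2, e2] at h2
        exact h2
      have h2 : Nm (ζ (x ω)) u ≤ Mb * ‖v‖ := by
        rw [hu]
        exact nrm_le_sum (hc.nrm ω f2) t2 v
      rw [hνl]
      simp only
      rw [← e1, ← hu]
      have h3 := (hc.nrm ω f2).nonneg u
      have h4 : fl * Nm (ζ (x ω)) u ≤ 1 * Nm (ζ (x ω)) u := mul_le_mul_of_nonneg_right hfl1 h3
      have h5 : (Cu + 1) * Nm (ζ (x ω)) u ≤ (Cu + 1) * (Mb * ‖v‖) :=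
        mul_le_mul_of_nonneg_left h2 (by linarith)
      linarith)
    (by
      intro ω hω v
      obtain ⟨f1, f2, f3, f4⟩ := hfact ω hω
      have e1 := hc.cls ω f2
      have e2 : ζ (x (w (lam₀ ω))) = ζ (x ω) := by
        rw [hc.cls _ f1, f3, e1]
      obtain ⟨u, hu⟩ : ∃ u : Fin Mb → ℝ, u = ∑ k, v k • Tb (ζ (x ω)) k := ⟨_, rfl⟩
      have h1 := code_cmp hc hCf hfl0 f2 (hgd ω hω).2 (by linarith : (0 : ℝ) ≤ R)
        (hcmp _ f4).2 u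
      simp only at h1
      rw [hνx, hνl]
      simp only
      rw [← e1, ← hu]
      have h3 := (hc.nrm ω f2).nonneg u
      have h4 := Nk_nonneg p x z κ h₀ mn (κ (x (w (lam₀ ω)))) u
      have h5 : 0 ≤ fl * Nm (ζ (x ω)) u := mul_nonneg hfl0 h3
      rw [hH']
      nlinarith)
    (by
      intro ω hω v
      obtain ⟨f1, f2, f3, f4⟩ := hfact ω hω
      have e1 := hc.cls ω f2
      have e2 : ζ (x (w (lam₀ ω))) = ζ (x ω) := by
        rw [hc.cls _ f1, f3, e1]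
      obtain ⟨u, hu⟩ : ∃ u : Fin Mb → ℝ, u = ∑ k, v k • Tb (ζ (x ω)) k := ⟨_, rfl⟩
      have h1 := code_cmp hc hCf hfl0 f1 (hgd ω hω).1 (by linarith : (0 : ℝ) ≤ R)
        (hcmp _ f4).1 u
      simp only at h1
      rw [e2] at h1
      rw [hνx, hνl]
      simp only
      rw [← e1, ← hu]
      have h3 := (hc.nrm ω f2).nonneg u
      have h4 := Nk_nonneg p x z κ h₀ mn (κ (x ω)) u
      have h5 : 0 ≤ fl * Nm (ζ (x ω)) u := mul_nonneg hfl0 h3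
      rw [hH']
      nlinarith)
    (by
      intro ω hω
      obtain ⟨f1, f2, f3, f4⟩ := hfact ω hω
      obtain ⟨t1, t2, t3⟩ := hT ω f2
      have e1 := hc.cls ω f2
      have e2 : ζ (x (w (lam₀ ω))) = ζ (x ω) := by
        rw [hc.cls _ f1, f3, e1]
      obtain ⟨v, hv, hvu⟩ := hc.eqn _ f1 (hgd ω hω).1
      obtain ⟨c, hcv⟩ := t1 v
      refine ⟨c, ?_⟩
      have h3 := (hc.nrm ω f2).nonneg v
      have h1 : Nk p x z κ h₀ mn (κ (x (w (lam₀ ω)))) v ≤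
          Cf * (fl * Nm (ζ (x ω)) v + fl * Nm (ζ (x ω)) v) := by
        refine mx_le (mul_nonneg (by linarith) (add_nonneg (mul_nonneg hfl0 h3)
          (mul_nonneg hfl0 h3))) fun ω' hω' => ?_
        obtain ⟨u, hu, h4⟩ := hc.near _ ω' f1 (hgd ω hω).1 hω'.1 hω'.2 v
        rw [e2] at h4
        have h5 := hvu u hu
        rw [e2] at h5
        refine h4.trans (mul_le_mul_of_nonneg_left ?_ (by linarith))
        linarith
      have h2 : Nm (ζ (x ω)) v ≤ Mb * ‖c‖ := by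
        rw [hcv]
        exact nrm_le_sum (hc.nrm ω f2) t2 c
      have hc0 : 0 < ‖c‖ := by
        rw [norm_pos_iff]
        intro h0
        apply hv
        rw [hcv, h0]
        simp
      rw [hνl]
      simp only
      rw [← e1, ← hcv]
      have h6 : Nk p x z κ h₀ mn (κ (x (w (lam₀ ω)))) v + fl * Nm (ζ (x ω)) v ≤
          (2 * Cf + 1) * fl * (Mb * ‖c‖) := by
        have h7 : (2 * Cf + 1) * fl * Nm (ζ (x ω)) v ≤ (2 * Cf + 1) * fl * (Mb * ‖c‖) :=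
          mul_le_mul_of_nonneg_left h2 (by positivity)
        linarith
      refine lt_of_le_of_lt h6 ?_
      rw [← mul_assoc]
      exact mul_lt_mul_of_pos_right hfl hc0)
  refine ⟨fun ξ => ∑ k, qx ξ k • Tb (ζ ξ) k, fun s => ∑ k, ql s k • Tb (ζl s) k, B', ?_, ?_⟩
  · have h1 : (0 : ℝ) ≤ Mb * 2 ^ Mb * Mb := by positivity
    nlinarith
  · intro ω hω
    obtain ⟨q1, q2, q3, q4, q5⟩ := hq ω hω
    obtain ⟨f1, f2, f3, f4⟩ := hfact ω (hB' ω hω)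
    obtain ⟨t1, t2, t3⟩ := hT ω f2
    have e1 := hc.cls ω f2
    refine ⟨f2, ?_, ?_, ?_⟩
    · refine q1.trans ?_
      rw [pi_norm_le_iff_of_nonneg ((hc.nrm ω f2).nonneg _)]
      intro i
      exact t3 _ i
    · rw [hνx] at q4
      simp only at q4
      have h1 : Psi (pol mn (∑ k, qx (x ω) k • Tb (ζ (x ω)) k)) h₀ (z (x ω)) ≤
          Nk p x z κ h₀ mn (κ (x ω)) (∑ k, qx (x ω) k • Tb (ζ (x ω)) k) := by
        unfold Nk
        exact le_mx (P := fun ω' => 0 < p ω' ∧ κ (x ω') = κ (x ω))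
          (f := fun ω' => Psi (pol mn (∑ k, qx (x ω) k • Tb (ζ (x ω)) k)) h₀ (z (x ω')))
          ⟨f2, rfl⟩
      have h2 : 0 ≤ fl * Nm (ζ (x ω)) (∑ k, qx (x ω) k • Tb (ζ (x ω)) k) :=
        mul_nonneg hfl0 ((hc.nrm ω f2).nonneg _)
      linarith
    · simp only
      rw [← e1]
      have e3 : ∑ k, qx (x ω) k • Tb (ζ (x ω)) k - ∑ k, ql (lam₀ ω) k • Tb (ζ (x ω)) k =
          ∑ k, (qx (x ω) - ql (lam₀ ω)) k • Tb (ζ (x ω)) k := by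
        rw [← Finset.sum_sub_distrib]
        exact Finset.sum_congr rfl fun k _ => by rw [Pi.sub_apply, sub_smul]
      rw [e3]
      refine (nrm_le_sum (hc.nrm ω f2) t2 _).trans ?_
      exact mul_le_mul_of_nonneg_left q5 (by positivity)

end Pool.CLO37
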