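import Pool.Agent.H37.CLO.Clf

/-!
# Mixing on the leaves of closed labels
-/

set_option autoImplicit false

namespace Pool.CLO37

open Finset Real MvPolynomial
open Pool.Agent.H49.Ent Pool.Agent.H32.Dense Pool.STK Pool.KAF Pool.KAL Pool.KS3 Pool.M3F
open Pool.KJA Pool.KA Pool.K2S Pool.KSAT Pool.PB Pool.STAT Pool.GEN Pool.S6C

variable {m J : ℕ} {F : Fam m J}

lemma ybw_eq {c : ℕ → Fin m} {r W sg : ℕ} {g : ℕ → ℕ} {K : ℕ} {L : ℝ} {B : F.Ω → Prop} {V : Type}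
    {z : PtT F → V} {z' : LnT F → V} {P : V → ℕ → PN} {P₀ : ℕ}
    (hN : NLabW F c r W sg g K L B z z' P) (hWJ : W ≤ J)
    (hw : ∀ i < r + 1, wid W g i ≤ P₀) {ω : F.Ω} (hω : B ω) (i : Fin (r + 1)) :
    ((ybw c r W P₀ g (P (z (ptr F J ω))) (ptr F J ω) i : ℕ) : ℤ) =
      ndp c P₀ (P (z (ptr F J ω))) (ptr F J ω) i + (2 ^ (P₀ - wid W g i) + 1) := by
  have h1 := pos_w hN hWJ hω i.2
  unfold ybw
  refine Int.toNat_of_nonneg ?_
  have h2 : -((2 : ℤ) ^ (P₀ - wid W g i)) ≤ ndp c P₀ (P (z (ptr F J ω))) (ptr F J ω) i := by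
    unfold ndp
    rw [Int.le_floor]
    push_cast
    rw [two_pow_sub (hw i i.2)]
    have h3 := (abs_le.1 h1).1
    have h4 := mul_le_mul_of_nonneg_left h3 (by positivity : (0 : ℝ) ≤ 2 ^ P₀)
    calc -((2 : ℝ) ^ P₀ / 2 ^ wid W g i) = 2 ^ P₀ * -(1 / 2 ^ wid W g i) := by ring
      _ ≤ _ := h4
  linarith

lemma log_ngw {W P₀ : ℕ} {g : ℕ → ℕ} {d : ℕ} (i : Fin d) :
    Real.log (ngw W P₀ g d i) ≤ ((P₀ - wid W g i : ℕ) : ℝ) * Real.log 2 + 2 * Real.log 2 := by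
  unfold ngw
  push_cast
  rw [← add_mul, show ((P₀ - wid W g i : ℕ) : ℝ) + 2 = ((P₀ - wid W g i + 2 : ℕ) : ℝ) by
    push_cast
    ring, ← Real.log_pow]
  refine Real.log_le_log (by positivity) ?_
  have : (1 : ℝ) ≤ 2 ^ (P₀ - wid W g i) := one_le_pow₀ one_le_two
  rw [pow_add, pow_add]
  linarith

/-- The natural digits given a variable which determines the label. -/
theorem dig_geW {W r : ℕ} {E V : Type} [Fintype E] {q : E → ℝ} {c : ℕ → Fin m} {g : ℕ → ℕ}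
    {z : PtT F → V} {P : V → ℕ → PN} (htri : ∀ v, TriN (P v)) (hq : IsLaw q) {Γ : Type}
    (pr : E → F.Ω) (Z : E → Γ)
    (hZ : ∀ e e', 0 < q e → 0 < q e' → Z e = Z e' →
      z (ptr F J (pr e)) = z (ptr F J (pr e'))) {P₀ : ℕ} (hP : P₀ ≤ J)
    (hw : ∀ i < r + 1, wid W g i ≤ P₀) {e₁ E₀ : ℝ}
    (hT : ((J - W : ℕ) : ℝ) * Real.log 2 - e₁ ≤ CH q (fun e => F.T (pr e)) Z)
    (hY : E₀ ≤ CH q (fun e (i : Fin r) => F.X J (pr e) (c i)) (fun e => (Z e, F.W (pr e)))) :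
    (∑ i ∈ range (r + 1), ((P₀ - wid W g i : ℕ) : ℝ)) * Real.log 2 -
      CH q (fun e (i : Fin (r + 1)) => ndp c P₀ (P (z (ptr F J (pr e)))) (ptr F J (pr e)) i) Z ≤
      e₁ + ((∑ l ∈ range r, ((J - g l : ℕ) : ℝ)) * Real.log 2 - E₀) + (r + 1) * Real.log 3 := by
  have h1 := nd_ge (F := F) hq c (r := r) (W := W) pr Z P (fun e => z (ptr F J (pr e)))
    (fun _ => P₀) (fun _ _ => hP) hZ htri hT hY
  have h2 := sum_wid (r := r) hP hw
  have h3 : ∑ i ∈ range (r + 1), (((J - P₀ : ℕ) : ℝ) * Real.log 2 + Real.log 3) =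
      (∑ _i ∈ range (r + 1), ((J - P₀ : ℕ) : ℝ)) * Real.log 2 + (r + 1) * Real.log 3 := by
    rw [Finset.sum_add_distrib, ← Finset.sum_mul, Finset.sum_const, Finset.sum_const, card_range,
      nsmul_eq_mul, nsmul_eq_mul]
    push_cast
    ring
  rw [h3] at h1
  have h4 : (∑ i ∈ range (r + 1), ((P₀ - wid W g i : ℕ) : ℝ)) * Real.log 2 =
      ((J - W : ℕ) : ℝ) * Real.log 2 + (∑ l ∈ range r, ((J - g l : ℕ) : ℝ)) * Real.log 2 -
      (∑ _i ∈ range (r + 1), ((J - P₀ : ℕ) : ℝ)) * Real.log 2 := by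
    have h5 : ∑ i ∈ range (r + 1), ((P₀ - wid W g i : ℕ) : ℝ) =
      ((J - W : ℕ) : ℝ) + ∑ l ∈ range r, ((J - g l : ℕ) : ℝ) -
        ∑ _i ∈ range (r + 1), ((J - P₀ : ℕ) : ℝ) := by linarith
    rw [h5]
    ring
  rw [h4]
  have h6 : CH q (fun e (i : Fin (r + 1)) => ndp c P₀ (P (z (ptr F J (pr e)))) (ptr F J (pr e)) i)
      Z = CH q (fun e (i : Fin (r + 1)) => ⌊(2 : ℝ) ^ P₀ * (px c (ptr F J (pr e)) i -
        eval (px c (ptr F J (pr e))) (P (z (ptr F J (pr e))) i))⌋) Z := rfl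
  rw [h6]
  linarith

/-- **The times of the leaves.** -/
theorem tdg_w {S : PCl m}
    (hmem : ∀ (τ : ℝ) (J : ℕ) (F : Fam m J) (A : F.Ω → Prop), S.St τ J F A →
      F.Tr ∧ F.Tm (τ * J) ∧ F.Rb (τ * J) ∧ Real.exp (-(τ * J)) ≤ Pe F.p A)
    (w : ℝ) {δ : ℝ} (hδ : 0 < δ) : Bas S (fun J F A => ∀ P₀ : ℕ,
      ⌊w * J⌋₊ ≤ P₀ → P₀ ≤ J → Real.log ((2 ^ (P₀ - ⌊w * J⌋₊) : ℕ) : ℝ) -
        CH (Pool.Agent.H49.Ent.cond F.p A True) (fun ω => tdg ⌊w * J⌋₊ P₀ (K2S.Fam.pt F ω))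
          (slam F ⌊w * J⌋₊) ≤ δ * J) := by
  refine ⟨δ / 6, by positivity, 0, fun J _ F A hS P₀ hWP hPJ => ?_⟩
  obtain ⟨hTr, hTm, hRb, hPe⟩ := hmem _ J F A hS
  have hA : 0 < Pe F.p A := lt_of_lt_of_le (Real.exp_pos _) hPe
  obtain ⟨W, hWe⟩ : ∃ W, W = ⌊w * J⌋₊ := ⟨_, rfl⟩
  rw [← hWe] at hWP ⊢
  have h1 := Pool.STPA.sub_Tm_of_reg hTr hTm hRb hA hPe
  have h2 := Pool.FLF.time_fullr (Pool.FLF.Fam.sub F A hA) (w := W) (L := P₀ - W) (r := P₀)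
    (by omega) hPJ h1
  have h3 : CH (Pool.FLF.Fam.sub F A hA).p (fun ω => Pool.FLF.pT (P₀ - W)
      (Pool.FLF.trp (Pool.FLF.Fam.sub F A hA) P₀ ω)) (slam (Pool.FLF.Fam.sub F A hA) W) =
      CH (Pool.Agent.H49.Ent.cond F.p A True)
        (fun ω => Pool.FLF.pT (P₀ - W) (Pool.FLF.trp F P₀ ω)) (slam F W) :=
    Pool.FLF.sub_CH (fun ω => Pool.FLF.pT (P₀ - W) (Pool.FLF.trp F P₀ ω)) (slam F W)
  rw [h3] at h2
  have h4 : (fun ω => Pool.FLF.pT (P₀ - W) (Pool.FLF.trp F P₀ ω)) =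
      fun ω => tdg W P₀ (K2S.Fam.pt F ω) := rfl
  rw [h4, Nat.cast_sub hWP] at h2
  push_cast
  rw [Real.log_pow, Nat.cast_sub hWP]
  linarith

/-- **Mixing on the leaves of closed labels**, in a class. -/
theorem mxc_w (r : ℕ) {S : PCl m}
    (hmem : ∀ (τ : ℝ) (J : ℕ) (F : Fam m J) (A : F.Ω → Prop), S.St τ J F A →
      F.Tr ∧ F.Tm (τ * J) ∧ F.Rb (τ * J) ∧ Real.exp (-(τ * J)) ≤ Pe F.p A)
    {c : ℕ → Fin m} {w : ℝ} {g : ℕ → ℝ} (hw : 0 ≤ w) (hw1 : w ≤ 1)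
    (hex : ∀ ρ : ℝ, 0 < ρ → ExvY S w (fun J F ω (i : Fin r) => F.X J ω (c i))
      ((∑ l ∈ range r, (1 - g l)) - ρ))
    {δ : ℝ} (hδ : 0 < δ) : ∃ N₀ : ℕ, ∃ φ : ℝ, 0 < φ ∧ Bas S (fun J F A =>
      ∀ (P₀ : ℕ) (g' : ℕ → ℕ) (sg K : ℕ) (L : ℝ) (V : Type) (z : PtT F → V) (z' : LnT F → V)
        (P : V → ℕ → PN), (∀ l < r, (g l - φ) * J ≤ g' l) →
        (∀ i < r + 1, wid ⌊w * J⌋₊ g' i ≤ P₀) → P₀ ≤ J →
        NLabW F c r ⌊w * J⌋₊ sg g' K L A z z' P →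
        ∃ N, N ≤ N₀ ∧ MxC N (δ * J) (Pool.Agent.H49.Ent.cond F.p A True) (slam F ⌊w * J⌋₊)
          (K2S.Fam.pt F) (fun _ => ∑ i, Real.log (ngw ⌊w * J⌋₊ P₀ g' (r + 1) i))
          (fun ξ => ybw c r ⌊w * J⌋₊ P₀ g' (P (z ξ)) ξ)) := by
  classical
  have hl2 : 0 < Real.log 2 := Real.log_pos one_lt_two
  have hl2' : Real.log 2 ≤ 1 := by
    have := Real.log_two_lt_d9
    linarith
  have hl3 : 0 ≤ Real.log 3 := Real.log_nonneg (by norm_num)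
  have hpos : ∀ (τ : ℝ) (J : ℕ) (F : Fam m J) (A : F.Ω → Prop), S.St τ J F A → 0 < Pe F.p A :=
    fun τ J F A h => lt_of_lt_of_le (Real.exp_pos _) (hmem τ J F A h).2.2.2
  obtain ⟨θ, hθ⟩ : ∃ θ : ℝ, θ = δ / 8 := ⟨_, rfl⟩
  have hθ0 : 0 < θ := by
    rw [hθ]
    positivity
  obtain ⟨N₀, τ₀, hτ₀, J₀, hmix⟩ := mix_class_s hpos (Y := fun J F ω (i : Fin r) => F.X J ω (c i))
    (fun J F ω ω' h _ => by
      have h1 := (Prod.ext_iff.1 h).1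
      funext i
      exact congrFun h1 (c i)) hθ0 hex
  obtain ⟨φ, hφ⟩ : ∃ φ : ℝ, φ = θ / (r + 1) := ⟨_, rfl⟩
  have hφ0 : 0 < φ := by
    rw [hφ]
    positivity
  have hφθ : r * φ ≤ θ := by
    have h1 : φ * (r + 1) = θ := by
      rw [hφ]
      field_simp
    nlinarith
  obtain ⟨τ, hτ⟩ : ∃ τ : ℝ, τ = min τ₀ (θ / 6) := ⟨_, rfl⟩
  have hτ0 : 0 < τ := by
    rw [hτ]
    exact lt_min hτ₀ (by positivity)
  have hτ1 : τ ≤ τ₀ := by
    rw [hτ]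
    exact min_le_left _ _
  have hτθ : 6 * τ ≤ θ := by
    have h1 : τ ≤ θ / 6 := by
      rw [hτ]
      exact min_le_right _ _
    linarith
  obtain ⟨J₁, hJ₁⟩ := exists_nat_gt ((r + 1) * (Real.log 3 + 2 * Real.log 2) / θ)
  refine ⟨N₀, φ, hφ0, τ, hτ0, max (max J₀ J₁) 1, ?_⟩
  intro J hJ F A hS P₀ g' sg K L V z z' P hg1 hw' hPJ hN
  have hJ0 : J₀ ≤ J := (le_max_left _ _).trans ((le_max_left _ _).trans hJ)
  have hJ1 : (J₁ : ℝ) ≤ J := by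
    exact_mod_cast (le_max_right J₀ J₁).trans ((le_max_left _ _).trans hJ)
  have hJ3 : (1 : ℝ) ≤ J := by
    exact_mod_cast (le_max_right (max J₀ J₁) 1).trans hJ
  have hJp : (0 : ℝ) < J := by linarith
  obtain ⟨hTr, hTm, hRb, hPe⟩ := hmem τ J F A hS
  have hA : 0 < Pe F.p A := hpos τ J F A hS
  have hl := isLaw_cond F.isLaw hA
  have hsupp : ∀ ω, 0 < Pool.Agent.H49.Ent.cond F.p A True ω → A ω := fun ω hω =>
    cond_supp hω
  obtain ⟨W, hWe⟩ : ∃ W, W = ⌊w * J⌋₊ := ⟨_, rfl⟩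
  have hWw : (W : ℝ) ≤ w * J := by
    rw [hWe]
    exact Nat.floor_le (by positivity)
  have hWJ : W ≤ J := by
    have : (W : ℝ) ≤ J := hWw.trans (by nlinarith)
    exact_mod_cast this
  rw [← hWe] at hN hw' ⊢
  have hTs : ((J - W : ℕ) : ℝ) * Real.log 2 - 6 * (τ * J) ≤
      CH (Pool.Agent.H49.Ent.cond F.p A True) F.T (slam F W) := by
    have h1 := Pool.STPA.time_event F hTr hTm hRb hA hPe hWJ
    rw [Nat.cast_sub hWJ]
    linarith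
  have hsum : ∑ l ∈ range r, ((J - g' l : ℕ) : ℝ) ≤
      (∑ l ∈ range r, (1 - g l)) * J + r * φ * J := by
    have h1 : ∀ l ∈ range r, ((J - g' l : ℕ) : ℝ) ≤ (1 - g l) * J + φ * J := by
      intro l hl'
      have h2 := hg1 l (mem_range.1 hl')
      have h3 : g' l ≤ J := by
        have h4 := hw' (l + 1) (by have := mem_range.1 hl'; omega)
        rw [wid_succ] at h4
        omega
      rw [Nat.cast_sub h3]
      linarith
    refine (Finset.sum_le_sum h1).trans (le_of_eq ?_)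
    rw [Finset.sum_add_distrib, ← Finset.sum_mul, Finset.sum_const, card_range, nsmul_eq_mul]
    ring
  have hcls : ∀ ω, 0 < Pool.Agent.H49.Ent.cond F.p A True ω →
      z (ptr F J ω) = z' (slam F W ω) := fun ω hω => hN.cls ω (hsupp ω hω)
  obtain ⟨N, hN1, hNN, E, hE, q, o, o', l, y, hch, hm1, hm2⟩ := hmix J hJ0 F A
    (S.mono hτ1 hS) hl
  rw [← hWe] at hch
  have hq := hch.isLaw
  have hyN : ∀ v, 0 < q v → y N v = ptr F J (o' (N - 1) v) := fun v hv => by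
    have h1 := hch.stop v hv (N - 1) (by omega)
    have h2 : N - 1 + 1 = N := by omega
    rw [h2] at h1
    exact h1.symm
  have hcst : ∀ v, 0 < q v → z (y N v) = z (y 0 v) := fun v hv =>
    chain_const hch (bx := z) (bl := z') hcls hv N le_rfl
  have hpN : ∀ v, 0 < q v → A (o' (N - 1) v) := fun v hv =>
    hsupp _ ((hch.marg' (N - 1) (by omega)).pos hq.nonneg hv)
  have h2 := dig_geW (g := g') (W := W) (z := z) (P := P) hN.tri hq (Γ := PtT F) (o' (N - 1)) (y 0)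
    (fun v v' hv hv' e => by
      rw [← hyN v hv, ← hyN v' hv', hcst v hv, hcst v' hv', e]) hPJ hw'
    (hTs.trans (chain_fn hch hN1 (fun ξ : PtT F => ξ.2.1))) hm1
  refine ⟨N, hNN, E, hE, q, o, o', l, y, hch, ?_⟩
  rw [Ex_const hl.sum_one]
  have h3 : CH q (fun e (i : Fin (r + 1)) =>
      ndp c P₀ (P (z (ptr F J (o' (N - 1) e)))) (ptr F J (o' (N - 1) e)) i) (y 0) ≤
      CH q (fun v => ybw c r W P₀ g' (P (z (y N v))) (y N v)) (y 0) := by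
    refine CH_mono_left hq.nonneg fun v v' hv hv' e => ?_
    have h4 := (Prod.ext_iff.1 e).1
    simp only [hyN v hv, hyN v' hv'] at h4
    funext i
    have h5 := ybw_eq (P₀ := P₀) hN hWJ hw' (hpN v hv) i
    have h6 := ybw_eq (P₀ := P₀) hN hWJ hw' (hpN v' hv') i
    rw [congrFun h4 i, h6] at h5
    linarith
  have h4 : ∑ i, Real.log (ngw W P₀ g' (r + 1) i) ≤
      (∑ i ∈ range (r + 1), ((P₀ - wid W g' i : ℕ) : ℝ)) * Real.log 2 +
        (r + 1) * (2 * Real.log 2) := by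
    refine (Finset.sum_le_sum fun i _ => log_ngw i).trans (le_of_eq ?_)
    rw [Finset.sum_add_distrib, Finset.sum_const, Finset.card_univ, Fintype.card_fin,
      nsmul_eq_mul, ← Finset.sum_mul, Finset.sum_range]
    push_cast
    ring
  have h5 : (∑ l ∈ range r, ((J - g' l : ℕ) : ℝ)) * Real.log 2 -
      (∑ l ∈ range r, (1 - g l) - θ) * Real.log 2 * J ≤ (r * φ + θ) * J := by
    have h1 := mul_le_mul_of_nonneg_right hsum hl2.le
    have h2 : (r * φ + θ) * J * Real.log 2 ≤ (r * φ + θ) * J := by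
      have : 0 ≤ (r * φ + θ) * J := by positivity
      nlinarith
    linarith
  have h6 : (r + 1) * (Real.log 3 + 2 * Real.log 2) ≤ θ * J := by
    have h7 : (r + 1) * (Real.log 3 + 2 * Real.log 2) / θ < J := hJ₁.trans_le hJ1
    rw [div_lt_iff₀ hθ0] at h7
    linarith
  have h7 : 6 * τ * J ≤ θ * J := mul_le_mul_of_nonneg_right hτθ hJp.le
  have h8 : r * φ * J ≤ θ * J := mul_le_mul_of_nonneg_right hφθ hJp.le
  have h9 : δ * J = 8 * (θ * J) := by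
    rw [hθ]
    ring
  have h10 : 0 < θ * J := by positivity
  rw [h9]
  linarith

end Pool.CLO37
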