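import Pool.Agent.H86.KJ.Lrc

/-!
# Remez inequality on a leaf, all polynomials at once, for a coupling

`lrp`: the form of `Pool.KJA.lru_c` for a coupling `r` one marginal of which is the law of the
point, and parts of the leaf which are given by any function `c` of the coupling. The price is
`2 D` times the entropy of `c` given the leaf. `lrp_ev`: the same on an event `E` of the coupling.
-/

set_option autoImplicit false

namespace Pool.CLO37

open Finset Real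
open Pool.Agent.H49.Ent Pool.Agent.H32.Dense Pool.STK Pool.KAF Pool.KAL Pool.KS3 Pool.M3F
open Pool.KJA

theorem lrp (σ : Type) [Fintype σ] (d D k₀ : ℕ) : ∃ C : ℝ, 1 ≤ C ∧
    ∀ (C₀ : ℝ) (Ω Λ Ξ Z V W : Type) [Fintype Ω] [Fintype V] (p : Ω → ℝ) (lam : Ω → Λ)
      (x : Ω → Ξ) (T : Ξ → ℕ) (z : Ξ → σ → ℝ) (A B : Λ → σ → ℝ) (zx : Ξ → Z) (zl : Λ → Z)
      (Yb : Ξ → Fin d → ℕ) (Ng : Z → Fin d → ℕ) (Φ : Z → σ → MvPolynomial (Fin d) ℝ)
      (M N : ℕ) (μ e₁ h : ℝ) (r : V → ℝ) (X : V → Ξ) (c : V → W),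
      1 ≤ C₀ → 1 ≤ M → CLeaf k₀ C₀ M p lam x T z A B zx zl Yb Ng Φ →
      MxC N μ p lam x (fun ξ => ∑ i, Real.log (Ng (zx ξ) i)) Yb → 0 ≤ μ →
      Real.log M - CH p (fun ω => T (x ω)) lam ≤ e₁ → 0 ≤ e₁ → 0 < h →
      IsLaw r → (∀ ξ, law r X ξ = law p x ξ) →
      (∑ v, (open Classical in
        if ∃ (F : MvPolynomial σ ℝ) (u : Fin d → ℝ), F ≠ 0 ∧ F.totalDegree ≤ D ∧ u ∈ ucube d ∧
          ∀ v', 0 < r v' → zx (X v') = zx (X v) → c v' = c v →
            Real.exp h * Psi F (C₀ / M) (z (X v')) < Psi F (C₀ / M) (cpt (Φ (zx (X v))) u)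
        then r v else 0)) ≤
        (2 * D * CH r c (fun v => zx (X v)) + C * ((N + 1) * (e₁ + 1) + μ)) / h := by
  classical
  obtain ⟨C, hC, H⟩ := lrc σ d D k₀
  refine ⟨C, hC, ?_⟩
  intro C₀ Ω Λ Ξ Z V W _ _ p lam x T z A B zx zl Yb Ng Φ M N μ e₁ h r X c hC₀ hM hL hmx hμ he₁
    he₁0 hh hr hrX
  have hr0 := hr.nonneg
  have hM0 : (0 : ℝ) < M := by exact_mod_cast hM
  set h₀ : ℝ := C₀ / M with hh₀
  have hh₀0 : 0 < h₀ := by positivity
  -- the bad labels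
  set bad : Z × W → MvPolynomial σ ℝ × (Fin d → ℝ) → Prop := fun g F =>
    F.1 ≠ 0 ∧ F.1.totalDegree ≤ D ∧ F.2 ∈ ucube d ∧
    ∀ v', 0 < r v' → zx (X v') = g.1 → c v' = g.2 →
      Real.exp h * Psi F.1 h₀ (z (X v')) < Psi F.1 h₀ (cpt (Φ g.1) F.2) with hbad
  set Fc : Z × W → MvPolynomial σ ℝ × (Fin d → ℝ) := fun g =>
    if hg : ∃ F, bad g F then hg.choose else (1, fun _ => 0) with hFc
  have hF1 : ∀ g, (Fc g).1 ≠ 0 ∧ (Fc g).1.totalDegree ≤ D ∧ (Fc g).2 ∈ ucube d := by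
    intro g
    simp only [hFc]
    split_ifs with hg
    · exact ⟨hg.choose_spec.1, hg.choose_spec.2.1, hg.choose_spec.2.2.1⟩
    · refine ⟨one_ne_zero, ?_, ?_⟩
      · rw [MvPolynomial.totalDegree_one]
        exact Nat.zero_le _
      · intro i
        simp
  have h1 := H C₀ Ω Λ Ξ Z V (Z × W) p lam x T z A B zx zl Yb Ng Φ M N μ e₁ r X
    (fun v => (zx (X v), c v)) (fun g => (Fc g).1)
    (fun g _ => Real.log (Psi (Fc g).1 h₀ (cpt (Φ g.1) (Fc g).2))) hC₀ hM hL hmx hμ he₁ he₁0 hr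
    hrX (by
      intro v hv
      refine ⟨(hF1 _).1, (hF1 _).2.1, (Fc (zx (X v), c v)).2, (hF1 _).2.2, _,
        fun o => ?_, le_rfl⟩
      rw [sub_self, abs_zero]
      exact hh₀0.le)
  have h2 : CH r (fun v => (zx (X v), c v)) (fun v => zx (X v)) =
      CH r c (fun v => zx (X v)) := by
    refine CH_congr hr0 ?_ ?_ (fun _ _ _ _ h => h) (fun _ _ _ _ h => h)
    · intro v v' _ _ h
      simp only [Prod.mk.injEq] at h
      exact h.1.2
    · intro v v' _ _ h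
      simp only [Prod.mk.injEq] at h
      simp only [h.1, h.2]
  have h3 : 0 ≤ CH r (fun v => (zx (X v), c v)) X := CH_nonneg hr0 _ _
  rw [h2] at h1
  have hPsi1 : ∀ y : σ → ℝ, Psi (1 : MvPolynomial σ ℝ) h₀ y = 1 := by
    intro y
    unfold Psi shf
    rw [map_one, coefSum_one]
  have h6 : (∑ v, if ∃ F, bad (zx (X v), c v) F then r v else 0) * h ≤
      Ex r (fun v => Real.log (Psi (Fc (zx (X v), c v)).1 h₀
        (cpt (Φ (zx (X v))) (Fc (zx (X v), c v)).2)) -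
        Real.log (Psi (Fc (zx (X v), c v)).1 h₀ (z (X v)))) := by
    rw [Finset.sum_mul]
    unfold Ex
    refine Finset.sum_le_sum fun v _ => ?_
    by_cases hv : 0 < r v
    · split_ifs with hg
      · refine mul_le_mul_of_nonneg_left ?_ hv.le
        have hg1 : bad (zx (X v), c v) (Fc (zx (X v), c v)) := by
          simp only [hFc]
          rw [dif_pos hg]
          exact hg.choose_spec
        have hg2 := hg1.2.2.2 v hv rfl rfl
        have hg3 : 0 < Psi (Fc (zx (X v), c v)).1 h₀ (z (X v)) :=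
          Psi_pos _ hg1.1 h₀ hh₀0 _
        have hg4 := Real.log_le_log (mul_pos (Real.exp_pos h) hg3) hg2.le
        rw [Real.log_mul (Real.exp_pos h).ne' hg3.ne', Real.log_exp] at hg4
        simp only at hg4
        linarith
      · rw [zero_mul]
        refine mul_nonneg hv.le ?_
        have hg1 : Fc (zx (X v), c v) = (1, fun _ => 0) := by
          simp only [hFc]
          rw [dif_neg hg]
        change 0 ≤ Real.log (Psi (Fc (zx (X v), c v)).1 h₀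
          (cpt (Φ (zx (X v))) (Fc (zx (X v), c v)).2)) -
          Real.log (Psi (Fc (zx (X v), c v)).1 h₀ (z (X v)))
        rw [hg1]
        simp only
        rw [hPsi1, hPsi1, sub_self]
    · have h0 : r v = 0 := le_antisymm (not_lt.mp hv) (hr0 v)
      rw [h0]
      simp
  rw [Ex_sub] at h6
  rw [le_div_iff₀ hh]
  have h7 : (∑ v, if ∃ (F : MvPolynomial σ ℝ) (u : Fin d → ℝ), F ≠ 0 ∧ F.totalDegree ≤ D ∧
      u ∈ ucube d ∧ ∀ v', 0 < r v' → zx (X v') = zx (X v) → c v' = c v →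
        Real.exp h * Psi F h₀ (z (X v')) < Psi F h₀ (cpt (Φ (zx (X v))) u)
      then r v else 0) = ∑ v, if ∃ F, bad (zx (X v), c v) F then r v else 0 := by
    refine Finset.sum_congr rfl fun v _ => ?_
    refine if_congr ?_ rfl rfl
    constructor
    · rintro ⟨F, u, hb⟩
      exact ⟨(F, u), hb⟩
    · rintro ⟨⟨F, u⟩, hb⟩
      exact ⟨F, u, hb⟩
  rw [h7]
  simp only at h1
  have h8 : (0 : ℝ) ≤ 2 * D * CH r (fun v => (zx (X v), c v)) X := by positivity
  linarith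

/-- **The same on an event** of the coupling: the index is used on the event only. -/
theorem lrp_ev (σ : Type) [Fintype σ] (d D k₀ : ℕ) : ∃ C : ℝ, 1 ≤ C ∧
    ∀ (C₀ : ℝ) (Ω Λ Ξ Z V W : Type) [Fintype Ω] [Fintype V] (p : Ω → ℝ) (lam : Ω → Λ)
      (x : Ω → Ξ) (T : Ξ → ℕ) (z : Ξ → σ → ℝ) (A B : Λ → σ → ℝ) (zx : Ξ → Z) (zl : Λ → Z)
      (Yb : Ξ → Fin d → ℕ) (Ng : Z → Fin d → ℕ) (Φ : Z → σ → MvPolynomial (Fin d) ℝ)
      (M N : ℕ) (μ e₁ h : ℝ) (r : V → ℝ) (X : V → Ξ) (c : V → W) (E : V → Prop),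
      1 ≤ C₀ → 1 ≤ M → CLeaf k₀ C₀ M p lam x T z A B zx zl Yb Ng Φ →
      MxC N μ p lam x (fun ξ => ∑ i, Real.log (Ng (zx ξ) i)) Yb → 0 ≤ μ →
      Real.log M - CH p (fun ω => T (x ω)) lam ≤ e₁ → 0 ≤ e₁ → 0 < h →
      IsLaw r → (∀ ξ, law r X ξ = law p x ξ) →
      (∑ v, (open Classical in
        if E v ∧ ∃ (F : MvPolynomial σ ℝ) (u : Fin d → ℝ), F ≠ 0 ∧ F.totalDegree ≤ D ∧
          u ∈ ucube d ∧ ∀ v', 0 < r v' → E v' → zx (X v') = zx (X v) → c v' = c v →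
            Real.exp h * Psi F (C₀ / M) (z (X v')) < Psi F (C₀ / M) (cpt (Φ (zx (X v))) u)
        then r v else 0)) ≤
        (2 * D * CH r (fun v => (open Classical in if E v then some (c v) else none))
          (fun v => zx (X v)) + C * ((N + 1) * (e₁ + 1) + μ)) / h := by
  classical
  obtain ⟨C, hC, H⟩ := lrp σ d D k₀
  refine ⟨C, hC, ?_⟩
  intro C₀ Ω Λ Ξ Z V W _ _ p lam x T z A B zx zl Yb Ng Φ M N μ e₁ h r X c E hC₀ hM hL hmx hμ he₁
    he₁0 hh hr hrX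
  refine le_trans ?_ (H C₀ Ω Λ Ξ Z V (Option W) p lam x T z A B zx zl Yb Ng Φ M N μ e₁ h r X
    (fun v => if E v then some (c v) else none) hC₀ hM hL hmx hμ he₁ he₁0 hh hr hrX)
  refine Finset.sum_le_sum fun v _ => ?_
  by_cases hb : E v ∧ ∃ (F : MvPolynomial σ ℝ) (u : Fin d → ℝ), F ≠ 0 ∧ F.totalDegree ≤ D ∧
      u ∈ ucube d ∧ ∀ v', 0 < r v' → E v' → zx (X v') = zx (X v) → c v' = c v →
        Real.exp h * Psi F (C₀ / M) (z (X v')) < Psi F (C₀ / M) (cpt (Φ (zx (X v))) u)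
  · rw [if_pos hb]
    obtain ⟨hE, F, u, h1, h2, h3, h4⟩ := hb
    rw [if_pos]
    refine ⟨F, u, h1, h2, h3, fun v' hv' hz hc => ?_⟩
    rw [if_pos hE] at hc
    by_cases hE' : E v'
    · rw [if_pos hE', Option.some_inj] at hc
      exact h4 v' hv' hE' hz hc
    · rw [if_neg hE'] at hc
      exact absurd hc (by simp)
  · rw [if_neg hb]
    exact ite_nonneg (hr.nonneg v) le_rfl

end Pool.CLO37
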