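import Pool.Agent.H37.CLO.Cpl
import Pool.Agent.H37.CLO.Lrp

/-!
# The closing lemma, abstract form

`clo_abs`: a leaf system with charts at the fine window, and a code `κ` of the point whose entropy
given the leaf of another sample on the same long line is small, on an event of pairs. Then the
equation of the leaf is a relation which is common to the point and to the long line.
-/

set_option autoImplicit false

namespace Pool.CLO37

open Finset Real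
open Pool.Agent.H49.Ent Pool.Agent.H32.Dense Pool.STK Pool.KAF Pool.KAL Pool.KS3 Pool.M3F
open Pool.KJA Pool.KA Pool.K2S

/-! ### Maxima over samples -/

section mx

variable {Ω : Type} [Fintype Ω]

open Classical in
/-- The maximum of `f` over the samples with the property `P` (and `0`). -/
noncomputable def mx (P : Ω → Prop) (f : Ω → ℝ) : ℝ := ⨆ ω, if P ω then f ω else 0

theorem le_mx {P : Ω → Prop} {f : Ω → ℝ} {ω : Ω} (h : P ω) : f ω ≤ mx P f := by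
  classical
  unfold mx
  refine le_trans ?_ (le_ciSup (Finite.bddAbove_range fun ω => if P ω then f ω else 0) ω)
  rw [if_pos h]

omit [Fintype Ω] in
theorem mx_le [Nonempty Ω] {P : Ω → Prop} {f : Ω → ℝ} {b : ℝ} (hb : 0 ≤ b)
    (h : ∀ ω, P ω → f ω ≤ b) : mx P f ≤ b := by
  classical
  unfold mx
  refine ciSup_le fun ω => ?_
  split_ifs with h1
  · exact h ω h1
  · exact hb

omit [Fintype Ω] in
theorem mx_nonneg {P : Ω → Prop} {f : Ω → ℝ} (hf : ∀ ω, 0 ≤ f ω) : 0 ≤ mx P f := by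
  classical
  unfold mx
  refine Real.iSup_nonneg fun ω => ?_
  exact ite_nonneg (hf ω) le_rfl

end mx

variable {σ : Type} [Fintype σ] {Mb : ℕ}

/-- The polynomial with the coefficients `v`. -/
noncomputable def pol (mn : Fin Mb → MvPolynomial σ ℝ) (v : Fin Mb → ℝ) : MvPolynomial σ ℝ :=
  ∑ i, v i • mn i

omit [Fintype σ] in
theorem pol_add (mn : Fin Mb → MvPolynomial σ ℝ) (v w : Fin Mb → ℝ) :
    pol mn (v + w) = pol mn v + pol mn w := by
  unfold pol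
  rw [← Finset.sum_add_distrib]
  exact Finset.sum_congr rfl fun i _ => by rw [Pi.add_apply, add_smul]

omit [Fintype σ] in
theorem pol_smul (mn : Fin Mb → MvPolynomial σ ℝ) (a : ℝ) (v : Fin Mb → ℝ) :
    pol mn (a • v) = MvPolynomial.C a * pol mn v := by
  unfold pol
  rw [Finset.mul_sum]
  exact Finset.sum_congr rfl fun i _ => by
    rw [Pi.smul_apply, smul_assoc, MvPolynomial.smul_eq_C_mul]

omit [Fintype σ] in
theorem pol_deg {mn : Fin Mb → MvPolynomial σ ℝ} {D : ℕ} (h : ∀ i, (mn i).totalDegree ≤ D)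
    (v : Fin Mb → ℝ) : (pol mn v).totalDegree ≤ D := by
  unfold pol
  refine MvPolynomial.totalDegree_finsetSum_le fun i _ => ?_
  exact (MvPolynomial.totalDegree_smul_le _ _).trans (h i)

omit [Fintype σ] in
theorem Psi_C_mul (a : ℝ) (P : MvPolynomial σ ℝ) (h : ℝ) (x : σ → ℝ) :
    Psi (MvPolynomial.C a * P) h x = |a| * Psi P h x := by
  unfold Psi shf
  rw [map_mul, MvPolynomial.algHom_C, MvPolynomial.algebraMap_eq]
  exact coefSum_C_mul _ _

omit [Fintype σ] in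
theorem nrm_psi (mn : Fin Mb → MvPolynomial σ ℝ) (h : ℝ) (x : σ → ℝ) :
    Nrm (fun v => Psi (pol mn v) h x) where
  smul a v := by
    rw [pol_smul, Psi_C_mul]
  add v w := by
    rw [pol_add]
    exact Psi_add_le _ _ _ _

theorem nrm_mx {Ω : Type} [Fintype Ω] [Nonempty Ω] (P : Ω → Prop) (f : Ω → (Fin Mb → ℝ) → ℝ)
    (hf : ∀ ω, Nrm (f ω)) : Nrm (fun v => mx P fun ω => f ω v) where
  smul a v := by
    classical
    unfold mx
    rw [Real.mul_iSup_of_nonneg (abs_nonneg a)]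
    congr 1
    funext ω
    split_ifs
    · exact (hf ω).smul a v
    · rw [mul_zero]
  add v w := by
    refine mx_le (add_nonneg (mx_nonneg fun ω => (hf ω).nonneg v)
      (mx_nonneg fun ω => (hf ω).nonneg w)) fun ω hω => ?_
    exact ((hf ω).add v w).trans (add_le_add (le_mx (f := fun ω => f ω v) hω)
      (le_mx (f := fun ω => f ω w) hω))

theorem Nrm.comp_add {ν ν' : (Fin Mb → ℝ) → ℝ} (h : Nrm ν) (h' : Nrm ν') {b : ℝ} (hb : 0 ≤ b)
    (T : Fin Mb → Fin Mb → ℝ) :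
    Nrm (fun v => ν (∑ k, v k • T k) + b * ν' (∑ k, v k • T k)) where
  smul a v := by
    have e : ∑ k, (a • v) k • T k = a • ∑ k, v k • T k := by
      rw [Finset.smul_sum]
      exact Finset.sum_congr rfl fun k _ => by rw [Pi.smul_apply, smul_assoc]
    rw [e, h.smul, h'.smul]
    ring
  add v w := by
    have e : ∑ k, (v + w) k • T k = ∑ k, v k • T k + ∑ k, w k • T k := by
      rw [← Finset.sum_add_distrib]
      exact Finset.sum_congr rfl fun k _ => by rw [Pi.add_apply, add_smul]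
    rw [e]
    have h1 := h.add (∑ k, v k • T k) (∑ k, w k • T k)
    have h2 := mul_le_mul_of_nonneg_left (h'.add (∑ k, v k • T k) (∑ k, w k • T k)) hb
    linarith

/-! ### The theorem -/

section main

variable {d : ℕ} {Ω Λ Λ₀ Ξ Z Z₀ Γ : Type} [Fintype Ω]

/-- The maximal size of the polynomial over the samples with the code `γ`. -/
noncomputable def Nk (p : Ω → ℝ) (x : Ω → Ξ) (z : Ξ → σ → ℝ) (κ : Ξ → Γ) (h₀ : ℝ)
    (mn : Fin Mb → MvPolynomial σ ℝ) (γ : Γ) (v : Fin Mb → ℝ) : ℝ :=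
  mx (fun ω => 0 < p ω ∧ κ (x ω) = γ) fun ω => Psi (pol mn v) h₀ (z (x ω))

/-- **The hypotheses on the code** `κ`, for the norms `Nm` at the long window. -/
structure CodeOK (p : Ω → ℝ) (lam₀ : Ω → Λ₀) (x : Ω → Ξ) (z : Ξ → σ → ℝ) (zx : Ξ → Z)
    (Φ : Z → σ → MvPolynomial (Fin d) ℝ) (h₀ : ℝ) (κ : Ξ → Γ) (ζ : Ξ → Z₀) (ζl : Λ₀ → Z₀)
    (Nm : Z₀ → (Fin Mb → ℝ) → ℝ) (mn : Fin Mb → MvPolynomial σ ℝ) (D : ℕ) (E : Ω × Ω → Prop)
    (Gd : Ω → Prop) (Cf Cu fl H₂ δ : ℝ) : Prop where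
  cls : ∀ ω, 0 < p ω → ζ (x ω) = ζl (lam₀ ω)
  fin : ∀ ω ω', 0 < p ω → 0 < p ω' → κ (x ω') = κ (x ω) → ζ (x ω') = ζ (x ω)
  nrm : ∀ ω, 0 < p ω → Nrm (Nm (ζ (x ω)))
  pos : ∀ ω, 0 < p ω → ∀ v, δ * ‖v‖ ≤ Nm (ζ (x ω)) v
  deg : ∀ i, (mn i).totalDegree ≤ D
  inj : ∀ v, v ≠ 0 → pol mn v ≠ 0
  good : ∀ ω₁ ω₂, 0 < p ω₁ → 0 < p ω₂ → lam₀ ω₁ = lam₀ ω₂ → E (ω₁, ω₂) → Gd ω₁ ∧ Gd ω₂
  near : ∀ ω ω', 0 < p ω → Gd ω → 0 < p ω' → κ (x ω') = κ (x ω) → ∀ v, ∃ u ∈ ucube d,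
    Psi (pol mn v) h₀ (z (x ω')) ≤
      Cf * (Psi (pol mn v) h₀ (cpt (Φ (zx (x ω))) u) + fl * Nm (ζ (x ω)) v)
  upp : ∀ ω, 0 < p ω → ∀ v, Psi (pol mn v) h₀ (z (x ω)) ≤ Cu * Nm (ζ (x ω)) v
  eqn : ∀ ω, 0 < p ω → Gd ω → ∃ v, v ≠ 0 ∧ ∀ u ∈ ucube d,
    Psi (pol mn v) h₀ (cpt (Φ (zx (x ω))) u) ≤ fl * Nm (ζ (x ω)) v
  line : ∀ ω₁ ω₂, 0 < p ω₁ → 0 < p ω₂ → lam₀ ω₁ = lam₀ ω₂ → E (ω₁, ω₂) → ∀ v,
    Psi (pol mn v) h₀ (z (x ω₁)) ≤ H₂ * Nk p x z κ h₀ mn (κ (x ω₂)) v ∧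
    Psi (pol mn v) h₀ (z (x ω₂)) ≤ H₂ * Nk p x z κ h₀ mn (κ (x ω₁)) v

/-- The code of the second sample, on the event. -/
noncomputable def cod (x : Ω → Ξ) (κ : Ξ → Γ) (E : Ω × Ω → Prop) (f : Ω × Ω → Ω) (v : Ω × Ω) :
    Option Γ := (open Classical in if E v then some (κ (x (f v))) else none)

end main

end Pool.CLO37
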