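import Pool.Agent.H86.IE.Tim
import Pool.Agent.H33.KAL.RMG

/-!
# Comparison of jet sizes
-/

set_option autoImplicit false

namespace Pool.CLO37

open Finset Real
open Pool.KAL Pool.M3F Pool.KS3

section

variable {σ : Type} [Fintype σ]

/-- The jet sizes at neighbouring points. -/
theorem psi_move (σ : Type) [Fintype σ] (D : ℕ) : ∃ K : ℝ, 1 ≤ K ∧
    ∀ (F : MvPolynomial σ ℝ) (h s s₀ : ℝ) (z z' : σ → ℝ), F.totalDegree ≤ D → 0 ≤ h → h ≤ s₀ →
      0 < s → s ≤ s₀ → (∀ i, |z' i - z i| ≤ s) →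
      Psi F h z' ≤ Psi F h z + K * (s / s₀) * Psi F s₀ z' := by
  obtain ⟨K₁, hK₁, H₁⟩ := exists_coefSum_le σ D
  obtain ⟨K₂, hK₂, H₂⟩ := Pool.IEN.sp_var D
  have hp2 : (1 : ℝ) ≤ 2 ^ D := one_le_pow₀ one_le_two
  refine ⟨K₁ * (K₂ * 2 ^ D), one_le_mul_of_one_le_of_one_le hK₁
    (one_le_mul_of_one_le_of_one_le hK₂ hp2), ?_⟩
  intro F h s s₀ z z' hF hh hhs hs hss hz
  have hs₀ : 0 < s₀ := hs.trans_le hss
  have hΨ : 0 ≤ Psi F s₀ z' := Psi_nonneg _ _ _
  have h1 : coefSum (shf F h z' - shf F h z) ≤ K₁ * (K₂ * (s / s₀) * (2 ^ D * Psi F s₀ z')) := by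
    refine H₁ _ _ ((MvPolynomial.totalDegree_sub _ _).trans
      (max_le ((totalDegree_shf_le F h z').trans hF) ((totalDegree_shf_le F h z).trans hF))) ?_
    intro u hu
    rw [map_sub, eval_shf, eval_shf]
    obtain ⟨y, hy⟩ : ∃ y : σ → ℝ, y = fun i => z' i + h * u i := ⟨_, rfl⟩
    obtain ⟨B, hB⟩ : ∃ B : σ → ℝ, B = fun i => (s₀ / s) * (z i - z' i) := ⟨_, rfl⟩
    obtain ⟨q, hqd, hq⟩ := exists_line F y B
    have hBs : ∀ i, |B i| ≤ s₀ := by
      intro i
      rw [hB]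
      dsimp only
      rw [abs_mul, abs_of_pos (by positivity : 0 < s₀ / s), abs_sub_comm]
      calc s₀ / s * |z' i - z i| ≤ s₀ / s * s :=
            mul_le_mul_of_nonneg_left (hz i) (by positivity)
        _ = s₀ := by field_simp
    have hyz : ∀ i, |y i - z' i| ≤ s₀ := by
      intro i
      rw [hy]
      dsimp only
      rw [add_sub_cancel_left, abs_mul, abs_of_nonneg hh]
      calc h * |u i| ≤ h * 1 := mul_le_mul_of_nonneg_left (hu i) hh
        _ ≤ s₀ := by linarith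
    have hsp : Pool.IEN.sp q ≤ 2 ^ D * Psi F s₀ z' := by
      refine Pool.IEN.sp_le q (by positivity) fun t ht => ?_
      rw [← hq t]
      have h2 : |MvPolynomial.eval (fun i => y i + t * B i) F| ≤ Psi F s₀ y := by
        refine abs_eval_le_Psi_of_near F s₀ hs₀.le y _ fun i => ?_
        rw [add_sub_cancel_left, abs_mul, abs_of_nonneg ht.1]
        calc t * |B i| ≤ 1 * s₀ := mul_le_mul ht.2 (hBs i) (abs_nonneg _) zero_le_one
          _ = s₀ := one_mul _
      have h3 : Psi F s₀ y ≤ 2 ^ D * Psi F s₀ z' :=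
        (Psi_le_of_near F s₀ hs₀.le z' y hyz).trans
          (mul_le_mul_of_nonneg_right (pow_le_pow_right₀ one_le_two hF) hΨ)
      exact h2.trans h3
    have h0 : s / s₀ ≤ 1 := by
      rw [div_le_one hs₀]
      exact hss
    have h00 : 0 ≤ s / s₀ := by positivity
    have h2 := H₂ q (hqd.trans hF) 0 ⟨le_rfl, zero_le_one⟩ (s / s₀) ⟨h00, h0⟩
    rw [← hq, ← hq, sub_zero, abs_of_nonneg h00] at h2
    have e1 : (fun i => y i + s / s₀ * B i) = fun i => z i + h * u i := by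
      funext i
      rw [hy, hB]
      field_simp
      ring
    have e2 : (fun i => y i + 0 * B i) = fun i => z' i + h * u i := by
      funext i
      rw [hy]
      ring
    rw [e1, e2, abs_sub_comm] at h2
    refine h2.trans ?_
    exact mul_le_mul_of_nonneg_left hsp (mul_nonneg (by linarith) h00)
  have h2 : Psi F h z' ≤ Psi F h z + coefSum (shf F h z' - shf F h z) := by
    unfold Psi
    have e1 : shf F h z' = shf F h z + (shf F h z' - shf F h z) := by ring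
    conv_lhs => rw [e1]
    exact coefSum_add_le _ _
  refine h2.trans ?_
  have e1 : K₁ * (K₂ * (s / s₀) * (2 ^ D * Psi F s₀ z')) =
      K₁ * (K₂ * 2 ^ D) * (s / s₀) * Psi F s₀ z' := by ring
  rw [e1] at h1
  linarith

/-- The jets are controlled at the fine scale. -/
theorem psi_jet (σ : Type) [Fintype σ] (D : ℕ) : ∃ K : ℝ, 1 ≤ K ∧
    ∀ (F : MvPolynomial σ ℝ) (h s : ℝ) (z : σ → ℝ) (α : σ →₀ ℕ), F.totalDegree ≤ D → 0 ≤ h →
      h ≤ s → Psi (jet F s α) h z ≤ K * Psi F s z := by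
  obtain ⟨K₁, hK₁, H₁⟩ := exists_Psi_le_sup σ D
  have hp2 : (1 : ℝ) ≤ 2 ^ D := one_le_pow₀ one_le_two
  refine ⟨K₁ * 2 ^ D, one_le_mul_of_one_le_of_one_le hK₁ hp2, ?_⟩
  intro F h s z α hF hh hhs
  have hs : 0 ≤ s := hh.trans hhs
  rw [mul_assoc]
  refine H₁ (jet F s α) h z _ ((totalDegree_jet_le F s α).trans hF) hh fun y hy => ?_
  rw [← coeff_shf]
  refine (abs_coeff_le _ _).trans ?_
  have h1 := Psi_le_of_near F s hs z y fun i => (hy i).trans hhs
  exact h1.trans (mul_le_mul_of_nonneg_right (pow_le_pow_right₀ one_le_two hF)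
    (Psi_nonneg _ _ _))

/-- **Interpolation of jet sizes along a line.** -/
theorem psi_line (σ : Type) [Fintype σ] (D : ℕ) : ∃ K : ℝ, 1 ≤ K ∧
    ∀ (F : MvPolynomial σ ℝ) (h : ℝ) (A B : σ → ℝ) (S : Finset ℕ) (s : ℕ) (t : ℕ) (R M : ℝ),
      F.totalDegree ≤ D → 1 ≤ s → s * D + 1 ≤ S.card →
      (∀ e ∈ S, |(t : ℝ) - (e : ℝ)| ≤ R * s) →
      (∀ e ∈ S, Psi F h (fun i => A i + (e : ℝ) * B i) ≤ M) → 0 ≤ R →
      Psi F h (fun i => A i + (t : ℝ) * B i) ≤ K * R ^ D * M := by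
  classical
  obtain ⟨E, hE⟩ : ∃ E : Finset (σ →₀ ℕ), E = expBox σ D := ⟨_, rfl⟩
  refine ⟨E.card * (D + 1) + 1, by
    have : (0 : ℝ) ≤ E.card * (D + 1) := by positivity
    linarith, ?_⟩
  intro F h A B S s t R M hF hs hS ht hM hR
  obtain ⟨q, hqd, hq⟩ := Psi_line_box F D hF h A B
  rw [← hE] at hq
  obtain ⟨S', hS'⟩ : ∃ S' : Finset ℤ, S' = S.image (fun n : ℕ => (n : ℤ)) := ⟨_, rfl⟩
  have hS'c : S'.card = S.card := by
    rw [hS', Finset.card_image_of_injective _ Nat.cast_injective]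
  have hSne : S.Nonempty := by
    rw [← Finset.card_pos]
    omega
  have hs0 : (0 : ℝ) < s := by exact_mod_cast hs
  have hM0 : 0 ≤ M := by
    obtain ⟨e, he⟩ := hSne
    exact (Psi_nonneg _ _ _).trans (hM e he)
  have h1 : ∀ α ∈ E, |(q α).eval (t : ℝ)| ≤ ((D : ℝ) + 1) * R ^ D * M := by
    intro α hα
    have h2 := rmg_thm D s (q α) S' t (R * s) M (hqd α) hs (by
      rw [hS'c]
      exact hS) (by
      intro e he
      rw [hS'] at he
      obtain ⟨n, hn, rfl⟩ := Finset.mem_image.1 he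
      have := ht n hn
      rw [Int.cast_natCast]
      exact this) (by
      intro e he
      rw [hS'] at he
      obtain ⟨n, hn, rfl⟩ := Finset.mem_image.1 he
      rw [Int.cast_natCast]
      refine le_trans ?_ (hM n hn)
      rw [hq]
      exact Finset.single_le_sum (f := fun γ => |(q γ).eval (n : ℝ)|) (fun _ _ => abs_nonneg _) hα)
    have e1 : R * s / s = R := by field_simp
    rw [e1] at h2
    exact h2
  rw [hq]
  calc ∑ α ∈ E, |(q α).eval (t : ℝ)| ≤ ∑ _α ∈ E, ((D : ℝ) + 1) * R ^ D * M :=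
        Finset.sum_le_sum h1
    _ = E.card * (D + 1) * R ^ D * M := by
        rw [Finset.sum_const, nsmul_eq_mul]
        ring
    _ ≤ (E.card * (D + 1) + 1) * R ^ D * M := by
        have : 0 ≤ R ^ D * M := by positivity
        nlinarith

end

end Pool.CLO37
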