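import Pool.Agent.H15.KM7.Pair
import Pool.Agent.H37.CLO.Ps
import Pool.Agent.H37.CLO.CAbs

/-!
# Times of two samples on the same long line
-/

set_option autoImplicit false

namespace Pool.CLO37

open Finset Real
open Pool.Agent.H49.Ent Pool.Agent.H32.Dense Pool.STK Pool.KAF Pool.KAL Pool.KS3 Pool.M3F
open Pool.KJA Pool.KA Pool.K2S Pool.KM7

section

variable {Ω Λ : Type} [Fintype Ω] {p : Ω → ℝ}

theorem cp_eq (p : Ω → ℝ) (g : Ω → Λ) : cp p g = P2 p g := by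
  funext v
  unfold cp P2 glue
  by_cases h : g v.1 = g v.2
  · rw [if_pos h, if_pos h, h]
  · rw [if_neg h, if_neg h]

theorem cp_CH (hp : IsLaw p) (g : Ω → Λ) {S : Type} (X : Ω → S) :
    CH (cp p g) (fun e => X e.2) (fun e => e.1) = CH p X g := by
  rw [cp_eq]
  exact P2_CH hp g X

theorem cp_swap_psh (p : Ω → ℝ) (g : Ω → Λ) : Psh (cp p g) Prod.swap (cp p g) := by
  classical
  intro e
  unfold law
  rw [Finset.sum_eq_single e.swap]
  · rw [if_pos (Prod.swap_swap e), cp_eq]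
    exact P2_swap p g e
  · intro b _ hb
    rw [if_neg]
    intro h
    exact hb (by rw [← h, Prod.swap_swap])
  · intro h
    exact absurd (Finset.mem_univ _) h

theorem cp_CH' (hp : IsLaw p) (g : Ω → Λ) {S : Type} (X : Ω → S) :
    CH (cp p g) (fun e => X e.1) (fun e => e.2) = CH p X g := by
  rw [← cp_CH hp g X]
  exact Psh.CH_eq (cp_swap_psh p g) (fun e => X e.2) (fun e => e.1)

end

open Classical in
lemma sum_ite_eq {V : Type} [Fintype V] {r : V → ℝ} (h1 : ∑ v, r v = 1) (Bd : V → Prop)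
    (a b : ℝ) : ∑ v, r v * (if Bd v then a else b) = b - Pe r Bd * (b - a) := by
  rw [Pe_eq, Finset.sum_mul]
  have e2 : ∀ v, r v * (if Bd v then a else b) =
      r v * b - (if Bd v then r v else 0) * (b - a) := by
    intro v
    split_ifs
    · ring
    · ring
  rw [Finset.sum_congr rfl fun v _ => e2 v, Finset.sum_sub_distrib, ← Finset.sum_mul, h1, one_mul]

/-- **A time which is almost full is rarely in a small set.** -/
theorem few_ev {V G : Type} [Fintype V] {r : V → ℝ} (hr : IsLaw r) (T : V → ℕ) {M n : ℕ}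
    (c : V → G) (Bd : V → Prop) (S : G → Finset ℕ)
    (hT : ∀ v, 0 < r v → T v < M)
    (hS : ∀ v, 0 < r v → Bd v → T v ∈ S (c v) ∧ (S (c v)).card ≤ n) {e₀ : ℝ}
    (he : Real.log M - CH r T c ≤ e₀) :
    Pe r Bd * (Real.log M - Real.log n) ≤ e₀ + Real.log 2 := by
  classical
  have hr0 := hr.nonneg
  obtain ⟨b, hb⟩ : ∃ b : V → Bool, b = fun v => decide (Bd v) := ⟨_, rfl⟩
  have h1 : CH r T c ≤ CH r b c + CH r T (fun v => (b v, c v)) := CH_le_add hr0 T b c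
  have h2 : CH r b c ≤ Real.log 2 := by
    have h3 := CH_le_card hr0 hr.sum_one b c (fun _ => (Finset.univ : Finset Bool))
      (fun _ _ => Finset.mem_univ _)
    rw [Ex_const hr.sum_one] at h3
    simpa using h3
  have h3 := CH_le_card hr0 hr.sum_one T (fun v => (b v, c v))
    (fun g => if g.1 = true then S g.2 else Finset.range M) (by
      intro v hv
      dsimp only
      by_cases h : Bd v
      · rw [if_pos (by rw [hb]; exact decide_eq_true h)]
        exact (hS v hv h).1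
      · rw [if_neg (by
          rw [hb]
          simp only [decide_eq_true_eq]
          exact h)]
        exact Finset.mem_range.2 (hT v hv))
  have h4 : Ex r (fun v => Real.log (((if (b v, c v).1 = true then S (b v, c v).2
      else Finset.range M).card : ℕ) : ℝ)) ≤
      Real.log M - Pe r Bd * (Real.log M - Real.log n) := by
    have e1 : Real.log M - Pe r Bd * (Real.log M - Real.log n) =
        ∑ v, r v * (if Bd v then Real.log n else Real.log M) :=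
      (sum_ite_eq hr.sum_one Bd _ _).symm
    rw [e1]
    unfold Ex
    refine Finset.sum_le_sum fun v _ => ?_
    rcases (hr0 v).eq_or_lt with h0 | h0
    · rw [← h0, zero_mul, zero_mul]
    refine mul_le_mul_of_nonneg_left ?_ (hr0 v)
    dsimp only
    by_cases h : Bd v
    · rw [if_pos (show b v = true by rw [hb]; exact decide_eq_true h), if_pos h]
      obtain ⟨h5, h6⟩ := hS v h0 h
      have h7 : 0 < (S (c v)).card := Finset.card_pos.2 ⟨_, h5⟩
      exact Real.log_le_log (by exact_mod_cast h7) (by exact_mod_cast h6)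
    · rw [if_neg (show ¬ b v = true by
        rw [hb]
        simp only [decide_eq_true_eq]
        exact h), if_neg h, Finset.card_range]
  linarith

section

variable {Ω Λ₀ Ξ Z Γ : Type} [Fintype Ω] {p : Ω → ℝ} {lam₀ : Ω → Λ₀} {x : Ω → Ξ} {T₀ : Ξ → ℕ}
  {zx : Ξ → Z} {κ : Ξ → Γ} {E : Ω × Ω → Prop}

open Classical in
/-- The times of the samples of a line with a given code. -/
noncomputable def tms (p : Ω → ℝ) (lam₀ : Ω → Λ₀) (x : Ω → Ξ) (T₀ : Ξ → ℕ) (κ : Ξ → Γ) (l : Λ₀)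
    (γ : Γ) : Finset ℕ :=
  (Finset.univ.filter fun ω => 0 < p ω ∧ lam₀ ω = l ∧ κ (x ω) = γ).image fun ω => T₀ (x ω)

theorem mem_tms {l : Λ₀} {γ : Γ} {n : ℕ} : n ∈ tms p lam₀ x T₀ κ l γ ↔
    ∃ ω, 0 < p ω ∧ lam₀ ω = l ∧ κ (x ω) = γ ∧ T₀ (x ω) = n := by
  classical
  unfold tms
  constructor
  · intro h
    obtain ⟨ω, hω, rfl⟩ := Finset.mem_image.1 h
    obtain ⟨h1, h2, h3⟩ := (Finset.mem_filter.1 hω).2
    exact ⟨ω, h1, h2, h3, rfl⟩
  · rintro ⟨ω, h1, h2, h3, rfl⟩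
    exact Finset.mem_image.2 ⟨ω, Finset.mem_filter.2 ⟨Finset.mem_univ _, h1, h2, h3⟩, rfl⟩

/-- **The code of the second sample is taken at many times**, if it is almost a function of the
leaf of the first one. -/
theorem line_few (hp : IsLaw p) {M n : ℕ}
    (hT : ∀ ω, 0 < p ω → T₀ (x ω) < M) {e₀ θ : ℝ}
    (he : Real.log M - CH p (fun ω => T₀ (x ω)) lam₀ ≤ e₀)
    (hθ : CH (cp p lam₀) (cod x κ E Prod.snd) (fun v => zx (x v.1)) ≤ θ) :
    Pe (cp p lam₀) (fun v => E v ∧ (tms p lam₀ x T₀ κ (lam₀ v.2) (κ (x v.2))).card ≤ n) *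
      (Real.log M - Real.log n) ≤ θ + e₀ := by
  classical
  have hp0 := hp.nonneg
  have hr : IsLaw (cp p lam₀) := cp_isLaw hp
  have hr0 := hr.nonneg
  obtain ⟨Bd, hBd⟩ : ∃ Bd : Ω × Ω → Prop, Bd = fun v => E v ∧
    (tms p lam₀ x T₀ κ (lam₀ v.2) (κ (x v.2))).card ≤ n := ⟨_, rfl⟩
  have hBe : (fun v : Ω × Ω => E v ∧ (tms p lam₀ x T₀ κ (lam₀ v.2) (κ (x v.2))).card ≤ n) = Bd :=
    hBd.symm
  rw [hBe]
  obtain ⟨Zz, hZz⟩ : ∃ Zz : Ω × Ω → Option Γ, Zz = fun v => if Bd v then some (κ (x v.2))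
    else none := ⟨_, rfl⟩
  have h0 := cp_CH hp lam₀ (fun ω => T₀ (x ω))
  have h1 := CH_le_add hr0 (fun v : Ω × Ω => T₀ (x v.2)) Zz (fun v => v.1)
  have h2 : CH (cp p lam₀) Zz (fun v => v.1) ≤ θ := by
    have h3 : CH (cp p lam₀) Zz (fun v => v.1) ≤
        CH (cp p lam₀) (cod x κ E Prod.snd) (fun v => v.1) := by
      refine CH_mono_left hr0 fun v v' hv hv' hh => ?_
      obtain ⟨e1, e2⟩ := Prod.ext_iff.1 hh
      have e2' : v.1 = v'.1 := e2
      have e3 : lam₀ v.2 = lam₀ v'.2 := by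
        rw [← (cp_pos hp0 hv).2.2, ← (cp_pos hp0 hv').2.2, e2']
      have e1' : cod x κ E Prod.snd v = cod x κ E Prod.snd v' := e1
      unfold cod at e1'
      rw [hZz]
      dsimp only
      by_cases hE : E v
      · rw [if_pos hE] at e1'
        by_cases hE' : E v'
        · rw [if_pos hE', Option.some_inj] at e1'
          have e4 : Bd v ↔ Bd v' := by
            rw [hBd]
            dsimp only
            rw [e3, e1']
            exact ⟨fun h => ⟨hE', h.2⟩, fun h => ⟨hE, h.2⟩⟩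
          by_cases hb : Bd v
          · rw [if_pos hb, if_pos (e4.1 hb), e1']
          · rw [if_neg hb, if_neg fun h => hb (e4.2 h)]
        · rw [if_neg hE'] at e1'
          exact absurd e1' (Option.some_ne_none _)
      · rw [if_neg hE] at e1'
        by_cases hE' : E v'
        · rw [if_pos hE'] at e1'
          exact absurd e1'.symm (Option.some_ne_none _)
        · have hb : ¬ Bd v := by
            rw [hBd]
            exact fun h => hE h.1
          have hb' : ¬ Bd v' := by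
            rw [hBd]
            exact fun h => hE' h.1
          rw [if_neg hb, if_neg hb']
    refine h3.trans (le_trans (CH_mono_cond hr0 fun v v' _ _ e => ?_) hθ)
    have e' : v.1 = v'.1 := e
    rw [e']
  have h3 := CH_le_card hr0 hr.sum_one (fun v : Ω × Ω => T₀ (x v.2)) (fun v => (Zz v, v.1))
    (fun g => g.1.elim (Finset.range M) fun γ => tms p lam₀ x T₀ κ (lam₀ g.2) γ) (by
      intro v hv
      obtain ⟨q1, q2, q3⟩ := cp_pos hp0 hv
      dsimp only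
      rw [hZz]
      dsimp only
      by_cases h : Bd v
      · rw [if_pos h]
        change _ ∈ tms p lam₀ x T₀ κ (lam₀ v.1) (κ (x v.2))
        rw [mem_tms]
        exact ⟨v.2, q2, q3.symm, rfl, rfl⟩
      · rw [if_neg h]
        exact Finset.mem_range.2 (hT _ q2))
  have h4 : Ex (cp p lam₀) (fun v => Real.log ((((Zz v, v.1).1.elim (Finset.range M)
      fun γ => tms p lam₀ x T₀ κ (lam₀ (Zz v, v.1).2) γ).card : ℕ) : ℝ)) ≤
      Real.log M - Pe (cp p lam₀) Bd * (Real.log M - Real.log n) := by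
    have e1 : Real.log M - Pe (cp p lam₀) Bd * (Real.log M - Real.log n) =
        ∑ v, cp p lam₀ v * (if Bd v then Real.log n else Real.log M) :=
      (sum_ite_eq hr.sum_one Bd _ _).symm
    rw [e1]
    unfold Ex
    refine Finset.sum_le_sum fun v _ => ?_
    rcases (hr0 v).eq_or_lt with h00 | h00
    · rw [← h00, zero_mul, zero_mul]
    obtain ⟨q1, q2, q3⟩ := cp_pos hp0 h00
    refine mul_le_mul_of_nonneg_left ?_ (hr0 v)
    by_cases h : Bd v
    · rw [if_pos h]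
      have e3 : Zz v = some (κ (x v.2)) := by
        rw [hZz]
        dsimp only
        rw [if_pos h]
      dsimp only
      rw [e3]
      change Real.log ((tms p lam₀ x T₀ κ (lam₀ v.1) (κ (x v.2))).card : ℝ) ≤ _
      have h5 : T₀ (x v.2) ∈ tms p lam₀ x T₀ κ (lam₀ v.1) (κ (x v.2)) := by
        rw [mem_tms]
        exact ⟨v.2, q2, q3.symm, rfl, rfl⟩
      have h6 : (tms p lam₀ x T₀ κ (lam₀ v.1) (κ (x v.2))).card ≤ n := by
        rw [hBd] at h
        rw [q3]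
        exact h.2
      have h7 : 0 < (tms p lam₀ x T₀ κ (lam₀ v.1) (κ (x v.2))).card :=
        Finset.card_pos.2 ⟨_, h5⟩
      exact Real.log_le_log (by exact_mod_cast h7) (by exact_mod_cast h6)
    · rw [if_neg h]
      have e3 : Zz v = none := by
        rw [hZz]
        dsimp only
        rw [if_neg h]
      dsimp only
      rw [e3]
      change Real.log ((Finset.range M).card : ℝ) ≤ _
      rw [Finset.card_range]
  linarith

/-- The number of the times. -/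
lemma log_few {M : ℕ} {R : ℝ} (hR : 1 ≤ R) (hRM : R ≤ M) (D : ℕ) :
    Real.log R - Real.log (2 * (D + 1)) ≤
      Real.log M - Real.log ((⌈(M : ℝ) / R⌉₊ * (D + 1) : ℕ) : ℝ) := by
  have hR0 : 0 < R := by linarith
  have hM0 : (0 : ℝ) < M := by linarith
  have h1 : 1 ≤ (M : ℝ) / R := by
    rw [le_div_iff₀ hR0, one_mul]
    exact hRM
  have h2 : ((⌈(M : ℝ) / R⌉₊ : ℕ) : ℝ) ≤ 2 * (M / R) := by
    have := Nat.ceil_lt_add_one (by positivity : (0 : ℝ) ≤ (M : ℝ) / R)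
    linarith
  have h3 : (0 : ℝ) < ((⌈(M : ℝ) / R⌉₊ : ℕ) : ℝ) := by
    have : 0 < ⌈(M : ℝ) / R⌉₊ := Nat.ceil_pos.2 (by linarith)
    exact_mod_cast this
  have hD : (0 : ℝ) < (D : ℝ) + 1 := by positivity
  push_cast
  have h4 : Real.log ((⌈(M : ℝ) / R⌉₊ : ℝ) * (D + 1)) ≤ Real.log (2 * (D + 1) * (M / R)) := by
    refine Real.log_le_log (by positivity) ?_
    nlinarith
  rw [Real.log_mul (x := 2 * ((D : ℝ) + 1)) (by positivity) (by positivity),
    Real.log_div hM0.ne' hR0.ne'] at h4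
  linarith

/-- **The code of the second sample is taken on separated points of the line.** -/
theorem line_ok (σ : Type) [Fintype σ] (D : ℕ) : ∃ K : ℝ, 1 ≤ K ∧
    ∀ {Ω Λ₀ Ξ Γ : Type} [Fintype Ω] {p : Ω → ℝ} {lam₀ : Ω → Λ₀} {x : Ω → Ξ} {T₀ : Ξ → ℕ}
      {κ : Ξ → Γ} {z : Ξ → σ → ℝ} {A₀ B₀ : Λ₀ → σ → ℝ} {M : ℕ} {R h₀ : ℝ},
      IsLaw p → 1 ≤ R → 0 < h₀ → 1 ≤ M → (∀ ω, 0 < p ω → T₀ (x ω) < M) →
      (∀ ω, 0 < p ω → ∀ i, |z (x ω) i - (A₀ (lam₀ ω) i + (T₀ (x ω) : ℝ) * B₀ (lam₀ ω) i)| ≤ h₀) →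
      ∀ v : Ω × Ω, 0 < cp p lam₀ v →
        ¬ (tms p lam₀ x T₀ κ (lam₀ v.2) (κ (x v.2))).card ≤ ⌈(M : ℝ) / R⌉₊ * (D + 1) →
        ∀ F : MvPolynomial σ ℝ, F.totalDegree ≤ D → Psi F h₀ (z (x v.1)) ≤
          K * R ^ D * mx (fun ω => 0 < p ω ∧ κ (x ω) = κ (x v.2)) fun ω =>
            Psi F h₀ (z (x ω)) := by
  classical
  obtain ⟨K, hK, H⟩ := psi_line σ D
  have hp2 : (1 : ℝ) ≤ 2 ^ D := one_le_pow₀ one_le_two
  refine ⟨2 ^ D * K * 2 ^ D, one_le_mul_of_one_le_of_one_le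
    (one_le_mul_of_one_le_of_one_le hp2 hK) hp2, ?_⟩
  intro Ω Λ₀ Ξ Γ _ p lam₀ x T₀ κ z A₀ B₀ M R h₀ hp hR hh₀ hM hT hz v hv hcard F hF
  have hp0 := hp.nonneg
  obtain ⟨q1, q2, q3⟩ := cp_pos hp0 hv
  have hR0 : 0 < R := by linarith
  have hM0 : (0 : ℝ) < M := by exact_mod_cast hM
  obtain ⟨s, hs⟩ : ∃ s, s = ⌈(M : ℝ) / R⌉₊ := ⟨_, rfl⟩
  rw [← hs] at hcard
  have hs1 : 1 ≤ s := by
    rw [hs]
    exact Nat.ceil_pos.2 (by positivity)
  have hsR : (M : ℝ) ≤ R * s := by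
    have := Nat.le_ceil ((M : ℝ) / R)
    rw [← hs, div_le_iff₀ hR0] at this
    linarith
  obtain ⟨mm, hmm⟩ : ∃ mm, mm = mx (fun ω => 0 < p ω ∧ κ (x ω) = κ (x v.2)) fun ω =>
    Psi F h₀ (z (x ω)) := ⟨_, rfl⟩
  rw [← hmm]
  have hmm0 : 0 ≤ mm := by
    rw [hmm]
    exact mx_nonneg fun ω => Psi_nonneg _ _ _
  have h2D : (2 : ℝ) ^ F.totalDegree ≤ 2 ^ D := pow_le_pow_right₀ one_le_two hF
  have h1 := H F h₀ (A₀ (lam₀ v.2)) (B₀ (lam₀ v.2))
    (tms p lam₀ x T₀ κ (lam₀ v.2) (κ (x v.2))) s (T₀ (x v.1)) R (2 ^ D * mm) hF hs1 (by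
      have h2 : s * D ≤ s * (D + 1) := Nat.mul_le_mul_left s (Nat.le_succ D)
      omega) (by
      intro e he
      obtain ⟨ω, w1, w2, w3, w4⟩ := mem_tms.1 he
      have h2 := hT ω w1
      rw [w4] at h2
      have h3 := hT v.1 q1
      have h4 : (e : ℝ) < M := by exact_mod_cast h2
      have h5 : (T₀ (x v.1) : ℝ) < M := by exact_mod_cast h3
      have h6 : (0 : ℝ) ≤ e := Nat.cast_nonneg e
      have h7 : (0 : ℝ) ≤ T₀ (x v.1) := Nat.cast_nonneg _
      rw [abs_le]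
      constructor <;> linarith) (by
      intro e he
      obtain ⟨ω, w1, w2, w3, w4⟩ := mem_tms.1 he
      have h2 := hz ω w1
      rw [w2, w4] at h2
      have h3 := Psi_le_of_near F h₀ hh₀.le (z (x ω))
        (fun i => A₀ (lam₀ v.2) i + (e : ℝ) * B₀ (lam₀ v.2) i) (fun i => by
          rw [abs_sub_comm]
          exact h2 i)
      refine h3.trans (mul_le_mul h2D ?_ (Psi_nonneg _ _ _) (by positivity))
      rw [hmm]
      exact le_mx (f := fun ω => Psi F h₀ (z (x ω)))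
        (show 0 < p ω ∧ κ (x ω) = κ (x v.2) from ⟨w1, w3⟩)) hR0.le
  have h2 := hz v.1 q1
  rw [q3] at h2
  have h3 := Psi_le_of_near F h₀ hh₀.le
    (fun i => A₀ (lam₀ v.2) i + (T₀ (x v.1) : ℝ) * B₀ (lam₀ v.2) i) (z (x v.1)) h2
  calc Psi F h₀ (z (x v.1)) ≤ 2 ^ D * (K * R ^ D * (2 ^ D * mm)) :=
        h3.trans (mul_le_mul h2D h1 (Psi_nonneg _ _ _) (by positivity))
    _ = 2 ^ D * K * 2 ^ D * R ^ D * mm := by ring

/-- **A polynomial which is determined by the second sample** is not much smaller at the first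
one. -/
theorem low_pair (σ : Type) [Fintype σ] (D : ℕ) : ∃ K : ℝ, 1 ≤ K ∧
    ∀ {Ω Λ₀ Ξ : Type} [Fintype Ω] {p : Ω → ℝ} {lam₀ : Ω → Λ₀} {x : Ω → Ξ} {T₀ : Ξ → ℕ}
      {z : Ξ → σ → ℝ} {A₀ B₀ : Λ₀ → σ → ℝ} {M : ℕ} {R h₀ s₀ e₀ : ℝ}
      (F : Ξ → MvPolynomial σ ℝ),
      IsLaw p → 1 ≤ R → R ≤ M → 0 < h₀ → h₀ ≤ s₀ → (∀ ω, 0 < p ω → T₀ (x ω) < M) →
      (∀ ω, 0 < p ω → ∀ i, |z (x ω) i - (A₀ (lam₀ ω) i + (T₀ (x ω) : ℝ) * B₀ (lam₀ ω) i)| ≤ h₀) →
      Real.log M - CH p (fun ω => T₀ (x ω)) lam₀ ≤ e₀ →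
      (∀ ξ, (F ξ).totalDegree ≤ D) →
      Pe (cp p lam₀) (fun v => K * R ^ D * Psi (F (x v.2)) s₀ (z (x v.1)) <
        Psi (F (x v.2)) s₀ (z (x v.2))) * (Real.log R - Real.log (2 * (D + 1))) ≤
          e₀ + Real.log 2 := by
  classical
  obtain ⟨K, hK, H⟩ := psi_line σ D
  have hp2 : (1 : ℝ) ≤ 2 ^ D := one_le_pow₀ one_le_two
  refine ⟨2 ^ D * K * 2 ^ D, one_le_mul_of_one_le_of_one_le
    (one_le_mul_of_one_le_of_one_le hp2 hK) hp2, ?_⟩
  intro Ω Λ₀ Ξ _ p lam₀ x T₀ z A₀ B₀ M R h₀ s₀ e₀ F hp hR hRM hh₀ hhs hT hz he hF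
  have hp0 := hp.nonneg
  have hr : IsLaw (cp p lam₀) := cp_isLaw hp
  have hR0 : 0 < R := by linarith
  have hs₀ : 0 < s₀ := hh₀.trans_le hhs
  have hM0 : (0 : ℝ) < M := by linarith
  obtain ⟨s, hs⟩ : ∃ s, s = ⌈(M : ℝ) / R⌉₊ := ⟨_, rfl⟩
  have hs1 : 1 ≤ s := by
    rw [hs]
    exact Nat.ceil_pos.2 (by positivity)
  have hsR : (M : ℝ) ≤ R * s := by
    have := Nat.le_ceil ((M : ℝ) / R)
    rw [← hs, div_le_iff₀ hR0] at this
    linarith
  obtain ⟨lp, hlp⟩ : ∃ lp : Ω → ℕ → σ → ℝ, lp = fun ω (n : ℕ) i =>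
    A₀ (lam₀ ω) i + (n : ℝ) * B₀ (lam₀ ω) i := ⟨_, rfl⟩
  obtain ⟨S, hS⟩ : ∃ S : Ω → Finset ℕ, S = fun ω => (Finset.range M).filter fun n =>
    K * R ^ D * Psi (F (x ω)) s₀ (lp ω n) < Psi (F (x ω)) s₀ (lp ω (T₀ (x ω))) := ⟨_, rfl⟩
  have hScard : ∀ ω, 0 < p ω → (S ω).card ≤ s * (D + 1) := by
    intro ω hω
    by_contra hcon
    push Not at hcon
    have hne : (S ω).Nonempty := by
      rw [← Finset.card_pos]
      omega
    -- the maximum over the small set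
    obtain ⟨n₀, hn₀, hmax⟩ := (S ω).exists_max_image (fun n => Psi (F (x ω)) s₀ (lp ω n)) hne
    have h1 := H (F (x ω)) s₀ (A₀ (lam₀ ω)) (B₀ (lam₀ ω)) (S ω) s (T₀ (x ω)) R
      (Psi (F (x ω)) s₀ (lp ω n₀)) (hF _) hs1 (by
        have h2 : s * D ≤ s * (D + 1) := Nat.mul_le_mul_left s (Nat.le_succ D)
        omega) (by
        intro e he'
        rw [hS] at he'
        have h2 := Finset.mem_range.1 (Finset.mem_filter.1 he').1
        have h3 := hT ω hω
        have h4 : (e : ℝ) < M := by exact_mod_cast h2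
        have h5 : (T₀ (x ω) : ℝ) < M := by exact_mod_cast h3
        have h6 : (0 : ℝ) ≤ e := Nat.cast_nonneg e
        have h7 : (0 : ℝ) ≤ T₀ (x ω) := Nat.cast_nonneg _
        rw [abs_le]
        constructor <;> linarith) (by
        intro e he'
        have := hmax e he'
        rw [hlp] at this ⊢
        exact this) hR0.le
    rw [hS] at hn₀
    have h2 := (Finset.mem_filter.1 hn₀).2
    have h3 : Psi (F (x ω)) s₀ (lp ω (T₀ (x ω))) ≤
        K * R ^ D * Psi (F (x ω)) s₀ (lp ω n₀) := by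
      rw [hlp] at h1 ⊢
      exact h1
    linarith
  have h1 := few_ev hr (fun v : Ω × Ω => T₀ (x v.1)) (M := M) (n := s * (D + 1))
    (fun v => v.2) (fun v => 0 < cp p lam₀ v ∧ 2 ^ D * K * 2 ^ D * R ^ D *
      Psi (F (x v.2)) s₀ (z (x v.1)) < Psi (F (x v.2)) s₀ (z (x v.2))) S
    (fun v hv => hT _ (cp_pos hp0 hv).1) (by
      intro v _ hv
      obtain ⟨hv0, hv1⟩ := hv
      obtain ⟨q1, q2, q3⟩ := cp_pos hp0 hv0
      refine ⟨?_, hScard _ q2⟩
      rw [hS]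
      refine Finset.mem_filter.2 ⟨Finset.mem_range.2 (hT _ q1), ?_⟩
      have h2D : (2 : ℝ) ^ (F (x v.2)).totalDegree ≤ 2 ^ D :=
        pow_le_pow_right₀ one_le_two (hF _)
      have h2 : Psi (F (x v.2)) s₀ (lp v.2 (T₀ (x v.1))) ≤
          2 ^ D * Psi (F (x v.2)) s₀ (z (x v.1)) := by
        have h3 := Psi_le_of_near (F (x v.2)) s₀ hs₀.le (z (x v.1)) (lp v.2 (T₀ (x v.1)))
          (fun i => by
            have := hz v.1 q1 i
            rw [q3] at this
            rw [abs_sub_comm, hlp]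
            exact this.trans hhs)
        exact h3.trans (mul_le_mul_of_nonneg_right h2D (Psi_nonneg _ _ _))
      have h3 : Psi (F (x v.2)) s₀ (z (x v.2)) ≤
          2 ^ D * Psi (F (x v.2)) s₀ (lp v.2 (T₀ (x v.2))) := by
        have h4 := Psi_le_of_near (F (x v.2)) s₀ hs₀.le (lp v.2 (T₀ (x v.2))) (z (x v.2))
          (fun i => by
            rw [hlp]
            exact (hz v.2 q2 i).trans hhs)
        exact h4.trans (mul_le_mul_of_nonneg_right h2D (Psi_nonneg _ _ _))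
      have hRD : 0 < R ^ D := by positivity
      have h2D0 : (0 : ℝ) < 2 ^ D := by positivity
      have h4 : 2 ^ D * (K * R ^ D * Psi (F (x v.2)) s₀ (lp v.2 (T₀ (x v.1)))) <
          2 ^ D * Psi (F (x v.2)) s₀ (lp v.2 (T₀ (x v.2))) := by
        refine lt_of_le_of_lt ?_ (hv1.trans_le h3)
        calc 2 ^ D * (K * R ^ D * Psi (F (x v.2)) s₀ (lp v.2 (T₀ (x v.1)))) ≤
              2 ^ D * (K * R ^ D * (2 ^ D * Psi (F (x v.2)) s₀ (z (x v.1)))) := by
              refine mul_le_mul_of_nonneg_left ?_ h2D0.le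
              exact mul_le_mul_of_nonneg_left h2 (by positivity)
          _ = _ := by ring
      exact lt_of_mul_lt_mul_left h4 h2D0.le) (e₀ := e₀) (by
      rw [cp_CH' hp lam₀ (fun ω => T₀ (x ω))]
      exact he)
  have h2 := log_few hR hRM D
  rw [← hs] at h2
  have h3 : Pe (cp p lam₀) (fun v => 2 ^ D * K * 2 ^ D * R ^ D *
      Psi (F (x v.2)) s₀ (z (x v.1)) < Psi (F (x v.2)) s₀ (z (x v.2))) ≤
      Pe (cp p lam₀) (fun v => 0 < cp p lam₀ v ∧ 2 ^ D * K * 2 ^ D * R ^ D *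
      Psi (F (x v.2)) s₀ (z (x v.1)) < Psi (F (x v.2)) s₀ (z (x v.2))) := by
    simp_rw [Pe_eq]
    refine Finset.sum_le_sum fun v _ => ?_
    rcases (hr.nonneg v).eq_or_lt with h0 | h0
    · rw [← h0]
      simp
    · by_cases h : 2 ^ D * K * 2 ^ D * R ^ D *
          Psi (F (x v.2)) s₀ (z (x v.1)) < Psi (F (x v.2)) s₀ (z (x v.2))
      · rw [if_pos h, if_pos ⟨h0, h⟩]
      · rw [if_neg h, if_neg fun h' => h h'.2]
  rcases le_or_gt (Real.log R - Real.log (2 * (D + 1))) 0 with hneg | hpos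
  · have he0 : 0 ≤ e₀ := by
      have h4 : CH p (fun ω => T₀ (x ω)) lam₀ ≤ Real.log M := by
        have h5 := CH_le_card hp0 hp.sum_one (fun ω => T₀ (x ω)) lam₀
          (fun _ => Finset.range M) (fun ω hω => Finset.mem_range.2 (hT ω hω))
        rw [Ex_const hp.sum_one, Finset.card_range] at h5
        exact h5
      linarith
    have h4 := Pe_nonneg hr (fun v => 2 ^ D * K * 2 ^ D * R ^ D *
      Psi (F (x v.2)) s₀ (z (x v.1)) < Psi (F (x v.2)) s₀ (z (x v.2)))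
    have h5 := mul_nonpos_of_nonneg_of_nonpos h4 hneg
    have h6 : 0 < Real.log 2 := Real.log_pos one_lt_two
    linarith
  · refine (mul_le_mul_of_nonneg_right h3 hpos.le).trans (le_trans ?_ h1)
    exact mul_le_mul_of_nonneg_left h2 (Pe_nonneg hr _)

end

end Pool.CLO37
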