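import Pool.Agent.H33.KAL.RMG
import Pool.Agent.H37.M3F.Fil
import Pool.Agent.H55.KS3.SML

/-!
# Counting the leaves which are near the zeros of one polynomial
-/

set_option autoImplicit false

namespace Pool.CLO37

open Finset MvPolynomial
open Pool.KAL Pool.M3F Pool.KS3

section grid

variable {σ : Type} [Fintype σ]

/-- The points of the grid. -/
noncomputable def grp (D : ℕ) (a : σ → Fin (D + 1)) : σ → ℝ := fun i => ((a i : ℕ) : ℝ) / (D + 1)

omit [Fintype σ] in
lemma grp_mem (D : ℕ) (a : σ → Fin (D + 1)) (i : σ) : 0 ≤ grp D a i ∧ grp D a i ≤ 1 := by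
  have hpos : (0 : ℝ) < D + 1 := by positivity
  unfold grp
  refine ⟨by positivity, ?_⟩
  rw [div_le_one hpos]
  have : ((a i : ℕ) : ℝ) < D + 1 := by exact_mod_cast (a i).2
  exact this.le

lemma grid_zero {D : ℕ} {P : MvPolynomial σ ℝ} (hP : P.totalDegree ≤ D)
    (h : ∀ a : σ → Fin (D + 1), eval (grp D a) P = 0) : P = 0 := by
  classical
  have hinj : Function.Injective (fun b : Fin (D + 1) => ((b : ℕ) : ℝ) / (D + 1)) := by
    intro b b' hb
    have hpos : (0 : ℝ) < D + 1 := by positivity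
    have h1 : ((b : ℕ) : ℝ) / (D + 1) = ((b' : ℕ) : ℝ) / (D + 1) := hb
    rw [div_left_inj' hpos.ne'] at h1
    exact Fin.ext (by exact_mod_cast h1)
  refine eq_zero_of_eval_zero_at_prod_finset P
    (fun _ => Finset.image (fun b : Fin (D + 1) => ((b : ℕ) : ℝ) / (D + 1)) Finset.univ) ?_ ?_
  · intro i
    rw [Finset.card_image_of_injective _ hinj, Finset.card_univ, Fintype.card_fin]
    exact Nat.lt_succ_of_le ((degreeOf_le_totalDegree P i).trans hP)
  · intro x hx
    have hx' : ∀ i, ∃ b : Fin (D + 1), ((b : ℕ) : ℝ) / (D + 1) = x i := by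
      intro i
      obtain ⟨b, _, hb⟩ := Finset.mem_image.1 (hx i)
      exact ⟨b, hb⟩
    choose b hb using hx'
    have h1 : grp D b = x := funext hb
    rw [← h1]
    exact h b

/-- The polynomial with given coefficients. -/
noncomputable def mkv (D : ℕ) (c : expBox σ D → ℝ) : MvPolynomial σ ℝ :=
  ∑ α : expBox σ D, monomial (α : σ →₀ ℕ) (c α)

lemma coeff_mkv (D : ℕ) (c : expBox σ D → ℝ) (α : expBox σ D) :
    coeff (α : σ →₀ ℕ) (mkv D c) = c α := by
  classical
  unfold mkv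
  rw [coeff_sum, Finset.sum_eq_single α]
  · simp
  · intro β _ hne
    rw [coeff_monomial, if_neg]
    intro h
    exact hne (Subtype.ext h)
  · intro h
    exact absurd (Finset.mem_univ α) h

lemma deg_mkv (D : ℕ) (c : expBox σ D → ℝ) : (mkv D c).totalDegree ≤ D := by
  unfold mkv
  refine totalDegree_finsetSum_le ?_
  intro β _
  refine (totalDegree_monomial_le _ _).trans ?_
  exact (mem_expBox D (β : σ →₀ ℕ)).1 β.2

lemma mkv_coeff {D : ℕ} {P : MvPolynomial σ ℝ} (hP : P.totalDegree ≤ D) :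
    mkv D (fun α => coeff (α : σ →₀ ℕ) P) = P := by
  ext β
  by_cases hβ : β ∈ expBox σ D
  · exact coeff_mkv D _ ⟨β, hβ⟩
  · have h1 : coeff β P = 0 := by
      rw [← notMem_support_iff]
      exact fun h => hβ (support_subset_expBox P D hP h)
    have h2 : coeff β (mkv D (fun α => coeff (α : σ →₀ ℕ) P)) = 0 := by
      rw [← notMem_support_iff]
      exact fun h => hβ (support_subset_expBox _ D (deg_mkv D _) h)
    rw [h1, h2]

lemma eval_mkv (D : ℕ) (c : expBox σ D → ℝ) (u : σ → ℝ) :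
    eval u (mkv D c) = ∑ α : expBox σ D, c α * eval u (monomial (α : σ →₀ ℕ) (1 : ℝ)) := by
  unfold mkv
  rw [map_sum]
  refine Finset.sum_congr rfl fun α _ => ?_
  rw [← map_one (RingHom.id ℝ)]
  simp [eval_monomial]

/-- **The coefficients are controlled by the values on the grid.** -/
theorem grd_coef (σ : Type) [Fintype σ] (D : ℕ) : ∃ K : ℝ, 1 ≤ K ∧
    ∀ (P : MvPolynomial σ ℝ) (M : ℝ), P.totalDegree ≤ D →
      (∀ a : σ → Fin (D + 1), |eval (grp D a) P| ≤ M) → coefSum P ≤ K * M := by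
  classical
  let Φ : (expBox σ D → ℝ) →ₗ[ℝ] ((σ → Fin (D + 1)) → ℝ) :=
    { toFun := fun c j => eval (grp D j) (mkv D c)
      map_add' := by
        intro c d
        funext j
        simp only [eval_mkv, Pi.add_apply, add_mul, Finset.sum_add_distrib]
      map_smul' := by
        intro r c
        funext j
        simp only [eval_mkv, Pi.smul_apply, smul_eq_mul, RingHom.id_apply, Finset.mul_sum,
          mul_assoc] }
  have hker : LinearMap.ker Φ = ⊥ := by
    rw [LinearMap.ker_eq_bot']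
    intro c hc
    have h0 : mkv D c = 0 := grid_zero (deg_mkv D c) fun a => congrFun hc a
    funext α
    rw [← coeff_mkv D c α, h0, coeff_zero]
    rfl
  obtain ⟨L, hL⟩ := Φ.exists_leftInverse_of_injective hker
  let Lc := LinearMap.toContinuousLinearMap L
  refine ⟨((expBox σ D).card : ℝ) * ‖Lc‖ + 1, by
    have : 0 ≤ ((expBox σ D).card : ℝ) * ‖Lc‖ := by positivity
    linarith, ?_⟩
  intro P M hP hM
  have hM0 : 0 ≤ M := (abs_nonneg _).trans (hM (fun _ => 0))
  let c : expBox σ D → ℝ := fun α => coeff (α : σ →₀ ℕ) P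
  have hPc : mkv D c = P := mkv_coeff hP
  have hΦ : ‖Φ c‖ ≤ M := by
    rw [pi_norm_le_iff_of_nonneg hM0]
    intro j
    show ‖eval (grp D j) (mkv D c)‖ ≤ M
    rw [hPc, Real.norm_eq_abs]
    exact hM _
  have hc : c = Lc (Φ c) := by
    have := LinearMap.congr_fun hL c
    exact this.symm
  have hcn : ‖c‖ ≤ ‖Lc‖ * M := by
    calc ‖c‖ = ‖Lc (Φ c)‖ := by rw [← hc]
      _ ≤ ‖Lc‖ * ‖Φ c‖ := Lc.le_opNorm _
      _ ≤ ‖Lc‖ * M := mul_le_mul_of_nonneg_left hΦ (norm_nonneg _)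
  rw [coefSum_eq_box P D hP]
  have h5 : ∑ α ∈ expBox σ D, |coeff α P| ≤ ∑ _α ∈ expBox σ D, ‖Lc‖ * M := by
    refine Finset.sum_le_sum ?_
    intro α hα
    have h6 : ‖c ⟨α, hα⟩‖ ≤ ‖c‖ := norm_le_pi_norm c ⟨α, hα⟩
    rw [Real.norm_eq_abs] at h6
    exact h6.trans hcn
  refine h5.trans ?_
  rw [Finset.sum_const, nsmul_eq_mul]
  nlinarith

lemma coefSum_mkv_le (D : ℕ) (c : expBox σ D → ℝ) :
    coefSum (mkv D c) ≤ (expBox σ D).card * ‖c‖ := by
  classical
  rw [coefSum_eq_box _ D (deg_mkv D c)]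
  calc ∑ α ∈ expBox σ D, |coeff α (mkv D c)| ≤ ∑ _α ∈ expBox σ D, ‖c‖ := by
        refine Finset.sum_le_sum fun α hα => ?_
        rw [coeff_mkv D c ⟨α, hα⟩, ← Real.norm_eq_abs]
        exact norm_le_pi_norm c ⟨α, hα⟩
    _ = (expBox σ D).card * ‖c‖ := by rw [Finset.sum_const, nsmul_eq_mul]

/-- **Finitely many polynomials are large at a common point.** -/
theorem jnt (σ : Type) [Fintype σ] (k m : ℕ) : ∃ c : ℝ, 0 < c ∧
    ∀ f : Fin m → MvPolynomial σ ℝ, (∀ j, (f j).totalDegree ≤ k) →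
      ∃ u : σ → ℝ, (∀ i, 0 ≤ u i ∧ u i ≤ 1) ∧ ∀ j, c * coefSum (f j) ≤ |eval u (f j)| := by
  classical
  have h0E : (0 : σ →₀ ℕ) ∈ expBox σ k := by
    rw [mem_expBox]
    simp
  have hne : Nonempty (expBox σ k) := ⟨⟨0, h0E⟩⟩
  have hB1 : (1 : ℝ) ≤ (expBox σ k).card := by
    have : 1 ≤ (expBox σ k).card := Finset.card_pos.mpr ⟨0, h0E⟩
    exact_mod_cast this
  obtain ⟨S, hS⟩ : ∃ S : Set (Fin m → (expBox σ k → ℝ)),
    S = Set.pi Set.univ fun _ => Metric.sphere (0 : expBox σ k → ℝ) 1 := ⟨_, rfl⟩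
  have hSc : IsCompact S := by
    rw [hS]
    exact isCompact_univ_pi fun _ => isCompact_sphere _ _
  have hSne : S.Nonempty := by
    refine ⟨fun _ => fun _ => 1, ?_⟩
    rw [hS]
    intro j _
    rw [mem_sphere_zero_iff_norm]
    simp
  obtain ⟨G, hG⟩ : ∃ G : (Fin m → (expBox σ k → ℝ)) → ℝ, G = fun c =>
    ∑ a : σ → Fin (k * m + 1), ∏ j, |eval (grp (k * m) a) (mkv k (c j))| := ⟨_, rfl⟩
  have hGc : Continuous G := by
    rw [hG]
    simp only [eval_mkv]
    fun_prop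
  obtain ⟨c₁, hc₁S, hc₁⟩ := hSc.exists_isMinOn hSne hGc.continuousOn
  have hpos : 0 < G c₁ := by
    have hne0 : ∀ j, mkv k (c₁ j) ≠ 0 := by
      intro j hj
      have h1 : ‖c₁ j‖ = 1 := by
        rw [hS] at hc₁S
        exact mem_sphere_zero_iff_norm.1 (hc₁S j (Set.mem_univ j))
      have h2 : c₁ j = 0 := by
        funext α
        rw [← coeff_mkv k (c₁ j) α, hj, coeff_zero]
        rfl
      rw [h2, norm_zero] at h1
      exact zero_ne_one h1
    have hprod : (∏ j, mkv k (c₁ j)) ≠ 0 := Finset.prod_ne_zero_iff.2 fun j _ => hne0 j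
    have hdeg : (∏ j, mkv k (c₁ j)).totalDegree ≤ k * m := by
      refine (totalDegree_finsetProd _ _).trans ?_
      calc ∑ j, (mkv k (c₁ j)).totalDegree ≤ ∑ _j : Fin m, k :=
            Finset.sum_le_sum fun j _ => deg_mkv k _
        _ = k * m := by
            rw [Finset.sum_const, Finset.card_univ, Fintype.card_fin, smul_eq_mul, mul_comm]
    obtain ⟨a, ha⟩ : ∃ a : σ → Fin (k * m + 1),
        eval (grp (k * m) a) (∏ j, mkv k (c₁ j)) ≠ 0 := by
      by_contra hcon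
      push Not at hcon
      exact hprod (grid_zero hdeg hcon)
    have h3 : 0 < ∏ j, |eval (grp (k * m) a) (mkv k (c₁ j))| := by
      rw [map_prod] at ha
      rw [← Finset.abs_prod]
      exact abs_pos.2 ha
    rw [hG]
    refine lt_of_lt_of_le h3 ?_
    exact Finset.single_le_sum (f := fun a : σ → Fin (k * m + 1) =>
      ∏ j, |eval (grp (k * m) a) (mkv k (c₁ j))|)
      (fun a _ => Finset.prod_nonneg fun j _ => abs_nonneg _) (Finset.mem_univ a)
  obtain ⟨Bn, hBn⟩ : ∃ Bn : ℝ, Bn = (expBox σ k).card := ⟨_, rfl⟩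
  rw [← hBn] at hB1
  obtain ⟨gN, hgN⟩ : ∃ gN : ℝ, gN = Fintype.card (σ → Fin (k * m + 1)) := ⟨_, rfl⟩
  have hgN1 : 1 ≤ gN := by
    rw [hgN]
    have : 1 ≤ Fintype.card (σ → Fin (k * m + 1)) := Fintype.card_pos
    exact_mod_cast this
  refine ⟨G c₁ / (gN * Bn ^ (m + 1)), by positivity, ?_⟩
  intro f hf
  -- replace the zero polynomials by `1`
  obtain ⟨f', hf'⟩ : ∃ f' : Fin m → MvPolynomial σ ℝ, f' = fun j => if f j = 0 then 1 else f j :=
    ⟨_, rfl⟩
  have hf'0 : ∀ j, f' j ≠ 0 := by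
    intro j
    rw [hf']
    dsimp only
    split_ifs with h
    · exact one_ne_zero
    · exact h
  have hf'd : ∀ j, (f' j).totalDegree ≤ k := by
    intro j
    rw [hf']
    dsimp only
    split_ifs with h
    · rw [totalDegree_one]
      exact Nat.zero_le _
    · exact hf j
  obtain ⟨cf, hcf⟩ : ∃ cf : Fin m → (expBox σ k → ℝ), cf = fun j (α : expBox σ k) =>
    coeff (α : σ →₀ ℕ) (f' j) := ⟨_, rfl⟩
  have hmk : ∀ j, mkv k (cf j) = f' j := by
    intro j
    rw [hcf]
    exact mkv_coeff (hf'd j)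
  have hcn : ∀ j, 0 < ‖cf j‖ := by
    intro j
    rw [norm_pos_iff]
    intro h
    apply hf'0 j
    rw [← hmk j, h]
    unfold mkv
    simp
  obtain ⟨c₂, hc₂⟩ : ∃ c₂ : Fin m → (expBox σ k → ℝ), c₂ = fun j => (‖cf j‖)⁻¹ • cf j :=
    ⟨_, rfl⟩
  have hc₂S : c₂ ∈ S := by
    rw [hS]
    intro j _
    rw [mem_sphere_zero_iff_norm, hc₂]
    dsimp only
    rw [norm_smul, norm_inv, norm_norm, inv_mul_cancel₀ (hcn j).ne']
  have hmk2 : ∀ j u, eval u (mkv k (c₂ j)) = (‖cf j‖)⁻¹ * eval u (f' j) := by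
    intro j u
    rw [← hmk j, eval_mkv, eval_mkv, Finset.mul_sum]
    refine Finset.sum_congr rfl fun α _ => ?_
    rw [hc₂]
    dsimp only
    rw [Pi.smul_apply, smul_eq_mul]
    ring
  have hmin : G c₁ ≤ G c₂ := hc₁ hc₂S
  obtain ⟨a, ha⟩ : ∃ a : σ → Fin (k * m + 1),
      G c₁ / gN ≤ ∏ j, |eval (grp (k * m) a) (mkv k (c₂ j))| := by
    by_contra hcon
    push Not at hcon
    have h1 : G c₂ < ∑ _a : σ → Fin (k * m + 1), G c₁ / gN := by
      have e1 : G c₂ = ∑ a : σ → Fin (k * m + 1), ∏ j, |eval (grp (k * m) a) (mkv k (c₂ j))| := by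
        rw [hG]
      rw [e1]
      exact Finset.sum_lt_sum_of_nonempty Finset.univ_nonempty fun a _ => hcon a
    rw [Finset.sum_const, Finset.card_univ, nsmul_eq_mul, ← hgN] at h1
    have h2 : gN * (G c₁ / gN) = G c₁ := by field_simp
    rw [h2] at h1
    linarith
  refine ⟨grp (k * m) a, grp_mem _ a, fun j => ?_⟩
  by_cases hfj : f j = 0
  · rw [hfj]
    have : coefSum (0 : MvPolynomial σ ℝ) = 0 := (coefSum_eq_zero_iff 0).2 rfl
    rw [this, mul_zero]
    exact abs_nonneg _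
  have hfj' : f' j = f j := by
    rw [hf']
    dsimp only
    rw [if_neg hfj]
  have hub : ∀ i, |eval (grp (k * m) a) (mkv k (c₂ i))| ≤ Bn := by
    intro i
    refine (abs_eval_le_coefSum _ _ fun i => ?_).trans ?_
    · have := grp_mem (k * m) a i
      rw [abs_of_nonneg this.1]
      exact this.2
    · refine (coefSum_mkv_le k _).trans ?_
      have h1 : ‖c₂ i‖ = 1 := by
        rw [hS] at hc₂S
        exact mem_sphere_zero_iff_norm.1 (hc₂S i (Set.mem_univ i))
      rw [h1, mul_one, hBn]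
  have h1 : ∏ i, |eval (grp (k * m) a) (mkv k (c₂ i))| ≤
      |eval (grp (k * m) a) (mkv k (c₂ j))| * Bn ^ m := by
    rw [← Finset.mul_prod_erase Finset.univ _ (Finset.mem_univ j)]
    refine mul_le_mul_of_nonneg_left ?_ (abs_nonneg _)
    refine (Finset.prod_le_prod (fun i _ => abs_nonneg _) fun i _ => hub i).trans ?_
    rw [Finset.prod_const]
    refine pow_le_pow_right₀ hB1 ?_
    refine (Finset.card_le_univ _).trans ?_
    rw [Fintype.card_fin]
  have h2 : G c₁ / gN ≤ (‖cf j‖)⁻¹ * |eval (grp (k * m) a) (f j)| * Bn ^ m := by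
    refine (ha.trans h1).trans (le_of_eq ?_)
    rw [hmk2, abs_mul, abs_of_pos (inv_pos.2 (hcn j)), hfj']
  have h3 : coefSum (f j) ≤ Bn * ‖cf j‖ := by
    rw [← hfj', ← hmk j, hBn]
    exact coefSum_mkv_le k _
  have h4 : G c₁ / gN * ‖cf j‖ ≤ |eval (grp (k * m) a) (f j)| * Bn ^ m := by
    have := mul_le_mul_of_nonneg_right h2 (hcn j).le
    calc G c₁ / gN * ‖cf j‖ ≤ (‖cf j‖)⁻¹ * |eval (grp (k * m) a) (f j)| * Bn ^ m * ‖cf j‖ := this
      _ = _ := by
        have := (hcn j).ne'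
        field_simp
  calc G c₁ / (gN * Bn ^ (m + 1)) * coefSum (f j) ≤
        G c₁ / (gN * Bn ^ (m + 1)) * (Bn * ‖cf j‖) :=
        mul_le_mul_of_nonneg_left h3 (by positivity)
    _ = G c₁ / gN * ‖cf j‖ / Bn ^ m := by
        rw [pow_succ]
        field_simp
    _ ≤ |eval (grp (k * m) a) (f j)| * Bn ^ m / Bn ^ m :=
        div_le_div_of_nonneg_right h4 (by positivity)
    _ = |eval (grp (k * m) a) (f j)| := by
        have : Bn ^ m ≠ 0 := by positivity
        field_simp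

end grid

/-- A polynomial on the chart and the last variable, at a fixed value of the last variable. -/
noncomputable def fxv {d : ℕ} (ν : ℝ) (R : MvPolynomial (Option (Fin d)) ℝ) :
    MvPolynomial (Fin d) ℝ :=
  bind₁ (fun o : Option (Fin d) => o.elim (C ν) X) R

lemma eval_fxv {d : ℕ} (ν : ℝ) (R : MvPolynomial (Option (Fin d)) ℝ) (u : Fin d → ℝ) :
    eval u (fxv ν R) = eval (fun o : Option (Fin d) => o.elim ν u) R := by
  unfold fxv
  rw [Pool.M3F.eval_bind]
  congr 2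
  funext o
  cases o with
  | none =>
    change eval u (C ν) = ν
    rw [eval_C]
  | some i =>
    change eval u (X i) = u i
    rw [eval_X]

lemma deg_fxv {d : ℕ} (ν : ℝ) {R : MvPolynomial (Option (Fin d)) ℝ} {k : ℕ}
    (hR : R.totalDegree ≤ k) : (fxv ν R).totalDegree ≤ k := by
  unfold fxv
  refine (SML.totalDegree_bind_le _ 1 ?_ R).trans (by omega)
  intro o
  cases o with
  | none =>
    change (C ν : MvPolynomial (Fin d) ℝ).totalDegree ≤ 1
    rw [totalDegree_C]
    exact Nat.zero_le _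
  | some i =>
    change (X i : MvPolynomial (Fin d) ℝ).totalDegree ≤ 1
    rw [totalDegree_X]

/-- A polynomial on the chart and the last variable, at a fixed point of the chart. -/
noncomputable def fxu {d : ℕ} (u : Fin d → ℝ) (R : MvPolynomial (Option (Fin d)) ℝ) :
    Polynomial ℝ :=
  aeval (fun o : Option (Fin d) => o.elim Polynomial.X fun i => Polynomial.C (u i)) R

lemma eval_fxu {d : ℕ} (ν : ℝ) (R : MvPolynomial (Option (Fin d)) ℝ) (u : Fin d → ℝ) :
    (fxu u R).eval ν = eval (fun o : Option (Fin d) => o.elim ν u) R := by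
  unfold fxu
  induction R using MvPolynomial.induction_on with
  | C a => simp
  | add p q hp hq => simp only [map_add, Polynomial.eval_add, hp, hq]
  | mul_X p k hp =>
    rw [map_mul, map_mul, Polynomial.eval_mul, hp]
    congr 1
    cases k with
    | none => simp
    | some i => simp

lemma deg_fxu {d : ℕ} (u : Fin d → ℝ) {R : MvPolynomial (Option (Fin d)) ℝ} {k : ℕ}
    (hR : R.totalDegree ≤ k) : (fxu u R).natDegree ≤ k := by
  have h1 := MvPolynomial.aeval_natDegree_le (m := k) (n := 1) R hR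
    (fun o : Option (Fin d) => o.elim Polynomial.X fun i => Polynomial.C (u i)) (fun o => by
      cases o with
      | none => exact Polynomial.natDegree_X_le
      | some i =>
        change (Polynomial.C (u i)).natDegree ≤ 1
        rw [Polynomial.natDegree_C]
        exact Nat.zero_le _)
  rwa [mul_one] at h1

/-- **Few separated leaves are near the zeros of one polynomial.** -/
theorem clu (d k n : ℕ) : ∃ K : ℝ, 1 ≤ K ∧ ∀ (R : MvPolynomial (Option (Fin d)) ℝ)
    (φ : Fin (n + 1) → MvPolynomial (Fin d) ℝ) (β γ : ℝ), R.totalDegree ≤ k →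
    (∀ u, (fxu u R).natDegree ≤ n) → (∀ j, (φ j).totalDegree ≤ k) → 0 < β → 0 ≤ γ →
    (∀ j, ∀ u ∈ ucube d, |eval u (φ j)| ≤ 1) →
    (∀ j, ∀ u ∈ ucube d, |eval (fun o : Option (Fin d) => o.elim (eval u (φ j)) u) R| ≤ γ) →
    (∀ i j, i ≠ j → ∃ u ∈ ucube d, β ≤ |eval u (φ i) - eval u (φ j)|) →
    ∀ u ∈ ucube d, ∀ ν : ℝ, |ν| ≤ 2 →
      |eval (fun o : Option (Fin d) => o.elim ν u) R| ≤ K * (1 / β) ^ n * γ := by
  classical
  obtain ⟨c, hc, H⟩ := jnt (Fin d) k (1 + (n + 1) * (n + 1))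
  refine ⟨1 + (1 / c) * ((n + 1) * (3 / c) ^ n), by
    have : 0 ≤ (1 / c) * ((n + 1) * (3 / c) ^ n) := by positivity
    linarith, ?_⟩
  intro R φ β γ hR hRn hφ hβ hγ hφ1 hRφ hsep u hu ν hν
  -- the family of polynomials
  obtain ⟨f, hf⟩ : ∃ f : Fin 1 ⊕ (Fin (n + 1) × Fin (n + 1)) → MvPolynomial (Fin d) ℝ,
    f = Sum.elim (fun _ => fxv ν R) (fun p => φ p.1 - φ p.2) := ⟨_, rfl⟩
  have hfd : ∀ s, (f s).totalDegree ≤ k := by
    intro s
    rw [hf]
    cases s with
    | inl _ => exact deg_fxv ν hR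
    | inr p =>
      change (φ p.1 - φ p.2).totalDegree ≤ k
      exact (totalDegree_sub _ _).trans (max_le (hφ _) (hφ _))
  have hcd : Fintype.card (Fin 1 ⊕ (Fin (n + 1) × Fin (n + 1))) = 1 + (n + 1) * (n + 1) := by
    simp
  obtain ⟨e⟩ : Nonempty (Fin 1 ⊕ (Fin (n + 1) × Fin (n + 1)) ≃ Fin (1 + (n + 1) * (n + 1))) :=
    ⟨Fintype.equivFinOfCardEq hcd⟩
  obtain ⟨u₁, hu₁, hu₁f⟩ := H (fun j => f (e.symm j)) fun j => hfd _
  have hu₁f' : ∀ s, c * coefSum (f s) ≤ |eval u₁ (f s)| := by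
    intro s
    have := hu₁f (e s)
    simp only [Equiv.symm_apply_apply] at this
    exact this
  have hu1 : ∀ u ∈ ucube d, ∀ i, |u i| ≤ 1 := by
    intro u hu i
    rw [abs_of_nonneg (hu i).1]
    exact (hu i).2
  -- the separation at the common point
  have h1 : ∀ i j, i ≠ j → c * β ≤ |eval u₁ (φ i) - eval u₁ (φ j)| := by
    intro i j hij
    obtain ⟨u₂, hu₂, h2⟩ := hsep i j hij
    have h3 := hu₁f' (Sum.inr (i, j))
    have e1 : f (Sum.inr (i, j)) = φ i - φ j := by rw [hf]; rfl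
    rw [e1, map_sub] at h3
    have h4 := abs_eval_le_coefSum (φ i - φ j) u₂ (hu1 u₂ hu₂)
    rw [map_sub] at h4
    exact (mul_le_mul_of_nonneg_left (h2.trans h4) hc.le).trans h3
  have hmem : u₁ ∈ ucube d := hu₁
  have h2 := RMG.lagrange_bound n (fxu u₁ R) (fun j => eval u₁ (φ j)) ν 3 (c * β) γ
    (hRn u₁) (mul_pos hc hβ) h1 (fun j => by
      have h3 := hφ1 j u₁ hmem
      refine (abs_sub _ _).trans ?_
      linarith) (fun j => by
      rw [eval_fxu]
      exact hRφ j u₁ hmem)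
  rw [eval_fxu] at h2
  have h3 := hu₁f' (Sum.inl 0)
  have e1 : f (Sum.inl 0) = fxv ν R := by rw [hf]; rfl
  rw [e1, eval_fxv] at h3
  have h4 := abs_eval_le_coefSum (fxv ν R) u (hu1 u hu)
  rw [eval_fxv] at h4
  have h5 : c * |eval (fun o : Option (Fin d) => o.elim ν u) R| ≤
      ((n : ℝ) + 1) * (3 / (c * β)) ^ n * γ :=
    ((mul_le_mul_of_nonneg_left h4 hc.le).trans h3).trans h2
  have e2 : (3 / (c * β)) ^ n = (3 / c) ^ n * (1 / β) ^ n := by
    rw [← mul_pow]
    congr 1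
    field_simp
  rw [e2] at h5
  have h6 : |eval (fun o : Option (Fin d) => o.elim ν u) R| ≤
      (1 / c) * (((n : ℝ) + 1) * ((3 / c) ^ n * (1 / β) ^ n) * γ) := by
    rw [one_div, inv_mul_eq_div, le_div_iff₀ hc, mul_comm]
    exact h5
  refine h6.trans ?_
  have h7 : 0 ≤ (1 / β) ^ n * γ := by positivity
  nlinarith

end Pool.CLO37
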