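import Mathlib

/-!
# Auerbach bases

`aub`: for every norm `ν` on `Fin M → ℝ` there is a basis `T` with `|c i| ≤ ν (∑ c k • T k)` for all
coefficients, and `ν (T i) ≤ 1`.
-/

set_option autoImplicit false

namespace Pool.CLO37

open Finset

/-- A norm on `Fin M → ℝ`, given by its properties. -/
structure Nrm {M : ℕ} (ν : (Fin M → ℝ) → ℝ) : Prop where
  smul : ∀ (a : ℝ) v, ν (a • v) = |a| * ν v
  add : ∀ v w, ν (v + w) ≤ ν v + ν w

namespace Nrm

variable {M : ℕ} {ν : (Fin M → ℝ) → ℝ}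

theorem zero (h : Nrm ν) : ν 0 = 0 := by
  have := h.smul 0 0
  rwa [smul_zero, abs_zero, zero_mul] at this

theorem neg (h : Nrm ν) (v : Fin M → ℝ) : ν (-v) = ν v := by
  have := h.smul (-1) v
  rwa [neg_one_smul, abs_neg, abs_one, one_mul] at this

theorem nonneg (h : Nrm ν) (v : Fin M → ℝ) : 0 ≤ ν v := by
  have h1 := h.add v (-v)
  rw [add_neg_cancel, h.zero, h.neg] at h1
  linarith

theorem sub (h : Nrm ν) (v w : Fin M → ℝ) : ν (v - w) ≤ ν v + ν w := by
  rw [sub_eq_add_neg]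
  exact (h.add _ _).trans (by rw [h.neg])

theorem sum_le (h : Nrm ν) {ι : Type*} (s : Finset ι) (f : ι → Fin M → ℝ) :
    ν (∑ i ∈ s, f i) ≤ ∑ i ∈ s, ν (f i) := by
  classical
  induction s using Finset.induction_on with
  | empty => simp [h.zero]
  | insert a s ha ih =>
    rw [Finset.sum_insert ha, Finset.sum_insert ha]
    exact (h.add _ _).trans (by linarith)

theorem le_sum (h : Nrm ν) (v : Fin M → ℝ) : ν v ≤ ∑ i, |v i| * ν (Pi.single i 1) := by
  have e : v = ∑ i, v i • (Pi.single i 1 : Fin M → ℝ) := by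
    funext j
    simp [Finset.sum_apply, Pi.single_apply]
  calc ν v = ν (∑ i, v i • (Pi.single i 1 : Fin M → ℝ)) := by rw [← e]
    _ ≤ ∑ i, ν (v i • (Pi.single i 1 : Fin M → ℝ)) := h.sum_le _ _
    _ = _ := Finset.sum_congr rfl fun i _ => h.smul _ _

theorem lip (h : Nrm ν) (v w : Fin M → ℝ) :
    |ν v - ν w| ≤ (∑ i, ν (Pi.single i 1)) * ‖v - w‖ := by
  have h1 : ν (v - w) ≤ (∑ i, ν (Pi.single i 1)) * ‖v - w‖ := by
    refine (h.le_sum _).trans ?_
    rw [Finset.sum_mul]
    refine Finset.sum_le_sum fun i _ => ?_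
    rw [mul_comm]
    refine mul_le_mul_of_nonneg_left ?_ (h.nonneg _)
    exact norm_le_pi_norm (v - w) i
  have h2 : ν v ≤ ν w + ν (v - w) := by
    have := h.add w (v - w)
    rwa [add_sub_cancel] at this
  have h3 : ν w ≤ ν v + ν (v - w) := by
    have := h.add v (w - v)
    rw [add_sub_cancel] at this
    have e : ν (w - v) = ν (v - w) := by rw [← neg_sub, h.neg]
    linarith
  rw [abs_le]
  constructor <;> linarith

theorem continuous (h : Nrm ν) : Continuous ν := by
  refine LipschitzWith.continuous (K := (∑ i, ν (Pi.single i 1)).toNNReal) ?_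
  refine LipschitzWith.of_dist_le_mul fun v w => ?_
  rw [Real.dist_eq, dist_eq_norm, Real.coe_toNNReal _ (Finset.sum_nonneg fun i _ => h.nonneg _)]
  exact h.lip v w

end Nrm

/-- **Auerbach bases.** -/
theorem aub {M : ℕ} {ν : (Fin M → ℝ) → ℝ} (h : Nrm ν) {δ : ℝ} (hδ : 0 < δ)
    (hpos : ∀ v, δ * ‖v‖ ≤ ν v) :
    ∃ T : Fin M → Fin M → ℝ, (∀ v : Fin M → ℝ, ∃ c : Fin M → ℝ, v = ∑ k, c k • T k) ∧
      (∀ i, ν (T i) ≤ 1) ∧
      ∀ (c : Fin M → ℝ) (i : Fin M), |c i| ≤ ν (∑ k, c k • T k) := by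
  classical
  obtain ⟨U, hU⟩ : ∃ U : Set (Fin M → ℝ), U = {v | ν v ≤ 1} := ⟨_, rfl⟩
  have hUc : IsCompact U := by
    refine Metric.isCompact_of_isClosed_isBounded ?_ ?_
    · rw [hU]
      exact isClosed_le h.continuous continuous_const
    · refine (Metric.isBounded_closedBall (x := (0 : Fin M → ℝ)) (r := 1 / δ)).subset ?_
      intro v hv
      rw [hU] at hv
      rw [mem_closedBall_zero_iff, le_div_iff₀ hδ]
      have h1 := hpos v
      have h2 : ν v ≤ 1 := hv
      linarith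
  obtain ⟨K, hK⟩ : ∃ K : Set (Fin M → Fin M → ℝ), K = Set.pi Set.univ fun _ => U := ⟨_, rfl⟩
  have hKc : IsCompact K := by
    rw [hK]
    exact isCompact_univ_pi fun _ => hUc
  have hcont : Continuous fun T : Fin M → Fin M → ℝ => |Matrix.det (Matrix.of T)| := by
    refine continuous_abs.comp ?_
    exact Continuous.matrix_det continuous_id
  have hne : K.Nonempty := ⟨fun _ => 0, by
    rw [hK]
    intro i _
    rw [hU]
    show ν 0 ≤ 1
    rw [h.zero]
    exact zero_le_one⟩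
  obtain ⟨T, hT, hmax⟩ := hKc.exists_isMaxOn hne hcont.continuousOn
  have hmem : ∀ {T' : Fin M → Fin M → ℝ}, T' ∈ K ↔ ∀ i, ν (T' i) ≤ 1 := by
    intro T'
    rw [hK, hU]
    simp
  -- the determinant is not zero
  obtain ⟨s, hs⟩ : ∃ s : ℝ, s = 1 / (1 + ∑ i, ν (Pi.single i 1 : Fin M → ℝ)) := ⟨_, rfl⟩
  have hs0 : 0 < 1 + ∑ i, ν (Pi.single i 1 : Fin M → ℝ) := by
    have : 0 ≤ ∑ i, ν (Pi.single i 1 : Fin M → ℝ) := Finset.sum_nonneg fun i _ => h.nonneg _
    linarith
  have hs1 : 0 < s := by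
    rw [hs]
    positivity
  have hdet : 0 < |Matrix.det (Matrix.of T)| := by
    have h1 : (fun i => s • (Pi.single i 1 : Fin M → ℝ)) ∈ K := by
      rw [hmem]
      intro i
      rw [h.smul, abs_of_pos hs1, hs, one_div, inv_mul_le_iff₀ hs0, mul_one]
      have := Finset.single_le_sum (f := fun i => ν (Pi.single i 1 : Fin M → ℝ))
        (fun i _ => h.nonneg _) (mem_univ i)
      linarith
    have h2 := hmax h1
    refine lt_of_lt_of_le ?_ h2
    have e : (Matrix.of fun i => s • (Pi.single i 1 : Fin M → ℝ)) =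
        s • (1 : Matrix (Fin M) (Fin M) ℝ) := by
      ext i j
      simp [Matrix.one_apply, Pi.single_apply, eq_comm]
    show 0 < |Matrix.det (Matrix.of fun i => s • (Pi.single i 1 : Fin M → ℝ))|
    rw [e, Matrix.det_smul, Matrix.det_one, mul_one]
    exact abs_pos.2 (pow_ne_zero _ hs1.ne')
  refine ⟨T, fun v => ?_, fun i => hmem.1 hT i, fun c i => ?_⟩
  · have hu : IsUnit (Matrix.of T).det := isUnit_iff_ne_zero.2 (abs_pos.1 hdet)
    refine ⟨Matrix.vecMul v (Matrix.of T)⁻¹, ?_⟩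
    have h1 : Matrix.vecMul (Matrix.vecMul v (Matrix.of T)⁻¹) (Matrix.of T) = v := by
      rw [Matrix.vecMul_vecMul, Matrix.nonsing_inv_mul _ hu, Matrix.vecMul_one]
    have h2 := Matrix.vecMul_eq_sum (Matrix.vecMul v (Matrix.of T)⁻¹) (Matrix.of T)
    rw [h1] at h2
    exact h2
  obtain ⟨v, hv⟩ : ∃ v : Fin M → ℝ, v = ∑ k, c k • (Matrix.of T) k := ⟨_, rfl⟩
  have hv' : ∑ k, c k • T k = v := hv.symm
  rw [hv']
  have hdv : (Matrix.updateRow (Matrix.of T) i v).det = c i * (Matrix.of T).det := by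
    rw [hv, Matrix.det_updateRow_sum, smul_eq_mul]
  rcases eq_or_ne (ν v) 0 with h0 | h0
  · have h1 : ‖v‖ = 0 := by
      have h2 := hpos v
      rw [h0] at h2
      have h3 := norm_nonneg v
      nlinarith
    have h2 : v = 0 := norm_eq_zero.1 h1
    rw [h2] at hdv
    have h3 : (Matrix.updateRow (Matrix.of T) i 0).det = 0 := by
      refine Matrix.det_eq_zero_of_row_eq_zero i fun j => ?_
      simp
    rw [h3] at hdv
    have h4 : (Matrix.of T).det ≠ 0 := abs_pos.1 hdet
    have h5 : c i = 0 := by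
      rcases mul_eq_zero.1 hdv.symm with h | h
      · exact h
      · exact absurd h h4
    rw [h5, h0, abs_zero]
  · have hvp : 0 < ν v := lt_of_le_of_ne (h.nonneg v) (Ne.symm h0)
    have h1 : Function.update T i ((ν v)⁻¹ • v) ∈ K := by
      rw [hmem]
      intro k
      rcases eq_or_ne k i with hk | hk
      · rw [hk, Function.update_self, h.smul, abs_of_pos (inv_pos.2 hvp),
          inv_mul_cancel₀ h0]
      · rw [Function.update_of_ne hk]
        exact hmem.1 hT k
    have h2 : |Matrix.det (Matrix.of (Function.update T i ((ν v)⁻¹ • v)))| ≤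
        |Matrix.det (Matrix.of T)| := hmax h1
    have e : Matrix.of (Function.update T i ((ν v)⁻¹ • v)) =
        Matrix.updateRow (Matrix.of T) i ((ν v)⁻¹ • v) := rfl
    rw [e, Matrix.det_updateRow_smul, hdv, abs_mul, abs_mul, abs_of_pos (inv_pos.2 hvp)] at h2
    have h3 : (ν v)⁻¹ * |c i| ≤ 1 := by
      have h4 : (ν v)⁻¹ * |c i| * |(Matrix.of T).det| ≤ 1 * |(Matrix.of T).det| := by
        rw [one_mul, mul_assoc]
        exact h2
      exact le_of_mul_le_mul_right h4 hdet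
    rwa [inv_mul_le_iff₀ hvp, mul_one] at h3

end Pool.CLO37
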