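import Pool.Agent.H37.CLO.Cgo

/-!
# The closing lemma, with the geometry: conclusion
-/

set_option autoImplicit false

namespace Pool.CLO37

open Finset Real
open Pool.Agent.H49.Ent Pool.Agent.H32.Dense Pool.STK Pool.KAF Pool.KAL Pool.KS3 Pool.M3F
open Pool.KJA Pool.KA Pool.K2S Pool.KM7

/-- **The closing lemma, with the geometry.** On the event `E` of pairs the leaf of the second
sample over its cell is near one of few functions of the label of the first one. Then on an event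
of `p` of comparable probability there is a polynomial, determined by the point, of size at least
`1` on the samples of the long line label at the scale `s₀`, of size at most `ε` at the point, and
equal to a function of the long line up to `C ε`. -/
theorem clo_geo (d D k₀ k₁ : ℕ) : ∃ C : ℝ, 1 ≤ C ∧
    ∀ {C₀ : ℝ} {Ω Λ Λ₀ Ξ Z Z₀ Ci : Type} [Fintype Ω] {p : Ω → ℝ} {lam : Ω → Λ} {lam₀ : Ω → Λ₀}
      {x : Ω → Ξ} {T T₀ : Ξ → ℕ} {z : Ξ → Option (Fin d) → ℝ} {A B : Λ → Option (Fin d) → ℝ}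
      {A₀ B₀ : Λ₀ → Option (Fin d) → ℝ} {zx : Ξ → Z} {zl : Λ → Z} {Yb : Ξ → Fin d → ℕ}
      {Ng : Z → Fin d → ℕ} {Φ : Z → Option (Fin d) → MvPolynomial (Fin d) ℝ}
      {M M₀ N NC n₀ : ℕ} {μ e₁ e₀ h R : ℝ} {ζ : Ξ → Z₀} {ζl : Λ₀ → Z₀} {pz : Z → Z₀}
      {ci : Ξ → Ci} {χ : Z₀ → Ci → Fin d → MvPolynomial (Fin d) ℝ}
      {gN : Z → MvPolynomial (Fin d) ℝ} {Q : Z → MvPolynomial (Option (Fin d)) ℝ} {MB : Z → ℝ}
      {g₀ : Z₀ → (Fin d → ℝ) → ℝ} {Gd : Ω → Prop} {s₀ s₁ ρ H₁ β β₁ fl ε θ : ℝ}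
      {a : Z → Ci → Fin n₀ → (Fin d → ℝ) → ℝ} {E : Ω × Ω → Prop},
      1 ≤ C₀ → 1 ≤ M → CLeaf k₀ C₀ M p lam x T z A B zx zl Yb Ng Φ →
      MxC N μ p lam x (fun ξ => ∑ i, Real.log (Ng (zx ξ) i)) Yb → 0 ≤ μ →
      Real.log M - CH p (fun ω => T (x ω)) lam ≤ e₁ → 0 ≤ e₁ → 0 < h →
      GeoOK p lam₀ x z zx Φ (C₀ / M) ζ ζl pz ci χ gN Q MB g₀ Gd k₁ D NC s₀ s₁ ρ H₁ →
      (∀ ω, 0 < p ω → T₀ (x ω) < M₀) →
      (∀ ω, 0 < p ω → ∀ i,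
        |z (x ω) i - (A₀ (lam₀ ω) i + (T₀ (x ω) : ℝ) * B₀ (lam₀ ω) i)| ≤ C₀ / M) →
      Real.log M₀ - CH p (fun ω => T₀ (x ω)) lam₀ ≤ e₀ → 0 ≤ e₀ →
      (∀ v, 0 < cp p lam₀ v → E v → Gd v.1 ∧ Gd v.2) →
      (∀ v, 0 < cp p lam₀ v → E v → ∃ i, ∀ u ∈ ucube d,
        |MvPolynomial.eval (cpt (χ (ζ (x v.2)) (ci (x v.2))) u) (gN (zx (x v.2))) -
          a (zx (x v.1)) (ci (x v.2)) i u| ≤ β) →
      0 < β → β ≤ β₁ → 0 < s₀ → C₀ / M + s₀ ≤ s₁ → 0 ≤ ρ → 0 ≤ H₁ → 1 ≤ R → R ≤ M₀ →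
      fl ≤ 1 → C * (C₀ / M + β₁) ≤ fl * s₀ → ρ * H₁ ≤ fl →
      C * (Real.exp h * R ^ (2 * D) * H₁ * (s₁ / β₁) ^ D * (ρ + (C₀ / M + β) / s₀)) < 1 →
      0 < ε → ε ≤ 1 →
      C * fl < sg (C * (Real.exp h * R ^ D) ^ 2 / ε) (nmb (Option (Fin d)) D) →
      Real.log (NC * (n₀ * 3 ^ Fintype.card (Fin d → Fin (k₁ * k₁ + 1))) + 1) ≤ θ →
      Real.log (NC * (D * 3 ^ Fintype.card (Fin d → Fin (k₁ * k₁ + 1))) + 1) ≤ θ →
      0 < Pe (cp p lam₀) E →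
      16 * (θ + e₀ + 1) ≤ (Real.log R - Real.log (2 * (D + 1))) * Pe (cp p lam₀) E →
      32 * D * θ + C * ((N + 1) * (e₁ + 1) + μ) ≤ h * Pe (cp p lam₀) E →
      ∃ (vx : Ξ → Fin (nmb (Option (Fin d)) D) → ℝ) (vl : Λ₀ → Fin (nmb (Option (Fin d)) D) → ℝ)
        (B' : Ω → Prop), Pe (cp p lam₀) E ≤ C * Pe p B' ∧ ∀ ω, B' ω → 0 < p ω ∧
          1 ≤ Nk p x z ζ s₀ (mnb (Option (Fin d)) D) (ζ (x ω)) (vx (x ω)) ∧
          Psi (pol (mnb (Option (Fin d)) D) (vx (x ω))) (C₀ / M) (z (x ω)) ≤ ε ∧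
          Nk p x z ζ s₀ (mnb (Option (Fin d)) D) (ζ (x ω)) (vx (x ω) - vl (lam₀ ω)) ≤ C * ε := by
  classical
  obtain ⟨C₁, hC₁, Habs⟩ := clo_abs (Option (Fin d)) d D k₀ (nmb (Option (Fin d)) D)
  obtain ⟨C₂, hC₂, Htwo⟩ := clo_two d D k₀ k₁
  obtain ⟨K_L, hK_L, Hline⟩ := line_ok (Option (Fin d)) D
  obtain ⟨K_r, hK_r, Hrev⟩ := rev_cnt d D k₁
  obtain ⟨K_c, hK_c, Hcod⟩ := cod_ok d D k₁
  obtain ⟨Mb, hMb⟩ : ∃ Mb : ℕ, Mb = nmb (Option (Fin d)) D := ⟨_, rfl⟩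
  obtain ⟨Kq, hKq⟩ : ∃ Kq : ℝ, Kq = K_r * (C₂ * C₂) := ⟨_, rfl⟩
  have hKq1 : 1 ≤ Kq := by
    rw [hKq]
    exact one_le_mul_of_one_le_of_one_le hK_r (one_le_mul_of_one_le_of_one_le hC₂ hC₂)
  have hMb0 : (0 : ℝ) ≤ Mb := Nat.cast_nonneg _
  have hMp0 : (0 : ℝ) ≤ 4 * (Mb * 2 ^ Mb * Mb) := by positivity
  have hMK0 : (0 : ℝ) ≤ 40 * (Mb * K_L ^ 2) := by positivity
  have hD0 : (0 : ℝ) ≤ D := Nat.cast_nonneg D
  refine ⟨C₂ + Kq + K_c + 8 * (2 * D + C₁) + 16 + 3 * Mb + 4 * (Mb * 2 ^ Mb * Mb) +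
    40 * (Mb * K_L ^ 2), by linarith, ?_⟩
  intro C₀ Ω Λ Λ₀ Ξ Z Z₀ Ci _ p lam lam₀ x T T₀ z A B A₀ B₀ zx zl Yb Ng Φ M M₀ N NC n₀ μ e₁ e₀ h
    R ζ ζl pz ci χ gN Q MB g₀ Gd s₀ s₁ ρ H₁ β β₁ fl ε θ a E hC₀ hM hL hmx hμ he₁ he₁0 hh hG hT₀
    hz₀ he₀ he₀0 hgood hgeo hβ hββ hs₀ hs₁ hρ hH₁ hR hRM hfl1 hfl hflρ hsm hε hε1 hflsg hθ1 hθ2 hE
    hpr1 hpr2
  obtain ⟨C, hC⟩ : ∃ C : ℝ, C = C₂ + Kq + K_c + 8 * (2 * D + C₁) + 16 + 3 * Mb +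
    4 * (Mb * 2 ^ Mb * Mb) + 40 * (Mb * K_L ^ 2) := ⟨_, rfl⟩
  rw [← hC] at hfl hsm hflsg hpr2 ⊢
  have hC1 : 1 ≤ C := by linarith
  have hC0 : 0 ≤ C := by linarith
  have hp := hL.inc.isLaw
  have hp0 := hp.nonneg
  have hM0 : (0 : ℝ) < M := by exact_mod_cast hM
  have hh₀0 : 0 < C₀ / M := by positivity
  have hβ₁ : 0 < β₁ := by linarith
  have hθ0 : 0 ≤ θ := by
    refine le_trans (Real.log_nonneg ?_) hθ1
    have : (0 : ℝ) ≤ NC * (n₀ * 3 ^ Fintype.card (Fin d → Fin (k₁ * k₁ + 1))) := by positivity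
    linarith
  have hfl0 : 0 < fl := by
    by_contra hcon
    push Not at hcon
    have h1 : fl * s₀ ≤ 0 := mul_nonpos_of_nonpos_of_nonneg hcon hs₀.le
    have h2 : 0 < C * (C₀ / M + β₁) := by positivity
    linarith
  have hX0 : 0 ≤ θ + e₀ + 1 := by linarith
  have hN0 : 0 ≤ ((N : ℝ) + 1) * (e₁ + 1) + μ := by positivity
  have hs₁0 : 0 < s₁ := by linarith
  -- the first part
  obtain ⟨E₂, hE₂m, hE₂E, hE₂l, hE₂w⟩ := Htwo hC₀ hM hL hmx hμ he₁ he₁0 hh hG hT₀ hz₀ he₀ he₀0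
    hgood hgeo hβ hs₀ (by
      have h1 : C₂ * (C₀ / M + β) ≤ C * (C₀ / M + β₁) := by
        refine mul_le_mul (by linarith) (by linarith) (by positivity) hC0
      have h2 : fl * s₀ ≤ 1 * s₀ := mul_le_mul_of_nonneg_right hfl1 hs₀.le
      linarith) hρ hH₁ hR hRM hθ1 hE hpr1 (by
      have : C₂ * ((N + 1) * (e₁ + 1) + μ) ≤ C * ((N + 1) * (e₁ + 1) + μ) :=
        mul_le_mul_of_nonneg_right (by linarith) hN0
      linarith)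
  obtain ⟨r, hr⟩ : ∃ r, r = cp p lam₀ := ⟨_, rfl⟩
  have hrl : IsLaw r := by rw [hr]; exact cp_isLaw hp
  have hr0 := hrl.nonneg
  obtain ⟨κ, hκ⟩ : ∃ κ, κ = kap zx ζ ci χ gN (k₁ * k₁) β₁ := ⟨_, rfl⟩
  obtain ⟨n, hn⟩ : ∃ n : ℕ, n = ⌈(M₀ : ℝ) / R⌉₊ * (D + 1) := ⟨_, rfl⟩
  obtain ⟨L, hLL⟩ : ∃ L : ℝ, L = Real.log R - Real.log (2 * (D + 1)) := ⟨_, rfl⟩
  rw [← hLL] at hpr1
  have hL0 : 0 < L := by
    by_contra hcon
    push Not at hcon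
    have h1 : L * Pe (cp p lam₀) E ≤ 0 := mul_nonpos_of_nonpos_of_nonneg hcon hE.le
    have h2 : 0 < 16 * (θ + e₀ + 1) := by positivity
    linarith
  -- the counts with the coarse code
  have hf : ∀ E' : Ω × Ω → Prop, (∀ v, E' v → E v) →
      CH (cp p lam₀) (cod x κ E' Prod.snd) (fun v => zx (x v.1)) ≤ θ := by
    intro E' hE'
    rw [hκ]
    refine (fwd_cnt (a := a) hp hG hβ₁ (fun v hv hEv => ?_) (k₁ * k₁)).trans hθ1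
    obtain ⟨i, hi⟩ := hgeo v hv (hE' v hEv)
    exact ⟨i, fun u hu => (hi u hu).trans hββ⟩
  have hb : ∀ E' : Ω × Ω → Prop, (∀ v, E' v → E₂ v) →
      CH (cp p lam₀) (cod x κ E' Prod.fst) (fun v => zx (x v.2)) ≤ θ := by
    intro E' hE'
    rw [hκ]
    refine (Hrev (γ := C₂ * (Real.exp h * R ^ D * (ρ + (C₀ / M + β) / s₀)))
      (Hl := C₂ * (R ^ D * H₁)) hp hG hβ₁ hh₀0.le hs₀.le hs₁0 hs₁ (by positivity)
      (by positivity) ?_ (fun v hv hEv => hgood v hv (hE₂E v (hE' v hEv)))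
      (fun v hv hEv => hE₂l v hv (hE' v hEv)) (fun v hv hEv => hE₂w v hv (hE' v hEv))
      (k₁ * k₁)).trans hθ2
    refine lt_of_le_of_lt ?_ hsm
    have h1 : C₂ * (R ^ D * H₁) * (K_r * (s₁ / β₁) ^ D *
        (C₂ * (Real.exp h * R ^ D * (ρ + (C₀ / M + β) / s₀)))) =
        Kq * (Real.exp h * R ^ (2 * D) * H₁ * (s₁ / β₁) ^ D * (ρ + (C₀ / M + β) / s₀)) := by
      rw [hKq, two_mul, pow_add]
      ring
    rw [h1]
    refine mul_le_mul_of_nonneg_right (by linarith) ?_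
    have := Real.exp_pos h
    positivity
  -- few times
  have hfew : ∀ E' : Ω × Ω → Prop,
      CH (cp p lam₀) (cod x κ E' Prod.snd) (fun v => zx (x v.1)) ≤ θ →
      Pe (cp p lam₀) (fun v => E' v ∧ fewT p lam₀ x T₀ κ n v) ≤ Pe (cp p lam₀) E / 16 := by
    intro E' hth
    have h1 := line_few (T₀ := T₀) (n := n) hp hT₀ he₀ hth
    have h2 : L ≤ Real.log M₀ - Real.log n := by
      rw [hLL, hn]
      exact log_few hR hRM D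
    have h3 : 0 ≤ Pe (cp p lam₀) (fun v => E' v ∧ fewT p lam₀ x T₀ κ n v) := by
      rw [← hr]
      exact pe_nonneg' hr0 _
    have h4 : Pe (cp p lam₀) (fun v => E' v ∧ fewT p lam₀ x T₀ κ n v) * L ≤ θ + e₀ :=
      (mul_le_mul_of_nonneg_left h2 h3).trans h1
    have h5 : 16 * (θ + e₀) ≤ L * Pe (cp p lam₀) E := by
      refine le_trans ?_ hpr1
      have : 0 ≤ θ + e₀ := by linarith
      nlinarith
    rw [le_div_iff₀ (by norm_num : (0 : ℝ) < 16)]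
    by_contra hcon
    push Not at hcon
    nlinarith
  have hfew1 := hfew E₂ (hf E₂ hE₂E)
  have hfew2 : Pe (cp p lam₀) (fun v => E₂ v ∧ fewT p lam₀ x T₀ κ n v.swap) ≤
      Pe (cp p lam₀) E / 16 := by
    have h1 := hfew (fun v => E₂ v.swap) (by
      rw [cod_swap]
      exact hb E₂ fun v hv => hv)
    refine le_trans (le_of_eq ?_) h1
    rw [← pe_swap p lam₀ (fun v => E₂ v ∧ fewT p lam₀ x T₀ κ n v.swap)]
    simp only [Prod.swap_swap]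
  -- the third event
  obtain ⟨E₃, hE₃⟩ : ∃ E₃ : Ω × Ω → Prop, E₃ = fun v => E₂ v ∧ ¬ fewT p lam₀ x T₀ κ n v ∧
    ¬ fewT p lam₀ x T₀ κ n v.swap := ⟨_, rfl⟩
  have hE₃2 : ∀ v, E₃ v → E₂ v := fun v hv => by
    rw [hE₃] at hv
    exact hv.1
  have hE₃m : Pe (cp p lam₀) E / 2 ≤ Pe (cp p lam₀) E₃ := by
    rw [← hr] at hE₂m hfew1 hfew2 ⊢
    have h1 : Pe r E₂ ≤ Pe r (fun v => E₂ v ∧ fewT p lam₀ x T₀ κ n v) +
        Pe r (fun v => E₂ v ∧ ¬ fewT p lam₀ x T₀ κ n v) :=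
      pe_split hr0 fun v _ hEv => by
        by_cases hf : fewT p lam₀ x T₀ κ n v
        · exact Or.inl ⟨hEv, hf⟩
        · exact Or.inr ⟨hEv, hf⟩
    have h2 : Pe r (fun v => E₂ v ∧ ¬ fewT p lam₀ x T₀ κ n v) ≤
        Pe r (fun v => E₂ v ∧ fewT p lam₀ x T₀ κ n v.swap) + Pe r E₃ :=
      pe_split hr0 fun v _ hEv => by
        by_cases hf : fewT p lam₀ x T₀ κ n v.swap
        · exact Or.inl ⟨hEv.1, hf⟩
        · refine Or.inr ?_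
          rw [hE₃]
          exact ⟨hEv.1, hEv.2, hf⟩
    have h3 : 0 ≤ Pe r E := pe_nonneg' hr0 _
    linarith
  have hE₃0 : 0 < Pe (cp p lam₀) E₃ := by linarith
  have hM₀1 : 1 ≤ M₀ := by
    by_contra hcon
    have h0 : M₀ = 0 := by omega
    rw [h0, Nat.cast_zero] at hRM
    linarith
  have hlineE : ∀ v, 0 < cp p lam₀ v → ¬ fewT p lam₀ x T₀ κ n v →
      ∀ F : MvPolynomial (Option (Fin d)) ℝ, F.totalDegree ≤ D →
      Psi F (C₀ / M) (z (x v.1)) ≤ K_L * R ^ D * mx (fun ω => 0 < p ω ∧ κ (x ω) = κ (x v.2))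
        fun ω => Psi F (C₀ / M) (z (x ω)) := by
    intro v hv hfv F hF
    refine Hline hp hR hh₀0 hM₀1 hT₀ hz₀ v hv ?_ F hF
    unfold fewT at hfv
    rw [hn] at hfv
    exact hfv
  have hcpv : ∀ ω₁ ω₂, 0 < p ω₁ → 0 < p ω₂ → lam₀ ω₁ = lam₀ ω₂ → 0 < cp p lam₀ (ω₁, ω₂) := by
    intro ω₁ ω₂ h1 h2 h3
    unfold cp
    rw [if_pos h3]
    have h4 := law_pos_of (lam := lam₀) hp0 h2
    exact div_pos (mul_pos h1 h2) h4
  -- the code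
  obtain ⟨δ, hδ, hcode⟩ := Hcod (p := p) (lam₀ := lam₀) (β := β₁) (H₂ := K_L * R ^ D) (fl := fl)
    (E := E₃) hp hG hβ₁ hh₀0 hs₀ (by
      have h1 : K_c * (C₀ / M + β₁) ≤ C * (C₀ / M + β₁) :=
        mul_le_mul_of_nonneg_right (by linarith) (by positivity)
      linarith) hfl1 hflρ hρ
    (fun ω₁ ω₂ h1 h2 h3 h4 => hgood _ (hcpv ω₁ ω₂ h1 h2 h3) (hE₂E _ (hE₃2 _ h4)))
    (fun ω₁ ω₂ h1 h2 h3 h4 F hF => by
      rw [hE₃] at h4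
      obtain ⟨a1, a2, a3⟩ := h4
      rw [← hκ]
      refine ⟨hlineE _ (hcpv ω₁ ω₂ h1 h2 h3) a2 F hF, ?_⟩
      exact hlineE _ (hcpv ω₂ ω₁ h2 h1 h3.symm) a3 F hF)
  rw [← hκ] at hcode
  -- the constants
  have hH₂ : 1 ≤ K_L * R ^ D := one_le_mul_of_one_le_of_one_le hK_L (one_le_pow₀ hR)
  have hexp : 1 ≤ Real.exp h := Real.one_le_exp hh.le
  have hX1 : 1 ≤ Real.exp h * (K_L * R ^ D) := one_le_mul_of_one_le_of_one_le hexp hH₂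
  have hMb1 : Mb ≠ 0 → (1 : ℝ) ≤ Mb := fun h => by
    exact_mod_cast Nat.one_le_iff_ne_zero.2 h
  obtain ⟨K, hK⟩ : ∃ K : ℝ, K = (1 + 3 * 1 * Real.exp h * (K_L * R ^ D) *
    (3 * 1 * Real.exp h * (K_L * R ^ D))) * (2 * (Mb * (1 + 1))) / ε := ⟨_, rfl⟩
  have hMbpos : Mb ≠ 0 := by
    intro h0
    obtain ⟨ω, hω⟩ : ∃ v, 0 < cp p lam₀ v ∧ E₃ v := by
      by_contra hcon
      push Not at hcon
      have h1 := pe_mono' (r := cp p lam₀) (by rw [← hr]; exact hr0) (P := E₃)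
        (Q := fun _ => False) fun v hv hE => hcon v hv hE
      have h2 : Pe (cp p lam₀) (fun _ : Ω × Ω => False) = 0 := by
        rw [Pe_eq]
        simp
      linarith
    obtain ⟨q1, q2, q3⟩ := cp_pos hp0 hω.1
    obtain ⟨v, hv, -⟩ := hcode.eqn _ q1 (hgood _ hω.1 (hE₂E _ (hE₃2 _ hω.2))).1
    rw [hMb] at h0
    apply hv
    funext i
    exact absurd i.2 (by omega)
  have hMb1' := hMb1 hMbpos
  have hK1 : 1 ≤ K := by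
    rw [hK, le_div_iff₀ hε]
    nlinarith
  have hKC : K ≤ C * (Real.exp h * R ^ D) ^ 2 / ε := by
    rw [hK]
    refine div_le_div_of_nonneg_right ?_ hε.le
    have h1 : 40 * (Mb * K_L ^ 2) * (Real.exp h * R ^ D) ^ 2 ≤
        C * (Real.exp h * R ^ D) ^ 2 := mul_le_mul_of_nonneg_right (by linarith) (by positivity)
    refine le_trans ?_ h1
    have h2 : (1 : ℝ) ≤ (Real.exp h * (K_L * R ^ D)) ^ 2 := one_le_pow₀ hX1
    have h3 : (1 + 3 * 1 * Real.exp h * (K_L * R ^ D) *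
        (3 * 1 * Real.exp h * (K_L * R ^ D))) * (2 * (Mb * (1 + 1))) =
        4 * Mb * (1 + 9 * (Real.exp h * (K_L * R ^ D)) ^ 2) := by ring
    rw [h3]
    have h4 : 40 * (Mb * K_L ^ 2) * (Real.exp h * R ^ D) ^ 2 =
        4 * Mb * (10 * (Real.exp h * (K_L * R ^ D)) ^ 2) := by ring
    rw [h4]
    refine mul_le_mul_of_nonneg_left (by linarith) (by positivity)
  have hflK : (2 * 1 + 1) * fl * Mb < sg K Mb := by
    have h1 : (2 * 1 + 1) * fl * Mb ≤ C * fl := by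
      have : 3 * (Mb : ℝ) ≤ C := by linarith
      nlinarith
    rw [← hMb] at hflsg
    exact (h1.trans_lt hflsg).trans_le (sg_mono hK1 hKC Mb)
  have habs := Habs C₀ Ω Λ Λ₀ Ξ Z Z₀ (Z₀ × Ci × ((Fin d → Fin (k₁ * k₁ + 1)) → ℤ)) p lam lam₀ x
    T z A B zx zl Yb Ng Φ M N μ e₁ h κ ζ ζl (Nk p x z ζ s₀ (mnb (Option (Fin d)) D))
    (mnb (Option (Fin d)) D) E₃ Gd 1 1 fl (K_L * R ^ D) δ ε K θ hC₀ hM hL hmx hμ he₁ he₁0 hh
    hcode hδ le_rfl le_rfl hfl0.le hfl1 hH₂ hε hε1 (hf E₃ fun v hv => hE₂E v (hE₃2 v hv))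
    (hb E₃ hE₃2) (by
      have h1 : h * Pe (cp p lam₀) E / 2 ≤ h * Pe (cp p lam₀) E₃ := by
        have := mul_le_mul_of_nonneg_left hE₃m hh.le
        linarith
      refine le_trans ?_ h1
      have h7 : 8 * C₁ * ((N + 1) * (e₁ + 1) + μ) ≤ C * ((N + 1) * (e₁ + 1) + μ) :=
        mul_le_mul_of_nonneg_right (by linarith) hN0
      have h8 : 0 ≤ (D : ℝ) * θ := by positivity
      linarith) hE₃0 (by rw [hK, hMb]) (by
      rw [← hMb]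
      exact hflK)
  obtain ⟨vx, vl, B', hB1, hB2⟩ := habs
  refine ⟨vx, vl, B', ?_, fun ω hω => ?_⟩
  · rw [← hMb] at hB1
    have h1 : 0 ≤ Pe p B' := pe_nonneg' hp0 _
    have h2 : 4 * (Mb * 2 ^ Mb * Mb) * Pe p B' ≤ C * Pe p B' :=
      mul_le_mul_of_nonneg_right (by linarith) h1
    linarith
  · obtain ⟨b1, b2, b3, b4⟩ := hB2 ω hω
    refine ⟨b1, b2, b3, b4.trans ?_⟩
    rw [← hMb]
    exact mul_le_mul_of_nonneg_right (by linarith) hε.le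

end Pool.CLO37
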