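import Pool.Agent.H37.CLO.Rcn

/-!
# The closing lemma, with the geometry
-/

set_option autoImplicit false

namespace Pool.CLO37

open Finset Real
open Pool.Agent.H49.Ent Pool.Agent.H32.Dense Pool.STK Pool.KAF Pool.KAL Pool.KS3 Pool.M3F
open Pool.KJA Pool.KA Pool.K2S Pool.KM7

lemma pe_split {V : Type} [Fintype V] {r : V → ℝ} (hr : ∀ v, 0 ≤ r v) {P Q S : V → Prop}
    (h : ∀ v, 0 < r v → P v → Q v ∨ S v) : Pe r P ≤ Pe r Q + Pe r S := by
  classical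
  simp_rw [Pe_eq]
  rw [← Finset.sum_add_distrib]
  refine Finset.sum_le_sum fun v _ => ?_
  have h1 : (0 : ℝ) ≤ if Q v then r v else 0 := ite_nonneg (hr v) le_rfl
  have h2 : (0 : ℝ) ≤ if S v then r v else 0 := ite_nonneg (hr v) le_rfl
  by_cases hP : P v
  · rw [if_pos hP]
    rcases (hr v).eq_or_lt with h0 | h0
    · rw [← h0] at h1 h2 ⊢
      linarith
    · rcases h v h0 hP with hQ | hS
      · rw [if_pos hQ] at h1 ⊢
        linarith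
      · rw [if_pos hS] at h2 ⊢
        linarith
  · rw [if_neg hP]
    linarith

lemma pe_nonneg' {V : Type} [Fintype V] {r : V → ℝ} (hr : ∀ v, 0 ≤ r v) (P : V → Prop) :
    0 ≤ Pe r P := by
  classical
  rw [Pe_eq]
  exact Finset.sum_nonneg fun v _ => ite_nonneg (hr v) le_rfl

lemma pe_mono' {V : Type} [Fintype V] {r : V → ℝ} (hr : ∀ v, 0 ≤ r v) {P Q : V → Prop}
    (h : ∀ v, 0 < r v → P v → Q v) : Pe r P ≤ Pe r Q := by
  have h1 := pe_split hr (P := P) (Q := Q) (S := fun _ => False) fun v hv hP => Or.inl (h v hv hP)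
  have h2 : Pe r (fun _ : V => False) = 0 := by
    classical
    rw [Pe_eq]
    simp
  linarith

lemma pe_swap {Ω Λ₀ : Type} [Fintype Ω] (p : Ω → ℝ) (g : Ω → Λ₀) (E : Ω × Ω → Prop) :
    Pe (cp p g) (fun v => E v.swap) = Pe (cp p g) E := by
  classical
  simp_rw [Pe_eq]
  rw [← Equiv.sum_comp (Equiv.prodComm Ω Ω)]
  refine Finset.sum_congr rfl fun v _ => ?_
  have h1 : cp p g ((Equiv.prodComm Ω Ω) v) = cp p g v := by
    rw [cp_eq]
    exact P2_swap p g v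
  rw [h1]
  simp only [Equiv.prodComm_apply, Prod.swap_swap]

lemma cod_swap {Ω Λ₀ Ξ Z Γ : Type} [Fintype Ω] {p : Ω → ℝ} (g : Ω → Λ₀) (x : Ω → Ξ)
    (κ : Ξ → Γ) (E : Ω × Ω → Prop) (zx : Ξ → Z) :
    CH (cp p g) (cod x κ (fun v => E v.swap) Prod.snd) (fun v => zx (x v.1)) =
      CH (cp p g) (cod x κ E Prod.fst) (fun v => zx (x v.2)) := by
  have h1 := Psh.CH_eq (cp_swap_psh p g) (cod x κ E Prod.fst) (fun v => zx (x v.2))
  rw [← h1]
  rfl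

lemma cp_swap' {Ω Λ₀ : Type} [Fintype Ω] (p : Ω → ℝ) (g : Ω → Λ₀) (v : Ω × Ω) :
    cp p g v.swap = cp p g v := by
  rw [cp_eq]
  exact P2_swap p g v

lemma sg_mono {K K' : ℝ} (hK : 1 ≤ K) (h : K ≤ K') (k : ℕ) : sg K' k ≤ sg K k := by
  unfold sg
  have h0 : 0 < K := by linarith
  exact one_div_le_one_div_of_le (by positivity) (pow_le_pow_left₀ h0.le h _)

section

variable {d : ℕ} {Ω Λ Λ₀ Ξ Z Z₀ Ci : Type} [Fintype Ω]

/-- The samples of the second component have the code of few times. -/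
def fewT (p : Ω → ℝ) (lam₀ : Ω → Λ₀) (x : Ω → Ξ) (T₀ : Ξ → ℕ) {Γ : Type} (κ : Ξ → Γ) (n : ℕ)
    (v : Ω × Ω) : Prop := (tms p lam₀ x T₀ κ (lam₀ v.2) (κ (x v.2))).card ≤ n

end

/-- **The first part of the events**: the leaves of the first sample are near the leaf of the
second one, and the equation of the second one is not small at the first one. -/
theorem clo_two (d D k₀ k₁ : ℕ) : ∃ C : ℝ, 1 ≤ C ∧
    ∀ {C₀ : ℝ} {Ω Λ Λ₀ Ξ Z Z₀ Ci : Type} [Fintype Ω] {p : Ω → ℝ} {lam : Ω → Λ} {lam₀ : Ω → Λ₀}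
      {x : Ω → Ξ} {T T₀ : Ξ → ℕ} {z : Ξ → Option (Fin d) → ℝ} {A B : Λ → Option (Fin d) → ℝ}
      {A₀ B₀ : Λ₀ → Option (Fin d) → ℝ} {zx : Ξ → Z} {zl : Λ → Z} {Yb : Ξ → Fin d → ℕ}
      {Ng : Z → Fin d → ℕ} {Φ : Z → Option (Fin d) → MvPolynomial (Fin d) ℝ}
      {M M₀ N NC n₀ : ℕ} {μ e₁ e₀ h R : ℝ} {ζ : Ξ → Z₀} {ζl : Λ₀ → Z₀} {pz : Z → Z₀}
      {ci : Ξ → Ci} {χ : Z₀ → Ci → Fin d → MvPolynomial (Fin d) ℝ}
      {gN : Z → MvPolynomial (Fin d) ℝ} {Q : Z → MvPolynomial (Option (Fin d)) ℝ} {MB : Z → ℝ}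
      {g₀ : Z₀ → (Fin d → ℝ) → ℝ} {Gd : Ω → Prop} {s₀ s₁ ρ H₁ β θ : ℝ}
      {a : Z → Ci → Fin n₀ → (Fin d → ℝ) → ℝ} {E : Ω × Ω → Prop},
      1 ≤ C₀ → 1 ≤ M → CLeaf k₀ C₀ M p lam x T z A B zx zl Yb Ng Φ →
      MxC N μ p lam x (fun ξ => ∑ i, Real.log (Ng (zx ξ) i)) Yb → 0 ≤ μ →
      Real.log M - CH p (fun ω => T (x ω)) lam ≤ e₁ → 0 ≤ e₁ → 0 < h →
      GeoOK p lam₀ x z zx Φ (C₀ / M) ζ ζl pz ci χ gN Q MB g₀ Gd k₁ D NC s₀ s₁ ρ H₁ →
      (∀ ω, 0 < p ω → T₀ (x ω) < M₀) →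
      (∀ ω, 0 < p ω → ∀ i,
        |z (x ω) i - (A₀ (lam₀ ω) i + (T₀ (x ω) : ℝ) * B₀ (lam₀ ω) i)| ≤ C₀ / M) →
      Real.log M₀ - CH p (fun ω => T₀ (x ω)) lam₀ ≤ e₀ → 0 ≤ e₀ →
      (∀ v, 0 < cp p lam₀ v → E v → Gd v.1 ∧ Gd v.2) →
      (∀ v, 0 < cp p lam₀ v → E v → ∃ i, ∀ u ∈ ucube d,
        |MvPolynomial.eval (cpt (χ (ζ (x v.2)) (ci (x v.2))) u) (gN (zx (x v.2))) -
          a (zx (x v.1)) (ci (x v.2)) i u| ≤ β) →
      0 < β → 0 < s₀ → C * (C₀ / M + β) ≤ s₀ → 0 ≤ ρ → 0 ≤ H₁ → 1 ≤ R → R ≤ M₀ →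
      Real.log (NC * (n₀ * 3 ^ Fintype.card (Fin d → Fin (k₁ * k₁ + 1))) + 1) ≤ θ →
      0 < Pe (cp p lam₀) E →
      16 * (θ + e₀ + 1) ≤ (Real.log R - Real.log (2 * (D + 1))) * Pe (cp p lam₀) E →
      32 * D * θ + C * ((N + 1) * (e₁ + 1) + μ) ≤ h * Pe (cp p lam₀) E →
      ∃ E₂ : Ω × Ω → Prop, Pe (cp p lam₀) E ≤ Pe (cp p lam₀) E₂ + 3 / 16 * Pe (cp p lam₀) E ∧
        (∀ v, E₂ v → E v) ∧
        (∀ v, 0 < cp p lam₀ v → E₂ v → ∀ u ∈ ucube d, |MvPolynomial.eval (lpt (gN (zx (x v.1)))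
          (cpt (χ (ζ (x v.1)) (ci (x v.1))) u)) (Q (zx (x v.2)))| ≤
            C * (Real.exp h * R ^ D * (ρ + (C₀ / M + β) / s₀)) * MB (zx (x v.2))) ∧
        (∀ v, 0 < cp p lam₀ v → E₂ v →
          MB (zx (x v.2)) ≤ C * (R ^ D * H₁) * Psi (Q (zx (x v.2))) s₀ (z (x v.1))) := by
  classical
  obtain ⟨C₂, hC₂, Hlrp⟩ := lrp_ev (Option (Fin d)) d D k₀
  obtain ⟨K_L, hK_L, Hline⟩ := line_ok (Option (Fin d)) D
  obtain ⟨K_w, hK_w, Hlow⟩ := low_pair (Option (Fin d)) D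
  obtain ⟨K_m, hK_m, Hmove⟩ := psi_move (Option (Fin d)) D
  obtain ⟨K_g, hK_g, Hnear⟩ := kap_near d k₁
  have hp2 : (1 : ℝ) ≤ 2 ^ D := one_le_pow₀ one_le_two
  obtain ⟨Kq, hKq⟩ : ∃ Kq : ℝ, Kq = K_L * (2 ^ D * K_m * K_g) := ⟨_, rfl⟩
  have hKq1 : 1 ≤ Kq := by
    rw [hKq]
    exact one_le_mul_of_one_le_of_one_le hK_L
      (one_le_mul_of_one_le_of_one_le (one_le_mul_of_one_le_of_one_le hp2 hK_m) hK_g)
  refine ⟨Kq + K_w + K_g + 16 * (2 * D + C₂) + 16, by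
    have : (0 : ℝ) ≤ D := Nat.cast_nonneg D
    linarith, ?_⟩
  intro C₀ Ω Λ Λ₀ Ξ Z Z₀ Ci _ p lam lam₀ x T T₀ z A B A₀ B₀ zx zl Yb Ng Φ M M₀ N NC n₀ μ e₁ e₀ h
    R ζ ζl pz ci χ gN Q MB g₀ Gd s₀ s₁ ρ H₁ β θ a E hC₀ hM hL hmx hμ he₁ he₁0 hh hG hT₀ hz₀ he₀
    he₀0 hgood hgeo hβ hs₀ hss hρ hH₁ hR hRM hθ hE hpr1 hpr2
  obtain ⟨C, hC⟩ : ∃ C : ℝ, C = Kq + K_w + K_g + 16 * (2 * D + C₂) + 16 := ⟨_, rfl⟩
  rw [← hC] at hss hpr2 ⊢
  have hD0 : (0 : ℝ) ≤ D := Nat.cast_nonneg D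
  have hC1 : 1 ≤ C := by linarith
  have hC0 : 0 ≤ C := by linarith
  have hp := hL.inc.isLaw
  have hp0 := hp.nonneg
  obtain ⟨r, hr⟩ : ∃ r, r = cp p lam₀ := ⟨_, rfl⟩
  have hrl : IsLaw r := by rw [hr]; exact cp_isLaw hp
  have hr0 := hrl.nonneg
  rw [← hr] at hgood hgeo hE hpr1 hpr2 ⊢
  have hM0 : (0 : ℝ) < M := by exact_mod_cast hM
  obtain ⟨h₀, hh₀⟩ : ∃ h₀ : ℝ, h₀ = C₀ / M := ⟨_, rfl⟩
  rw [← hh₀] at hG hz₀ hss ⊢
  have hh₀0 : 0 < h₀ := by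
    rw [hh₀]
    positivity
  have hθ0 : 0 ≤ θ := by
    refine le_trans (Real.log_nonneg ?_) hθ
    have : (0 : ℝ) ≤ NC * (n₀ * 3 ^ Fintype.card (Fin d → Fin (k₁ * k₁ + 1))) := by positivity
    linarith
  obtain ⟨κ, hκ⟩ : ∃ κ, κ = kap zx ζ ci χ gN (k₁ * k₁) β := ⟨_, rfl⟩
  obtain ⟨n, hn⟩ : ∃ n : ℕ, n = ⌈(M₀ : ℝ) / R⌉₊ * (D + 1) := ⟨_, rfl⟩
  obtain ⟨L, hLL⟩ : ∃ L : ℝ, L = Real.log R - Real.log (2 * (D + 1)) := ⟨_, rfl⟩
  rw [← hLL] at hpr1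
  have hPE1 : Pe r E ≤ 1 := by
    have h1 := pe_mono' hr0 (P := E) (Q := fun _ => True) fun _ _ _ => trivial
    have h2 : Pe r (fun _ : Ω × Ω => True) = 1 := by
      rw [Pe_eq, ← hrl.sum_one]
      exact Finset.sum_congr rfl fun v _ => if_pos trivial
    linarith
  have hL0 : 0 < L := by
    by_contra hcon
    push Not at hcon
    have h1 : L * Pe r E ≤ 0 := mul_nonpos_of_nonpos_of_nonneg hcon hE.le
    have h2 : 0 < 16 * (θ + e₀ + 1) := by positivity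
    linarith
  -- the fine code is taken at many times
  have hth : CH r (cod x κ E Prod.snd) (fun v => zx (x v.1)) ≤ θ := by
    rw [hr, hκ]
    rw [hr] at hgeo
    exact (fwd_cnt hp hG hβ hgeo (k₁ * k₁)).trans hθ
  have hfew : Pe r (fun v => E v ∧ fewT p lam₀ x T₀ κ n v) ≤ Pe r E / 16 := by
    have hth' := hth
    rw [hr] at hth'
    have h1 := line_few (T₀ := T₀) (n := n) hp hT₀ he₀ hth'
    rw [← hr] at h1
    have h2 : L ≤ Real.log M₀ - Real.log n := by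
      rw [hLL, hn]
      exact log_few hR hRM D
    have h3 : 0 ≤ Pe r (fun v => E v ∧ fewT p lam₀ x T₀ κ n v) := pe_nonneg' hr0 _
    have h4 : Pe r (fun v => E v ∧ fewT p lam₀ x T₀ κ n v) * L ≤ θ + e₀ :=
      (mul_le_mul_of_nonneg_left h2 h3).trans h1
    have h5 : 16 * (θ + e₀) ≤ L * Pe r E := by
      refine le_trans ?_ hpr1
      have : 0 ≤ θ + e₀ := by linarith
      nlinarith
    rw [le_div_iff₀ (by norm_num : (0 : ℝ) < 16)]
    by_contra hcon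
    push Not at hcon
    nlinarith
  -- the first event
  obtain ⟨E₁, hE₁⟩ : ∃ E₁ : Ω × Ω → Prop, E₁ = fun v => 0 < r v ∧ E v ∧
    ¬ fewT p lam₀ x T₀ κ n v := ⟨_, rfl⟩
  have hlineE : ∀ v, E₁ v → ∀ F : MvPolynomial (Option (Fin d)) ℝ, F.totalDegree ≤ D →
      Psi F h₀ (z (x v.1)) ≤ K_L * R ^ D * mx (fun ω => 0 < p ω ∧ κ (x ω) = κ (x v.2))
        fun ω => Psi F h₀ (z (x ω)) := by
    intro v hv F hF
    rw [hE₁] at hv
    obtain ⟨v1, v2, v3⟩ := hv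
    rw [hr] at v1
    refine Hline hp hR hh₀0 (by
      by_contra hcon
      have h0 : M₀ = 0 := by omega
      rw [h0, Nat.cast_zero] at hRM
      linarith) hT₀ hz₀ v v1 ?_ F hF
    unfold fewT at v3
    rw [hn] at v3
    exact v3
  -- the event of the passage to the whole leaf
  obtain ⟨badL, hbadL⟩ : ∃ badL : Ω × Ω → Prop, badL = fun v => E₁ v ∧
    ∃ (F : MvPolynomial (Option (Fin d)) ℝ) (u : Fin d → ℝ), F ≠ 0 ∧ F.totalDegree ≤ D ∧
      u ∈ ucube d ∧ ∀ v', 0 < r v' → E₁ v' → zx (x v'.1) = zx (x v.1) →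
        κ (x v'.2) = κ (x v.2) →
        Real.exp h * Psi F (C₀ / M) (z (x v'.1)) < Psi F (C₀ / M) (cpt (Φ (zx (x v.1))) u) :=
    ⟨_, rfl⟩
  have hbL : Pe r badL ≤ Pe r E / 16 := by
    have h1 := Hlrp C₀ Ω Λ Ξ Z (Ω × Ω) (Z₀ × Ci × ((Fin d → Fin (k₁ * k₁ + 1)) → ℤ)) p lam x T z
      A B zx zl Yb Ng Φ M N μ e₁ h r (fun v => x v.1) (fun v => κ (x v.2)) E₁ hC₀ hM hL hmx hμ he₁
      he₁0 hh hrl (fun ξ => by
        rw [hr]
        exact cp_law_fst hp0 x ξ)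
    have h2 : Pe r badL ≤ (2 * D * CH r (fun v => if E₁ v then some (κ (x v.2)) else none)
        (fun v => zx (x v.1)) + C₂ * ((N + 1) * (e₁ + 1) + μ)) / h := by
      refine le_trans (le_of_eq ?_) h1
      rw [Pe_eq]
      refine Finset.sum_congr rfl fun v _ => ?_
      by_cases hb : badL v
      · rw [if_pos hb]
        rw [hbadL] at hb
        rw [if_pos hb]
      · rw [if_neg hb]
        rw [hbadL] at hb
        rw [if_neg hb]
    have h3 : CH r (fun v => if E₁ v then some (κ (x v.2)) else none)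
        (fun v => zx (x v.1)) ≤ θ := by
      have h4 := (fwd_cnt (E := E₁) (n₀ := n₀) (a := a) hp hG hβ (fun v hv hEv => by
        rw [← hr] at hv
        rw [hE₁] at hEv
        exact hgeo v hv hEv.2.1) (k₁ * k₁)).trans hθ
      rw [← hr, ← hκ] at h4
      exact h4
    refine h2.trans ?_
    rw [div_le_iff₀ hh]
    have h5 : 0 ≤ ((N : ℝ) + 1) * (e₁ + 1) + μ := by positivity
    have h6 : 16 * (2 * D * θ + C₂ * ((N + 1) * (e₁ + 1) + μ)) ≤ h * Pe r E := by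
      refine le_trans ?_ hpr2
      have h7 : 16 * C₂ * ((N + 1) * (e₁ + 1) + μ) ≤ C * ((N + 1) * (e₁ + 1) + μ) :=
        mul_le_mul_of_nonneg_right (by linarith) h5
      linarith
    have h7 : 2 * D * CH r (fun v => if E₁ v then some (κ (x v.2)) else none)
        (fun v => zx (x v.1)) ≤ 2 * D * θ := mul_le_mul_of_nonneg_left h3 (by positivity)
    linarith
  -- the event of the lower bound
  obtain ⟨badW, hbadW⟩ : ∃ badW : Ω × Ω → Prop, badW = fun v =>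
    K_w * R ^ D * Psi (Q (zx (x v.2))) s₀ (z (x v.1)) < Psi (Q (zx (x v.2))) s₀ (z (x v.2)) :=
    ⟨_, rfl⟩
  have hhs : h₀ ≤ s₀ := by
    have h1 : h₀ + β ≤ C * (h₀ + β) := le_mul_of_one_le_left (by positivity) hC1
    linarith
  have hbW : Pe r badW ≤ Pe r E / 16 := by
    have h1 := Hlow (fun ξ => Q (zx ξ)) hp hR hRM hh₀0 hhs hT₀ hz₀ he₀ fun ξ => hG.QD _
    rw [← hr, ← hbadW, ← hLL] at h1
    have h2 : Real.log 2 ≤ 1 := by
      have := Real.log_two_lt_d9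
      linarith
    have h3 : 0 ≤ Pe r badW := pe_nonneg' hr0 _
    have h5 : 16 * (e₀ + 1) ≤ L * Pe r E := by
      refine le_trans ?_ hpr1
      have : 0 ≤ θ + e₀ + 1 := by linarith
      nlinarith
    rw [le_div_iff₀ (by norm_num : (0 : ℝ) < 16)]
    by_contra hcon
    push Not at hcon
    nlinarith
  -- the second event
  refine ⟨fun v => E₁ v ∧ ¬ badL v ∧ ¬ badW v, ?_, ?_, ?_, ?_⟩
  · have h1 : Pe r E ≤ Pe r (fun v => E v ∧ fewT p lam₀ x T₀ κ n v) + Pe r E₁ :=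
      pe_split hr0 fun v hv hEv => by
        by_cases hf : fewT p lam₀ x T₀ κ n v
        · exact Or.inl ⟨hEv, hf⟩
        · refine Or.inr ?_
          rw [hE₁]
          exact ⟨hv, hEv, hf⟩
    have h2 : Pe r E₁ ≤ Pe r badL + Pe r (fun v => E₁ v ∧ ¬ badL v) :=
      pe_split hr0 fun v _ hEv => by
        by_cases hb : badL v
        · exact Or.inl hb
        · exact Or.inr ⟨hEv, hb⟩
    have h3 : Pe r (fun v => E₁ v ∧ ¬ badL v) ≤ Pe r badW +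
        Pe r (fun v => E₁ v ∧ ¬ badL v ∧ ¬ badW v) :=
      pe_split hr0 fun v _ hEv => by
        by_cases hb : badW v
        · exact Or.inl hb
        · exact Or.inr ⟨hEv.1, hEv.2, hb⟩
    linarith
  · intro v hv
    have := hv.1
    rw [hE₁] at this
    exact this.2.1
  · intro v hv hEv u hu
    obtain ⟨v1, v2, v3⟩ := hEv
    have hE1 := v1
    rw [hE₁] at hE1
    obtain ⟨g1, g2⟩ := hgood v hv hE1.2.1
    have hv' := hv
    rw [hr] at hv'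
    obtain ⟨q1, q2, q3⟩ := cp_pos hp0 hv'
    obtain ⟨u', hu', huΦ⟩ := hG.ins v.1 q1 g1 u hu
    -- the smallness on the samples with the code
    obtain ⟨γ, hγ⟩ : ∃ γ : ℝ, γ = (ρ + K_m * ((h₀ + K_g * β) / s₀) * 2 ^ D) *
      MB (zx (x v.2)) := ⟨_, rfl⟩
    have hMB := hG.MBp v.2 q2 g2
    have hγ0 : 0 ≤ γ := by
      rw [hγ]
      positivity
    have hks : h₀ + K_g * β ≤ s₀ := by
      have h1 : h₀ + K_g * β ≤ C * (h₀ + β) := by
        have h2 : K_g ≤ C := by linarith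
        have h3 : K_g * β ≤ C * β := mul_le_mul_of_nonneg_right h2 hβ.le
        have h4 : h₀ ≤ C * h₀ := le_mul_of_one_le_left hh₀0.le hC1
        linarith
      linarith
    have hmxb : mx (fun ω => 0 < p ω ∧ κ (x ω) = κ (x v.2))
        (fun ω => Psi (Q (zx (x v.2))) h₀ (z (x ω))) ≤ γ := by
      have : Nonempty Ω := ⟨v.1⟩
      refine mx_le hγ0 fun ω' hω' => ?_
      rw [hκ] at hω'
      obtain ⟨-, w, hw, hwz⟩ := Hnear hG hβ v.2 ω' q2 g2 hω'.1 hω'.2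
      have h1 := Hmove (Q (zx (x v.2))) h₀ (h₀ + K_g * β) s₀ (cpt (Φ (zx (x v.2))) w)
        (z (x ω')) (hG.QD _) hh₀0.le hhs (by positivity) hks hwz
      have h2 := hG.eq v.2 q2 g2 w hw
      have h3 := hG.upp v.2 q2 g2 w hw
      have h4 := Psi_le_of_near (Q (zx (x v.2))) s₀ hs₀.le (cpt (Φ (zx (x v.2))) w) (z (x ω'))
        fun o => (hwz o).trans hks
      have h5 : (2 : ℝ) ^ (Q (zx (x v.2))).totalDegree ≤ 2 ^ D :=
        pow_le_pow_right₀ (by norm_num) (hG.QD _)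
      have h6 : Psi (Q (zx (x v.2))) s₀ (z (x ω')) ≤ 2 ^ D * MB (zx (x v.2)) := by
        refine h4.trans (mul_le_mul h5 h3 (Psi_nonneg _ _ _) (by positivity))
      have h7 : K_m * ((h₀ + K_g * β) / s₀) * Psi (Q (zx (x v.2))) s₀ (z (x ω')) ≤
          K_m * ((h₀ + K_g * β) / s₀) * (2 ^ D * MB (zx (x v.2))) :=
        mul_le_mul_of_nonneg_left h6 (by positivity)
      rw [hγ]
      nlinarith
    -- outside the bad event
    have hnb : ∃ v', 0 < r v' ∧ E₁ v' ∧ zx (x v'.1) = zx (x v.1) ∧ κ (x v'.2) = κ (x v.2) ∧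
        Psi (Q (zx (x v.2))) (C₀ / M) (cpt (Φ (zx (x v.1))) u') ≤
          Real.exp h * Psi (Q (zx (x v.2))) (C₀ / M) (z (x v'.1)) := by
      by_contra hcon
      push Not at hcon
      apply v2
      rw [hbadL]
      exact ⟨v1, Q (zx (x v.2)), u', hG.Q0 v.2 q2 g2, hG.QD _, hu', hcon⟩
    obtain ⟨v', w1, w2, w3, w4, w5⟩ := hnb
    rw [← hh₀] at w5
    have h1 := hlineE v' w2 (Q (zx (x v.2))) (hG.QD _)
    rw [w4] at h1
    have h2 : Psi (Q (zx (x v.2))) h₀ (z (x v'.1)) ≤ K_L * R ^ D * γ :=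
      h1.trans (mul_le_mul_of_nonneg_left hmxb (by positivity))
    have h3 : |MvPolynomial.eval (lpt (gN (zx (x v.1)))
        (cpt (χ (ζ (x v.1)) (ci (x v.1))) u)) (Q (zx (x v.2)))| ≤
          Real.exp h * (K_L * R ^ D * γ) := by
      rw [← huΦ]
      exact ((abs_eval_le_Psi _ h₀ _).trans w5).trans
        (mul_le_mul_of_nonneg_left h2 (Real.exp_pos h).le)
    refine h3.trans ?_
    rw [hγ]
    have h4 : K_L * (ρ + K_m * ((h₀ + K_g * β) / s₀) * 2 ^ D) ≤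
        Kq * (ρ + (h₀ + β) / s₀) := by
      have h5 : (h₀ + K_g * β) / s₀ ≤ K_g * ((h₀ + β) / s₀) := by
        rw [mul_div_assoc']
        refine div_le_div_of_nonneg_right ?_ hs₀.le
        nlinarith
      have h6 : K_m * ((h₀ + K_g * β) / s₀) * 2 ^ D ≤
          K_m * (K_g * ((h₀ + β) / s₀)) * 2 ^ D := by
        refine mul_le_mul_of_nonneg_right (mul_le_mul_of_nonneg_left h5 (by linarith))
          (by positivity)
      have h7 : ρ ≤ 2 ^ D * K_m * K_g * ρ := by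
        refine le_mul_of_one_le_left hρ ?_
        exact one_le_mul_of_one_le_of_one_le (one_le_mul_of_one_le_of_one_le hp2 hK_m) hK_g
      calc K_L * (ρ + K_m * ((h₀ + K_g * β) / s₀) * 2 ^ D)
          ≤ K_L * (2 ^ D * K_m * K_g * ρ + K_m * (K_g * ((h₀ + β) / s₀)) * 2 ^ D) :=
            mul_le_mul_of_nonneg_left (add_le_add h7 h6) (by linarith)
        _ = Kq * (ρ + (h₀ + β) / s₀) := by
            rw [hKq]
            ring
    have h5 : Kq * (ρ + (h₀ + β) / s₀) ≤ C * (ρ + (h₀ + β) / s₀) :=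
      mul_le_mul_of_nonneg_right (by linarith) (by positivity)
    calc Real.exp h * (K_L * R ^ D * ((ρ + K_m * ((h₀ + K_g * β) / s₀) * 2 ^ D) *
          MB (zx (x v.2))))
        = Real.exp h * R ^ D * (K_L * (ρ + K_m * ((h₀ + K_g * β) / s₀) * 2 ^ D)) *
          MB (zx (x v.2)) := by ring
      _ ≤ Real.exp h * R ^ D * (C * (ρ + (h₀ + β) / s₀)) * MB (zx (x v.2)) := by
          refine mul_le_mul_of_nonneg_right (mul_le_mul_of_nonneg_left (h4.trans h5) ?_) hMB.le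
          have := Real.exp_pos h
          positivity
      _ = _ := by ring
  · intro v hv hEv
    obtain ⟨v1, v2, v3⟩ := hEv
    rw [hE₁] at v1
    obtain ⟨g1, g2⟩ := hgood v hv v1.2.1
    have hv' := hv
    rw [hr] at hv'
    obtain ⟨q1, q2, q3⟩ := cp_pos hp0 hv'
    rw [hbadW] at v3
    push Not at v3
    have h1 := hG.low v.2 q2 g2
    have h2 := Psi_nonneg (Q (zx (x v.2))) s₀ (z (x v.1))
    calc MB (zx (x v.2)) ≤ H₁ * Psi (Q (zx (x v.2))) s₀ (z (x v.2)) := h1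
      _ ≤ H₁ * (K_w * R ^ D * Psi (Q (zx (x v.2))) s₀ (z (x v.1))) :=
          mul_le_mul_of_nonneg_left v3 hH₁
      _ = K_w * (R ^ D * H₁ * Psi (Q (zx (x v.2))) s₀ (z (x v.1))) := by ring
      _ ≤ C * (R ^ D * H₁ * Psi (Q (zx (x v.2))) s₀ (z (x v.1))) :=
          mul_le_mul_of_nonneg_right (by linarith) (by positivity)
      _ = _ := by ring

end Pool.CLO37
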