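import Pool.Agent.H86.KJ.Lrc
import Pool.Agent.H37.M3F.Fam
import Pool.Agent.H5.M3F.Wgt

/-!
# From closed labels on natural boxes to leaves with charts
-/

set_option autoImplicit false

namespace Pool.CLO37

open Finset Real MvPolynomial
open Pool.Agent.H49.Ent Pool.Agent.H32.Dense Pool.STK Pool.KAF Pool.KAL Pool.KS3 Pool.M3F
open Pool.KJA Pool.KA Pool.K2S Pool.KSAT Pool.PB Pool.STAT Pool.GEN

section chart

variable {d : ℕ} {M : ℕ} {Ng : Fin d → ℕ} {g : Fin d → MvPolynomial (Fin d) ℝ}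
  {gN : MvPolynomial (Fin d) ℝ} {b : Fin d → ℤ}

/-- The chart of a leaf has natural sizes, with a factor. -/
lemma tri_nchiK {K₀ : ℕ} {Lp Kp : ℝ} (hM : 1 ≤ M) (hN : ∀ i, 1 ≤ Ng i) (hKp : 2 ≤ Kp)
    (hNM : ∀ i, (Ng i : ℝ) ≤ Kp * M)
    (hg : TriP g) (hLp : 0 ≤ Lp) (hdeg : ∀ i, (g i).totalDegree ≤ K₀)
    (hdegN : gN.totalDegree ≤ K₀)
    (hgr : ∀ y ∈ ncell M Ng g b, ∀ i l, |MvPolynomial.eval y (MvPolynomial.pderiv l (g i))| ≤ Lp)
    (hgrN : ∀ y ∈ ncell M Ng g b, ∀ l, |MvPolynomial.eval y (MvPolynomial.pderiv l gN)| ≤ Lp) :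
    Tri ((K₀ + 1) ^ (d + 1)) (Kp * (1 + d * Lp) ^ (d + 1)) M Ng
      (fun i => MvPolynomial.bind₁ (nchi M Ng g b) (g i) + MvPolynomial.C (ncor M Ng b i))
      (nwid M Ng) (MvPolynomial.bind₁ (nchi M Ng g b) gN) := by
  classical
  have hM0 : (0 : ℝ) < M := by exact_mod_cast hM
  have hN0 : ∀ i, (0 : ℝ) < Ng i := fun i => by exact_mod_cast hN i
  have hw : ∀ i, 0 < nwid M Ng i := fun i => by
    have := hN0 i
    unfold nwid
    positivity
  have hd0 : (0 : ℝ) ≤ d := Nat.cast_nonneg d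
  have hB : 1 ≤ 1 + (d : ℝ) * Lp := by
    have : (0 : ℝ) ≤ d * Lp := by positivity
    linarith
  have hB1 : 1 ≤ (1 + (d : ℝ) * Lp) ^ (d + 1) := one_le_pow₀ hB
  have hC₀ : 2 ≤ Kp * (1 + (d : ℝ) * Lp) ^ (d + 1) := by nlinarith
  have hdchi : ∀ i, (nchi M Ng g b i).totalDegree ≤ (K₀ + 1) ^ d :=
    fun i => deg_chiN g (ncor M Ng b) (nwid M Ng) K₀ hdeg d i
  have hbdeg : ∀ Q : MvPolynomial (Fin d) ℝ, Q.totalDegree ≤ K₀ →
      (MvPolynomial.bind₁ (nchi M Ng g b) Q).totalDegree ≤ (K₀ + 1) ^ (d + 1) := by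
    intro Q hQ
    refine (SML.totalDegree_bind_le _ ((K₀ + 1) ^ d) hdchi Q).trans ?_
    calc (K₀ + 1) ^ d * Q.totalDegree ≤ (K₀ + 1) ^ d * (K₀ + 1) :=
          Nat.mul_le_mul_left _ (hQ.trans (Nat.le_succ _))
      _ = (K₀ + 1) ^ (d + 1) := (pow_succ _ _).symm
  -- the derivatives of the chart
  have hder : ∀ u ∈ ucube d, ∀ i l, |MvPolynomial.eval u (MvPolynomial.pderiv l
      (nchi M Ng g b i))| ≤ nwid M Ng l * (1 + d * Lp) ^ d := by
    intro u hu i l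
    have h1 := abs_pderiv_chiN g hg (ncor M Ng b) (nwid M Ng) hw Lp hLp u
      (fun i l => hgr _ (nchi_mem hM hN hg hu) i l) i l
    refine h1.trans (mul_le_mul_of_nonneg_left ?_ (hw l).le)
    exact pow_le_pow_right₀ hB i.2
  refine ⟨hN, ?_, ?_, hbdeg gN hdegN, ?_, hw, ?_, ?_, ?_, ?_⟩
  · intro i
    refine (hNM i).trans (mul_le_mul_of_nonneg_right ?_ hM0.le)
    nlinarith
  · intro i
    refine (MvPolynomial.totalDegree_add _ _).trans (max_le (hbdeg _ (hdeg i)) ?_)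
    rw [MvPolynomial.totalDegree_C]
    exact Nat.zero_le _
  · intro i i' hii
    rw [map_add, MvPolynomial.pderiv_C, add_zero, pderiv_bind]
    refine Finset.sum_eq_zero fun r _ => ?_
    by_cases hr : i ≤ r
    · rw [hg i r hr, map_zero, zero_mul]
    · have h1 : MvPolynomial.pderiv i' (nchi M Ng g b r) = 0 :=
        pderiv_chiN_zero g hg (ncor M Ng b) (nwid M Ng) d r i' ((not_le.mp hr).trans_le hii)
      rw [h1, mul_zero]
  · intro i
    change nwid M Ng i ≤ _ * nwid M Ng i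
    have := hw i
    nlinarith
  · intro i
    change nwid M Ng i ≤ _ * nwid M Ng i
    have := hw i
    nlinarith
  · intro u hu i i'
    have e1 : MvPolynomial.bind₁ (nchi M Ng g b) (g i') + MvPolynomial.C (ncor M Ng b i') =
        nchi M Ng g b i' - MvPolynomial.C (nwid M Ng i') * MvPolynomial.X i' := by
      rw [← triC_nchi (M := M) (Ng := Ng) (g := g) (gN := gN) (b := b) hg i']
      change _ = MvPolynomial.bind₁ (nchi M Ng g b) (g i') + MvPolynomial.C (ncor M Ng b i') +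
        MvPolynomial.C (nwid M Ng i') * MvPolynomial.X i' -
        MvPolynomial.C (nwid M Ng i') * MvPolynomial.X i'
      rw [add_sub_cancel_right]
    rw [e1, map_sub, map_sub]
    have h1 := hder u hu i' i
    have h2 : |MvPolynomial.eval u (MvPolynomial.pderiv i (MvPolynomial.C (nwid M Ng i') *
        MvPolynomial.X i'))| ≤ nwid M Ng i := by
      rw [Derivation.leibniz, MvPolynomial.pderiv_X, MvPolynomial.pderiv_C, smul_eq_mul,
        smul_eq_mul, mul_zero, add_zero, map_mul, MvPolynomial.eval_C]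
      have := hw i
      by_cases h : i = i'
      · subst h
        rw [Pi.single_eq_same, map_one, mul_one, abs_of_pos this]
      · rw [Pi.single_eq_of_ne (fun h' => h h'.symm), map_zero, mul_zero, abs_zero]
        exact this.le
    refine (abs_sub _ _).trans ((add_le_add h1 h2).trans ?_)
    change nwid M Ng i * _ + nwid M Ng i ≤ _ * nwid M Ng i
    have h3 : (1 + (d : ℝ) * Lp) ^ d ≤ (1 + d * Lp) ^ (d + 1) :=
      pow_le_pow_right₀ hB (Nat.le_succ d)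
    have h4 : (1 + (d : ℝ) * Lp) ^ d + 1 ≤ Kp * (1 + d * Lp) ^ (d + 1) := by nlinarith
    have := hw i
    nlinarith
  · intro u hu i
    rw [pderiv_bind, map_sum]
    refine (Finset.abs_sum_le_sum_abs _ _).trans ?_
    calc ∑ r, |MvPolynomial.eval u (MvPolynomial.bind₁ (nchi M Ng g b)
          (MvPolynomial.pderiv r gN) * MvPolynomial.pderiv i (nchi M Ng g b r))| ≤
          ∑ _r : Fin d, Lp * (nwid M Ng i * (1 + d * Lp) ^ d) := by
            refine Finset.sum_le_sum fun r _ => ?_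
            rw [map_mul, abs_mul, Pool.M3F.eval_bind]
            exact mul_le_mul (hgrN _ (nchi_mem hM hN hg hu) r) (hder u hu r i) (abs_nonneg _) hLp
      _ = d * Lp * (nwid M Ng i * (1 + d * Lp) ^ d) := by
          rw [Finset.sum_const, Finset.card_univ, Fintype.card_fin, nsmul_eq_mul]
          ring
      _ ≤ (1 + d * Lp) * (nwid M Ng i * (1 + d * Lp) ^ d) := by
          have := hw i
          exact mul_le_mul_of_nonneg_right (by linarith) (by positivity)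
      _ = (1 + d * Lp) ^ (d + 1) * nwid M Ng i := by ring
      _ ≤ Kp * (1 + d * Lp) ^ (d + 1) * nwid M Ng i := by
          have := hw i
          refine mul_le_mul_of_nonneg_right ?_ this.le
          nlinarith

end chart

lemma chartOK_mono {d : ℕ} {σ : Type} {k₀ : ℕ} {C₀ C₁ : ℝ} {M : ℕ} {Ng : Fin d → ℕ}
    {Φ : σ → MvPolynomial (Fin d) ℝ} (h : ChartOK k₀ C₀ M Ng Φ) (hC : C₀ ≤ C₁) :
    ChartOK k₀ C₁ M Ng Φ :=
  ⟨h.pos, h.deg, fun u hu u' hu' hs o => (h.step u hu u' hu' hs o).trans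
    (div_le_div_of_nonneg_right hC (Nat.cast_nonneg M)),
    fun u hu u' hu' o => (h.diam u hu u' hu' o).trans hC⟩

/-! ### The leaf of a closed label -/

/-- The numbers of steps. -/
def ngw (W P₀ : ℕ) (g : ℕ → ℕ) (d : ℕ) (i : Fin d) : ℕ := 2 ^ (P₀ - wid W g i + 1) + 2

lemma ngw_pos (W P₀ : ℕ) (g : ℕ → ℕ) (d : ℕ) (i : Fin d) : 1 ≤ ngw W P₀ g d i := by
  unfold ngw
  exact le_trans (by norm_num) (Nat.le_add_left 2 _)

/-- The shifted label polynomials in the scaled variables. -/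
noncomputable def gsh (d W P₀ : ℕ) (g : ℕ → ℕ) (P : ℕ → PN) (i : Fin d) :
    MvPolynomial (Fin d) ℝ :=
  toF d W (P i) - C ((ngw W P₀ g d i : ℝ) / (2 * ((2 ^ (P₀ - W) : ℕ) : ℝ)))

lemma eval_gsh {d W P₀ : ℕ} {g : ℕ → ℕ} {P : ℕ → PN} (y : Fin d → ℝ) (i : Fin d) :
    eval y (gsh d W P₀ g P i) = 2 ^ W * eval (unF d W y) (P i) -
      (ngw W P₀ g d i : ℝ) / (2 * ((2 ^ (P₀ - W) : ℕ) : ℝ)) := by
  unfold gsh
  rw [map_sub, eval_C, eval_toF]

/-- The chart of the leaf over the natural box. -/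
noncomputable def chw (d W P₀ : ℕ) (g : ℕ → ℕ) (P : ℕ → PN) :
    Option (Fin d) → MvPolynomial (Fin d) ℝ :=
  triC (fun i => bind₁ (nchi (2 ^ (P₀ - W)) (ngw W P₀ g d) (gsh d W P₀ g P) 0)
      (gsh d W P₀ g P i) + C (ncor (2 ^ (P₀ - W)) (ngw W P₀ g d) 0 i))
    (nwid (2 ^ (P₀ - W)) (ngw W P₀ g d))
    (bind₁ (nchi (2 ^ (P₀ - W)) (ngw W P₀ g d) (gsh d W P₀ g P) 0) (toF d W (P d)))

lemma triP_gsh {d W P₀ : ℕ} {g : ℕ → ℕ} {P : ℕ → PN} (hP : TriN P) :
    TriP (gsh d W P₀ g P) := by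
  intro i l hil
  unfold gsh
  rw [map_sub, pderiv_C, sub_zero]
  exact triP_toF hP i l hil

/-- The base point of the chart. -/
noncomputable def cbw (d W P₀ : ℕ) (g : ℕ → ℕ) (P : ℕ → PN) (u : Fin d → ℝ) : Fin d → ℝ :=
  cpt (nchi (2 ^ (P₀ - W)) (ngw W P₀ g d) (gsh d W P₀ g P) 0) u

lemma cpt_chw {d W P₀ : ℕ} {g : ℕ → ℕ} {P : ℕ → PN} (hP : TriN P) (u : Fin d → ℝ) :
    cpt (chw d W P₀ g P) u = lpt (toF d W (P d)) (cbw d W P₀ g P u) :=
  cpt_triC_nchi (triP_gsh hP) u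

/-- The points of the leaf are over the natural box. -/
lemma cbw_mem {d W P₀ : ℕ} {g : ℕ → ℕ} {P : ℕ → PN} (hP : TriN P) {u : Fin d → ℝ}
    (hu : u ∈ ucube d) (i : Fin d) :
    |cbw d W P₀ g P u i - 2 ^ W * eval (unF d W (cbw d W P₀ g P u)) (P i)| ≤
      (ngw W P₀ g d i : ℝ) / (2 * ((2 ^ (P₀ - W) : ℕ) : ℝ)) := by
  have h1 := nchi_mem (M := 2 ^ (P₀ - W)) (b := 0) Nat.one_le_two_pow
    (ngw_pos W P₀ g d) (triP_gsh (W := W) (P₀ := P₀) (g := g) hP) hu i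
  have h2 := eval_gsh (W := W) (P₀ := P₀) (g := g) (P := P) (cbw d W P₀ g P u) i
  have hM0 : (0 : ℝ) < ((2 ^ (P₀ - W) : ℕ) : ℝ) := by positivity
  obtain ⟨h3, h4⟩ := h1
  change _ ≤ cbw d W P₀ g P u i - eval (cbw d W P₀ g P u) _ at h3
  change cbw d W P₀ g P u i - eval (cbw d W P₀ g P u) _ ≤ _ at h4
  rw [h2] at h3 h4
  simp only [Pi.zero_apply, Int.cast_zero, zero_add, zero_mul, zero_div] at h3 h4
  have e1 : (ngw W P₀ g d i : ℝ) / ((2 ^ (P₀ - W) : ℕ) : ℝ) =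
      2 * ((ngw W P₀ g d i : ℝ) / (2 * ((2 ^ (P₀ - W) : ℕ) : ℝ))) := by
    field_simp
  rw [e1] at h4
  rw [abs_le]
  constructor <;> linarith

/-- Every point over the natural box is on the leaf. -/
lemma cbw_onto {d W P₀ : ℕ} {g : ℕ → ℕ} {P : ℕ → PN} (hP : TriN P) {y : Fin d → ℝ}
    (hy : ∀ i : Fin d, |y i - 2 ^ W * eval (unF d W y) (P i)| ≤
      (ngw W P₀ g d i : ℝ) / (2 * ((2 ^ (P₀ - W) : ℕ) : ℝ))) :
    ∃ u ∈ ucube d, cbw d W P₀ g P u = y ∧ ∀ i, u i = (y i - 2 ^ W * eval (unF d W y) (P i)) *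
      ((2 ^ (P₀ - W) : ℕ) : ℝ) / ngw W P₀ g d i + 1 / 2 := by
  have hM0 : (0 : ℝ) < ((2 ^ (P₀ - W) : ℕ) : ℝ) := by positivity
  have hN0 : ∀ i, (0 : ℝ) < ngw W P₀ g d i := fun i => by exact_mod_cast ngw_pos W P₀ g d i
  have hrp : ∀ i, rpos (2 ^ (P₀ - W)) (ngw W P₀ g d) (gsh d W P₀ g P) 0 y i =
      (y i - 2 ^ W * eval (unF d W y) (P i)) * ((2 ^ (P₀ - W) : ℕ) : ℝ) / ngw W P₀ g d i +
        1 / 2 := by
    intro i
    have := hN0 i
    unfold rpos
    rw [eval_gsh]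
    simp only [Pi.zero_apply, Int.cast_zero, zero_mul, zero_div, sub_zero]
    field_simp
    ring
  refine ⟨rpos (2 ^ (P₀ - W)) (ngw W P₀ g d) (gsh d W P₀ g P) 0 y, ?_, ?_, hrp⟩
  · refine rpos_mem Nat.one_le_two_pow (ngw_pos W P₀ g d) fun i => ?_
    have h1 := abs_le.1 (hy i)
    have e1 : (ngw W P₀ g d i : ℝ) / ((2 ^ (P₀ - W) : ℕ) : ℝ) =
        2 * ((ngw W P₀ g d i : ℝ) / (2 * ((2 ^ (P₀ - W) : ℕ) : ℝ))) := by
      field_simp
    rw [eval_gsh, e1]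
    simp only [Pi.zero_apply, Int.cast_zero, zero_mul, zero_div, zero_add]
    constructor <;> linarith [h1.1, h1.2]
  · exact nchi_rpos Nat.one_le_two_pow (ngw_pos W P₀ g d) (triP_gsh hP) y

lemma two_pow_sub {a b : ℕ} (h : a ≤ b) : (2 : ℝ) ^ (b - a) = 2 ^ b / 2 ^ a := by
  rw [eq_div_iff (by positivity), ← pow_add, Nat.sub_add_cancel h]

/-- The half sides of the box, in the variables of the label. -/
lemma ngw_half {W P₀ : ℕ} {g : ℕ → ℕ} {d : ℕ} (i : Fin d) (hWP : W ≤ P₀)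
    (hi : wid W g i ≤ P₀) : (ngw W P₀ g d i : ℝ) / (2 * ((2 ^ (P₀ - W) : ℕ) : ℝ)) =
      2 ^ W / 2 ^ wid W g i + 1 / ((2 ^ (P₀ - W) : ℕ) : ℝ) := by
  unfold ngw
  push_cast
  have e1 : (2 : ℝ) ^ (P₀ - wid W g i + 1) = 2 * (2 ^ P₀ / 2 ^ wid W g i) := by
    rw [pow_succ, two_pow_sub hi]
    ring
  rw [e1, two_pow_sub hWP]
  field_simp

/-- The box in the variables of the label. -/
lemma cbw_bxr {d W P₀ : ℕ} {g : ℕ → ℕ} {P : ℕ → PN} (hP : TriN P) (hWP : W ≤ P₀)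
    (hw : ∀ i < d, wid W g i ≤ P₀) {u : Fin d → ℝ} (hu : u ∈ ucube d) :
    CLO.Bxr 2 (wid W g) P d (unF d W (cbw d W P₀ g P u)) := by
  intro i hi
  have hW0 : (0 : ℝ) < 2 ^ W := by positivity
  have h1 := cbw_mem (W := W) (P₀ := P₀) (g := g) hP hu ⟨i, hi⟩
  rw [ngw_half ⟨i, hi⟩ hWP (hw i hi)] at h1
  have e1 : cbw d W P₀ g P u ⟨i, hi⟩ = 2 ^ W * unF d W (cbw d W P₀ g P u) i := by
    unfold unF
    rw [dif_pos hi]
    field_simp
  change |cbw d W P₀ g P u ⟨i, hi⟩ - 2 ^ W * eval (unF d W (cbw d W P₀ g P u)) (P i)| ≤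
    2 ^ W / 2 ^ wid W g i + _ at h1
  rw [e1, ← mul_sub, abs_mul, abs_of_pos hW0] at h1
  have h2 : 1 / ((2 ^ (P₀ - W) : ℕ) : ℝ) ≤ 2 ^ W / 2 ^ wid W g i := by
    push_cast
    rw [two_pow_sub hWP, one_div_div]
    exact div_le_div_of_nonneg_left hW0.le (by positivity)
      (pow_le_pow_right₀ one_le_two (hw i hi))
  have h3 : 2 ^ W * |unF d W (cbw d W P₀ g P u) i -
      eval (unF d W (cbw d W P₀ g P u)) (P i)| ≤ 2 ^ W * (2 / 2 ^ wid W g i) := by
    refine h1.trans ?_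
    have : (2 : ℝ) ^ W * (2 / 2 ^ wid W g i) = 2 * (2 ^ W / 2 ^ wid W g i) := by ring
    rw [this]
    linarith
  exact le_of_mul_le_mul_left h3 hW0

/-! ### The family -/

section fam

variable {m J : ℕ} {F : Fam m J}

/-- The scaled positions, with the weight of the last coordinate. -/
noncomputable def zsw (c : ℕ → Fin m) (r W sg : ℕ) (ξ : PtT F) (o : Option (Fin (r + 1))) : ℝ :=
  o.elim (2 ^ W * (px c ξ (r + 1) / 2 ^ sg)) (fun i => 2 ^ W * px c ξ i.val)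

/-- The lines at the beginning of the window. -/
noncomputable def avw (c : ℕ → Fin m) (r W sg : ℕ) (l : LnT F) (o : Option (Fin (r + 1))) : ℝ :=
  o.elim (aval c W l (r + 1) / 2 ^ sg) (fun i => aval c W l i.val)

/-- The directions of the lines. -/
noncomputable def bvw (c : ℕ → Fin m) (r sg : ℕ) (l : LnT F) (o : Option (Fin (r + 1))) : ℝ :=
  o.elim (bval c l (r + 1) / 2 ^ sg) (fun i => bval c l i.val)

/-- The position in the leaf. -/
noncomputable def ybw (c : ℕ → Fin m) (r W P₀ : ℕ) (g : ℕ → ℕ) (G : ℕ → PN) (ξ : PtT F)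
    (i : Fin (r + 1)) : ℕ := (ndp c P₀ G ξ i + (2 ^ (P₀ - wid W g i) + 1)).toNat

/-- The constant of the leaf. -/
noncomputable def clC (r kap : ℕ) (L : ℝ) : ℝ :=
  (2 * ((r + 1 : ℕ) : ℝ) + 1) * (2 ^ (kap + 2) * (1 + ((r + 1 : ℕ) : ℝ) * L) ^ (r + 1 + 1)) ^ 2 + 2

lemma clC_ge {r kap : ℕ} {L : ℝ} (hL : 0 ≤ L) : 2 ≤ clC r kap L := by
  unfold clC
  have : 0 ≤ (2 * ((r + 1 : ℕ) : ℝ) + 1) *
      (2 ^ (kap + 2) * (1 + ((r + 1 : ℕ) : ℝ) * L) ^ (r + 1 + 1)) ^ 2 := by positivity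
  linarith

lemma pos_w {c : ℕ → Fin m} {r W sg : ℕ} {g : ℕ → ℕ} {K : ℕ} {L : ℝ} {B : F.Ω → Prop} {V : Type}
    {z : PtT F → V} {z' : LnT F → V} {P : V → ℕ → PN} (hN : NLabW F c r W sg g K L B z z' P)
    (hWJ : W ≤ J) {ω : F.Ω} (hω : B ω) {i : ℕ} (hi : i < r + 1) :
    |px c (ptr F J ω) i - eval (px c (ptr F J ω)) (P (z (ptr F J ω)) i)| ≤
      1 / 2 ^ wid W g i := by
  rcases Nat.eq_zero_or_pos i with h0 | h0
  · subst h0
    rw [wid_zero, hN.zero ω hω, eval_C]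
    have h1 := tim_fam (F := F) W W le_rfl hWJ ω
    have e3 : px c (ptr F J ω) 0 = F.t ω := if_pos rfl
    have e4 : (tdg W W (K2S.Fam.pt F ω) : ℝ) = 0 := by
      unfold tdg
      rw [Nat.sub_self, pow_zero, Nat.mod_one, Nat.cast_zero]
    rw [e4, zero_div, add_zero, Nat.sub_self, pow_zero, Nat.cast_one, div_one] at h1
    rw [e3]
    have hW0 : (0 : ℝ) < 2 ^ W := by positivity
    have e5 : F.t ω - (F.T1 W ω : ℝ) / 2 ^ W = (2 ^ W * F.t ω - F.T1 W ω) / 2 ^ W := by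
      field_simp
    rw [e5, abs_div, abs_of_pos hW0]
    exact div_le_div_of_nonneg_right h1 hW0.le
  · obtain ⟨i', rfl⟩ : ∃ i', i = i' + 1 := ⟨i - 1, by omega⟩
    rw [wid_succ]
    exact hN.pos ω hω i' (by omega)

lemma bse_unF (c : ℕ → Fin m) (r W sg : ℕ) (ξ : PtT F) {P : PN} {i : ℕ}
    (hi : i ≤ r + 1) (hP : P.vars ⊆ range i) :
    eval (px c ξ) P = eval (unF (r + 1) W (bse (zsw c r W sg ξ))) P :=
  eval_eq_unF (hP.trans (Finset.range_mono hi)) (fun _ => rfl)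

/-- **The leaf of a closed label on a natural box.** -/
theorem cleaf_w {c : ℕ → Fin m} {r W sg : ℕ} {g : ℕ → ℕ} {K : ℕ} {L : ℝ} {B : F.Ω → Prop}
    {V : Type} {z : PtT F → V} {z' : LnT F → V} {P : V → ℕ → PN} {P₀ kap : ℕ}
    (hN : NLabW F c r W sg g K L B z z' P) (hL : 0 ≤ L) (hB : 0 < law F.p B True)
    (hPJ : P₀ ≤ J) (hWP : W ≤ P₀) (hgP : P₀ ≤ g r)
    (hw : ∀ i < r + 1, W ≤ wid W g i + kap ∧ wid W g i ≤ P₀) :
    CLeaf ((K + 1) ^ (r + 1 + 1) + 1) (clC r kap L) (2 ^ (P₀ - W))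
      (cond F.p B True) (KSAT.slam F W) (K2S.Fam.pt F) (tdg W P₀) (zsw c r W sg)
      (avw c r W sg) (bvw c r sg) z z' (fun ξ => ybw c r W P₀ g (P (z ξ)) ξ)
      (fun _ => ngw W P₀ g (r + 1)) (fun v => chw (r + 1) W P₀ g (P v)) := by
  classical
  obtain ⟨p, hp⟩ : ∃ p, p = cond F.p B True := ⟨_, rfl⟩
  rw [← hp]
  have hpl : IsLaw p := by
    rw [hp]
    exact { nonneg := cond_nonneg F.isLaw.nonneg B True
            sum_one := sum_cond F.p B hB.ne' }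
  have hpB : ∀ ω, 0 < p ω → B ω := by
    intro ω hω
    rw [hp] at hω
    unfold Pool.Agent.H49.Ent.cond at hω
    split_ifs at hω with h
    · exact of_eq_true h
    · exact absurd hω (lt_irrefl _)
  have hC2 := clC_ge (r := r) (kap := kap) hL
  have hM0 : (0 : ℝ) < ((2 ^ (P₀ - W) : ℕ) : ℝ) := by positivity
  have hMr : ((2 ^ (P₀ - W) : ℕ) : ℝ) = 2 ^ P₀ / 2 ^ W := by
    push_cast
    exact two_pow_sub hWP
  have hW0 : (0 : ℝ) < 2 ^ W := by positivity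
  have hgN0 : ∀ i, (0 : ℝ) < ngw W P₀ g (r + 1) i := fun i => by
    exact_mod_cast ngw_pos W P₀ g (r + 1) i
  -- the chart
  have hchart : ∀ ω, 0 < p ω → ChartOK ((K + 1) ^ (r + 1 + 1) + 1) (clC r kap L - 2)
      (2 ^ (P₀ - W)) (ngw W P₀ g (r + 1)) (chw (r + 1) W P₀ g (P (z (K2S.Fam.pt F ω)))) := by
    intro ω hω
    obtain ⟨v, hv⟩ : ∃ v, v = z (K2S.Fam.pt F ω) := ⟨_, rfl⟩
    rw [← hv]
    have htri := hN.tri v
    have hgr : ∀ y ∈ ncell (2 ^ (P₀ - W)) (ngw W P₀ g (r + 1)) (gsh (r + 1) W P₀ g (P v)) 0,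
        ∀ i ≤ r + 1, ∀ l : Fin (r + 1), |eval y (pderiv l (toF (r + 1) W (P v i)))| ≤ L := by
      intro y hy i hi l
      rw [eval_pderiv_toF]
      by_cases hl : l.val < i
      · -- the box
        have hyu : ∀ i : Fin (r + 1), |y i - 2 ^ W * eval (unF (r + 1) W y) (P v i)| ≤
            (ngw W P₀ g (r + 1) i : ℝ) / (2 * ((2 ^ (P₀ - W) : ℕ) : ℝ)) := by
          intro i
          obtain ⟨h3, h4⟩ := hy i
          rw [eval_gsh] at h3 h4
          simp only [Pi.zero_apply, Int.cast_zero, zero_add, zero_mul, zero_div] at h3 h4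
          have e1 : (ngw W P₀ g (r + 1) i : ℝ) / ((2 ^ (P₀ - W) : ℕ) : ℝ) =
              2 * ((ngw W P₀ g (r + 1) i : ℝ) / (2 * ((2 ^ (P₀ - W) : ℕ) : ℝ))) := by
            field_simp
          rw [e1] at h4
          rw [abs_le]
          constructor <;> linarith
        obtain ⟨u, hu, h1, -⟩ := cbw_onto htri hyu
        have h2 := cbw_bxr htri hWP (fun i hi => (hw i hi).2) hu
        rw [h1] at h2
        have h3 := hN.grad ω (hpB ω hω) (unF (r + 1) W y) (by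
          rw [show ptr F J ω = K2S.Fam.pt F ω from rfl, ← hv]
          exact h2.mono (by norm_num) le_rfl) i hi l hl
        rw [show ptr F J ω = K2S.Fam.pt F ω from rfl, ← hv] at h3
        exact h3
      · have h1 : pderiv l.val (P v i) = 0 :=
          pderiv_eq_zero_of_notMem_vars fun h => hl (Finset.mem_range.1 (htri i h))
        rw [h1, map_zero, abs_zero]
        exact hL
    have hT : Tri ((K + 1) ^ (r + 1 + 1)) (2 ^ (kap + 2) * (1 + ((r + 1 : ℕ) : ℝ) * L) ^ (r + 1 + 1))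
        (2 ^ (P₀ - W)) (ngw W P₀ g (r + 1))
        (fun i => bind₁ (nchi (2 ^ (P₀ - W)) (ngw W P₀ g (r + 1)) (gsh (r + 1) W P₀ g (P v)) 0)
          (gsh (r + 1) W P₀ g (P v) i) + C (ncor (2 ^ (P₀ - W)) (ngw W P₀ g (r + 1)) 0 i))
        (nwid (2 ^ (P₀ - W)) (ngw W P₀ g (r + 1)))
        (bind₁ (nchi (2 ^ (P₀ - W)) (ngw W P₀ g (r + 1)) (gsh (r + 1) W P₀ g (P v)) 0)
          (toF (r + 1) W (P v (r + 1)))) := by
      refine tri_nchiK Nat.one_le_two_pow (ngw_pos W P₀ g (r + 1)) ?_ ?_ (triP_gsh htri) hL ?_ ?_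
        ?_ ?_
      · have : (1 : ℝ) ≤ 2 ^ kap := one_le_pow₀ one_le_two
        rw [pow_add]
        linarith
      · intro i
        have h1 := (hw i i.2).1
        have h2 := (hw i i.2).2
        unfold ngw
        push_cast
        have e1 : (2 : ℝ) ^ (P₀ - wid W g i + 1) ≤ 2 ^ (kap + 1) * 2 ^ (P₀ - W) := by
          rw [← pow_add]
          exact pow_le_pow_right₀ one_le_two (by omega)
        have e2 : (1 : ℝ) ≤ 2 ^ kap * 2 ^ (P₀ - W) := by
          rw [← pow_add]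
          exact one_le_pow₀ one_le_two
        have e3 : (2 : ℝ) ^ (kap + 2) * 2 ^ (P₀ - W) = 2 ^ (kap + 1) * 2 ^ (P₀ - W) +
            2 * (2 ^ kap * 2 ^ (P₀ - W)) := by ring
        rw [e3]
        linarith
      · intro i
        unfold gsh
        refine (totalDegree_sub _ _).trans (max_le ((deg_toF _).trans (hN.deg v _)) ?_)
        rw [totalDegree_C]
        exact Nat.zero_le _
      · exact (deg_toF _).trans (hN.deg v _)
      · intro y hy i l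
        unfold gsh
        rw [map_sub, pderiv_C, sub_zero]
        exact hgr y hy i (by have := i.2; omega) l
      · intro y hy l
        exact hgr y hy (r + 1) le_rfl l
    have h5 : (1 : ℝ) ≤ 2 ^ (kap + 2) * (1 + ((r + 1 : ℕ) : ℝ) * L) ^ (r + 1 + 1) := by
      refine one_le_mul_of_one_le_of_one_le (one_le_pow₀ one_le_two) (one_le_pow₀ ?_)
      have : 0 ≤ ((r + 1 : ℕ) : ℝ) * L := by positivity
      linarith
    have h6 := hT.chartOK h5 Nat.one_le_two_pow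
    have e7 : clC r kap L - 2 = (2 * ((r + 1 : ℕ) : ℝ) + 1) *
        (2 ^ (kap + 2) * (1 + ((r + 1 : ℕ) : ℝ) * L) ^ (r + 1 + 1)) ^ 2 := by
      unfold clC
      ring
    rw [e7]
    exact h6
  -- the digits
  have hdig : ∀ ω, 0 < p ω → ∀ i : Fin (r + 1),
      |(((2 ^ (P₀ - W) : ℕ) : ℝ) * (zsw c r W sg (K2S.Fam.pt F ω) (some i) -
        2 ^ W * eval (unF (r + 1) W (bse (zsw c r W sg (K2S.Fam.pt F ω))))
          (P (z (K2S.Fam.pt F ω)) i)))| ≤ 2 ^ (P₀ - wid W g i) ∧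
      ndp c P₀ (P (z (K2S.Fam.pt F ω))) (K2S.Fam.pt F ω) i =
        ⌊((2 ^ (P₀ - W) : ℕ) : ℝ) * (zsw c r W sg (K2S.Fam.pt F ω) (some i) -
        2 ^ W * eval (unF (r + 1) W (bse (zsw c r W sg (K2S.Fam.pt F ω))))
          (P (z (K2S.Fam.pt F ω)) i))⌋ := by
    intro ω hω i
    have h1 := pos_w hN (hWP.trans hPJ) (hpB ω hω) i.2
    rw [show ptr F J ω = K2S.Fam.pt F ω from rfl] at h1
    obtain ⟨ξ, hξ⟩ : ∃ ξ, ξ = K2S.Fam.pt F ω := ⟨_, rfl⟩
    rw [← hξ] at h1 ⊢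
    have e1 : ((2 ^ (P₀ - W) : ℕ) : ℝ) * (zsw c r W sg ξ (some i) -
        2 ^ W * eval (unF (r + 1) W (bse (zsw c r W sg ξ))) (P (z ξ) i)) =
        2 ^ P₀ * (px c ξ i - eval (px c ξ) (P (z ξ) i)) := by
      rw [← bse_unF c r W sg ξ i.2.le (hN.tri _ _), hMr]
      change _ * (2 ^ W * px c ξ i - _) = _
      field_simp
    rw [e1]
    refine ⟨?_, rfl⟩
    rw [abs_mul, abs_of_pos (by positivity : (0 : ℝ) < 2 ^ P₀), two_pow_sub (hw i i.2).2,
      div_eq_mul_one_div]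
    exact mul_le_mul_of_nonneg_left h1 (by positivity)
  have hyb : ∀ ω, 0 < p ω → ∀ i : Fin (r + 1),
      ((ybw c r W P₀ g (P (z (K2S.Fam.pt F ω))) (K2S.Fam.pt F ω) i : ℕ) : ℤ) =
        ⌊((2 ^ (P₀ - W) : ℕ) : ℝ) * (zsw c r W sg (K2S.Fam.pt F ω) (some i) -
        2 ^ W * eval (unF (r + 1) W (bse (zsw c r W sg (K2S.Fam.pt F ω))))
          (P (z (K2S.Fam.pt F ω)) i))⌋ + (2 ^ (P₀ - wid W g i) + 1) := by
    intro ω hω i
    obtain ⟨h1, h2⟩ := hdig ω hω i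
    unfold ybw
    rw [h2]
    refine Int.toNat_of_nonneg ?_
    have h3 := (abs_le.1 h1).1
    have h4 : -((2 : ℤ) ^ (P₀ - wid W g i)) ≤ ⌊((2 ^ (P₀ - W) : ℕ) : ℝ) *
        (zsw c r W sg (K2S.Fam.pt F ω) (some i) -
        2 ^ W * eval (unF (r + 1) W (bse (zsw c r W sg (K2S.Fam.pt F ω))))
          (P (z (K2S.Fam.pt F ω)) i))⌋ := by
      rw [Int.le_floor]
      push_cast
      exact_mod_cast h3
    linarith
  have hngZ : ∀ i, ((ngw W P₀ g (r + 1) i : ℕ) : ℤ) = 2 * 2 ^ (P₀ - wid W g i) + 2 := by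
    intro i
    unfold ngw
    push_cast
    ring
  have hngR : ∀ i, (ngw W P₀ g (r + 1) i : ℝ) = 2 * 2 ^ (P₀ - wid W g i) + 2 := by
    intro i
    unfold ngw
    push_cast
    ring
  have hlt : ∀ ω, 0 < p ω → ∀ i : Fin (r + 1),
      ybw c r W P₀ g (P (z (K2S.Fam.pt F ω))) (K2S.Fam.pt F ω) i < ngw W P₀ g (r + 1) i := by
    intro ω hω i
    have h1 := hyb ω hω i
    have h2 := (abs_le.1 (hdig ω hω i).1).2
    have h3 : (⌊((2 ^ (P₀ - W) : ℕ) : ℝ) * (zsw c r W sg (K2S.Fam.pt F ω) (some i) -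
        2 ^ W * eval (unF (r + 1) W (bse (zsw c r W sg (K2S.Fam.pt F ω))))
          (P (z (K2S.Fam.pt F ω)) i))⌋ : ℤ) ≤ 2 ^ (P₀ - wid W g i) := by
      have h4 := (Int.floor_le (((2 ^ (P₀ - W) : ℕ) : ℝ) *
        (zsw c r W sg (K2S.Fam.pt F ω) (some i) -
        2 ^ W * eval (unF (r + 1) W (bse (zsw c r W sg (K2S.Fam.pt F ω))))
          (P (z (K2S.Fam.pt F ω)) i)))).trans h2
      exact_mod_cast h4
    have h5 : ((ybw c r W P₀ g (P (z (K2S.Fam.pt F ω))) (K2S.Fam.pt F ω) i : ℕ) : ℤ) <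
        (ngw W P₀ g (r + 1) i : ℕ) := by
      rw [h1, hngZ]
      linarith
    exact_mod_cast h5
  refine ⟨⟨hpl, fun ω _ => Nat.mod_lt _ (by positivity), ?_, ?_⟩, ?_, ?_, ?_, ?_⟩
  · intro ω hω o
    cases o with
    | some i =>
      have h1 := near_fam (F := F) c W P₀ hWP hPJ ω i.val
      exact h1.trans (div_le_div_of_nonneg_right hC2 hM0.le)
    | none =>
      have h1 := near_fam (F := F) c W P₀ hWP hPJ ω (r + 1)
      have hs : (1 : ℝ) ≤ 2 ^ sg := one_le_pow₀ one_le_two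
      have hs0 : (0 : ℝ) < 2 ^ sg := by positivity
      change |2 ^ W * (px c (K2S.Fam.pt F ω) (r + 1) / 2 ^ sg) -
        (aval c W (KSAT.slam F W ω) (r + 1) / 2 ^ sg +
          (tdg W P₀ (K2S.Fam.pt F ω) : ℝ) / ((2 ^ (P₀ - W) : ℕ) : ℝ) *
            (bval c (KSAT.slam F W ω) (r + 1) / 2 ^ sg))| ≤ _
      have e1 : 2 ^ W * (px c (K2S.Fam.pt F ω) (r + 1) / 2 ^ sg) -
        (aval c W (KSAT.slam F W ω) (r + 1) / 2 ^ sg +
          (tdg W P₀ (K2S.Fam.pt F ω) : ℝ) / ((2 ^ (P₀ - W) : ℕ) : ℝ) *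
            (bval c (KSAT.slam F W ω) (r + 1) / 2 ^ sg)) =
          (2 ^ W * px c (K2S.Fam.pt F ω) (r + 1) - (aval c W (KSAT.slam F W ω) (r + 1) +
            (tdg W P₀ (K2S.Fam.pt F ω) : ℝ) / ((2 ^ (P₀ - W) : ℕ) : ℝ) *
              bval c (KSAT.slam F W ω) (r + 1))) / 2 ^ sg := by ring
      rw [e1, abs_div, abs_of_pos hs0]
      exact ((div_le_self (abs_nonneg _) hs).trans h1).trans
        (div_le_div_of_nonneg_right hC2 hM0.le)
  · intro ω _ o
    have hb1 : ∀ i : ℕ, |bval c (KSAT.slam F W ω) i| ≤ 1 := by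
      intro i
      unfold bval
      split_ifs
      · rw [abs_one]
      · exact F.dir ω _
    cases o with
    | some i => exact (hb1 i.val).trans (by linarith)
    | none =>
      change |bval c (KSAT.slam F W ω) (r + 1) / 2 ^ sg| ≤ _
      rw [abs_div, abs_of_pos (by positivity : (0 : ℝ) < 2 ^ sg)]
      exact ((div_le_self (abs_nonneg _) (one_le_pow₀ one_le_two)).trans (hb1 _)).trans
        (by linarith)
  · intro ω hω
    exact hN.cls ω (hpB ω hω)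
  · intro ω hω
    exact chartOK_mono (hchart ω hω) (by linarith)
  · exact hlt
  · intro ω hω o
    obtain ⟨ξ, hξ⟩ : ∃ ξ, ξ = K2S.Fam.pt F ω := ⟨_, rfl⟩
    have hyu : ∀ i : Fin (r + 1), |bse (zsw c r W sg ξ) i -
        2 ^ W * eval (unF (r + 1) W (bse (zsw c r W sg ξ))) (P (z ξ) i)| ≤
        (ngw W P₀ g (r + 1) i : ℝ) / (2 * ((2 ^ (P₀ - W) : ℕ) : ℝ)) := by
      intro i
      have h1 := (hdig ω hω i).1
      rw [← hξ, abs_mul, abs_of_pos hM0] at h1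
      rw [le_div_iff₀ (by positivity)]
      have h2 : (ngw W P₀ g (r + 1) i : ℝ) = 2 * 2 ^ (P₀ - wid W g i) + 2 := by
        unfold ngw
        push_cast
        ring
      rw [h2]
      have e2 : |bse (zsw c r W sg ξ) i -
          2 ^ W * eval (unF (r + 1) W (bse (zsw c r W sg ξ))) (P (z ξ) i)| *
          (2 * ((2 ^ (P₀ - W) : ℕ) : ℝ)) = 2 * (((2 ^ (P₀ - W) : ℕ) : ℝ) *
            |zsw c r W sg ξ (some i) -
              2 ^ W * eval (unF (r + 1) W (bse (zsw c r W sg ξ))) (P (z ξ) i)|) := by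
        change |zsw c r W sg ξ (some i) - _| * _ = _
        ring
      rw [e2]
      linarith
    obtain ⟨u, hu, h1, h2⟩ := cbw_onto (hN.tri (z ξ)) hyu
    have hch := hchart ω hω
    rw [← hξ] at hch ⊢
    -- the grid point
    have hgu : gpos (ngw W P₀ g (r + 1)) (ybw c r W P₀ g (P (z ξ)) ξ) ∈ ucube (r + 1) := by
      refine gpos_mem fun i => ?_
      rw [hξ]
      exact hlt ω hω i
    have hst := hch.step u hu _ hgu (fun i => by
      have h3 := hyb ω hω i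
      rw [← hξ] at h3
      obtain ⟨a, ha⟩ : ∃ a : ℝ, a = ((2 ^ (P₀ - W) : ℕ) : ℝ) * (zsw c r W sg ξ (some i) -
        2 ^ W * eval (unF (r + 1) W (bse (zsw c r W sg ξ))) (P (z ξ) i)) := ⟨_, rfl⟩
      rw [← ha] at h3
      have h4 : (ybw c r W P₀ g (P (z ξ)) ξ i : ℝ) = ⌊a⌋ + (2 ^ (P₀ - wid W g i) + 1) := by
        exact_mod_cast congrArg (fun n : ℤ => (n : ℝ)) h3
      have h5 : u i = a / ngw W P₀ g (r + 1) i + 1 / 2 := by
        rw [h2 i, ha]
        congr 2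
        change (zsw c r W sg ξ (some i) - _) * _ = _
        ring
      have h6 : gpos (ngw W P₀ g (r + 1)) (ybw c r W P₀ g (P (z ξ)) ξ) i =
          (⌊a⌋ : ℝ) / ngw W P₀ g (r + 1) i + 1 / 2 := by
        unfold gpos
        have := hgN0 i
        rw [h4, add_div]
        congr 1
        rw [div_eq_iff this.ne', hngR]
        ring
      rw [h5, h6, add_sub_add_right_eq_sub, ← sub_div, abs_div, abs_of_pos (hgN0 i)]
      refine div_le_div_of_nonneg_right ?_ (hgN0 i).le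
      rw [abs_le]
      constructor <;> linarith [Int.floor_le a, Int.lt_floor_add_one a]) o
    have h3 : |zsw c r W sg ξ o - cpt (chw (r + 1) W P₀ g (P (z ξ))) u o| ≤
        2 / ((2 ^ (P₀ - W) : ℕ) : ℝ) := by
      rw [cpt_chw (hN.tri (z ξ)), h1]
      cases o with
      | some i =>
        change |zsw c r W sg ξ (some i) - zsw c r W sg ξ (some i)| ≤ _
        rw [sub_self, abs_zero]
        positivity
      | none =>
        change |zsw c r W sg ξ none - eval (bse (zsw c r W sg ξ))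
          (toF (r + 1) W (P (z ξ) (r + 1)))| ≤ _
        rw [eval_toF, ← bse_unF c r W sg ξ le_rfl (hN.tri _ _)]
        change |2 ^ W * (px c ξ (r + 1) / 2 ^ sg) - _| ≤ _
        rw [← mul_sub, abs_mul, abs_of_pos hW0]
        have h5 := hN.posN ω (hpB ω hω)
        rw [show ptr F J ω = K2S.Fam.pt F ω from rfl, ← hξ] at h5
        have h6 : (1 : ℝ) / 2 ^ g r ≤ 1 / 2 ^ P₀ :=
          one_div_le_one_div_of_le (by positivity) (pow_le_pow_right₀ one_le_two hgP)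
        have h7 : (1 : ℝ) / 2 ^ J ≤ 1 / 2 ^ P₀ :=
          one_div_le_one_div_of_le (by positivity) (pow_le_pow_right₀ one_le_two hPJ)
        calc _ ≤ (2 : ℝ) ^ W * (1 / 2 ^ P₀ + 1 / 2 ^ P₀) :=
              mul_le_mul_of_nonneg_left (h5.trans (add_le_add h6 h7)) hW0.le
          _ = 2 / ((2 ^ (P₀ - W) : ℕ) : ℝ) := by
              rw [hMr]
              field_simp
              ring
    have h4 : zsw c r W sg ξ o - cpt (chw (r + 1) W P₀ g (P (z ξ)))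
        (gpos (ngw W P₀ g (r + 1)) (ybw c r W P₀ g (P (z ξ)) ξ)) o =
        (zsw c r W sg ξ o - cpt (chw (r + 1) W P₀ g (P (z ξ))) u o) +
        (cpt (chw (r + 1) W P₀ g (P (z ξ))) u o - cpt (chw (r + 1) W P₀ g (P (z ξ)))
        (gpos (ngw W P₀ g (r + 1)) (ybw c r W P₀ g (P (z ξ)) ξ)) o) := by ring
    rw [h4]
    refine (abs_add_le _ _).trans ((add_le_add h3 hst).trans (le_of_eq ?_))
    rw [← add_div]
    congr 1
    ring

end fam

end Pool.CLO37
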