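import Pool.Agent.H37.CLO.Cod

/-!
# Counting the codes
-/

set_option autoImplicit false

namespace Pool.CLO37

open Finset Real
open Pool.Agent.H49.Ent Pool.Agent.H32.Dense Pool.STK Pool.KAF Pool.KAL Pool.KS3 Pool.M3F
open Pool.KJA Pool.KA Pool.K2S

/-- **Clusters**: if no `n + 1` elements are pairwise separated, then `n` elements represent all. -/
theorem cluster {α : Type} [Nonempty α] (S : Finset α) (Sep : α → α → Prop)
    (hsym : ∀ a b, Sep a b → Sep b a) (hirr : ∀ a, ¬ Sep a a) (n : ℕ)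
    (h : ∀ f : Fin (n + 1) → α, (∀ j, f j ∈ S) → ∃ i j, i ≠ j ∧ ¬ Sep (f i) (f j)) :
    ∃ R : Fin n → α, ∀ a ∈ S, ∃ i, ¬ Sep a (R i) := by
  classical
  obtain ⟨q, hq⟩ : ∃ q : Finset α → Prop, ∀ T, q T ↔ ∀ a ∈ T, ∀ b ∈ T, a ≠ b → Sep a b :=
    ⟨_, fun _ => Iff.rfl⟩
  obtain ⟨P, hP⟩ : ∃ P : Finset (Finset α), ∀ T, T ∈ P ↔ T ⊆ S ∧ q T :=
    ⟨S.powerset.filter q, fun T => by rw [Finset.mem_filter, Finset.mem_powerset]⟩
  have hne : P.Nonempty := ⟨∅, by
    rw [hP, hq]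
    refine ⟨Finset.empty_subset S, fun a ha => ?_⟩
    exact absurd ha (Finset.notMem_empty a)⟩
  obtain ⟨T, hT, hmax⟩ := P.exists_max_image Finset.card hne
  rw [hP, hq] at hT
  obtain ⟨hTS, hTsep⟩ := hT
  have hcard : T.card ≤ n := by
    by_contra hcon
    push Not at hcon
    obtain ⟨f⟩ : Nonempty (Fin (n + 1) ↪ T) := by
      refine Function.Embedding.nonempty_of_card_le ?_
      rw [Fintype.card_fin, Fintype.card_coe]
      omega
    obtain ⟨i, j, hij, hs⟩ := h (fun j => (f j : α)) fun j => hTS (f j).2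
    exact hs (hTsep _ (f i).2 _ (f j).2 fun he => hij (f.injective (Subtype.ext he)))
  obtain ⟨a₀⟩ := (inferInstance : Nonempty α)
  refine ⟨fun i => if hi : (i : ℕ) < T.card then (T.equivFin.symm ⟨i, hi⟩ : α) else a₀,
    fun a ha => ?_⟩
  obtain ⟨t, ht, hs⟩ : ∃ t ∈ T, ¬ Sep a t := by
    by_contra hcon
    push Not at hcon
    have haT : a ∉ T := fun haT => hirr a (hcon a haT)
    have h1 : insert a T ∈ P := by
      rw [hP, hq]
      refine ⟨Finset.insert_subset ha hTS, fun b hb c hc hbc => ?_⟩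
      rcases Finset.mem_insert.1 hb with hb1 | hb1
      · rcases Finset.mem_insert.1 hc with hc1 | hc1
        · exact absurd (hb1.trans hc1.symm) hbc
        · rw [hb1]
          exact hcon c hc1
      · rcases Finset.mem_insert.1 hc with hc1 | hc1
        · rw [hc1]
          exact hsym _ _ (hcon b hb1)
        · exact hTsep b hb1 c hc1 hbc
    have h2 := hmax _ h1
    rw [Finset.card_insert_of_notMem haT] at h2
    omega
  obtain ⟨j, hj⟩ : ∃ j, j = T.equivFin ⟨t, ht⟩ := ⟨_, rfl⟩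
  refine ⟨⟨j, by
    have := j.2
    omega⟩, ?_⟩
  have h1 : (if hi : (j : ℕ) < T.card then (T.equivFin.symm ⟨j, hi⟩ : α) else a₀) = t := by
    rw [dif_pos j.2]
    have : (⟨(j : ℕ), j.2⟩ : Fin T.card) = j := rfl
    rw [this, hj, Equiv.symm_apply_apply]
  change ¬ Sep a (if hi : (j : ℕ) < T.card then (T.equivFin.symm ⟨j, hi⟩ : α) else a₀)
  rw [h1]
  exact hs

/-- **The count of the codes**, given the label of the other sample. -/
theorem cnt_le {Ω Ξ Z Z₀ Ci G : Type} [Fintype Ω] [Fintype G] {r : Ω × Ω → ℝ} (hr : IsLaw r)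
    (κ : Ξ → Z₀ × Ci × (G → ℤ)) (x : Ω → Ξ) (zx : Ξ → Z) (pz : Z → Z₀) (f g : Ω × Ω → Ω)
    (E : Ω × Ω → Prop) (n NC : ℕ) (S : Z₀ → Finset Ci) (hS : ∀ z₀, (S z₀).card ≤ NC)
    (B : Z → Ci → Fin n → G → ℤ)
    (h : ∀ v, 0 < r v → E v → (κ (x (f v))).1 = pz (zx (x (g v))) ∧
      (κ (x (f v))).2.1 ∈ S (pz (zx (x (g v)))) ∧
      ∃ i, ∀ a, |(κ (x (f v))).2.2 a - B (zx (x (g v))) (κ (x (f v))).2.1 i a| ≤ 1) :
    CH r (cod x κ E f) (fun v => zx (x (g v))) ≤
      Real.log (NC * (n * 3 ^ Fintype.card G) + 1) := by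
  classical
  obtain ⟨Fs, hFs⟩ : ∃ Fs : Z → Finset (Option (Z₀ × Ci × (G → ℤ))), Fs = fun w =>
    insert none ((S (pz w)).biUnion fun c => (Finset.univ : Finset (Fin n)).biUnion fun i =>
      (Fintype.piFinset fun a => Finset.Icc (B w c i a - 1) (B w c i a + 1)).image
        fun q => some (pz w, c, q)) := ⟨_, rfl⟩
  have hcard : ∀ w, (Fs w).card ≤ NC * (n * 3 ^ Fintype.card G) + 1 := by
    intro w
    rw [hFs]
    refine (Finset.card_insert_le _ _).trans (Nat.add_le_add_right ?_ 1)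
    refine Finset.card_biUnion_le.trans ?_
    have h1 : ∀ c ∈ S (pz w), ((Finset.univ : Finset (Fin n)).biUnion fun i =>
        (Fintype.piFinset fun a => Finset.Icc (B w c i a - 1) (B w c i a + 1)).image
          fun q => some (pz w, c, q)).card ≤ n * 3 ^ Fintype.card G := by
      intro c _
      refine Finset.card_biUnion_le.trans ?_
      have h2 : ∀ i ∈ (Finset.univ : Finset (Fin n)),
          ((Fintype.piFinset fun a => Finset.Icc (B w c i a - 1) (B w c i a + 1)).image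
            fun q => some (pz w, c, q)).card ≤ 3 ^ Fintype.card G := by
        intro i _
        refine Finset.card_image_le.trans ?_
        rw [Fintype.card_piFinset]
        have h3 : ∀ a : G, (Finset.Icc (B w c i a - 1) (B w c i a + 1)).card = 3 := by
          intro a
          rw [Int.card_Icc]
          have : B w c i a + 1 + 1 - (B w c i a - 1) = 3 := by ring
          rw [this]
          rfl
        rw [Finset.prod_congr rfl fun a _ => h3 a, Finset.prod_const, Finset.card_univ]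
      refine (Finset.sum_le_card_nsmul _ _ _ h2).trans ?_
      rw [Finset.card_univ, Fintype.card_fin, smul_eq_mul]
    refine (Finset.sum_le_card_nsmul _ _ _ h1).trans ?_
    rw [smul_eq_mul]
    exact Nat.mul_le_mul_right _ (hS _)
  have hmem : ∀ v, 0 < r v → cod x κ E f v ∈ Fs (zx (x (g v))) := by
    intro v hv
    rw [hFs]
    unfold cod
    by_cases hE : E v
    · rw [if_pos hE]
      obtain ⟨h1, h2, i, h3⟩ := h v hv hE
      refine Finset.mem_insert_of_mem (Finset.mem_biUnion.2 ⟨_, h2, Finset.mem_biUnion.2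
        ⟨i, Finset.mem_univ _, Finset.mem_image.2 ⟨(κ (x (f v))).2.2, ?_, ?_⟩⟩⟩)
      · rw [Fintype.mem_piFinset]
        intro a
        have h4 := abs_le.1 (h3 a)
        rw [Finset.mem_Icc]
        omega
      · rw [← h1]
    · rw [if_neg hE]
      exact Finset.mem_insert_self _ _
  refine (CH_le_card hr.nonneg hr.sum_one (cod x κ E f) (fun v => zx (x (g v))) Fs hmem).trans ?_
  have h1 : ∀ v, 0 < r v → Real.log ((Fs (zx (x (g v)))).card) ≤
      Real.log (NC * (n * 3 ^ Fintype.card G) + 1) := by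
    intro v hv
    have h2 : 0 < (Fs (zx (x (g v)))).card := Finset.card_pos.2 ⟨_, hmem v hv⟩
    refine Real.log_le_log (by exact_mod_cast h2) ?_
    exact_mod_cast hcard _
  unfold Ex
  calc ∑ v, r v * Real.log ((Fs (zx (x (g v)))).card)
      ≤ ∑ v, r v * Real.log (NC * (n * 3 ^ Fintype.card G) + 1) := by
        refine Finset.sum_le_sum fun v _ => ?_
        rcases (hr.nonneg v).eq_or_lt with h0 | h0
        · rw [← h0]
          simp
        · exact mul_le_mul_of_nonneg_left (h1 v h0) h0.le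
    _ = _ := by rw [← Finset.sum_mul, hr.sum_one, one_mul]

lemma floor_near {a b β : ℝ} (hβ : 0 < β) (h : |a - b| ≤ β) : |⌊a / β⌋ - ⌊b / β⌋| ≤ 1 := by
  have h1 : |a / β - b / β| ≤ 1 := by
    rw [← sub_div, abs_div, abs_of_pos hβ, div_le_one hβ]
    exact h
  rw [abs_le] at h1
  have h2 : ⌊a / β⌋ ≤ ⌊b / β⌋ + 1 := by
    have : a / β ≤ b / β + 1 := by linarith [h1.2]
    calc ⌊a / β⌋ ≤ ⌊b / β + 1⌋ := Int.floor_le_floor this
      _ = ⌊b / β⌋ + 1 := Int.floor_add_one _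
  have h3 : ⌊b / β⌋ ≤ ⌊a / β⌋ + 1 := by
    have : b / β ≤ a / β + 1 := by linarith [h1.1]
    calc ⌊b / β⌋ ≤ ⌊a / β + 1⌋ := Int.floor_le_floor this
      _ = ⌊a / β⌋ + 1 := Int.floor_add_one _
  rw [abs_le]
  constructor <;> omega

lemma grp_ucube {d : ℕ} (K₂ : ℕ) (a : Fin d → Fin (K₂ + 1)) : grp K₂ a ∈ ucube d :=
  fun i => grp_mem K₂ a i

/-- **The forward count**: the leaf of the second sample over its cell is near one of few
functions of the label of the first one and of the cell. -/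
theorem fwd_cnt {Ω Λ₀ Ξ Z Z₀ Ci : Type} [Fintype Ω] {d : ℕ} {p : Ω → ℝ} {lam₀ : Ω → Λ₀} {x : Ω → Ξ}
    {z : Ξ → Option (Fin d) → ℝ} {zx : Ξ → Z}
    {Φ : Z → Option (Fin d) → MvPolynomial (Fin d) ℝ} {h₀ : ℝ} {ζ : Ξ → Z₀} {ζl : Λ₀ → Z₀}
    {pz : Z → Z₀} {ci : Ξ → Ci} {χ : Z₀ → Ci → Fin d → MvPolynomial (Fin d) ℝ}
    {gN : Z → MvPolynomial (Fin d) ℝ} {Q : Z → MvPolynomial (Option (Fin d)) ℝ} {MB : Z → ℝ}
    {g₀ : Z₀ → (Fin d → ℝ) → ℝ} {Gd : Ω → Prop} {k₁ D NC : ℕ} {s₀ s₁ ρ H₁ : ℝ}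
    (hp : IsLaw p) (hG : GeoOK p lam₀ x z zx Φ h₀ ζ ζl pz ci χ gN Q MB g₀ Gd k₁ D NC s₀ s₁ ρ H₁)
    {E : Ω × Ω → Prop} {n₀ : ℕ} {a : Z → Ci → Fin n₀ → (Fin d → ℝ) → ℝ} {β : ℝ} (hβ : 0 < β)
    (hE : ∀ v, 0 < cp p lam₀ v → E v → ∃ i, ∀ u ∈ ucube d,
      |MvPolynomial.eval (cpt (χ (ζ (x v.2)) (ci (x v.2))) u) (gN (zx (x v.2))) -
        a (zx (x v.1)) (ci (x v.2)) i u| ≤ β) (K₂ : ℕ) :
    CH (cp p lam₀) (cod x (kap zx ζ ci χ gN K₂ β) E Prod.snd) (fun v => zx (x v.1)) ≤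
      Real.log (NC * (n₀ * 3 ^ Fintype.card (Fin d → Fin (K₂ + 1))) + 1) := by
  classical
  have hp0 := hp.nonneg
  choose S hS1 hS2 using hG.card
  refine cnt_le (cp_isLaw hp) (kap zx ζ ci χ gN K₂ β) x zx pz Prod.snd Prod.fst E n₀ NC S hS1
    (fun w c i a' => ⌊a w c i (grp K₂ a') / β⌋) fun v hv hEv => ?_
  obtain ⟨p1, p2, p3⟩ := cp_pos hp0 hv
  have e1 : ζ (x v.2) = pz (zx (x v.1)) := by
    rw [hG.cls _ p2, ← p3, ← hG.cls _ p1, hG.fac _ p1]
  refine ⟨e1, hS2 _ v.2 p2 e1, ?_⟩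
  obtain ⟨i, hi⟩ := hE v hv hEv
  exact ⟨i, fun a' => floor_near hβ (hi _ (grp_ucube K₂ a'))⟩

end Pool.CLO37
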