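import Pool.Agent.H37.CLO.Geo
import Pool.Agent.H37.CLO.Ps
import Pool.Agent.H37.CLO.CAbs2

/-!
# The code of a point satisfies the hypotheses of the closing lemma
-/

set_option autoImplicit false

namespace Pool.CLO37

open Finset Real
open Pool.Agent.H49.Ent Pool.Agent.H32.Dense Pool.STK Pool.KAF Pool.KAL Pool.KS3 Pool.M3F
open Pool.KJA Pool.KA Pool.K2S

section basis

variable (σ : Type) [Fintype σ] (D : ℕ)

/-- The number of the monomials of degree at most `D`. -/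
noncomputable def nmb : ℕ := Fintype.card (expBox σ D)

/-- The enumeration of the monomials. -/
noncomputable def emb : expBox σ D ≃ Fin (nmb σ D) := Fintype.equivFin _

/-- The monomials of degree at most `D`. -/
noncomputable def mnb (i : Fin (nmb σ D)) : MvPolynomial σ ℝ :=
  MvPolynomial.monomial ((emb σ D).symm i : σ →₀ ℕ) 1

variable {σ D}

lemma pol_mnb (v : Fin (nmb σ D) → ℝ) : pol (mnb σ D) v = mkv D (fun α => v (emb σ D α)) := by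
  classical
  unfold pol mkv mnb
  rw [← Equiv.sum_comp (emb σ D)]
  refine Finset.sum_congr rfl fun α _ => ?_
  rw [Equiv.symm_apply_apply, MvPolynomial.smul_monomial, smul_eq_mul, mul_one]

lemma deg_mnb (i : Fin (nmb σ D)) : (mnb σ D i).totalDegree ≤ D := by
  unfold mnb
  refine (MvPolynomial.totalDegree_monomial_le _ _).trans ?_
  exact (mem_expBox D _).1 ((emb σ D).symm i).2

lemma inj_mnb {v : Fin (nmb σ D) → ℝ} (hv : v ≠ 0) : pol (mnb σ D) v ≠ 0 := by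
  intro h
  apply hv
  funext i
  rw [pol_mnb] at h
  have h1 := coeff_mkv D (fun α => v (emb σ D α)) ((emb σ D).symm i)
  rw [h, MvPolynomial.coeff_zero, Equiv.apply_symm_apply] at h1
  exact h1.symm

lemma rep_mnb {P : MvPolynomial σ ℝ} (hP : P.totalDegree ≤ D) :
    ∃ v : Fin (nmb σ D) → ℝ, pol (mnb σ D) v = P := by
  refine ⟨fun i => MvPolynomial.coeff ((emb σ D).symm i : σ →₀ ℕ) P, ?_⟩
  rw [pol_mnb]
  simp only [Equiv.symm_apply_apply]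
  exact mkv_coeff hP

end basis

/-- A positive norm is bounded below on the unit sphere. -/
theorem nrm_low {Mb : ℕ} {ν : (Fin Mb → ℝ) → ℝ} (h : Nrm ν) (hp : ∀ v, v ≠ 0 → 0 < ν v) :
    ∃ δ : ℝ, 0 < δ ∧ ∀ v, δ * ‖v‖ ≤ ν v := by
  classical
  rcases (Metric.sphere (0 : Fin Mb → ℝ) 1).eq_empty_or_nonempty with he | hne
  · refine ⟨1, one_pos, fun v => ?_⟩
    have hv : v = 0 := by
      by_contra hv
      have : (‖v‖⁻¹ • v) ∈ Metric.sphere (0 : Fin Mb → ℝ) 1 := by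
        rw [mem_sphere_zero_iff_norm, norm_smul, norm_inv, norm_norm,
          inv_mul_cancel₀ (norm_ne_zero_iff.2 hv)]
      rw [he] at this
      exact this
    rw [hv, norm_zero, mul_zero]
    exact h.nonneg 0
  · obtain ⟨v₀, hv₀, hmin⟩ := (isCompact_sphere (0 : Fin Mb → ℝ) 1).exists_isMinOn hne
      h.continuous.continuousOn
    have hv₀' : v₀ ≠ 0 := by
      intro h0
      rw [h0, mem_sphere_zero_iff_norm, norm_zero] at hv₀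
      exact zero_ne_one hv₀
    refine ⟨ν v₀, hp v₀ hv₀', fun v => ?_⟩
    by_cases hv : v = 0
    · rw [hv, norm_zero, mul_zero]
      exact h.nonneg 0
    · have hn : 0 < ‖v‖ := norm_pos_iff.2 hv
      have h1 : (‖v‖⁻¹ • v) ∈ Metric.sphere (0 : Fin Mb → ℝ) 1 := by
        rw [mem_sphere_zero_iff_norm, norm_smul, norm_inv, norm_norm, inv_mul_cancel₀ hn.ne']
      have h2 := hmin h1
      rw [Set.mem_ofPred_eq, h.smul, abs_of_pos (inv_pos.2 hn), inv_mul_eq_div,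
        le_div_iff₀ hn] at h2
      exact h2

/-- **The code satisfies the hypotheses of the closing lemma.** -/
theorem cod_ok (d D k₁ : ℕ) : ∃ Kc : ℝ, 1 ≤ Kc ∧
    ∀ {Ω Λ₀ Ξ Z Z₀ Ci : Type} [Fintype Ω] {p : Ω → ℝ} {lam₀ : Ω → Λ₀} {x : Ω → Ξ}
      {z : Ξ → Option (Fin d) → ℝ} {zx : Ξ → Z}
      {Φ : Z → Option (Fin d) → MvPolynomial (Fin d) ℝ} {h₀ : ℝ} {ζ : Ξ → Z₀} {ζl : Λ₀ → Z₀}
      {pz : Z → Z₀} {ci : Ξ → Ci} {χ : Z₀ → Ci → Fin d → MvPolynomial (Fin d) ℝ}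
      {gN : Z → MvPolynomial (Fin d) ℝ} {Q : Z → MvPolynomial (Option (Fin d)) ℝ} {MB : Z → ℝ}
      {g₀ : Z₀ → (Fin d → ℝ) → ℝ} {Gd : Ω → Prop} {NC : ℕ} {s₀ s₁ ρ H₁ β H₂ fl : ℝ}
      {E : Ω × Ω → Prop},
      IsLaw p → GeoOK p lam₀ x z zx Φ h₀ ζ ζl pz ci χ gN Q MB g₀ Gd k₁ D NC s₀ s₁ ρ H₁ → 0 < β →
      0 < h₀ → 0 < s₀ → Kc * (h₀ + β) ≤ fl * s₀ → fl ≤ 1 → ρ * H₁ ≤ fl → 0 ≤ ρ →
      (∀ ω₁ ω₂, 0 < p ω₁ → 0 < p ω₂ → lam₀ ω₁ = lam₀ ω₂ → E (ω₁, ω₂) → Gd ω₁ ∧ Gd ω₂) →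
      (∀ ω₁ ω₂, 0 < p ω₁ → 0 < p ω₂ → lam₀ ω₁ = lam₀ ω₂ → E (ω₁, ω₂) →
        ∀ F : MvPolynomial (Option (Fin d)) ℝ, F.totalDegree ≤ D →
          Psi F h₀ (z (x ω₁)) ≤ H₂ * mx (fun ω => 0 < p ω ∧
            kap zx ζ ci χ gN (k₁ * k₁) β (x ω) = kap zx ζ ci χ gN (k₁ * k₁) β (x ω₂))
              (fun ω => Psi F h₀ (z (x ω))) ∧
          Psi F h₀ (z (x ω₂)) ≤ H₂ * mx (fun ω => 0 < p ω ∧
            kap zx ζ ci χ gN (k₁ * k₁) β (x ω) = kap zx ζ ci χ gN (k₁ * k₁) β (x ω₁))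
              (fun ω => Psi F h₀ (z (x ω)))) →
      ∃ δ : ℝ, 0 < δ ∧ CodeOK p lam₀ x z zx Φ h₀ (kap zx ζ ci χ gN (k₁ * k₁) β) ζ ζl
        (Nk p x z ζ s₀ (mnb (Option (Fin d)) D)) (mnb (Option (Fin d)) D) D E Gd 1 1 fl H₂ δ := by
  classical
  obtain ⟨Kg, hKg, Hg⟩ := kap_near d k₁
  obtain ⟨K₁, hK₁, H₁'⟩ := psi_move (Option (Fin d)) D
  refine ⟨K₁ * Kg, one_le_mul_of_one_le_of_one_le hK₁ hKg, ?_⟩
  intro Ω Λ₀ Ξ Z Z₀ Ci _ p lam₀ x z zx Φ h₀ ζ ζl pz ci χ gN Q MB g₀ Gd NC s₀ s₁ ρ H₁ β H₂ fl E hp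
    hG hβ hh₀ hs₀p hfl hfl1 hρ hρ0 hgood hline
  have hne : Nonempty Ω := by
    by_contra hcon
    rw [not_nonempty_iff] at hcon
    have := hp.sum_one
    rw [Finset.univ_eq_empty, Finset.sum_empty] at this
    exact zero_ne_one this
  have hK1g : 1 ≤ K₁ * Kg := one_le_mul_of_one_le_of_one_le hK₁ hKg
  have hfs : 0 < fl * s₀ := lt_of_lt_of_le (by positivity) hfl
  -- the signs
  have hs₀f : h₀ + Kg * β ≤ s₀ ∧ K₁ * ((h₀ + Kg * β) / s₀) ≤ fl ∧ 0 < s₀ := by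
    have h1 : K₁ * (h₀ + Kg * β) ≤ K₁ * Kg * (h₀ + β) := by
      have h2 : h₀ + Kg * β ≤ Kg * (h₀ + β) := by nlinarith
      calc K₁ * (h₀ + Kg * β) ≤ K₁ * (Kg * (h₀ + β)) :=
            mul_le_mul_of_nonneg_left h2 (by linarith)
        _ = K₁ * Kg * (h₀ + β) := by ring
    have h2 : h₀ + Kg * β ≤ K₁ * (h₀ + Kg * β) := by
      have : 0 ≤ h₀ + Kg * β := by positivity
      nlinarith
    have h3 : 0 < s₀ := hs₀p
    refine ⟨?_, ?_, h3⟩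
    · have : fl * s₀ ≤ 1 * s₀ := mul_le_mul_of_nonneg_right hfl1 h3.le
      linarith
    · rw [mul_div_assoc', div_le_iff₀ h3]
      linarith
  obtain ⟨hs1, hs2, hs₀⟩ := hs₀f
  -- the norms
  have hδ : ∃ δ : ℝ, 0 < δ ∧ ∀ ω v, δ * ‖v‖ ≤
      Psi (pol (mnb (Option (Fin d)) D) v) s₀ (z (x ω)) := by
    have h1 : ∀ ω, ∃ δ : ℝ, 0 < δ ∧ ∀ v, δ * ‖v‖ ≤
        Psi (pol (mnb (Option (Fin d)) D) v) s₀ (z (x ω)) := fun ω =>
      nrm_low (nrm_psi _ s₀ (z (x ω))) fun v hv => Psi_pos _ (inj_mnb hv) s₀ hs₀ _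
    choose δ hδ0 hδ using h1
    obtain ⟨ω₀, hω₀⟩ := Finite.exists_min δ
    exact ⟨δ ω₀, hδ0 _, fun ω v =>
      (mul_le_mul_of_nonneg_right (hω₀ ω) (norm_nonneg _)).trans (hδ ω v)⟩
  obtain ⟨δ, hδ0, hδ⟩ := hδ
  have hNm : ∀ ω ω' v, 0 < p ω' → ζ (x ω') = ζ (x ω) →
      Psi (pol (mnb (Option (Fin d)) D) v) s₀ (z (x ω')) ≤
        Nk p x z ζ s₀ (mnb (Option (Fin d)) D) (ζ (x ω)) v := by
    intro ω ω' v h1 h2
    unfold Nk
    exact le_mx (P := fun ω' => 0 < p ω' ∧ ζ (x ω') = ζ (x ω))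
      (f := fun ω => Psi (pol (mnb (Option (Fin d)) D) v) s₀ (z (x ω))) ⟨h1, h2⟩
  refine ⟨δ, hδ0, ?_⟩
  refine
    { cls := hG.cls
      fin := fun ω ω' _ _ hκ => (Prod.ext_iff.1 hκ).1
      nrm := fun ω _ => nrm_mx _ _ fun ω' => nrm_psi _ _ _
      pos := fun ω hω v => (hδ ω v).trans (hNm ω ω v hω rfl)
      deg := deg_mnb
      inj := fun v hv => inj_mnb hv
      good := hgood
      near := ?_
      upp := ?_
      eqn := ?_
      line := ?_ }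
  · intro ω ω' hω hgω hω' hκ v
    obtain ⟨-, u, hu, huz⟩ := Hg hG hβ ω ω' hω hgω hω' hκ
    refine ⟨u, hu, ?_⟩
    have e1 : ζ (x ω') = ζ (x ω) := (Prod.ext_iff.1 hκ).1
    have h1 := H₁' (pol (mnb (Option (Fin d)) D) v) h₀ (h₀ + Kg * β) s₀ (cpt (Φ (zx (x ω))) u)
      (z (x ω')) (pol_deg deg_mnb v) hh₀.le (by nlinarith) (by positivity) hs1 huz
    have h2 := hNm ω ω' v hω' e1
    have h3 : 0 ≤ Psi (pol (mnb (Option (Fin d)) D) v) s₀ (z (x ω')) := Psi_nonneg _ _ _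
    have h5 : 0 ≤ fl := by nlinarith
    have h4 : K₁ * ((h₀ + Kg * β) / s₀) * Psi (pol (mnb (Option (Fin d)) D) v) s₀ (z (x ω')) ≤
        fl * Nk p x z ζ s₀ (mnb (Option (Fin d)) D) (ζ (x ω)) v :=
      mul_le_mul hs2 h2 h3 h5
    linarith
  · intro ω hω v
    rw [one_mul]
    exact (Psi_mono _ _ _ hh₀.le (by nlinarith) _).trans (hNm ω ω v hω rfl)
  · intro ω hω hgω
    obtain ⟨v, hv⟩ := rep_mnb (hG.QD (zx (x ω)))
    refine ⟨v, ?_, fun u hu => ?_⟩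
    · intro h0
      apply hG.Q0 ω hω hgω
      rw [← hv, h0]
      unfold pol
      simp
    · rw [hv]
      have h1 := hG.eq ω hω hgω u hu
      have h2 := hG.low ω hω hgω
      have h3 := hNm ω ω v hω rfl
      rw [hv] at h3
      have h4 : 0 ≤ Psi (Q (zx (x ω))) s₀ (z (x ω)) := Psi_nonneg _ _ _
      have h5 : 0 ≤ fl := by nlinarith
      calc Psi (Q (zx (x ω))) h₀ (cpt (Φ (zx (x ω))) u) ≤ ρ * MB (zx (x ω)) := h1
        _ ≤ ρ * (H₁ * Psi (Q (zx (x ω))) s₀ (z (x ω))) := mul_le_mul_of_nonneg_left h2 hρ0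
        _ = ρ * H₁ * Psi (Q (zx (x ω))) s₀ (z (x ω)) := by ring
        _ ≤ fl * Psi (Q (zx (x ω))) s₀ (z (x ω)) := mul_le_mul_of_nonneg_right hρ h4
        _ ≤ _ := mul_le_mul_of_nonneg_left h3 h5
  · intro ω₁ ω₂ h1 h2 h3 h4 v
    exact hline ω₁ ω₂ h1 h2 h3 h4 _ (pol_deg deg_mnb v)

end Pool.CLO37
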