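import Pool.Agent.H37.CLO.Grd
import Pool.Agent.H35.K2S.Stab

/-!
# The common element, on an event

`core`: on an event, the point side has a norm and the line side has a norm on `Fin M → ℝ`; they
are equal up to the factor `H`, and there are vectors of very small norm. Then on an event of
comparable probability the two sides have a common vector of small norm which is not small.
-/

set_option autoImplicit false

namespace Pool.CLO37

open Finset Real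
open Pool.Agent.H49.Ent Pool.Agent.H32.Dense Pool.STK Pool.KA Pool.K2S

theorem pe_pig {Ω ι : Type} [Fintype Ω] [Fintype ι] {p : Ω → ℝ} (hp : ∀ ω, 0 ≤ p ω)
    (A : Ω → Prop) (hA : 0 < Pe p A) (Q : ι → Ω → Prop) (h : ∀ ω, A ω → ∃ i, Q i ω) :
    ∃ i, Pe p A ≤ Fintype.card ι * Pe p (fun ω => A ω ∧ Q i ω) := by
  classical
  by_contra hcon
  push Not at hcon
  have h1 : Pe p A ≤ ∑ i, Pe p (fun ω => A ω ∧ Q i ω) := by
    simp_rw [Pe_eq]
    rw [Finset.sum_comm]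
    refine Finset.sum_le_sum fun ω _ => ?_
    by_cases hA : A ω
    · obtain ⟨i, hi⟩ := h ω hA
      rw [if_pos hA]
      have h2 : ∀ j ∈ (univ : Finset ι), 0 ≤ if A ω ∧ Q j ω then p ω else 0 := by
        intro j _
        split_ifs
        · exact hp ω
        · exact le_rfl
      refine le_trans (le_of_eq ?_) ((Finset.single_le_sum h2 (mem_univ i)).trans (le_of_eq ?_))
      · rw [if_pos ⟨hA, hi⟩]
      · refine Finset.sum_congr rfl fun j _ => ?_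
        congr
    · rw [if_neg hA]
      refine Finset.sum_nonneg fun j _ => ?_
      split_ifs
      · exact hp ω
      · exact le_rfl
  rcases isEmpty_or_nonempty ι with hι | hι
  · have h2 : ∑ i : ι, Pe p (fun ω => A ω ∧ Q i ω) = 0 := by
      rw [Finset.univ_eq_empty, Finset.sum_empty]
    linarith
  · have hc : (0 : ℝ) < Fintype.card ι := by
      exact_mod_cast Fintype.card_pos
    have h2 : ∑ i : ι, Pe p (fun ω => A ω ∧ Q i ω) < ∑ _i : ι, Pe p A / Fintype.card ι := by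
      refine Finset.sum_lt_sum_of_nonempty Finset.univ_nonempty fun i _ => ?_
      rw [lt_div_iff₀ hc, mul_comm]
      exact hcon i
    rw [Finset.sum_const, Finset.card_univ, nsmul_eq_mul, mul_div_cancel₀ _ hc.ne'] at h2
    linarith

variable {M : ℕ}

/-- The thresholds. -/
noncomputable def sg (K : ℝ) (k : ℕ) : ℝ := 1 / K ^ (2 ^ k - 1)

theorem sg_zero (K : ℝ) : sg K 0 = 1 := by
  unfold sg
  simp

theorem sg_pos {K : ℝ} (hK : 1 ≤ K) (k : ℕ) : 0 < sg K k := by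
  unfold sg
  have : 0 < K := by linarith
  positivity

theorem sg_le_one {K : ℝ} (hK : 1 ≤ K) (k : ℕ) : sg K k ≤ 1 := by
  unfold sg
  rw [div_le_one (by have : 0 < K := by linarith
                     positivity)]
  exact one_le_pow₀ hK

theorem sg_succ {K : ℝ} (hK : 1 ≤ K) (k : ℕ) : sg K (k + 1) = sg K k ^ 2 / K := by
  unfold sg
  have h0 : K ≠ 0 := by
    have : 0 < K := by linarith
    exact this.ne'
  have e : 2 ^ (k + 1) - 1 = (2 ^ k - 1) * 2 + 1 := by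
    have : 1 ≤ 2 ^ k := Nat.one_le_two_pow
    have h2 : 2 ^ (k + 1) = 2 ^ k * 2 := pow_succ 2 k
    omega
  rw [e, pow_succ, pow_mul]
  field_simp

theorem sg_anti {K : ℝ} (hK : 1 ≤ K) {k k' : ℕ} (h : k ≤ k') : sg K k' ≤ sg K k := by
  unfold sg
  have h0 : 0 < K := by linarith
  refine one_div_le_one_div_of_le (by positivity) (pow_le_pow_right₀ hK ?_)
  have : 2 ^ k ≤ 2 ^ k' := Nat.pow_le_pow_right (by norm_num) h
  omega

/-- **The common element.** -/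
theorem core {Ω Ξ Λ : Type} [Fintype Ω] {p : Ω → ℝ} (hp : ∀ ω, 0 ≤ p ω) (x : Ω → Ξ) (l : Ω → Λ)
    (A : Ω → Prop) (hA : 0 < Pe p A) (νx : Ξ → (Fin M → ℝ) → ℝ) (νl : Λ → (Fin M → ℝ) → ℝ)
    {C₀ H ε K : ℝ} (hC₀ : 1 ≤ C₀) (hH : 1 ≤ H) (hε : 0 < ε) (hε1 : ε ≤ 1)
    (hK : K = (1 + H * H) * (2 * C₀) / ε) (hl : ∀ ω, A ω → Nrm (νl (l ω)))
    (hC : ∀ ω, A ω → ∀ v, νl (l ω) v ≤ C₀ * ‖v‖)
    (hxl : ∀ ω, A ω → ∀ v, νx (x ω) v ≤ H * νl (l ω) v)
    (hlx : ∀ ω, A ω → ∀ v, νl (l ω) v ≤ H * νx (x ω) v)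
    (hM : ∀ ω, A ω → ∃ v, νl (l ω) v < sg K M * ‖v‖) :
    ∃ (qx : Ξ → Fin M → ℝ) (ql : Λ → Fin M → ℝ) (B : Ω → Prop), Sub B A ∧
      Pe p A ≤ M * 2 ^ M * M * Pe p B ∧ ∀ ω, B ω →
        1 ≤ ‖qx (x ω)‖ ∧ ‖qx (x ω)‖ ≤ 2 * C₀ / sg K M ∧ ‖ql (l ω)‖ ≤ 2 * C₀ / sg K M ∧
        νx (x ω) (qx (x ω)) ≤ ε ∧ ‖qx (x ω) - ql (l ω)‖ ≤ ε := by
  classical
  have hHH : 1 ≤ H * H := one_le_mul_of_one_le_of_one_le hH hH
  have hK4 : 4 ≤ K := by
    rw [hK, le_div_iff₀ hε]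
    nlinarith
  have hK1 : 1 ≤ K := by linarith
  have hK0 : 0 < K := by linarith
  -- the choice of the line side
  obtain ⟨i, hi⟩ := pe_pig (ι := Fin M × Finset (Fin M) × Fin M) hp A hA
    (fun i ω => i.2.2 ∉ i.2.1 ∧ Free (νl (l ω)) (sg K i.1) i.2.1 ∧
      ¬ Free (νl (l ω)) (sg K (i.1 + 1)) (insert i.2.2 i.2.1)) (fun ω hω => by
      have hnf : ¬ Free (νl (l ω)) (sg K M) univ := by
        intro hf
        obtain ⟨v, hv⟩ := hM ω hω
        have := hf v (fun i hi => absurd (mem_univ i) hi)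
        linarith
      obtain ⟨k, B, j, h1, h2, h3, h4⟩ := grd (hl ω hω) (sg K) hnf
      exact ⟨⟨⟨k, h1⟩, B, j⟩, h2, h3, h4⟩)
  obtain ⟨k, B, j⟩ := i
  beta_reduce at hi
  obtain ⟨σ, hσ⟩ : ∃ σ, σ = sg K k := ⟨_, rfl⟩
  obtain ⟨σ', hσ'⟩ : ∃ σ', σ' = sg K (k + 1) := ⟨_, rfl⟩
  have hσ0 : 0 < σ := by rw [hσ]; exact sg_pos hK1 _
  have hσ1 : σ ≤ 1 := by rw [hσ]; exact sg_le_one hK1 _
  have hσ'0 : 0 < σ' := by rw [hσ']; exact sg_pos hK1 _
  have hσσ : σ' = σ ^ 2 / K := by rw [hσ, hσ']; exact sg_succ hK1 _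
  have hσM : sg K M ≤ σ := by
    rw [hσ]
    exact sg_anti hK1 k.2.le
  have hsM : 0 < sg K M := sg_pos hK1 M
  have hhalf : σ' ≤ σ / 2 := by
    rw [hσσ, div_le_div_iff₀ hK0 (by norm_num : (0 : ℝ) < 2)]
    nlinarith
  have hn1 : (1 + H * H) * (2 * C₀ * σ' / σ) / σ = ε := by
    rw [hσσ, hK]
    field_simp
  have hn2 : H * (2 * C₀ * σ' / σ) ≤ ε := by
    have h1 : 0 ≤ 2 * C₀ * σ' / σ := by positivity
    have h2 : (1 + H * H) * (2 * C₀ * σ' / σ) = ε * σ := by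
      rw [div_eq_iff hσ0.ne'] at hn1
      exact hn1
    nlinarith
  have hR : 2 * C₀ / σ ≤ 2 * C₀ / sg K M := div_le_div_of_nonneg_left (by positivity) hsM hσM
  refine ⟨fun ξ => if h : ∃ v, Frm B j v ∧ νx ξ v ≤ H * (2 * C₀ * σ' / σ) ∧ ‖v‖ ≤ 2 * C₀ / σ
      then h.choose else 0,
    fun s => if h : ∃ v, Frm B j v ∧ νl s v ≤ 2 * C₀ * σ' / σ ∧ ‖v‖ ≤ 2 * C₀ / σ
      then h.choose else 0,
    fun ω => A ω ∧ j ∉ B ∧ Free (νl (l ω)) (sg K k) B ∧
      ¬ Free (νl (l ω)) (sg K (k + 1)) (insert j B), fun ω hω => hω.1, ?_, ?_⟩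
  · refine hi.trans (le_of_eq ?_)
    rw [Fintype.card_prod, Fintype.card_prod, Fintype.card_fin, Fintype.card_finset,
      Fintype.card_fin]
    push_cast
    ring
  · rintro ω ⟨h1, -, h3, h4⟩
    rw [← hσ] at h3
    rw [← hσ'] at h4
    obtain ⟨el, ex, un⟩ := grd_two (hl ω h1) (hC ω h1) hC₀ hH hσ0 hσ1 hσ'0.le hhalf h3 h4
      (hxl ω h1) (hlx ω h1)
    beta_reduce
    rw [dif_pos el, dif_pos ex]
    obtain ⟨l1, l2, l3⟩ := el.choose_spec
    obtain ⟨x1, x2, x3⟩ := ex.choose_spec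
    refine ⟨x1.one_le, x3.trans hR, l3.trans hR, x2.trans hn2, ?_⟩
    rw [norm_sub_rev]
    exact (un _ _ l1 x1 l2 x2).trans hn1.le

end Pool.CLO37
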