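import Pool.Agent.H37.CLO.Core

/-!
# The coupling of two samples with the same line

`cp p lam`: two samples with the same value of `lam`, conditionally independent. `cp_sel`: for every
event of the coupling there is a choice of the first sample as a function of the value of `lam`.
-/

set_option autoImplicit false

namespace Pool.CLO37

open Finset Real
open Pool.Agent.H49.Ent Pool.Agent.H32.Dense Pool.STK Pool.KA Pool.K2S

variable {Ω Λ : Type} [Fintype Ω] {p : Ω → ℝ} {lam : Ω → Λ}

open Classical in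
/-- The coupling of two samples with the same value of `lam`. -/
noncomputable def cp (p : Ω → ℝ) (lam : Ω → Λ) (v : Ω × Ω) : ℝ :=
  if lam v.1 = lam v.2 then p v.1 * p v.2 / law p lam (lam v.2) else 0

theorem law_pos_of {ω : Ω} (hp : ∀ ω, 0 ≤ p ω) (hω : 0 < p ω) : 0 < law p lam (lam ω) := by
  classical
  unfold law
  refine lt_of_lt_of_le hω ?_
  refine le_trans ?_ (Finset.single_le_sum (f := fun ω' => if lam ω' = lam ω then p ω' else 0)
    (fun ω' _ => ite_nonneg (hp ω') le_rfl) (mem_univ ω))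
  rw [if_pos rfl]

theorem cp_nonneg (hp : ∀ ω, 0 ≤ p ω) (v : Ω × Ω) : 0 ≤ cp p lam v := by
  classical
  unfold cp
  refine ite_nonneg ?_ le_rfl
  exact div_nonneg (mul_nonneg (hp _) (hp _)) (law_nonneg hp _ _)

theorem cp_pos (hp : ∀ ω, 0 ≤ p ω) {v : Ω × Ω} (h : 0 < cp p lam v) :
    0 < p v.1 ∧ 0 < p v.2 ∧ lam v.1 = lam v.2 := by
  classical
  unfold cp at h
  split_ifs at h with h1
  · refine ⟨?_, ?_, h1⟩
    · rcases (hp v.1).eq_or_lt with h2 | h2
      · rw [← h2, zero_mul, zero_div] at h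
        exact absurd h (lt_irrefl _)
      · exact h2
    · rcases (hp v.2).eq_or_lt with h2 | h2
      · rw [← h2, mul_zero, zero_div] at h
        exact absurd h (lt_irrefl _)
      · exact h2
  · exact absurd h (lt_irrefl _)

/-- The marginals. -/
theorem cp_snd (hp : ∀ ω, 0 ≤ p ω) (ω : Ω) : ∑ ω', cp p lam (ω', ω) = p ω := by
  classical
  rcases (hp ω).eq_or_lt with h | h
  · rw [← h]
    refine Finset.sum_eq_zero fun ω' _ => ?_
    unfold cp
    simp only
    rw [← h, mul_zero, zero_div, ite_self]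
  · have h1 := law_pos_of (lam := lam) hp h
    have h2 : ∀ ω', cp p lam (ω', ω) = (if lam ω' = lam ω then p ω' else 0) *
        (p ω / law p lam (lam ω)) := by
      intro ω'
      unfold cp
      simp only
      split_ifs
      · rw [mul_div_assoc]
      · rw [zero_mul]
    simp_rw [h2]
    rw [← Finset.sum_mul]
    have h3 : ∑ ω', (if lam ω' = lam ω then p ω' else 0) = law p lam (lam ω) := by
      unfold law
      rfl
    rw [h3]
    field_simp

theorem cp_fst (hp : ∀ ω, 0 ≤ p ω) (ω : Ω) : ∑ ω', cp p lam (ω, ω') = p ω := by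
  classical
  rw [← cp_snd (lam := lam) hp ω]
  refine Finset.sum_congr rfl fun ω' _ => ?_
  unfold cp
  simp only
  by_cases h : lam ω = lam ω'
  · rw [if_pos h, if_pos h.symm, h, mul_comm (p ω)]
  · rw [if_neg h, if_neg (Ne.symm h)]

theorem cp_isLaw (hp : IsLaw p) : IsLaw (cp p lam) where
  nonneg := cp_nonneg hp.nonneg
  sum_one := by
    rw [Fintype.sum_prod_type]
    simp_rw [cp_fst hp.nonneg]
    exact hp.sum_one

theorem cp_law_fst (hp : ∀ ω, 0 ≤ p ω) {Ξ : Type} (x : Ω → Ξ) (ξ : Ξ) :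
    law (cp p lam) (fun v => x v.1) ξ = law p x ξ := by
  classical
  unfold law
  rw [Fintype.sum_prod_type]
  refine Finset.sum_congr rfl fun ω _ => ?_
  simp only
  by_cases h : x ω = ξ
  · simp only [h, if_true]
    exact cp_fst hp ω
  · simp only [h, if_false, Finset.sum_const_zero]

theorem cp_law_snd (hp : ∀ ω, 0 ≤ p ω) {Ξ : Type} (x : Ω → Ξ) (ξ : Ξ) :
    law (cp p lam) (fun v => x v.2) ξ = law p x ξ := by
  classical
  unfold law
  rw [Fintype.sum_prod_type_right]
  refine Finset.sum_congr rfl fun ω _ => ?_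
  simp only
  by_cases h : x ω = ξ
  · simp only [h, if_true]
    exact cp_snd hp ω
  · simp only [h, if_false, Finset.sum_const_zero]

/-- **Selection** of the first sample. -/
theorem cp_sel (hp : IsLaw p) (G : Ω × Ω → Prop) (hG : ∀ v, G v → 0 < cp p lam v) :
    ∃ w : Λ → Ω, Pe (cp p lam) G ≤ Pe p (fun ω => G (w (lam ω), ω)) := by
  classical
  have hp0 := hp.nonneg
  have hne : Nonempty Ω := by
    by_contra hcon
    rw [not_nonempty_iff] at hcon
    have := hp.sum_one
    rw [Finset.univ_eq_empty, Finset.sum_empty] at this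
    exact zero_ne_one this
  -- the conditional mass
  obtain ⟨f, hf⟩ : ∃ f : Λ → Ω → ℝ, f = fun s ω₁ =>
    ∑ ω, if lam ω = s ∧ G (ω₁, ω) then p ω else 0 := ⟨_, rfl⟩
  have hmax : ∀ s, ∃ ω₁, ∀ ω', f s ω' ≤ f s ω₁ := fun s => Finite.exists_max (f s)
  choose w hw using hmax
  refine ⟨w, ?_⟩
  rw [Pe_eq, Pe_eq, Fintype.sum_prod_type]
  -- left side
  have h1 : ∀ ω₁ : Ω, (∑ ω, if G (ω₁, ω) then cp p lam (ω₁, ω) else 0) ≤
      p ω₁ / law p lam (lam ω₁) * f (lam ω₁) (w (lam ω₁)) := by
    intro ω₁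
    refine le_trans ?_ (mul_le_mul_of_nonneg_left (hw (lam ω₁) ω₁)
      (div_nonneg (hp0 _) (law_nonneg hp0 _ _)))
    rw [hf]
    simp only
    rw [Finset.mul_sum]
    refine Finset.sum_le_sum fun ω _ => ?_
    by_cases hg : G (ω₁, ω)
    · have h2 := (cp_pos hp0 (hG _ hg)).2.2
      simp only at h2
      rw [if_pos hg, if_pos ⟨h2.symm, hg⟩]
      unfold cp
      simp only
      rw [if_pos h2, ← h2]
      exact le_of_eq (by ring)
    · rw [if_neg hg, if_neg fun h => hg h.2, mul_zero]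
  refine (Finset.sum_le_sum fun ω₁ _ => h1 ω₁).trans ?_
  -- exchange
  have h3 : ∀ ω₁ : Ω, p ω₁ / law p lam (lam ω₁) * f (lam ω₁) (w (lam ω₁)) =
      ∑ ω, if lam ω = lam ω₁ ∧ G (w (lam ω), ω) then p ω * (p ω₁ / law p lam (lam ω)) else 0 := by
    intro ω₁
    rw [hf]
    simp only
    rw [Finset.mul_sum]
    refine Finset.sum_congr rfl fun ω _ => ?_
    by_cases h4 : lam ω = lam ω₁
    · rw [h4]
      by_cases hg : G (w (lam ω₁), ω)
      · rw [if_pos ⟨rfl, hg⟩, if_pos ⟨rfl, hg⟩, mul_comm]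
      · rw [if_neg fun h => hg h.2, if_neg fun h => hg h.2, mul_zero]
    · rw [if_neg fun h => h4 h.1, if_neg fun h => h4 h.1, mul_zero]
  simp_rw [h3]
  rw [Finset.sum_comm]
  refine Finset.sum_le_sum fun ω _ => ?_
  by_cases hg : G (w (lam ω), ω)
  · rw [if_pos hg]
    have h5 : ∀ ω₁, (if lam ω = lam ω₁ ∧ G (w (lam ω), ω) then
        p ω * (p ω₁ / law p lam (lam ω)) else 0) =
        (if lam ω₁ = lam ω then p ω₁ else 0) * (p ω / law p lam (lam ω)) := by
      intro ω₁
      by_cases h6 : lam ω₁ = lam ω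
      · rw [if_pos ⟨h6.symm, hg⟩, if_pos h6]
        ring
      · rw [if_neg fun h => h6 h.1.symm, if_neg h6, zero_mul]
    simp_rw [h5]
    rw [← Finset.sum_mul]
    have h7 : ∑ ω₁, (if lam ω₁ = lam ω then p ω₁ else 0) = law p lam (lam ω) := by
      unfold law
      rfl
    rw [h7]
    rcases (hp0 ω).eq_or_lt with h8 | h8
    · rw [← h8, zero_div, mul_zero]
    · have h9 := law_pos_of (lam := lam) hp0 h8
      refine le_of_eq ?_
      field_simp
  · rw [if_neg hg]
    refine le_of_eq (Finset.sum_eq_zero fun ω₁ _ => ?_)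
    rw [if_neg fun h => hg h.2]

end Pool.CLO37
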