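import Pool.Agent.H37.CLO.Cgo

/-!
# The closing lemma for norms of the points which are comparable on the pairs
-/

set_option autoImplicit false

namespace Pool.CLO37

open Finset Real
open Pool.Agent.H49.Ent Pool.Agent.H32.Dense Pool.STK Pool.KAF Pool.KAL Pool.KS3 Pool.M3F
open Pool.KJA Pool.KA Pool.K2S Pool.KM7

/-- **The closing lemma, form of the norms.** `nx ξ` is a norm of the point, `Nm` the norm at the
label `ζ` of the long line; on the event `E` of pairs the norms of the two points are comparable up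
to the factor `R` and the floor `fl Nm`. -/
theorem fal {Mb : ℕ} {Ω Λ₀ Ξ Z₀ : Type} [Fintype Ω] {p : Ω → ℝ} {lam₀ : Ω → Λ₀} {x : Ω → Ξ}
    {ζ : Ξ → Z₀} {ζl : Λ₀ → Z₀} {Nm : Z₀ → (Fin Mb → ℝ) → ℝ} {nx : Ξ → (Fin Mb → ℝ) → ℝ}
    {E : Ω × Ω → Prop} {Cu fl R δ ε K : ℝ} (hp : IsLaw p)
    (cls : ∀ ω, 0 < p ω → ζ (x ω) = ζl (lam₀ ω))
    (nrm : ∀ ω, 0 < p ω → Nrm (Nm (ζ (x ω))))
    (nrx : ∀ ω, 0 < p ω → Nrm (nx (x ω)))
    (pos : ∀ ω, 0 < p ω → ∀ v, δ * ‖v‖ ≤ Nm (ζ (x ω)) v)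
    (upp : ∀ ω, 0 < p ω → ∀ v, nx (x ω) v ≤ Cu * Nm (ζ (x ω)) v)
    (eqn : ∀ v, 0 < cp p lam₀ v → E v → ∃ w, w ≠ 0 ∧
      nx (x v.1) w ≤ fl * Nm (ζ (x v.1)) w)
    (cmp : ∀ v, 0 < cp p lam₀ v → E v → ∀ w,
      nx (x v.1) w ≤ R * (nx (x v.2) w + fl * Nm (ζ (x v.1)) w) ∧
      nx (x v.2) w ≤ R * (nx (x v.1) w + fl * Nm (ζ (x v.1)) w))
    (hδ : 0 < δ) (hCu : 0 ≤ Cu) (hfl0 : 0 ≤ fl) (hfl1 : fl ≤ 1) (hR : 1 ≤ R) (hε : 0 < ε)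
    (hε1 : ε ≤ 1) (hE : 0 < Pe (cp p lam₀) E)
    (hK : K = (1 + 2 * R * (2 * R)) * (2 * (Mb * (Cu + 1))) / ε)
    (hfl : 2 * fl * Mb < sg K Mb) :
    ∃ (vx : Ξ → Fin Mb → ℝ) (vl : Λ₀ → Fin Mb → ℝ) (B' : Ω → Prop),
      Pe (cp p lam₀) E ≤ Mb * 2 ^ Mb * Mb * Pe p B' ∧ ∀ ω, B' ω → 0 < p ω ∧
        (∃ ω', 0 < cp p lam₀ (ω', ω) ∧ E (ω', ω)) ∧
        1 ≤ Nm (ζ (x ω)) (vx (x ω)) ∧ nx (x ω) (vx (x ω)) ≤ ε ∧
        Nm (ζ (x ω)) (vx (x ω) - vl (lam₀ ω)) ≤ Mb * ε := by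
  classical
  have hp0 := hp.nonneg
  have hrl : IsLaw (cp p lam₀) := cp_isLaw hp
  -- the selection
  obtain ⟨G, hG⟩ : ∃ G : Ω × Ω → Prop, G = fun v => 0 < cp p lam₀ v ∧ E v := ⟨_, rfl⟩
  have hGE : Pe (cp p lam₀) E ≤ Pe (cp p lam₀) G := pe_mono' hrl.nonneg fun v hv hEv => by
    rw [hG]
    exact ⟨hv, hEv⟩
  obtain ⟨w, hw⟩ := cp_sel (lam := lam₀) hp G (fun v hv => by
    rw [hG] at hv
    exact hv.1)
  obtain ⟨A', hA'⟩ : ∃ A' : Ω → Prop, A' = fun ω => G (w (lam₀ ω), ω) := ⟨_, rfl⟩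
  rw [← hA'] at hw
  have hA'0 : 0 < Pe p A' := by linarith
  -- facts on the good event
  have hfact : ∀ ω, A' ω → 0 < p (w (lam₀ ω)) ∧ 0 < p ω ∧ lam₀ (w (lam₀ ω)) = lam₀ ω ∧
      0 < cp p lam₀ (w (lam₀ ω), ω) ∧ E (w (lam₀ ω), ω) := by
    intro ω hω
    rw [hA', hG] at hω
    obtain ⟨p1, p2, p3⟩ := cp_pos hp0 hω.1
    exact ⟨p1, p2, p3, hω.1, hω.2⟩
  -- the bases
  have hMb : 1 ≤ Mb := by
    by_contra hcon
    have h0 : Mb = 0 := by omega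
    subst h0
    obtain ⟨ω, hω⟩ : ∃ ω, A' ω := by
      by_contra hcon2
      push Not at hcon2
      have : Pe p A' = 0 := by
        rw [Pe_eq]
        exact Finset.sum_eq_zero fun ω _ => by rw [if_neg (hcon2 ω)]
      linarith
    obtain ⟨f1, f2, f3, f4, f5⟩ := hfact ω hω
    obtain ⟨v, hv, -⟩ := eqn _ f4 f5
    exact hv (Subsingleton.elim _ _)
  have hMb1 : (1 : ℝ) ≤ Mb := by exact_mod_cast hMb
  obtain ⟨Tb, hTb⟩ : ∃ Tb : Z₀ → Fin Mb → Fin Mb → ℝ, Tb = fun ζ₀ =>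
      if hz : Nrm (Nm ζ₀) ∧ ∀ v, δ * ‖v‖ ≤ Nm ζ₀ v then (aub hz.1 hδ hz.2).choose
      else fun _ _ => 0 := ⟨_, rfl⟩
  have hT : ∀ ω, 0 < p ω → (∀ v : Fin Mb → ℝ, ∃ c : Fin Mb → ℝ, v = ∑ k, c k • Tb (ζ (x ω)) k) ∧
      (∀ i, Nm (ζ (x ω)) (Tb (ζ (x ω)) i) ≤ 1) ∧
      ∀ (c : Fin Mb → ℝ) (i : Fin Mb), |c i| ≤ Nm (ζ (x ω)) (∑ k, c k • Tb (ζ (x ω)) k) := by
    intro ω hω
    rw [hTb]
    have hz : Nrm (Nm (ζ (x ω))) ∧ ∀ v, δ * ‖v‖ ≤ Nm (ζ (x ω)) v := ⟨nrm ω hω, pos ω hω⟩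
    simp only
    rw [dif_pos hz]
    exact (aub hz.1 hδ hz.2).choose_spec
  -- the norms
  obtain ⟨νx, hνx⟩ : ∃ νx : Ξ → (Fin Mb → ℝ) → ℝ, νx = fun ξ v =>
    nx ξ (∑ k, v k • Tb (ζ ξ) k) + fl * Nm (ζ ξ) (∑ k, v k • Tb (ζ ξ) k) := ⟨_, rfl⟩
  obtain ⟨νl, hνl⟩ : ∃ νl : Λ₀ → (Fin Mb → ℝ) → ℝ, νl = fun s v =>
    nx (x (w s)) (∑ k, v k • Tb (ζl s) k) +
      fl * Nm (ζl s) (∑ k, v k • Tb (ζl s) k) := ⟨_, rfl⟩
  obtain ⟨qx, ql, B', hB', hPB', hq⟩ := core (M := Mb) (C₀ := Mb * (Cu + 1)) (H := 2 * R)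
    (ε := ε) (K := K) hp0 x lam₀ A' hA'0 νx νl (by nlinarith) (by linarith) hε hε1 hK
    (by
      intro ω hω
      obtain ⟨f1, f2, f3, f4, f5⟩ := hfact ω hω
      have h1 := (nrx _ f1).comp_add (nrm ω f2) hfl0 (Tb (ζ (x ω)))
      rw [hνl]
      rw [cls ω f2] at h1
      exact h1)
    (by
      intro ω hω v
      obtain ⟨f1, f2, f3, f4, f5⟩ := hfact ω hω
      obtain ⟨t1, t2, t3⟩ := hT ω f2
      have e1 := cls ω f2
      have e2 : ζ (x (w (lam₀ ω))) = ζ (x ω) := by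
        rw [cls _ f1, f3, e1]
      obtain ⟨u, hu⟩ : ∃ u : Fin Mb → ℝ, u = ∑ k, v k • Tb (ζ (x ω)) k := ⟨_, rfl⟩
      have h1 : nx (x (w (lam₀ ω))) u ≤ Cu * Nm (ζ (x ω)) u := by
        have h2 := upp _ f1 u
        rw [e2] at h2
        exact h2
      have h2 : Nm (ζ (x ω)) u ≤ Mb * ‖v‖ := by
        rw [hu]
        exact nrm_le_sum (nrm ω f2) t2 v
      rw [hνl]
      simp only
      rw [← e1, ← hu]
      have h3 := (nrm ω f2).nonneg u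
      have h4 : fl * Nm (ζ (x ω)) u ≤ 1 * Nm (ζ (x ω)) u := mul_le_mul_of_nonneg_right hfl1 h3
      have h5 : (Cu + 1) * Nm (ζ (x ω)) u ≤ (Cu + 1) * (Mb * ‖v‖) :=
        mul_le_mul_of_nonneg_left h2 (by linarith)
      linarith)
    (by
      intro ω hω v
      obtain ⟨f1, f2, f3, f4, f5⟩ := hfact ω hω
      have e1 := cls ω f2
      have e2 : ζ (x (w (lam₀ ω))) = ζ (x ω) := by
        rw [cls _ f1, f3, e1]
      obtain ⟨u, hu⟩ : ∃ u : Fin Mb → ℝ, u = ∑ k, v k • Tb (ζ (x ω)) k := ⟨_, rfl⟩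
      have h1 := (cmp _ f4 f5 u).2
      simp only at h1
      rw [e2] at h1
      rw [hνx, hνl]
      simp only
      rw [← e1, ← hu]
      have h3 : 0 ≤ fl * Nm (ζ (x ω)) u := mul_nonneg hfl0 ((nrm ω f2).nonneg u)
      have h4 := (nrx _ f1).nonneg u
      nlinarith)
    (by
      intro ω hω v
      obtain ⟨f1, f2, f3, f4, f5⟩ := hfact ω hω
      have e1 := cls ω f2
      have e2 : ζ (x (w (lam₀ ω))) = ζ (x ω) := by
        rw [cls _ f1, f3, e1]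
      obtain ⟨u, hu⟩ : ∃ u : Fin Mb → ℝ, u = ∑ k, v k • Tb (ζ (x ω)) k := ⟨_, rfl⟩
      have h1 := (cmp _ f4 f5 u).1
      simp only at h1
      rw [e2] at h1
      rw [hνx, hνl]
      simp only
      rw [← e1, ← hu]
      have h3 : 0 ≤ fl * Nm (ζ (x ω)) u := mul_nonneg hfl0 ((nrm ω f2).nonneg u)
      have h4 := (nrx _ f2).nonneg u
      nlinarith)
    (by
      intro ω hω
      obtain ⟨f1, f2, f3, f4, f5⟩ := hfact ω hω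
      obtain ⟨t1, t2, t3⟩ := hT ω f2
      have e1 := cls ω f2
      have e2 : ζ (x (w (lam₀ ω))) = ζ (x ω) := by
        rw [cls _ f1, f3, e1]
      obtain ⟨v, hv, hvu⟩ := eqn _ f4 f5
      simp only at hvu
      rw [e2] at hvu
      obtain ⟨c, hcv⟩ := t1 v
      refine ⟨c, ?_⟩
      have h2 : Nm (ζ (x ω)) v ≤ Mb * ‖c‖ := by
        rw [hcv]
        exact nrm_le_sum (nrm ω f2) t2 c
      have hc0 : 0 < ‖c‖ := by
        rw [norm_pos_iff]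
        intro h0
        apply hv
        rw [hcv, h0]
        simp
      rw [hνl]
      simp only
      rw [← e1, ← hcv]
      have h5 : fl * Nm (ζ (x ω)) v ≤ fl * (Mb * ‖c‖) := mul_le_mul_of_nonneg_left h2 hfl0
      have h6 : 2 * fl * Mb * ‖c‖ < sg K Mb * ‖c‖ := mul_lt_mul_of_pos_right hfl hc0
      linarith)
  refine ⟨fun ξ => ∑ k, qx ξ k • Tb (ζ ξ) k, fun s => ∑ k, ql s k • Tb (ζl s) k, B', ?_,
    fun ω hω => ?_⟩
  · exact (hGE.trans hw).trans hPB'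
  · obtain ⟨q1, q2, q3, q4, q5⟩ := hq ω hω
    obtain ⟨f1, f2, f3, f4, f5⟩ := hfact ω (hB' ω hω)
    obtain ⟨t1, t2, t3⟩ := hT ω f2
    have e1 := cls ω f2
    refine ⟨f2, ⟨_, f4, f5⟩, ?_, ?_, ?_⟩
    · refine q1.trans ?_
      rw [pi_norm_le_iff_of_nonneg ((nrm ω f2).nonneg _)]
      intro i
      exact t3 _ i
    · rw [hνx] at q4
      simp only at q4
      have h2 : 0 ≤ fl * Nm (ζ (x ω)) (∑ k, qx (x ω) k • Tb (ζ (x ω)) k) :=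
        mul_nonneg hfl0 ((nrm ω f2).nonneg _)
      linarith
    · simp only
      rw [← e1]
      have e3 : ∑ k, qx (x ω) k • Tb (ζ (x ω)) k - ∑ k, ql (lam₀ ω) k • Tb (ζ (x ω)) k =
          ∑ k, (qx (x ω) - ql (lam₀ ω)) k • Tb (ζ (x ω)) k := by
        rw [← Finset.sum_sub_distrib]
        exact Finset.sum_congr rfl fun k _ => by rw [Pi.sub_apply, sub_smul]
      rw [e3]
      refine (nrm_le_sum (nrm ω f2) t2 _).trans ?_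
      exact mul_le_mul_of_nonneg_left q5 (by positivity)

end Pool.CLO37
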