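import Pool.Agent.H37.CLO.Fr6

/-!
# The family form: the samples of the first window
-/

set_option autoImplicit false

namespace Pool.CLO37

open Finset Real MvPolynomial
open Pool.Agent.H49.Ent Pool.Agent.H32.Dense Pool.STK Pool.KAF Pool.KAL Pool.KS3 Pool.M3F
open Pool.KJA Pool.KA Pool.K2S Pool.KSAT Pool.PB Pool.STAT Pool.GEN Pool.GEO Pool.IEN

/-- The jet size at a larger scale. -/
theorem psi_up {σ : Type} [Fintype σ] {D : ℕ} (R : MvPolynomial σ ℝ) (hR : R.totalDegree ≤ D)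
    {l : ℝ} (hl : 1 ≤ l) (s : ℝ) (z : σ → ℝ) : Psi R (l * s) z ≤ l ^ D * Psi R s z := by
  unfold Psi
  obtain ⟨f, hf⟩ : ∃ f : σ → MvPolynomial σ ℝ, f = fun i => C (0 : ℝ) + C l * MvPolynomial.X i := ⟨_, rfl⟩
  have h1 : shf R (l * s) z = (aeval f) (shf R s z) := by
    rw [mul_comm, shf_scale, hf]
    rfl
  rw [h1]
  have h2 := coefSum_aeval_le (shf R s z) f l hl (fun i => by
    rw [hf]
    refine (coefSum_add_le _ _).trans ?_
    rw [coefSum_C, abs_zero, zero_add]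
    refine (coefSum_mul_le _ _).trans ?_
    rw [coefSum_C, coefSum_X, mul_one, abs_of_nonneg (by linarith)])
  refine h2.trans (mul_le_mul_of_nonneg_right ?_ (coefSum_nonneg _))
  exact pow_le_pow_right₀ hl ((totalDegree_shf_le R s z).trans hR)

/-- The polynomial in the scaled variables, in the other order. -/
noncomputable def scr {d : ℕ} (l : ℝ) (ρ : Equiv.Perm (Fin d))
    (R : MvPolynomial (Option (Fin d)) ℝ) : MvPolynomial (Option (Fin d)) ℝ :=
  bind₁ (fun o => C l * MvPolynomial.X (opm ρ o)) R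

lemma eval_scr {d : ℕ} (l : ℝ) (ρ : Equiv.Perm (Fin d)) (R : MvPolynomial (Option (Fin d)) ℝ)
    (z : Option (Fin d) → ℝ) : eval z (scr l ρ R) = eval (fun o => l * z (opm ρ o)) R := by
  unfold scr
  have h := eval₂Hom_bind₁ (RingHom.id ℝ) z (fun o => C l * MvPolynomial.X (opm ρ o)) R
  refine h.trans ?_
  show eval (fun o => eval z (C l * MvPolynomial.X (opm ρ o))) R = _
  simp only [map_mul, eval_C, eval_X]

lemma psi_scr {d : ℕ} (l : ℝ) (ρ : Equiv.Perm (Fin d)) (R : MvPolynomial (Option (Fin d)) ℝ)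
    (h : ℝ) (z : Option (Fin d) → ℝ) :
    Psi (scr l ρ R) h z = Psi R (l * h) (fun o => l * z (opm ρ o)) := by
  unfold Psi
  have h1 : shf (scr l ρ R) h z = rename (opm ρ) (shf R (l * h) (fun o => l * z (opm ρ o))) := by
    refine MvPolynomial.funext fun v => ?_
    rw [eval_shf, eval_scr, eval_rename, eval_shf]
    congr 2
    funext o
    show l * (z (opm ρ o) + h * v (opm ρ o)) = _
    simp only [Function.comp]
    ring
  rw [h1, coefSum_rename (opm_inj ρ)]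

lemma deg_scr {d : ℕ} (l : ℝ) (ρ : Equiv.Perm (Fin d)) (R : MvPolynomial (Option (Fin d)) ℝ) :
    (scr l ρ R).totalDegree ≤ R.totalDegree := by
  refine (SML.totalDegree_bind_le _ 1 (fun o => ?_) R).trans (le_of_eq (one_mul _))
  refine (totalDegree_mul _ _).trans ?_
  rw [totalDegree_C, totalDegree_X, zero_add]

/-- **Growth** on the natural boxes of a triangular system. -/
theorem box_grow (d D K₀ : ℕ) : ∃ C : ℝ, 1 ≤ C ∧
    ∀ (G : Fin d → MvPolynomial (Fin d) ℝ) (w : Fin d → ℝ) (R : MvPolynomial (Fin d) ℝ)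
      (m Θ : ℝ), TriP G → (∀ i, (G i).totalDegree ≤ K₀) → (∀ i, 0 < w i) → R.totalDegree ≤ D →
      1 ≤ Θ → (∀ y : Fin d → ℝ, (∀ i, 0 ≤ y i - eval y (G i) ∧ y i - eval y (G i) ≤ w i) →
        |eval y R| ≤ m) →
      ∀ y : Fin d → ℝ, (∀ i, |y i - eval y (G i)| ≤ Θ * w i) →
        |eval y R| ≤ C * Θ ^ ((K₀ + 1) ^ d * D) * m := by
  obtain ⟨K₁, hK₁, hgr⟩ := Pool.M3F.grow d ((K₀ + 1) ^ d * D)
  refine ⟨K₁ * 3 ^ ((K₀ + 1) ^ d * D), one_le_mul_of_one_le_of_one_le hK₁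
    (one_le_pow₀ (by norm_num)), ?_⟩
  intro G w R m Θ hG hGd hw hR hΘ hm y hy
  obtain ⟨χ, hχ⟩ : ∃ χ, χ = chi G (fun _ => 0) w := ⟨_, rfl⟩
  obtain ⟨u, hu⟩ : ∃ u : Fin d → ℝ, u = fun i => (y i - eval y (G i) - 0) / w i := ⟨_, rfl⟩
  have h1 : cpt χ u = y := by
    rw [hχ, hu]
    exact chi_onto G hG (fun _ => 0) w hw y
  have h2 : ∀ v ∈ ucube d, |eval v (bind₁ χ R)| ≤ m := by
    intro v hv
    rw [Pool.M3F.eval_bind]
    refine hm _ fun i => ?_
    have h3 := eval_chi G hG (fun _ => 0) w v i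
    rw [hχ]
    rw [h3]
    have h4 := hw i
    constructor
    · have := mul_nonneg h4.le (hv i).1
      linarith
    · have := mul_le_mul_of_nonneg_left (hv i).2 h4.le
      linarith
  have hm0 : 0 ≤ m := (abs_nonneg _).trans (h2 (fun _ => 0) fun _ => ⟨le_rfl, zero_le_one⟩)
  have h5 := hgr (bind₁ χ R) Θ u ((SML.totalDegree_bind_le _ ((K₀ + 1) ^ d) (fun i => by
    rw [hχ]
    exact deg_chiN G (fun _ => 0) w K₀ hGd d i) _).trans (Nat.mul_le_mul_left _ hR)) hΘ
    (fun i => by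
      rw [hu]
      dsimp only
      rw [sub_zero, abs_div, abs_of_pos (hw i), div_le_iff₀ (hw i)]
      exact hy i)
  rw [Pool.M3F.eval_bind, h1, mul_pow, ← mul_assoc] at h5
  refine h5.trans (mul_le_mul_of_nonneg_left ?_ (by positivity))
  refine SML.cs_le _ hm0 ?_
  intro v hv
  refine h2 v fun i => ⟨(hv i).1, ?_⟩
  have := (hv i).2
  linarith

end Pool.CLO37
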