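import Pool.Agent.H37.CLO.Fb1

/-!
# The family form: from the samples to the leaf of the first window
-/

set_option autoImplicit false

namespace Pool.CLO37

open Finset Real MvPolynomial
open Pool.Agent.H49.Ent Pool.Agent.H32.Dense Pool.STK Pool.KAF Pool.KAL Pool.KS3 Pool.M3F
open Pool.KJA Pool.KA Pool.K2S Pool.KSAT Pool.PB Pool.STAT Pool.GEN Pool.GEO Pool.IEN

/-- The scale of the leaf at the first window. -/
noncomputable def hsc (r kap W0 W1 γ : ℕ) (L : ℝ) : ℝ :=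
  2 ^ (W1 - W0) * (clC r kap L / ((2 ^ (γ - W0) : ℕ) : ℝ))

/-- **Mixing at the first window**: the jets on the leaf are controlled by the samples. -/
theorem mix0_ev (r D K : ℕ) : ∃ C : ℝ, 1 ≤ C ∧ ∀ {m J : ℕ} {F : Fam m J} {A : F.Ω → Prop}
    {kap W0 W1 Pp sg q : ℕ} {c₀ c₁ : ℕ → Fin m} {ρ : Equiv.Perm (Fin (r + 1))} {g0 g1 : ℕ → ℕ}
    {L : ℝ} {V0 V1 : Type} {z0 : PtT F → V0} {z0' : LnT F → V0} {P0 : V0 → ℕ → PN}
    {z1 : PtT F → V1} {z1' : LnT F → V1} {P1 : V1 → ℕ → PN} (h μ e₁ : ℝ) (N : ℕ),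
    RecW F A r K kap W0 W1 Pp sg q c₀ c₁ ρ g0 g1 L z0 z0' P0 z1 z1' P1 → 0 < law F.p A True →
    (∀ i < r + 1, W0 ≤ wid W0 g0 i + kap ∧ wid W0 g0 i ≤ g0 r) →
    (∀ ξ : PtT F, zsw c₁ r W1 sg ξ = fun o => 2 ^ (W1 - W0) * zsw c₀ r W0 sg ξ (opm ρ o)) →
    0 < h →
    MxC N μ (Pool.Agent.H49.Ent.cond F.p A True) (slam F W0) (K2S.Fam.pt F)
      (fun _ => ∑ i, Real.log (ngw W0 (g0 r) g0 (r + 1) i))
      (fun ξ => ybw c₀ r W0 (g0 r) g0 (P0 (z0 ξ)) ξ) → 0 ≤ μ →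
    Real.log ((2 ^ (g0 r - W0) : ℕ) : ℝ) - CH (Pool.Agent.H49.Ent.cond F.p A True)
      (fun ω => tdg W0 (g0 r) (K2S.Fam.pt F ω)) (slam F W0) ≤ e₁ → 0 ≤ e₁ →
    ∃ Bd : F.Ω → Prop, Pe (Pool.Agent.H49.Ent.cond F.p A True) Bd ≤
      C * (((N + 1) * (e₁ + 1) + μ) / h) ∧
      ∀ ω, 0 < Pool.Agent.H49.Ent.cond F.p A True ω → ¬ Bd ω →
        ∀ (R : MvPolynomial (Option (Fin (r + 1))) ℝ) (s₀ Nn : ℝ), R.totalDegree ≤ D → 0 < s₀ →
          s₀ ≤ hsc r kap W0 W1 (g0 r) L → 0 ≤ Nn →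
          (∀ ω', 0 < Pool.Agent.H49.Ent.cond F.p A True ω' →
            z0 (ptr F J ω') = z0 (ptr F J ω) → Psi R s₀ (zsw c₁ r W1 sg (ptr F J ω')) ≤ Nn) →
          ∀ u ∈ ucube (r + 1), Psi R (hsc r kap W0 W1 (g0 r) L)
            (fun o => 2 ^ (W1 - W0) *
              cpt (chw (r + 1) W0 (g0 r) g0 (P0 (z0 (ptr F J ω)))) u (opm ρ o)) ≤
            Real.exp h * ((hsc r kap W0 W1 (g0 r) L / s₀) ^ D * Nn) := by
  classical
  obtain ⟨C, hC, H₁⟩ := lrp_ev (Option (Fin (r + 1))) (r + 1) D ((K + 1) ^ (r + 1 + 1) + 1)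
  refine ⟨C, hC, ?_⟩
  intro m J F A kap W0 W1 Pp sg q c₀ c₁ ρ g0 g1 L V0 V1 z0 z0' P0 z1 z1' P1 h μ e₁ N H hA hwd hzs
    hh hmx hμ he₁ he₁0
  obtain ⟨p, hp⟩ : ∃ p, p = Pool.Agent.H49.Ent.cond F.p A True := ⟨_, rfl⟩
  have hγJ : g0 r ≤ J := H.g0P.trans H.PJ
  have hW0 : W0 ≤ g0 r := by
    have h1 := (hwd 0 (Nat.succ_pos r)).2
    rwa [wid_zero] at h1
  have hcl := cleaf_w (kap := kap) H.n0 H.L0 hA hγJ hW0 le_rfl hwd
  rw [← hp] at hcl hmx he₁ ⊢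
  have hpl : IsLaw p := hcl.inc.isLaw
  have hp0 : ∀ ω, 0 ≤ p ω := hpl.nonneg
  have hC₀ : 1 ≤ clC r kap L := by
    have := clC_ge (r := r) (kap := kap) H.L0
    linarith
  obtain ⟨M₀, hM₀⟩ : ∃ M₀ : ℕ, M₀ = 2 ^ (g0 r - W0) := ⟨_, rfl⟩
  have hM1 : 1 ≤ M₀ := by
    rw [hM₀]
    exact Nat.one_le_two_pow
  obtain ⟨l, hl⟩ : ∃ l : ℝ, l = 2 ^ (W1 - W0) := ⟨_, rfl⟩
  have hl1 : 1 ≤ l := by
    rw [hl]
    exact one_le_pow₀ one_le_two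
  have hs : hsc r kap W0 W1 (g0 r) L = l * (clC r kap L / M₀) := by
    unfold hsc
    rw [hl, hM₀]
  rw [← hM₀] at hcl he₁
  have h1 := H₁ (clC r kap L) F.Ω (LnT F) (PtT F) V0 F.Ω Unit p (slam F W0) (K2S.Fam.pt F)
    (tdg W0 (g0 r)) (zsw c₀ r W0 sg) (avw c₀ r W0 sg) (bvw c₀ r sg) z0 z0'
    (fun ξ => ybw c₀ r W0 (g0 r) g0 (P0 (z0 ξ)) ξ) (fun _ => ngw W0 (g0 r) g0 (r + 1))
    (fun v => chw (r + 1) W0 (g0 r) g0 (P0 v)) M₀ N μ e₁ h p (K2S.Fam.pt F) (fun _ => ())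
    (fun _ => True) hC₀ hM1 hcl hmx hμ he₁ he₁0 hh hpl (fun _ => rfl)
  have h2 : ∀ f : F.Ω → Option Unit, (∀ ω ω', f ω = f ω') →
      CH p f (fun v => z0 (K2S.Fam.pt F v)) = 0 :=
    fun f hf => CH_eq_zero hp0 fun ω ω' _ _ _ => hf ω ω'
  rw [h2 _ (fun _ _ => rfl), mul_zero, zero_add] at h1
  refine ⟨fun v => True ∧ ∃ (F' : MvPolynomial (Option (Fin (r + 1))) ℝ)
    (u : Fin (r + 1) → ℝ), F' ≠ 0 ∧ F'.totalDegree ≤ D ∧
      u ∈ ucube (r + 1) ∧ ∀ v', 0 < p v' → True → z0 (K2S.Fam.pt F v') = z0 (K2S.Fam.pt F v) →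
        () = () → Real.exp h * Psi F' (clC r kap L / M₀) (zsw c₀ r W0 sg (K2S.Fam.pt F v')) <
          Psi F' (clC r kap L / M₀) (cpt (chw (r + 1) W0 (g0 r) g0 (P0 (z0 (K2S.Fam.pt F v)))) u),
    ?_, ?_⟩
  · rw [Pe_eq]
    refine le_trans (le_of_eq (Finset.sum_congr rfl fun ω _ => ?_)) (h1.trans (le_of_eq ?_))
    · split_ifs <;> rfl
    · ring
  · intro ω hω hb R s₀ Nn hR hs₀ hss hNn hcls u hu
    rw [hs] at hss ⊢
    have hX : 0 ≤ Real.exp h * ((l * (clC r kap L / M₀) / s₀) ^ D * Nn) := by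
      have : 0 ≤ l * (clC r kap L / M₀) := hs₀.le.trans hss
      positivity
    by_cases hR0 : scr l ρ R = 0
    · have h3 := psi_scr l ρ R (clC r kap L / M₀)
        (cpt (chw (r + 1) W0 (g0 r) g0 (P0 (z0 (ptr F J ω)))) u)
      rw [hR0] at h3
      rw [hl] at h3
      rw [hl]
      rw [← h3]
      have h4 : Psi (0 : MvPolynomial (Option (Fin (r + 1))) ℝ) (clC r kap L / M₀)
          (cpt (chw (r + 1) W0 (g0 r) g0 (P0 (z0 (ptr F J ω)))) u) = 0 := by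
        unfold Psi shf
        rw [map_zero]
        exact Finset.sum_empty
      rw [h4]
      rw [hl] at hX
      exact hX
    · by_contra hcon
      push Not at hcon
      refine hb ⟨trivial, scr l ρ R, u, hR0, (deg_scr l ρ R).trans hR, hu, ?_⟩
      intro v' hv' _ hz _
      rw [psi_scr, psi_scr]
      have h3 := hcls v' hv' hz
      rw [hzs] at h3
      rw [← hl] at h3 hcon
      refine lt_of_le_of_lt (mul_le_mul_of_nonneg_left ?_ (Real.exp_pos h).le) hcon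
      have h5 : 1 ≤ l * (clC r kap L / M₀) / s₀ := by
        rw [le_div_iff₀ hs₀, one_mul]
        exact hss
      have h6 := psi_up R hR h5 s₀ (fun o => l * zsw c₀ r W0 sg (ptr F J v') (opm ρ o))
      rw [div_mul_cancel₀ _ hs₀.ne'] at h6
      exact h6.trans (mul_le_mul_of_nonneg_left h3 (by positivity))

end Pool.CLO37
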