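import Pool.Agent.H37.CLO.Fb2
import Pool.Agent.H5.M3F.Wgt

/-!
# The family form: coordinates
-/

set_option autoImplicit false

namespace Pool.CLO37

open Finset Real MvPolynomial
open Pool.Agent.H49.Ent Pool.Agent.H32.Dense Pool.STK Pool.KAF Pool.KAL Pool.KS3 Pool.M3F
open Pool.KJA Pool.KA Pool.K2S Pool.KSAT Pool.PB Pool.STAT Pool.GEN Pool.GEO Pool.IEN Pool.EXS
open Pool.STAT.CLO

/-- The positions of the coordinates. -/
def ixo {r : ℕ} (ρ : Equiv.Perm (Fin (r + 1))) (o : Option (Fin (r + 1))) : Fin (r + 2) :=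
  o.elim (Fin.last (r + 1)) (fun i => (ρ i).castSucc)

/-- The polynomial in the coordinates of the first window. -/
noncomputable def rx {r : ℕ} (W1 : ℕ) (ρ : Equiv.Perm (Fin (r + 1)))
    (R : MvPolynomial (Option (Fin (r + 1))) ℝ) : MvPolynomial (Fin (r + 2)) ℝ :=
  bind₁ (fun o => C (2 ^ W1) * MvPolynomial.X (ixo ρ o)) R

lemma eval_rx {r : ℕ} (W1 : ℕ) (ρ : Equiv.Perm (Fin (r + 1)))
    (R : MvPolynomial (Option (Fin (r + 1))) ℝ) (x : Fin (r + 2) → ℝ) :
    eval x (rx W1 ρ R) = eval (fun o => 2 ^ W1 * x (ixo ρ o)) R := by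
  unfold rx
  have h := eval₂Hom_bind₁ (RingHom.id ℝ) x
    (fun o => C (2 ^ W1) * MvPolynomial.X (ixo ρ o)) R
  refine h.trans ?_
  show eval (fun o => eval x (C (2 ^ W1) * MvPolynomial.X (ixo ρ o))) R = _
  simp only [map_mul, eval_C, eval_X]

lemma deg_rx {r : ℕ} (W1 : ℕ) (ρ : Equiv.Perm (Fin (r + 1)))
    (R : MvPolynomial (Option (Fin (r + 1))) ℝ) :
    (rx W1 ρ R).totalDegree ≤ R.totalDegree := by
  refine (SML.totalDegree_bind_le _ 1 (fun o => ?_) R).trans (le_of_eq (one_mul _))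
  refine (totalDegree_mul _ _).trans ?_
  rw [totalDegree_C, totalDegree_X, zero_add]

variable {m J : ℕ}

/-- The coordinates of a point. -/
noncomputable def xb (c : ℕ → Fin m) (r sg : ℕ) (b : Option (Fin m) → ℝ) (i : Fin (r + 2)) : ℝ :=
  if i.val = 0 then b none
  else if i.val = r + 1 then b (some (c r)) / 2 ^ sg else b (some (c (i.val - 1)))

/-- The polynomial of the point. -/
noncomputable def Dxp (c : ℕ → Fin m) (r W1 sg : ℕ) (ρ : Equiv.Perm (Fin (r + 1)))
    (R : MvPolynomial (Option (Fin (r + 1))) ℝ) : MvPolynomial (Option (Fin m)) ℝ :=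
  bind₁ (fun o : Option (Fin (r + 1)) => o.elim (C (2 ^ W1 / 2 ^ sg) *
    MvPolynomial.X (some (c r))) (fun i => if (ρ i).val = 0 then C (2 ^ W1) * MvPolynomial.X none
      else C (2 ^ W1) * MvPolynomial.X (some (c ((ρ i).val - 1))))) R

lemma eval_Dxp (c : ℕ → Fin m) (r W1 sg : ℕ) (ρ : Equiv.Perm (Fin (r + 1)))
    (R : MvPolynomial (Option (Fin (r + 1))) ℝ) (b : Option (Fin m) → ℝ) :
    eval b (Dxp c r W1 sg ρ R) = eval (xb c r sg b) (rx W1 ρ R) := by
  rw [eval_rx]
  unfold Dxp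
  have h := eval₂Hom_bind₁ (RingHom.id ℝ) b (fun o : Option (Fin (r + 1)) =>
    o.elim (C (2 ^ W1 / 2 ^ sg) * MvPolynomial.X (some (c r))) (fun i => if (ρ i).val = 0 then
      C (2 ^ W1) * MvPolynomial.X none
      else C (2 ^ W1) * MvPolynomial.X (some (c ((ρ i).val - 1))))) R
  refine h.trans ?_
  show eval (fun o : Option (Fin (r + 1)) => eval b (o.elim (C (2 ^ W1 / 2 ^ sg) *
    MvPolynomial.X (some (c r))) (fun i => if (ρ i).val = 0 then C (2 ^ W1) * MvPolynomial.X none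
      else C (2 ^ W1) * MvPolynomial.X (some (c ((ρ i).val - 1)))))) R = _
  congr 2
  funext o
  cases o with
  | none =>
    show eval b (C (2 ^ W1 / 2 ^ sg) * MvPolynomial.X (some (c r))) =
      2 ^ W1 * xb c r sg b (Fin.last (r + 1))
    rw [map_mul, eval_C, eval_X]
    unfold xb
    rw [if_neg (by rw [Fin.val_last]; omega), if_pos (Fin.val_last _)]
    ring
  | some i =>
    show eval b (if (ρ i).val = 0 then C (2 ^ W1) * MvPolynomial.X none
      else C (2 ^ W1) * MvPolynomial.X (some (c ((ρ i).val - 1)))) =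
      2 ^ W1 * xb c r sg b (ρ i).castSucc
    unfold xb
    rw [Fin.val_castSucc]
    by_cases h0 : (ρ i).val = 0
    · rw [if_pos h0, if_pos h0, map_mul, eval_C, eval_X]
    · rw [if_neg h0, if_neg h0, if_neg (by have := (ρ i).2; omega), map_mul, eval_C, eval_X]

lemma deg_Dxp (c : ℕ → Fin m) (r W1 sg : ℕ) (ρ : Equiv.Perm (Fin (r + 1)))
    (R : MvPolynomial (Option (Fin (r + 1))) ℝ) :
    (Dxp c r W1 sg ρ R).totalDegree ≤ R.totalDegree := by
  have hone : ∀ (a : ℝ) (o : Option (Fin m)),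
      (C a * MvPolynomial.X o : MvPolynomial (Option (Fin m)) ℝ).totalDegree ≤ 1 := by
    intro a o
    refine (totalDegree_mul _ _).trans ?_
    rw [totalDegree_C, totalDegree_X, zero_add]
  refine (SML.totalDegree_bind_le _ 1 (fun o => ?_) R).trans (le_of_eq (one_mul _))
  cases o with
  | none => exact hone _ _
  | some i =>
    show (if (ρ i).val = 0 then C (2 ^ W1) * MvPolynomial.X none
      else C (2 ^ W1) * MvPolynomial.X (some (c ((ρ i).val - 1))) :
        MvPolynomial (Option (Fin m)) ℝ).totalDegree ≤ 1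
    split_ifs
    · exact hone _ _
    · exact hone _ _

lemma dep_Dxp (c : ℕ → Fin m) (r W1 sg : ℕ) (ρ : Equiv.Perm (Fin (r + 1)))
    (R : MvPolynomial (Option (Fin (r + 1))) ℝ) : DepC c (r + 1) (Dxp c r W1 sg ρ R) := by
  intro b b' h0 h
  rw [eval_Dxp, eval_Dxp]
  congr 2
  funext i
  unfold xb
  split_ifs with h1 h2
  · exact h0
  · rw [h r (Nat.lt_succ_self r)]
  · exact h _ (by have := i.2; omega)

/-- The coordinates of the chain. -/
lemma xb_sy {c : ℕ → Fin m} {r sg : ℕ} (hc : Inj c (r + 1))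
    {G : ℕ → MvPolynomial (Option (Fin m)) ℝ} (hG : ∀ i, DepC c i (G i)) {t : ℝ}
    (b : Option (Fin m) → ℝ) {l : ℕ} (hl : l < r + 1) :
    eval (unF (r + 2) 0 (xb c r sg b)) (sy c (r + 1) t (Gw sg r G) (l + 1)) =
      (if l = r then eval b (G r) / 2 ^ sg else eval b (G l)) := by
  have hx : ∀ i : ℕ, ∀ h : i < r + 2, unF (r + 2) 0 (xb c r sg b) i = xb c r sg b ⟨i, h⟩ := by
    intro i h
    unfold unF
    rw [dif_pos h, pow_zero, div_one]
  rw [sy_succ hl]
  have h1 : ∀ Q : MvPolynomial (Option (Fin m)) ℝ, DepC c l Q →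
      eval (unF (r + 2) 0 (xb c r sg b)) (tr c l Q) = eval b Q := by
    intro Q hQ
    refine eval_tr (n := r + 1) hc hl.le hQ ?_ fun j hj => ?_
    · rw [hx 0 (by omega)]
      rfl
    · rw [hx (j + 1) (by omega)]
      unfold xb
      rw [if_neg (Nat.succ_ne_zero j), if_neg (by simp only; omega)]
      rfl
  by_cases h2 : l = r
  · subst h2
    rw [if_pos rfl, Gw_r]
    rw [h1 _ (fun b b' h0 h => by
      rw [map_mul, map_mul, hG l b b' h0 h, eval_C, eval_C])]
    rw [map_mul, eval_C]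
    ring
  · rw [if_neg h2, Gw_lt (by omega)]
    exact h1 _ (hG l)

end Pool.CLO37
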