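import Pool.Agent.H37.CLO.Fb3

/-!
# The family form: the box of the first window
-/

set_option autoImplicit false

namespace Pool.CLO37

open Finset Real MvPolynomial
open Pool.Agent.H49.Ent Pool.Agent.H32.Dense Pool.STK Pool.KAF Pool.KAL Pool.KS3 Pool.M3F
open Pool.KJA Pool.KA Pool.K2S Pool.KSAT Pool.PB Pool.STAT Pool.GEN Pool.GEO Pool.IEN Pool.EXS
open Pool.STAT.CLO

lemma eval_toF0 {d : ℕ} (x : Fin d → ℝ) (P : PN) :
    eval x (toF d 0 P) = eval (unF d 0 x) P := by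
  rw [eval_toF, pow_zero, one_mul]

lemma unF0 {d : ℕ} (x : Fin d → ℝ) {i : ℕ} (h : i < d) : unF d 0 x i = x ⟨i, h⟩ := by
  unfold unF
  rw [dif_pos h, pow_zero, div_one]

lemma hsc_eq {r kap W0 W1 γ : ℕ} {L : ℝ} (hW : W0 ≤ W1) (hγ : W0 ≤ γ) :
    hsc r kap W0 W1 γ L = clC r kap L * (2 ^ W1 / 2 ^ γ) := by
  unfold hsc
  rw [two_div hγ, two_pow_sub hW]
  field_simp

/-- The box over the leaf. -/
theorem up_leaf {r kap W0 W1 : ℕ} {g0 : ℕ → ℕ} {L : ℝ} {P : ℕ → PN}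
    {ρ : Equiv.Perm (Fin (r + 1))} {R : MvPolynomial (Option (Fin (r + 1))) ℝ} {Mx : ℝ}
    (hP : TriN P) (hL : 0 ≤ L) (hW : W0 ≤ W1) (hwd : ∀ i < r + 1, wid W0 g0 i ≤ g0 r)
    (hleaf : ∀ u ∈ ucube (r + 1), Psi R (hsc r kap W0 W1 (g0 r) L)
      (fun o => 2 ^ (W1 - W0) * cpt (chw (r + 1) W0 (g0 r) g0 P) u (opm ρ o)) ≤ Mx)
    {x : Fin (r + 2) → ℝ}
    (hx : ∀ i : Fin (r + 2), |x i - eval x (toF (r + 2) 0 (P i))| ≤ 1 / 2 ^ wid W0 g0 i) :
    |eval x (rx W1 ρ R)| ≤ Mx := by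
  have hγ : W0 ≤ g0 r := by
    have h1 := hwd 0 (Nat.succ_pos r)
    rwa [wid_zero] at h1
  obtain ⟨y, hy⟩ : ∃ y : Fin (r + 1) → ℝ, y = fun i => 2 ^ W0 * x i.castSucc := ⟨_, rfl⟩
  have hW0 : (0 : ℝ) < 2 ^ W0 := by positivity
  have hun : ∀ i, i < r + 1 → unF (r + 1) W0 y i = unF (r + 2) 0 x i := by
    intro i hi
    rw [unF0 x (by omega)]
    unfold unF
    rw [dif_pos hi, hy]
    simp only
    field_simp
    rfl
  have hev : ∀ i ≤ r + 1, eval (unF (r + 1) W0 y) (P i) = eval (unF (r + 2) 0 x) (P i) :=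
    fun i hi => eval_cg (hP i) fun j hj => hun j (by omega)
  obtain ⟨u, hu, hcu, -⟩ := cbw_onto (W := W0) (P₀ := g0 r) (g := g0) hP (y := y) (fun i => by
    rw [ngw_half i hγ (hwd i i.2), hev i i.2.le]
    have h1 := hx i.castSucc
    rw [eval_toF0] at h1
    have h2 : y i = 2 ^ W0 * x i.castSucc := by rw [hy]
    rw [h2, ← mul_sub, abs_mul, abs_of_pos hW0]
    have h3 := mul_le_mul_of_nonneg_left h1 hW0.le
    have h4 : (0 : ℝ) ≤ 1 / ((2 ^ (g0 r - W0) : ℕ) : ℝ) := by positivity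
    have h5 : (2 : ℝ) ^ W0 * (1 / 2 ^ wid W0 g0 (i.castSucc : Fin (r + 2))) =
        2 ^ W0 / 2 ^ wid W0 g0 i := by
      rw [mul_one_div]
      rfl
    rw [h5] at h3
    exact h3.trans (by linarith))
  have h1 := hleaf u hu
  rw [cpt_chw hP, hcu] at h1
  refine le_trans ?_ h1
  rw [eval_rx]
  have hsc0 : 2 ^ W1 / 2 ^ g0 r ≤ hsc r kap W0 W1 (g0 r) L := by
    rw [hsc_eq hW hγ]
    have h2 := clC_ge (r := r) (kap := kap) hL
    have h3 : (0 : ℝ) < 2 ^ W1 / 2 ^ g0 r := by positivity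
    nlinarith
  have h30 : (0 : ℝ) < 2 ^ W1 / 2 ^ g0 r := by positivity
  have e1 : (2 : ℝ) ^ (W1 - W0) * 2 ^ W0 = 2 ^ W1 := by
    rw [← pow_add, Nat.sub_add_cancel hW]
  refine abs_eval_le_Psi_of_near R _ (by linarith) _ _ fun o => ?_
  cases o with
  | none =>
    show |2 ^ W1 * x (Fin.last (r + 1)) -
      2 ^ (W1 - W0) * eval y (toF (r + 1) W0 (P (r + 1)))| ≤ _
    have h2 := hx (Fin.last (r + 1))
    rw [eval_toF0] at h2
    have h3 : P ((Fin.last (r + 1) : Fin (r + 2)) : ℕ) = P (r + 1) := by rw [Fin.val_last]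
    have h4 : wid W0 g0 ((Fin.last (r + 1) : Fin (r + 2)) : ℕ) = g0 r := by
      rw [Fin.val_last, wid_succ]
    rw [h3, h4] at h2
    rw [eval_toF, hev (r + 1) le_rfl, ← mul_assoc, e1, ← mul_sub, abs_mul,
      abs_of_pos (by positivity : (0 : ℝ) < 2 ^ W1)]
    refine le_trans ?_ hsc0
    have h5 := mul_le_mul_of_nonneg_left h2 (by positivity : (0 : ℝ) ≤ 2 ^ W1)
    rwa [mul_one_div] at h5
  | some i =>
    show |2 ^ W1 * x (ρ i).castSucc - 2 ^ (W1 - W0) * y (ρ i)| ≤ _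
    have h2 : y (ρ i) = 2 ^ W0 * x (ρ i).castSucc := by rw [hy]
    rw [h2, ← mul_assoc, e1, sub_self, abs_zero]
    linarith

/-- The natural box of the chain is in an enlarged box of the record. -/
theorem nbx_rec {m J : ℕ} {F : Fam m J} {c₀ : ℕ → Fin m} {r sg W0 K' : ℕ} {S₀ : ℝ}
    {g ga g0 : ℕ → ℕ} {G : ℕ → MvPolynomial (Option (Fin m)) ℝ} {P : ℕ → PN}
    (hc : Inj c₀ (r + 1)) (hG : ∀ i, DepC c₀ i (G i)) (hK' : 1 ≤ K') (hS₀ : 1 ≤ S₀)
    (hW : W0 ≤ J) {ω : F.Ω}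
    (hnr : Nr K' S₀ (gg W0 ga) P (sy c₀ (r + 1) ((F.T1 W0 ω : ℝ) / 2 ^ W0) (Gw sg r G)) (r + 2))
    (hga : ∀ l < r, ga l = g l) (hgaN : ga r ≤ g r + sg) (hg0 : ∀ l < r + 1, g0 l ≤ ga l)
    {b : Option (Fin m) → ℝ} (hb : NBx c₀ G g W0 (F.t ω) (r + 1) b) (i : Fin (r + 2)) :
    |xb c₀ r sg b i - eval (xb c₀ r sg b) (toF (r + 2) 0 (P i))| ≤
      (2 * K' * S₀ * 2) ^ K' * (1 / 2 ^ wid W0 g0 i) := by
  have hT : |F.t ω - (F.T1 W0 ω : ℝ) / 2 ^ W0| ≤ 1 / 2 ^ W0 := by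
    have h1 := tim_fam (F := F) W0 W0 le_rfl hW ω
    have e4 : (tdg W0 W0 (K2S.Fam.pt F ω) : ℝ) = 0 := by
      unfold tdg
      rw [Nat.sub_self, pow_zero, Nat.mod_one, Nat.cast_zero]
    rw [e4, zero_div, add_zero, Nat.sub_self, pow_zero, Nat.cast_one, div_one] at h1
    have hW0 : (0 : ℝ) < 2 ^ W0 := by positivity
    have e5 : F.t ω - (F.T1 W0 ω : ℝ) / 2 ^ W0 = (2 ^ W0 * F.t ω - F.T1 W0 ω) / 2 ^ W0 := by
      field_simp
    rw [e5, abs_div, abs_of_pos hW0]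
    exact div_le_div_of_nonneg_right h1 hW0.le
  have h1 : Bxr 2 (gg W0 ga) (sy c₀ (r + 1) ((F.T1 W0 ω : ℝ) / 2 ^ W0) (Gw sg r G)) (r + 2)
      (unF (r + 2) 0 (xb c₀ r sg b)) := by
    intro j hj
    rcases Nat.eq_zero_or_pos j with rfl | h0
    · rw [unF0 _ hj, sy_zero, eval_C]
      show |b none - _| ≤ 2 / 2 ^ W0
      have h2 := hb.1
      have h3 := abs_add_le (b none - F.t ω) (F.t ω - (F.T1 W0 ω : ℝ) / 2 ^ W0)
      rw [sub_add_sub_cancel] at h3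
      refine h3.trans ?_
      have : (2 : ℝ) / 2 ^ W0 = 1 / 2 ^ W0 + 1 / 2 ^ W0 := by ring
      rw [this]
      exact add_le_add h2 hT
    · obtain ⟨l, rfl⟩ : ∃ l, j = l + 1 := ⟨j - 1, by omega⟩
      rw [unF0 _ hj, xb_sy hc hG b (by omega)]
      have h2 := hb.2 l (by omega)
      have e1 : gg W0 ga (l + 1) = ga l := if_neg (Nat.succ_ne_zero l)
      rw [e1]
      by_cases h3 : l = r
      · subst h3
        rw [if_pos rfl]
        have e2 : xb c₀ l sg b ⟨l + 1, hj⟩ = b (some (c₀ l)) / 2 ^ sg := by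
          unfold xb
          rw [if_neg (Nat.succ_ne_zero l), if_pos rfl]
        rw [e2, ← sub_div, abs_div, abs_of_pos (by positivity : (0 : ℝ) < 2 ^ sg)]
        calc |b (some (c₀ l)) - eval b (G l)| / 2 ^ sg ≤ 1 / 2 ^ g l / 2 ^ sg :=
              div_le_div_of_nonneg_right h2 (by positivity)
          _ = 1 / 2 ^ (g l + sg) := by rw [pow_add, div_div]
          _ ≤ 1 / 2 ^ ga l := one_div_le_one_div_of_le (by positivity)
              (pow_le_pow_right₀ one_le_two hgaN)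
          _ ≤ 2 / 2 ^ ga l := div_le_div_of_nonneg_right one_le_two (by positivity)
      · rw [if_neg h3]
        have e2 : xb c₀ r sg b ⟨l + 1, hj⟩ = b (some (c₀ l)) := by
          unfold xb
          rw [if_neg (Nat.succ_ne_zero l), if_neg (by simp only; omega)]
          rfl
        rw [e2, hga l (by omega)]
        exact h2.trans (div_le_div_of_nonneg_right one_le_two (by positivity))
  have h2 := hnr.box' hK' hS₀ (by norm_num : (1 : ℝ) ≤ 2) h1 i.val i.2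
  rw [eval_toF0]
  rw [unF0 _ i.2] at h2
  refine h2.trans ?_
  rw [← mul_one_div]
  refine mul_le_mul_of_nonneg_left ?_ (by positivity)
  refine one_div_le_one_div_of_le (by positivity) (pow_le_pow_right₀ one_le_two ?_)
  rcases Nat.eq_zero_or_pos i.val with h0 | h0
  · rw [h0]
    exact le_rfl
  · obtain ⟨l, hl⟩ : ∃ l, i.val = l + 1 := ⟨i.val - 1, by omega⟩
    have := i.2
    rw [hl, wid_succ]
    have e1 : gg W0 ga (l + 1) = ga l := if_neg (Nat.succ_ne_zero l)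
    rw [e1]
    exact hg0 l (by omega)

end Pool.CLO37
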