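import Pool.Agent.H37.CLO.Fb4

/-!
# The family form: from the box of the chain to the box of the record
-/

set_option autoImplicit false

namespace Pool.CLO37

open Finset Real MvPolynomial
open Pool.Agent.H49.Ent Pool.Agent.H32.Dense Pool.STK Pool.KAF Pool.KAL Pool.KS3 Pool.M3F
open Pool.KJA Pool.KA Pool.K2S Pool.KSAT Pool.PB Pool.STAT Pool.GEN Pool.GEO Pool.IEN Pool.EXS
open Pool.STAT.CLO

theorem t_cell2 {m J : ℕ} (F : Fam m J) {a : ℕ} (ha : a ≤ J) (ω : F.Ω) :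
    (F.T1 a ω : ℝ) / 2 ^ a ≤ F.t ω ∧ F.t ω ≤ (F.T1 a ω : ℝ) / 2 ^ a + 1 / 2 ^ a := by
  have hJ : (2 : ℝ) ^ J = 2 ^ (J - a) * 2 ^ a := by
    rw [← pow_add, Nat.sub_add_cancel ha]
  have h0 : (0 : ℝ) < 2 ^ (J - a) := by positivity
  have h1 : (0 : ℝ) < 2 ^ a := by positivity
  have e1 : ((F.T1 a ω : ℕ) : ℝ) * 2 ^ (J - a) ≤ F.T ω := by
    unfold Fam.T1
    exact_mod_cast Nat.div_mul_le_self (F.T ω) (2 ^ (J - a))
  have e2 : (F.T ω : ℝ) ≤ (F.T1 a ω + 1) * 2 ^ (J - a) := by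
    unfold Fam.T1
    have h3 : F.T ω < (F.T ω / 2 ^ (J - a) + 1) * 2 ^ (J - a) := by
      have := Nat.lt_div_mul_add (a := F.T ω) (b := 2 ^ (J - a)) (by positivity)
      rw [Nat.add_mul, Nat.one_mul]
      exact this
    exact_mod_cast h3.le
  have e3 : F.t ω = (F.T ω / 2 ^ (J - a)) / 2 ^ a := by
    unfold Fam.t
    rw [hJ, div_div]
  rw [← le_div_iff₀ h0] at e1
  rw [← div_le_iff₀ h0] at e2
  rw [e3, ← add_div]
  exact ⟨div_le_div_of_nonneg_right e1 h1.le, div_le_div_of_nonneg_right e2 h1.le⟩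

/-- The sides of the box of the chain, with the weight of the target. -/
noncomputable def wps (W0 r sg : ℕ) (g : ℕ → ℕ) (i : ℕ) : ℝ :=
  if i = 0 then 1 / 2 ^ W0 else if i = r + 1 then 1 / 2 ^ (g r + sg) else 1 / 2 ^ g (i - 1)

lemma wps_pos (W0 r sg : ℕ) (g : ℕ → ℕ) (i : ℕ) : 0 < wps W0 r sg g i := by
  unfold wps
  split_ifs <;> positivity

/-- The polynomials of the chain at the window. -/
noncomputable def psw {m J : ℕ} (F : Fam m J) (c : ℕ → Fin m) (r W0 sg : ℕ)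
    (G : ℕ → MvPolynomial (Option (Fin m)) ℝ) (ω : F.Ω) (i : Fin (r + 2)) :
    MvPolynomial (Fin (r + 2)) ℝ :=
  toF (r + 2) 0 (sy c (r + 1) ((F.T1 W0 ω : ℝ) / 2 ^ W0) (Gw sg r G) i)

/-- **From the box of the chain** to the enlarged box. -/
theorem nb_grow (r D K₀ : ℕ) : ∃ C : ℝ, 1 ≤ C ∧ ∀ {m J : ℕ} {F : Fam m J} {c₀ : ℕ → Fin m}
    {sg W0 W1 : ℕ} {g : ℕ → ℕ} {G : ℕ → MvPolynomial (Option (Fin m)) ℝ}
    {ρ : Equiv.Perm (Fin (r + 1))} {R : MvPolynomial (Option (Fin (r + 1))) ℝ} {mm Θ : ℝ}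
    {ω : F.Ω}, Inj c₀ (r + 1) → (∀ i, DepC c₀ i (G i)) → (∀ i, (G i).totalDegree ≤ K₀) →
    R.totalDegree ≤ D → 1 ≤ Θ → W0 ≤ J →
    (∀ b, NBx c₀ G g W0 (F.t ω) (r + 1) b → |eval b (Dxp c₀ r W1 sg ρ R)| ≤ mm) →
    ∀ x : Fin (r + 2) → ℝ,
      (∀ i : Fin (r + 2), |x i - eval x (psw F c₀ r W0 sg G ω i)| ≤ Θ * wps W0 r sg g i) →
      |eval x (rx W1 ρ R)| ≤ C * Θ ^ ((K₀ + 1) ^ (r + 2) * D) * mm := by
  obtain ⟨C, hC, H⟩ := box_grow (r + 2) D K₀
  refine ⟨C, hC, ?_⟩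
  intro m J F c₀ sg W0 W1 g G ρ R mm Θ ω hc hG hGd hR hΘ hW hsm x hx
  refine H (psw F c₀ r W0 sg G ω) (fun i => wps W0 r sg g i) (rx W1 ρ R) mm Θ
    (triP_toF sy_tri) (fun i => (deg_toF _).trans (sy_deg (fun i _ => Gw_deg (hGd i)) i))
    (fun i => wps_pos _ _ _ _ _) ((deg_rx W1 ρ R).trans hR) hΘ (fun y hy => ?_) x hx
  obtain ⟨b, hb⟩ : ∃ b : Option (Fin m) → ℝ, b none = y 0 ∧ (∀ l (hl : l < r),
      b (some (c₀ l)) = y ⟨l + 1, by omega⟩) ∧
      b (some (c₀ r)) = 2 ^ sg * y (Fin.last (r + 1)) := by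
    classical
    refine ⟨fun o => o.elim (y 0) fun j => if h : ∃ l, ∃ _ : l < r + 1, c₀ l = j then
      (if h2 : h.choose < r then y ⟨h.choose + 1, by omega⟩ else 2 ^ sg * y (Fin.last (r + 1)))
      else 0, rfl, fun l hl => ?_, ?_⟩
    · have h : ∃ l', ∃ _ : l' < r + 1, c₀ l' = c₀ l := ⟨l, by omega, rfl⟩
      have hch : h.choose = l := hc _ h.choose_spec.choose l (by omega)
        h.choose_spec.choose_spec
      show (if h : ∃ l', ∃ _ : l' < r + 1, c₀ l' = c₀ l then _ else _) = _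
      rw [dif_pos h, dif_pos (by rw [hch]; exact hl)]
      refine congrArg y (Fin.ext ?_)
      show h.choose + 1 = l + 1
      rw [hch]
    · have h : ∃ l', ∃ _ : l' < r + 1, c₀ l' = c₀ r := ⟨r, by omega, rfl⟩
      have hch : h.choose = r := hc _ h.choose_spec.choose r (by omega)
        h.choose_spec.choose_spec
      show (if h : ∃ l', ∃ _ : l' < r + 1, c₀ l' = c₀ r then _ else _) = _
      rw [dif_pos h, dif_neg (by rw [hch]; exact lt_irrefl r)]
  have hxb : xb c₀ r sg b = y := by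
    funext i
    unfold xb
    split_ifs with h1 h2
    · rw [hb.1]
      congr 1
      exact Fin.ext h1.symm
    · rw [hb.2.2, mul_div_cancel_left₀ _ (by positivity)]
      congr 1
      exact Fin.ext h2.symm
    · have h3 := i.2
      rw [hb.2.1 (i.val - 1) (by omega)]
      congr 1
      exact Fin.ext (by simp only; omega)
  have hyΨ : ∀ l < r + 1, ∀ h : l + 1 < r + 2,
      eval y (psw F c₀ r W0 sg G ω ⟨l + 1, h⟩) =
        if l = r then eval b (G r) / 2 ^ sg else eval b (G l) := by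
    intro l hl h
    have h1 := xb_sy (sg := sg) (t := (F.T1 W0 ω : ℝ) / 2 ^ W0) hc hG b hl
    rw [hxb] at h1
    rw [← h1]
    exact eval_toF0 y _
  have h1 : eval b (Dxp c₀ r W1 sg ρ R) = eval y (rx W1 ρ R) := by
    rw [eval_Dxp, hxb]
  rw [← h1]
  refine hsm b ⟨?_, fun l hl => ?_⟩
  · rw [hb.1]
    have h2 := hy 0
    have h3 : eval y (psw F c₀ r W0 sg G ω 0) = (F.T1 W0 ω : ℝ) / 2 ^ W0 := by
      unfold psw
      rw [eval_toF0]
      show eval _ (sy c₀ (r + 1) _ _ 0) = _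
      rw [sy_zero, eval_C]
    rw [h3] at h2
    have h4 : wps W0 r sg g ((0 : Fin (r + 2)) : ℕ) = 1 / 2 ^ W0 := if_pos rfl
    rw [h4] at h2
    have h5 := t_cell2 F hW ω
    rw [abs_le]
    constructor <;> linarith
  · have h2 := hy ⟨l + 1, by omega⟩
    rw [hyΨ l hl] at h2
    have hn0 : ¬ l + 1 = 0 := Nat.succ_ne_zero l
    by_cases h3 : l = r
    · subst h3
      rw [if_pos rfl] at h2
      have h4 : wps W0 l sg g ((⟨l + 1, by omega⟩ : Fin (l + 2)) : ℕ) = 1 / 2 ^ (g l + sg) := by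
        unfold wps
        rw [if_neg hn0, if_pos rfl]
      rw [h4] at h2
      have h5 : b (some (c₀ l)) = 2 ^ sg * y (Fin.last (l + 1)) := hb.2.2
      have h6 : y (⟨l + 1, by omega⟩ : Fin (l + 2)) = y (Fin.last (l + 1)) := rfl
      have hs : (0 : ℝ) < 2 ^ sg := by positivity
      rw [h6] at h2
      have h7 : b (some (c₀ l)) - eval b (G l) =
          2 ^ sg * (y (Fin.last (l + 1)) - eval b (G l) / 2 ^ sg) := by
        rw [h5, mul_sub, mul_div_cancel₀ _ hs.ne']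
      rw [h7, abs_mul, abs_of_pos hs, abs_of_nonneg h2.1]
      calc 2 ^ sg * (y (Fin.last (l + 1)) - eval b (G l) / 2 ^ sg) ≤
            2 ^ sg * (1 / 2 ^ (g l + sg)) := mul_le_mul_of_nonneg_left h2.2 hs.le
        _ = 1 / 2 ^ g l := by
          rw [pow_add]
          field_simp
    · rw [if_neg h3] at h2
      have h4 : wps W0 r sg g ((⟨l + 1, by omega⟩ : Fin (r + 2)) : ℕ) = 1 / 2 ^ g l := by
        unfold wps
        rw [if_neg hn0, if_neg (by simp only; omega)]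
        rfl
      rw [h4] at h2
      have h5 : b (some (c₀ l)) = y ⟨l + 1, by omega⟩ := hb.2.1 l (by omega)
      rw [h5, abs_of_nonneg h2.1]
      exact h2.2

end Pool.CLO37
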