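import Pool.Agent.H37.CLO.Fb5

/-!
# The family form: a point where the equation is not small
-/

set_option autoImplicit false

namespace Pool.CLO37

open Finset Real MvPolynomial
open Pool.Agent.H49.Ent Pool.Agent.H32.Dense Pool.STK Pool.KAF Pool.KAL Pool.KS3 Pool.M3F
open Pool.KJA Pool.KA Pool.K2S Pool.KSAT Pool.PB Pool.STAT Pool.GEN Pool.GEO Pool.IEN Pool.EXS
open Pool.STAT.CLO

lemma mx_ge_ex {Ω : Type} [Fintype Ω] [Nonempty Ω] {P : Ω → Prop} {f : Ω → ℝ} {b : ℝ}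
    (hb : 0 < b) (h : b ≤ mx P f) : ∃ ω, P ω ∧ b / 2 ≤ f ω := by
  by_contra hcon
  push Not at hcon
  have h1 := mx_le (P := P) (f := f) (b := b / 2) (by positivity) fun ω hω => (hcon ω hω).le
  linarith

/-- The point of the record near a sample. -/
theorem near_rec {m J : ℕ} {F : Fam m J} {A : F.Ω → Prop} {c₀ c₁ : ℕ → Fin m}
    {r W0 W1 sg K : ℕ} {g0 : ℕ → ℕ} {L s₀ : ℝ} {V0 : Type} {z0 : PtT F → V0} {z0' : LnT F → V0}
    {P0 : V0 → ℕ → PN} {ρ : Equiv.Perm (Fin (r + 1))}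
    (hN : NLabW F c₀ r W0 sg g0 K L A z0 z0' P0) (hL : 0 ≤ L) (hW0 : W0 ≤ J) (hg0 : g0 r ≤ J)
    (hpx : ∀ (ξ : PtT F) (i : Fin (r + 1)), px c₁ ξ i = px c₀ ξ (ρ i)) (hcr : c₁ r = c₀ r)
    (hs : 0 ≤ s₀)
    (hsw : ∀ i < r + 1, (1 + ((r + 1 : ℕ) : ℝ) * L) * s₀ ≤ 2 ^ W1 / 2 ^ wid W0 g0 i)
    (hsN : (1 + ((r + 1 : ℕ) : ℝ) * L) * s₀ ≤ 2 ^ W1 / 2 ^ g0 r)
    {ω : F.Ω} (hω : A ω) {zz : Option (Fin (r + 1)) → ℝ}
    (hz : ∀ o, |zz o - zsw c₁ r W1 sg (ptr F J ω) o| ≤ s₀) :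
    Bxr 3 (wid W0 g0) (P0 (z0 (ptr F J ω))) (r + 2) (unF (r + 2) 0 (fun i : Fin (r + 2) =>
      (if h : i.val < r + 1 then zz (some (ρ.symm ⟨i.val, h⟩)) else zz none) / 2 ^ W1)) := by
  obtain ⟨x, hx⟩ : ∃ x : Fin (r + 2) → ℝ, x = fun i : Fin (r + 2) =>
    (if h : i.val < r + 1 then zz (some (ρ.symm ⟨i.val, h⟩)) else zz none) / 2 ^ W1 := ⟨_, rfl⟩
  rw [← hx]
  obtain ⟨y, hy⟩ : ∃ y : Fin (r + 1) → ℝ, y = fun i => zz (some (ρ.symm i)) := ⟨_, rfl⟩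
  have hU : (0 : ℝ) < 2 ^ W1 := by positivity
  have hyy : ∀ i, |y i - yun c₀ r W1 (ptr F J ω) i| ≤ s₀ := by
    intro i
    have h1 := hz (some (ρ.symm i))
    have h2 : zsw c₁ r W1 sg (ptr F J ω) (some (ρ.symm i)) = yun c₀ r W1 (ptr F J ω) i := by
      show 2 ^ W1 * px c₁ (ptr F J ω) (ρ.symm i) = 2 ^ W1 * px c₀ (ptr F J ω) i
      rw [hpx, Equiv.apply_symm_apply]
    rw [h2] at h1
    rw [hy]
    exact h1
  have hun : ∀ i, i < r + 1 → unF (r + 1) W1 y i = unF (r + 2) 0 x i := by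
    intro i hi
    rw [unF0 x (by omega)]
    unfold unF
    rw [dif_pos hi, hy, hx]
    simp only
    rw [dif_pos hi]
  have htri := hN.tri (z0 (ptr F J ω))
  have hev : ∀ i ≤ r + 1, eval (unF (r + 1) W1 y) (P0 (z0 (ptr F J ω)) i) =
      eval (unF (r + 2) 0 x) (P0 (z0 (ptr F J ω)) i) :=
    fun i hi => eval_cg (htri i) fun j hj => hun j (by omega)
  have hbx := seg_box (G := fun i : Fin (r + 1) => toF (r + 1) W1 (P0 (z0 (ptr F J ω)) i))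
    (triP_toF htri) (w := fun i : Fin (r + 1) => 2 ^ W1 / 2 ^ wid W0 g0 i) hL hs
    (fun i => by positivity) (fun i => hsw i i.2)
    (fun y' hy' i l => grad_u hN hL hω (fun j => by
      have h1 := hy' j
      have h2 : (0 : ℝ) < 2 ^ W1 / 2 ^ wid W0 g0 j := by positivity
      linarith) i.2.le l)
    (fun i => pos_u hN hW0 hω W1 i) hyy
  intro j hj
  rw [unF0 x hj]
  rcases Nat.lt_or_ge j (r + 1) with h1 | h1
  · have h2 := (hbx ⟨j, h1⟩).2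
    simp only at h2
    rw [eval_toF, hev j (by omega)] at h2
    have h3 : y ⟨j, h1⟩ = 2 ^ W1 * x ⟨j, hj⟩ := by
      rw [hx, hy]
      simp only
      rw [dif_pos h1, mul_div_cancel₀ _ hU.ne']
    rw [h3, ← mul_sub, abs_mul, abs_of_pos hU] at h2
    have h4 : (2 : ℝ) ^ W1 * |x ⟨j, hj⟩ - eval (unF (r + 2) 0 x) (P0 (z0 (ptr F J ω)) j)| ≤
        2 ^ W1 * (2 / 2 ^ wid W0 g0 j) := by
      refine h2.trans (le_of_eq ?_)
      ring
    have h5 := le_of_mul_le_mul_left h4 hU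
    exact h5.trans (div_le_div_of_nonneg_right (by norm_num) (by positivity))
  · have h1' : j = r + 1 := by omega
    subst h1'
    have h2 := hz none
    have h3 : zsw c₁ r W1 sg (ptr F J ω) none =
        2 ^ W1 * (px c₀ (ptr F J ω) (r + 1) / 2 ^ sg) := by
      show 2 ^ W1 * (px c₁ (ptr F J ω) (r + 1) / 2 ^ sg) = _
      rw [px_succ, px_succ, hcr]
    rw [h3] at h2
    have h4 := leaf_val hN hω W1
    have h5 := leaf_mv hN hL hW0 hω (U := W1) hs hsw hyy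
    rw [eval_toF y, hev (r + 1) le_rfl] at h5
    have h6 : zz none = 2 ^ W1 * x ⟨r + 1, hj⟩ := by
      rw [hx]
      simp only
      rw [dif_neg (lt_irrefl _), mul_div_cancel₀ _ hU.ne']
    rw [h6] at h2
    rw [wid_succ]
    have h7 : (2 : ℝ) ^ W1 / 2 ^ J ≤ 2 ^ W1 / 2 ^ g0 r :=
      div_le_div_of_nonneg_left hU.le (by positivity) (pow_le_pow_right₀ one_le_two hg0)
    have h8 : |2 ^ W1 * x ⟨r + 1, hj⟩ -
        2 ^ W1 * eval (unF (r + 2) 0 x) (P0 (z0 (ptr F J ω)) (r + 1))| ≤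
        2 ^ W1 * (3 / 2 ^ g0 r) := by
      have h9 : 2 ^ W1 * (3 / 2 ^ g0 r : ℝ) = 3 * (2 ^ W1 / 2 ^ g0 r) := by ring
      rw [h9]
      have h10 : (1 + ((r + 1 : ℕ) : ℝ) * L) * s₀ = s₀ + ((r + 1 : ℕ) : ℝ) * L * s₀ := by ring
      rw [h10] at hsN
      rw [abs_le] at h2 h4 h5 ⊢
      constructor <;> linarith
    rw [← mul_sub, abs_mul, abs_of_pos hU] at h8
    exact le_of_mul_le_mul_left h8 hU

/-- **A point where the equation is not small**, in the enlarged box of the chain. -/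
theorem big_pt (r D : ℕ) : ∃ C : ℝ, 1 ≤ C ∧ ∀ {m J : ℕ} {F : Fam m J} {A : F.Ω → Prop}
    {c₀ c₁ : ℕ → Fin m} {W0 W1 sg K K' sh sh₂ : ℕ} {g ga g0 : ℕ → ℕ} {L s₀ S₀ : ℝ} {V0 : Type}
    {z0 : PtT F → V0} {z0' : LnT F → V0} {P0 : V0 → ℕ → PN} {ρ : Equiv.Perm (Fin (r + 1))}
    {G : ℕ → MvPolynomial (Option (Fin m)) ℝ} {p : F.Ω → ℝ},
    NLabW F c₀ r W0 sg g0 K L A z0 z0' P0 → 0 ≤ L → W0 ≤ J → g0 r ≤ J →
    (∀ (ξ : PtT F) (i : Fin (r + 1)), px c₁ ξ i = px c₀ ξ (ρ i)) → c₁ r = c₀ r → 0 < s₀ →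
    (∀ i < r + 1, (1 + ((r + 1 : ℕ) : ℝ) * L) * s₀ ≤ 2 ^ W1 / 2 ^ wid W0 g0 i) →
    (1 + ((r + 1 : ℕ) : ℝ) * L) * s₀ ≤ 2 ^ W1 / 2 ^ g0 r →
    (∀ ω, 0 < p ω → A ω) → 1 ≤ K' → 1 ≤ S₀ →
    (∀ l < r, ga l = g l) → (∀ l < r + 1, ga l ≤ g0 l + sh) → g r + sg ≤ ga r + sh₂ →
    ∀ ω, Nr K' S₀ (gg W0 ga) (P0 (z0 (ptr F J ω)))
      (sy c₀ (r + 1) ((F.T1 W0 ω : ℝ) / 2 ^ W0) (Gw sg r G)) (r + 2) →
    ∀ v : Fin (nmb (Option (Fin (r + 1))) D) → ℝ,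
    1 ≤ Nk p (K2S.Fam.pt F) (zsw c₁ r W1 sg) z0 s₀ (mnb (Option (Fin (r + 1))) D)
      (z0 (ptr F J ω)) v →
    ∃ x : Fin (r + 2) → ℝ, (∀ i : Fin (r + 2), |x i - eval x (psw F c₀ r W0 sg G ω i)| ≤
        (2 * K' * S₀ * (3 * 2 ^ sh)) ^ cc K' (r + 2) * 2 ^ sh₂ * wps W0 r sg g i) ∧
      1 ≤ C * |eval x (rx W1 ρ (pol (mnb (Option (Fin (r + 1))) D) v))| := by
  obtain ⟨Kp, hKp, Hp⟩ := exists_Psi_le_sup (Option (Fin (r + 1))) D
  refine ⟨4 * Kp, by linarith, ?_⟩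
  intro m J F A c₀ c₁ W0 W1 sg K K' sh sh₂ g ga g0 L s₀ S₀ V0 z0 z0' P0 ρ G p hN hL hW0 hg0
    hpx hcr hs hsw hsN hpA hK' hS₀ hga hgs hgN ω hnr v hv
  haveI : Nonempty F.Ω := ⟨ω⟩
  obtain ⟨ω', ⟨hpω, hzω⟩, h1⟩ := mx_ge_ex one_pos hv
  have hω' : A ω' := hpA ω' hpω
  have hzω' : z0 (ptr F J ω') = z0 (ptr F J ω) := hzω
  obtain ⟨zz, hz, h2⟩ : ∃ zz : Option (Fin (r + 1)) → ℝ,
      (∀ o, |zz o - zsw c₁ r W1 sg (ptr F J ω') o| ≤ s₀) ∧
      1 / (4 * Kp) ≤ |eval zz (pol (mnb (Option (Fin (r + 1))) D) v)| := by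
    by_contra hcon
    push Not at hcon
    have h3 := Hp (pol (mnb (Option (Fin (r + 1))) D) v) s₀ (zsw c₁ r W1 sg (ptr F J ω'))
      (1 / (4 * Kp)) (pol_deg (fun i => deg_mnb i) v) hs.le fun y hy => (hcon y hy).le
    have h4 : Kp * (1 / (4 * Kp)) = 1 / 4 := by field_simp
    rw [h4] at h3
    have h5 : (1 : ℝ) / 2 ≤ Psi (pol (mnb (Option (Fin (r + 1))) D) v) s₀
      (zsw c₁ r W1 sg (ptr F J ω')) := h1
    linarith
  have h3 := near_rec hN hL hW0 hg0 hpx hcr hs.le hsw hsN hω' hz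
  obtain ⟨x, hx⟩ : ∃ x : Fin (r + 2) → ℝ, x = fun i : Fin (r + 2) =>
    (if h : i.val < r + 1 then zz (some (ρ.symm ⟨i.val, h⟩)) else zz none) / 2 ^ W1 := ⟨_, rfl⟩
  rw [← hx, hzω'] at h3
  have hU : (0 : ℝ) < 2 ^ W1 := by positivity
  have h4 : Bxr (3 * 2 ^ sh) (gg W0 ga) (P0 (z0 (ptr F J ω))) (r + 2) (unF (r + 2) 0 x) := by
    intro j hj
    refine (h3 j hj).trans ?_
    have h5 : gg W0 ga j ≤ wid W0 g0 j + sh := by
      rcases Nat.eq_zero_or_pos j with rfl | h0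
      · show W0 ≤ wid W0 g0 0 + sh
        rw [wid_zero]
        omega
      · obtain ⟨l, rfl⟩ : ∃ l, j = l + 1 := ⟨j - 1, by omega⟩
        rw [wid_succ]
        have e1 : gg W0 ga (l + 1) = ga l := if_neg (Nat.succ_ne_zero l)
        rw [e1]
        exact hgs l (by omega)
    rw [div_le_div_iff₀ (by positivity) (by positivity)]
    have h6 : (2 : ℝ) ^ gg W0 ga j ≤ 2 ^ wid W0 g0 j * 2 ^ sh := by
      rw [← pow_add]
      exact pow_le_pow_right₀ one_le_two h5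
    calc 3 * (2 : ℝ) ^ gg W0 ga j ≤ 3 * (2 ^ wid W0 g0 j * 2 ^ sh) := by linarith
      _ = 3 * 2 ^ sh * 2 ^ wid W0 g0 j := by ring
  have h31 : (1 : ℝ) ≤ 3 * 2 ^ sh := by
    have := one_le_pow₀ (n := sh) (one_le_two (α := ℝ))
    linarith
  have h5 := hnr.box hK' hS₀ h31 h4 (r + 2) le_rfl
  obtain ⟨Θ, hΘ⟩ : ∃ Θ : ℝ, Θ = (2 * K' * S₀ * (3 * 2 ^ sh)) ^ cc K' (r + 2) := ⟨_, rfl⟩
  rw [← hΘ] at h5 ⊢
  have hΘ0 : 0 ≤ Θ := by
    rw [hΘ]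
    positivity
  refine ⟨x, fun i => ?_, ?_⟩
  · have h6 := h5 i i.2
    rw [unF0 x i.2] at h6
    unfold psw
    rw [eval_toF0]
    refine h6.trans ?_
    rw [div_eq_mul_one_div, mul_assoc]
    refine mul_le_mul_of_nonneg_left ?_ hΘ0
    have hsh2 : (1 : ℝ) ≤ 2 ^ sh₂ := one_le_pow₀ one_le_two
    have hi := i.2
    rcases Nat.eq_zero_or_pos i.val with h0 | h0
    · unfold wps
      rw [if_pos h0, h0]
      show (1 : ℝ) / 2 ^ W0 ≤ _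
      exact le_mul_of_one_le_left (by positivity) hsh2
    · obtain ⟨l, hl⟩ : ∃ l, i.val = l + 1 := ⟨i.val - 1, by omega⟩
      rw [hl]
      have e1 : gg W0 ga (l + 1) = ga l := if_neg (Nat.succ_ne_zero l)
      rw [e1]
      unfold wps
      rw [if_neg (Nat.succ_ne_zero l)]
      by_cases h7 : l = r
      · subst h7
        rw [if_pos rfl]
        rw [mul_one_div, div_le_div_iff₀ (by positivity) (by positivity), one_mul, ← pow_add]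
        exact pow_le_pow_right₀ one_le_two (by omega)
      · rw [if_neg (by omega), Nat.add_sub_cancel, hga l (by omega)]
        exact le_mul_of_one_le_left (by positivity) hsh2
  · have h6 : (fun o => 2 ^ W1 * x (ixo ρ o)) = zz := by
      funext o
      rw [hx]
      cases o with
      | none =>
        show 2 ^ W1 * ((if h : r + 1 < r + 1 then _ else zz none) / 2 ^ W1) = zz none
        rw [dif_neg (lt_irrefl _), mul_div_cancel₀ _ hU.ne']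
      | some i =>
        show 2 ^ W1 * ((if h : (ρ i).val < r + 1 then zz (some (ρ.symm ⟨(ρ i).val, h⟩))
          else zz none) / 2 ^ W1) = zz (some i)
        rw [dif_pos (ρ i).2, mul_div_cancel₀ _ hU.ne']
        show zz (some (ρ.symm (ρ i))) = _
        rw [Equiv.symm_apply_apply]
    rw [eval_rx, h6]
    have h7 : 4 * Kp * (1 / (4 * Kp)) = 1 := by field_simp
    have h8 := mul_le_mul_of_nonneg_left h2 (by positivity : 0 ≤ 4 * Kp)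
    rw [h7] at h8
    exact h8

end Pool.CLO37
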