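import Pool.Agent.H37.CLO.Fb6

/-!
# The family form: the relation of the class
-/

set_option autoImplicit false

namespace Pool.CLO37

open Finset Real MvPolynomial
open Pool.Agent.H49.Ent Pool.Agent.H32.Dense Pool.STK Pool.KAF Pool.KAL Pool.KS3 Pool.M3F
open Pool.KJA Pool.KA Pool.K2S Pool.KSAT Pool.PB Pool.STAT Pool.GEN Pool.GEO Pool.IEN Pool.EXS
open Pool.STAT.CLO

/-- The exact position and the rounded position. -/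
theorem px_nearE {m J : ℕ} {F : Fam m J} (c : ℕ → Fin m) (ω : F.Ω) (n : ℕ) :
    |(if n = 0 then F.t ω else F.x ω (c (n - 1))) - px c (ptr F J ω) n| ≤ 1 / 2 ^ J := by
  rcases Nat.eq_zero_or_pos n with rfl | hn
  · rw [if_pos rfl, px_zero, sub_self, abs_zero]
    positivity
  · obtain ⟨n, rfl⟩ : ∃ n', n = n' + 1 := ⟨n - 1, by omega⟩
    rw [if_neg (by omega), px_succ]
    show |F.x ω (c n) - ((⌊(2 : ℝ) ^ J * F.x ω (c n)⌋ : ℤ) : ℝ) / 2 ^ J| ≤ _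
    have hJ : (0 : ℝ) < 2 ^ J := by positivity
    have h1 := Int.floor_le ((2 : ℝ) ^ J * F.x ω (c n))
    have h2 := Int.lt_floor_add_one ((2 : ℝ) ^ J * F.x ω (c n))
    have e1 : F.x ω (c n) - ((⌊(2 : ℝ) ^ J * F.x ω (c n)⌋ : ℤ) : ℝ) / 2 ^ J =
        (2 ^ J * F.x ω (c n) - ((⌊(2 : ℝ) ^ J * F.x ω (c n)⌋ : ℤ) : ℝ)) / 2 ^ J := by
      field_simp
    rw [e1, abs_div, abs_of_pos hJ]
    refine div_le_div_of_nonneg_right ?_ hJ.le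
    rw [abs_le]
    constructor <;> linarith

/-- The relation at the exact position. -/
theorem own_bt {m J : ℕ} {F : Fam m J} {c₀ c₁ : ℕ → Fin m} {r W1 sg : ℕ}
    {ρ : Equiv.Perm (Fin (r + 1))}
    (hpx : ∀ (ξ : PtT F) (i : Fin (r + 1)), px c₁ ξ i = px c₀ ξ (ρ i)) (hcr : c₁ r = c₀ r)
    (R : MvPolynomial (Option (Fin (r + 1))) ℝ) {h₀ : ℝ} (hh : 2 ^ W1 / 2 ^ J ≤ h₀) (ω : F.Ω) :
    |eval (bt F ω) (Dxp c₀ r W1 sg ρ R)| ≤ Psi R h₀ (zsw c₁ r W1 sg (ptr F J ω)) := by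
  have hU : (0 : ℝ) < 2 ^ W1 := by positivity
  have hh0 : (0 : ℝ) < 2 ^ W1 / 2 ^ J := by positivity
  rw [eval_Dxp, eval_rx]
  refine abs_eval_le_Psi_of_near R _ (by linarith) _ _ fun o => ?_
  have key : ∀ x y : ℝ, |x - y| ≤ 1 / 2 ^ J → |2 ^ W1 * x - 2 ^ W1 * y| ≤ h₀ := by
    intro x y h
    rw [← mul_sub, abs_mul, abs_of_pos hU]
    refine (mul_le_mul_of_nonneg_left h hU.le).trans ?_
    rwa [mul_one_div]
  cases o with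
  | none =>
    show |2 ^ W1 * xb c₀ r sg (bt F ω) (Fin.last (r + 1)) -
      2 ^ W1 * (px c₁ (ptr F J ω) (r + 1) / 2 ^ sg)| ≤ h₀
    refine key _ _ ?_
    have h1 : xb c₀ r sg (bt F ω) (Fin.last (r + 1)) = F.x ω (c₀ r) / 2 ^ sg := by
      unfold xb
      rw [Fin.val_last, if_neg (Nat.succ_ne_zero r), if_pos rfl]
      rfl
    have h2 := px_nearE c₁ ω (r + 1)
    rw [if_neg (Nat.succ_ne_zero r), Nat.add_sub_cancel, hcr] at h2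
    rw [h1, ← sub_div, abs_div, abs_of_pos (by positivity : (0 : ℝ) < 2 ^ sg)]
    refine (div_le_self (abs_nonneg _) (one_le_pow₀ one_le_two)).trans h2
  | some i =>
    show |2 ^ W1 * xb c₀ r sg (bt F ω) (ρ i).castSucc - 2 ^ W1 * px c₁ (ptr F J ω) i| ≤ h₀
    refine key _ _ ?_
    rw [hpx]
    have h1 : xb c₀ r sg (bt F ω) (ρ i).castSucc =
        if (ρ i).val = 0 then F.t ω else F.x ω (c₀ ((ρ i).val - 1)) := by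
      unfold xb
      have h2 := (ρ i).2
      show (if (ρ i).val = 0 then _ else if (ρ i).val = r + 1 then _ else _) = _
      by_cases h3 : (ρ i).val = 0
      · rw [if_pos h3, if_pos h3]
        rfl
      · rw [if_neg h3, if_neg h3, if_neg (by omega)]
        rfl
    rw [h1]
    exact px_nearE c₀ ω (ρ i)

/-- **The box of the chain over the leaf**. -/
theorem up_nbx (r D K : ℕ) : ∃ C : ℝ, 1 ≤ C ∧ ∀ {m J : ℕ} {F : Fam m J} {c₀ : ℕ → Fin m}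
    {kap W0 W1 sg K' : ℕ} {g ga g0 : ℕ → ℕ} {L S₀ Mx : ℝ} {P : ℕ → PN}
    {G : ℕ → MvPolynomial (Option (Fin m)) ℝ} {ρ : Equiv.Perm (Fin (r + 1))}
    {R : MvPolynomial (Option (Fin (r + 1))) ℝ} {ω : F.Ω}, Inj c₀ (r + 1) →
    (∀ i, DepC c₀ i (G i)) → TriN P → (∀ i, (P i).totalDegree ≤ K) → 0 ≤ L → W0 ≤ W1 → W0 ≤ J →
    (∀ i < r + 1, wid W0 g0 i ≤ g0 r) → 1 ≤ K' → 1 ≤ S₀ → R.totalDegree ≤ D →
    Nr K' S₀ (gg W0 ga) P (sy c₀ (r + 1) ((F.T1 W0 ω : ℝ) / 2 ^ W0) (Gw sg r G)) (r + 2) →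
    (∀ l < r, ga l = g l) → ga r ≤ g r + sg → (∀ l < r + 1, g0 l ≤ ga l) →
    (∀ u ∈ ucube (r + 1), Psi R (hsc r kap W0 W1 (g0 r) L)
      (fun o => 2 ^ (W1 - W0) * cpt (chw (r + 1) W0 (g0 r) g0 P) u (opm ρ o)) ≤ Mx) →
    ∀ b, NBx c₀ G g W0 (F.t ω) (r + 1) b → |eval b (Dxp c₀ r W1 sg ρ R)| ≤
      C * ((2 * K' * S₀ * 2) ^ K') ^ ((K + 1) ^ (r + 2) * D) * Mx := by
  obtain ⟨C, hC, H⟩ := box_grow (r + 2) D K
  refine ⟨C, hC, ?_⟩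
  intro m J F c₀ kap W0 W1 sg K' g ga g0 L S₀ Mx P G ρ R ω hc hG hP hPd hL hW hWJ hwd hK' hS₀ hR
    hnr hga hgN hg0 hleaf b hb
  have hKS : (1 : ℝ) ≤ 2 * K' * S₀ * 2 := by
    have h1 : (1 : ℝ) ≤ K' := by exact_mod_cast hK'
    nlinarith
  rw [eval_Dxp]
  refine H (fun i : Fin (r + 2) => toF (r + 2) 0 (P i)) (fun i => 1 / 2 ^ wid W0 g0 i)
    (rx W1 ρ R) Mx ((2 * K' * S₀ * 2) ^ K') (triP_toF hP) (fun i => (deg_toF _).trans (hPd i))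
    (fun i => by positivity) ((deg_rx W1 ρ R).trans hR) (one_le_pow₀ hKS) (fun y hy => ?_) _
    (fun i => nbx_rec hc hG hK' hS₀ hWJ hnr hga hgN hg0 hb i)
  exact up_leaf hP hL hW hwd hleaf fun i => by
    rw [abs_of_nonneg (hy i).1]
    exact (hy i).2

/-- **The contradiction**: the relation is small on the box of the chain and not small on the
class. -/
theorem no_both (r D K₀ : ℕ) : ∃ C : ℝ, 1 ≤ C ∧ ∀ {m J : ℕ} {F : Fam m J} {A : F.Ω → Prop}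
    {c₀ c₁ : ℕ → Fin m} {W0 W1 sg K K' sh sh₂ : ℕ} {g ga g0 : ℕ → ℕ} {L s₀ S₀ mm : ℝ} {V0 : Type}
    {z0 : PtT F → V0} {z0' : LnT F → V0} {P0 : V0 → ℕ → PN} {ρ : Equiv.Perm (Fin (r + 1))}
    {G : ℕ → MvPolynomial (Option (Fin m)) ℝ} {p : F.Ω → ℝ},
    NLabW F c₀ r W0 sg g0 K L A z0 z0' P0 → 0 ≤ L → W0 ≤ J → g0 r ≤ J → Inj c₀ (r + 1) →
    (∀ i, DepC c₀ i (G i)) → (∀ i, (G i).totalDegree ≤ K₀) →
    (∀ (ξ : PtT F) (i : Fin (r + 1)), px c₁ ξ i = px c₀ ξ (ρ i)) → c₁ r = c₀ r → 0 < s₀ →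
    (∀ i < r + 1, (1 + ((r + 1 : ℕ) : ℝ) * L) * s₀ ≤ 2 ^ W1 / 2 ^ wid W0 g0 i) →
    (1 + ((r + 1 : ℕ) : ℝ) * L) * s₀ ≤ 2 ^ W1 / 2 ^ g0 r →
    (∀ ω, 0 < p ω → A ω) → 1 ≤ K' → 1 ≤ S₀ →
    (∀ l < r, ga l = g l) → (∀ l < r + 1, ga l ≤ g0 l + sh) → g r + sg ≤ ga r + sh₂ →
    ∀ ω, Nr K' S₀ (gg W0 ga) (P0 (z0 (ptr F J ω)))
      (sy c₀ (r + 1) ((F.T1 W0 ω : ℝ) / 2 ^ W0) (Gw sg r G)) (r + 2) →
    ∀ v : Fin (nmb (Option (Fin (r + 1))) D) → ℝ,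
    1 ≤ Nk p (K2S.Fam.pt F) (zsw c₁ r W1 sg) z0 s₀ (mnb (Option (Fin (r + 1))) D)
      (z0 (ptr F J ω)) v →
    (∀ b, NBx c₀ G g W0 (F.t ω) (r + 1) b →
      |eval b (Dxp c₀ r W1 sg ρ (pol (mnb (Option (Fin (r + 1))) D) v))| ≤ mm) →
    1 ≤ C * ((2 * K' * S₀ * (3 * 2 ^ sh)) ^ cc K' (r + 2) * 2 ^ sh₂) ^
      ((K₀ + 1) ^ (r + 2) * D) * mm := by
  obtain ⟨C₁, hC₁, H₁⟩ := nb_grow r D K₀
  obtain ⟨C₂, hC₂, H₂⟩ := big_pt r D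
  refine ⟨C₂ * C₁, one_le_mul_of_one_le_of_one_le hC₂ hC₁, ?_⟩
  intro m J F A c₀ c₁ W0 W1 sg K K' sh sh₂ g ga g0 L s₀ S₀ mm V0 z0 z0' P0 ρ G p hN hL hW0 hg0
    hc hG hGd hpx hcr hs hsw hsN hpA hK' hS₀ hga hgs hgN ω hnr v hv hsm
  obtain ⟨x, hx, h1⟩ := H₂ hN hL hW0 hg0 hpx hcr hs hsw hsN hpA hK' hS₀ hga hgs hgN ω hnr v hv
  have hKS : (1 : ℝ) ≤ 2 * K' * S₀ * (3 * 2 ^ sh) := by
    have h1 : (1 : ℝ) ≤ K' := by exact_mod_cast hK'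
    have h2 : (1 : ℝ) ≤ 2 ^ sh := one_le_pow₀ one_le_two
    have h3 : (1 : ℝ) ≤ 2 * K' * S₀ := by nlinarith
    exact one_le_mul_of_one_le_of_one_le h3 (by linarith)
  have hΘ : (1 : ℝ) ≤ (2 * K' * S₀ * (3 * 2 ^ sh)) ^ cc K' (r + 2) * 2 ^ sh₂ :=
    one_le_mul_of_one_le_of_one_le (one_le_pow₀ hKS) (one_le_pow₀ one_le_two)
  have h2 := H₁ hc hG hGd (pol_deg (fun i => deg_mnb i) v) hΘ hW0 hsm x hx
  have h3 := mul_le_mul_of_nonneg_left h2 (by linarith : 0 ≤ C₂)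
  refine h1.trans (h3.trans (le_of_eq ?_))
  ring

end Pool.CLO37
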