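import Pool.Agent.H37.CLO.Fb7

/-!
# The family form: numbers
-/

set_option autoImplicit false

namespace Pool.CLO37

open Finset Real

lemma two_pow_le_exp (n : ℕ) : (2 : ℝ) ^ n ≤ exp n := by
  have h1 : (2 : ℝ) ≤ exp 1 := by
    have := add_one_le_exp (1 : ℝ)
    linarith
  calc (2 : ℝ) ^ n ≤ exp 1 ^ n := pow_le_pow_left₀ (by norm_num) h1 n
    _ = exp n := by rw [← exp_nat_mul, mul_one]

lemma le_exp_self (x : ℝ) : x ≤ exp x := by
  have := add_one_le_exp x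
  linarith

lemma exp_mul_le {a b x y : ℝ} (ha : x ≤ exp a) (hb : y ≤ exp b) (hy : 0 ≤ y) :
    x * y ≤ exp (a + b) := by
  rw [exp_add]
  exact mul_le_mul ha hb hy (exp_pos a).le

lemma pow_le_exp {a x : ℝ} (n : ℕ) (hx : 0 ≤ x) (ha : x ≤ exp a) : x ^ n ≤ exp (n * a) := by
  rw [exp_nat_mul]
  exact pow_le_pow_left₀ hx ha n

lemma num_L {r : ℕ} {L y : ℝ} (hL : 0 ≤ L) (hy : 1 ≤ y) (h : log (1 + L) ≤ y) :
    1 + ((r + 1 : ℕ) : ℝ) * L ≤ exp ((r + 2) * y) := by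
  have h1 : 1 + L ≤ exp y := by
    rw [← exp_log (by linarith : 0 < 1 + L)]
    exact exp_le_exp.2 h
  have hr0 : (0 : ℝ) ≤ r := Nat.cast_nonneg r
  have h2 : 1 + ((r + 1 : ℕ) : ℝ) * L ≤ (r + 1) * (1 + L) := by
    push_cast
    nlinarith
  have h3 : ((r : ℝ) + 1) ≤ exp ((r + 1) * y) :=
    (le_exp_self _).trans (exp_le_exp.2 (by nlinarith))
  refine h2.trans ((exp_mul_le h3 h1 (by linarith)).trans (exp_le_exp.2 ?_))
  linarith

lemma num_clC {r kap : ℕ} {L y : ℝ} (hL : 0 ≤ L) (hy : 1 ≤ y) (h : log (1 + L) ≤ y)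
    (hk : (kap : ℝ) ≤ y) :
    clC r kap L ≤ exp ((2 * (3 + (r + 2) * (r + 2)) + (2 * r + 5)) * y) := by
  have hr0 : (0 : ℝ) ≤ r := Nat.cast_nonneg r
  have h1 : (2 : ℝ) ^ (kap + 2) ≤ exp (3 * y) := by
    refine (two_pow_le_exp _).trans (exp_le_exp.2 ?_)
    push_cast
    linarith
  have h2 : (1 + ((r + 1 : ℕ) : ℝ) * L) ^ (r + 1 + 1) ≤ exp ((r + 2) * ((r + 2) * y)) := by
    have h3 := pow_le_exp (r + 1 + 1) (by positivity) (num_L (r := r) hL hy h)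
    refine h3.trans (le_of_eq ?_)
    push_cast
    ring_nf
  obtain ⟨z, hz⟩ : ∃ z : ℝ, z = 2 ^ (kap + 2) * (1 + ((r + 1 : ℕ) : ℝ) * L) ^ (r + 1 + 1) :=
    ⟨_, rfl⟩
  have hz1 : 1 ≤ z := by
    rw [hz]
    exact one_le_mul_of_one_le_of_one_le (one_le_pow₀ one_le_two)
      (one_le_pow₀ (by nlinarith [Nat.cast_nonneg (α := ℝ) (r + 1)]))
  have hz2 : z ≤ exp (3 * y + (r + 2) * ((r + 2) * y)) := by
    rw [hz]
    exact exp_mul_le h1 h2 (by positivity)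
  have hz3 : z ^ 2 ≤ exp ((2 : ℕ) * (3 * y + (r + 2) * ((r + 2) * y))) :=
    pow_le_exp 2 (by linarith) hz2
  have hz4 : 1 ≤ z ^ 2 := one_le_pow₀ hz1
  have h5 : clC r kap L ≤ (2 * r + 5) * z ^ 2 := by
    unfold clC
    rw [← hz]
    push_cast
    nlinarith
  have h6 : (2 * (r : ℝ) + 5) ≤ exp ((2 * r + 5) * y) :=
    (le_exp_self _).trans (exp_le_exp.2 (by nlinarith))
  refine h5.trans ((exp_mul_le h6 hz3 (by positivity)).trans (exp_le_exp.2 (le_of_eq ?_)))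
  push_cast
  ring

/-- The size of the exponents `2 K' S 2`. -/
lemma num_T {K' n sh : ℕ} {S y : ℝ} (hy : 1 ≤ y) (hK : 1 ≤ K') (hS : 1 ≤ S) (h : log S ≤ y)
    (hs : (sh : ℝ) ≤ y) :
    (2 * K' * S * (3 * 2 ^ sh)) ^ n ≤ exp (n * ((6 * K' + 2) * y)) := by
  have hK1 : (1 : ℝ) ≤ K' := by exact_mod_cast hK
  refine pow_le_exp n (by positivity) ?_
  have h1 : S ≤ exp y := by
    rw [← exp_log (by linarith : 0 < S)]
    exact exp_le_exp.2 h
  have h2 : (2 : ℝ) ^ sh ≤ exp y := (two_pow_le_exp _).trans (exp_le_exp.2 hs)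
  have h3 : (6 * (K' : ℝ)) ≤ exp (6 * K' * y) :=
    (le_exp_self _).trans (exp_le_exp.2 (by nlinarith))
  have h4 : (6 * (K' : ℝ)) * S ≤ exp (6 * K' * y + y) := exp_mul_le h3 h1 (by linarith)
  have h5 : (6 * (K' : ℝ)) * S * 2 ^ sh ≤ exp (6 * K' * y + y + y) :=
    exp_mul_le h4 h2 (by positivity)
  refine le_trans (le_of_eq ?_) (h5.trans (exp_le_exp.2 (le_of_eq ?_)))
  · ring
  · ring

lemma num_T0 {K' n : ℕ} {S y : ℝ} (hy : 1 ≤ y) (hK : 1 ≤ K') (hS : 1 ≤ S) (h : log S ≤ y) :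
    (2 * K' * S * 2) ^ n ≤ exp (n * ((6 * K' + 2) * y)) := by
  have hK1 : (1 : ℝ) ≤ K' := by exact_mod_cast hK
  refine le_trans (pow_le_pow_left₀ (by positivity) ?_ n)
    (num_T (sh := 0) hy hK hS h (by rw [Nat.cast_zero]; linarith))
  rw [pow_zero, mul_one]
  have : 0 ≤ 2 * (K' : ℝ) * S := by positivity
  linarith

/-- The threshold of the closed equation. -/
lemma num_fl {C k e y : ℝ} (M : ℕ) (hC : 1 ≤ C) (hy : 1 ≤ y) (hk : 0 ≤ k) (he : 0 ≤ e)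
    {x : ℝ} (hx0 : 0 < x) (hx : x ≤ exp (k * y)) :
    C * exp (-((C + 2 ^ M * (C + 2 * k + e) + 1) * y)) <
      sg (C * x ^ 2 / exp (-(e * y))) M := by
  unfold sg
  have h1 : C * x ^ 2 / exp (-(e * y)) ≤ exp ((C + 2 * k + e) * y) := by
    rw [div_eq_mul_inv, ← exp_neg, neg_neg]
    have h2 : C ≤ exp (C * y) := (le_exp_self C).trans (exp_le_exp.2 (by nlinarith))
    have h3 : x ^ 2 ≤ exp (2 * k * y) := by
      have := pow_le_exp 2 hx0.le hx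
      refine this.trans (le_of_eq ?_)
      push_cast
      ring_nf
    have h4 := exp_mul_le (exp_mul_le h2 h3 (by positivity)) (le_refl (exp (e * y)))
      (exp_pos _).le
    refine h4.trans (le_of_eq ?_)
    ring_nf
  have h5 : 0 < C * x ^ 2 / exp (-(e * y)) := by positivity
  have h6 : (C * x ^ 2 / exp (-(e * y))) ^ (2 ^ M - 1) ≤
      exp ((2 ^ M * (C + 2 * k + e)) * y) := by
    have h7 := pow_le_exp (2 ^ M - 1) h5.le h1
    refine h7.trans (exp_le_exp.2 ?_)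
    have h8 : (((2 ^ M - 1 : ℕ) : ℕ) : ℝ) ≤ 2 ^ M := by
      have : ((2 ^ M - 1 : ℕ) : ℝ) ≤ ((2 ^ M : ℕ) : ℝ) := by exact_mod_cast Nat.sub_le _ _
      refine this.trans (le_of_eq ?_)
      push_cast
      rfl
    have h9 : 0 ≤ (C + 2 * k + e) * y := by positivity
    calc (((2 ^ M - 1 : ℕ) : ℕ) : ℝ) * ((C + 2 * k + e) * y) ≤ 2 ^ M * ((C + 2 * k + e) * y) :=
          mul_le_mul_of_nonneg_right h8 h9
      _ = _ := by ring
  rw [lt_div_iff₀ (by positivity)]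
  have h10 : C < exp ((C + 1) * y) := by
    have := add_one_le_exp C
    have h11 : exp C ≤ exp ((C + 1) * y) := exp_le_exp.2 (by nlinarith)
    linarith
  calc C * exp (-((C + 2 ^ M * (C + 2 * k + e) + 1) * y)) *
        (C * x ^ 2 / exp (-(e * y))) ^ (2 ^ M - 1)
      ≤ C * exp (-((C + 2 ^ M * (C + 2 * k + e) + 1) * y)) *
        exp ((2 ^ M * (C + 2 * k + e)) * y) := mul_le_mul_of_nonneg_left h6 (by positivity)
    _ = C * exp (-((C + 1) * y)) := by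
      rw [mul_assoc, ← exp_add]
      ring_nf
    _ < exp ((C + 1) * y) * exp (-((C + 1) * y)) :=
      mul_lt_mul_of_pos_right h10 (exp_pos _)
    _ = 1 := by rw [← exp_add, add_neg_cancel, exp_zero]

end Pool.CLO37
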