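import Pool.Agent.H37.CLO.Fb8

/-!
# The family form: exponents with two scales
-/

set_option autoImplicit false

namespace Pool.CLO37

open Finset Real

/-- The exponential of `p q + s X`. -/
noncomputable def ex2 (q X p s : ℝ) : ℝ := exp (p * q + s * X)

variable {q X : ℝ}

lemma ex2_pos (p s : ℝ) : 0 < ex2 q X p s := exp_pos _

lemma ex2_mul (p s p' s' : ℝ) : ex2 q X p s * ex2 q X p' s' = ex2 q X (p + p') (s + s') := by
  unfold ex2
  rw [← exp_add]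
  ring_nf

lemma ex2_pow (p s : ℝ) (n : ℕ) : ex2 q X p s ^ n = ex2 q X (n * p) (n * s) := by
  unfold ex2
  rw [← exp_nat_mul]
  ring_nf

lemma ex2_inv (p s : ℝ) : (ex2 q X p s)⁻¹ = ex2 q X (-p) (-s) := by
  unfold ex2
  rw [← exp_neg]
  ring_nf

lemma ex2_div (p s p' s' : ℝ) : ex2 q X p s / ex2 q X p' s' = ex2 q X (p - p') (s - s') := by
  rw [div_eq_mul_inv, ex2_inv, ex2_mul]
  rfl

lemma ex2_zero : ex2 q X 0 0 = 1 := by
  unfold ex2
  rw [zero_mul, zero_mul, add_zero, exp_zero]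

lemma ex2_le {p s p' s' : ℝ} (hq : 0 ≤ q) (hX : 0 ≤ X) (hp : p ≤ p') (hs : s ≤ s') :
    ex2 q X p s ≤ ex2 q X p' s' :=
  exp_le_exp.2 (add_le_add (mul_le_mul_of_nonneg_right hp hq) (mul_le_mul_of_nonneg_right hs hX))

lemma ex2_lt {p s p' s' : ℝ} (hq : 0 ≤ q) (hX : 0 < X) (hp : p ≤ p') (hs : s < s') :
    ex2 q X p s < ex2 q X p' s' :=
  exp_lt_exp.2 (add_lt_add_of_le_of_lt (mul_le_mul_of_nonneg_right hp hq)
    (mul_lt_mul_of_pos_right hs hX))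

/-- A bound `x ≤ ex2`. -/
lemma ex2_mul_le {x y p s p' s' : ℝ} (hx : x ≤ ex2 q X p s) (hy : y ≤ ex2 q X p' s')
    (hy0 : 0 ≤ y) : x * y ≤ ex2 q X (p + p') (s + s') := by
  rw [← ex2_mul]
  exact mul_le_mul hx hy hy0 (ex2_pos _ _).le

lemma ex2_pow_le {x p s : ℝ} (n : ℕ) (hx0 : 0 ≤ x) (hx : x ≤ ex2 q X p s) :
    x ^ n ≤ ex2 q X (n * p) (n * s) := by
  rw [← ex2_pow]
  exact pow_le_pow_left₀ hx0 hx n

lemma ex2_const {C : ℝ} (hC : 0 ≤ C) (hX : 1 ≤ X) : C ≤ ex2 q X 0 C := by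
  unfold ex2
  refine (le_exp_self C).trans (exp_le_exp.2 ?_)
  nlinarith

lemma ex2_of {x k : ℝ} (hx : x ≤ exp (k * X)) : x ≤ ex2 q X 0 k := by
  unfold ex2
  rw [zero_mul, zero_add]
  exact hx

lemma ex2_q (n : ℕ) : (2 : ℝ) ^ n ≤ ex2 (n : ℝ) X 1 0 := by
  unfold ex2
  rw [one_mul, zero_mul, add_zero]
  exact two_pow_le_exp n

/-- The threshold. -/
lemma ex2_fl {C a b e f x : ℝ} (M : ℕ) (hq : 0 ≤ q) (hX : 1 ≤ X) (hC : 1 ≤ C) (ha : 0 ≤ a)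
    (hb : 0 ≤ b) (he : 0 ≤ e) (hf : 0 ≤ f) (hx0 : 0 < x) (hx : x ≤ ex2 q X a b) :
    C * ex2 q X (-(2 ^ M * (2 * a + e))) (-(C + 1 + 2 ^ M * (C + 2 * b + f))) <
      sg (C * x ^ 2 / ex2 q X (-e) (-f)) M := by
  have hX0 : 0 ≤ X := by linarith
  have hX1 : 0 < X := by linarith
  unfold sg
  have h1 : C * x ^ 2 / ex2 q X (-e) (-f) ≤ ex2 q X (2 * a + e) (C + 2 * b + f) := by
    rw [div_eq_mul_inv, ex2_inv, neg_neg, neg_neg]
    have h3 := ex2_pow_le 2 hx0.le hx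
    have h4 := ex2_mul_le (ex2_mul_le (ex2_const (q := q) (by linarith : 0 ≤ C) hX) h3
      (by positivity)) (le_refl (ex2 q X e f)) (ex2_pos _ _).le
    refine h4.trans (le_of_eq ?_)
    push_cast
    ring_nf
  have h5 : 0 < C * x ^ 2 / ex2 q X (-e) (-f) := by
    have := ex2_pos (q := q) (X := X) (-e) (-f)
    positivity
  have h8 : (((2 ^ M - 1 : ℕ) : ℕ) : ℝ) ≤ 2 ^ M := by
    have : ((2 ^ M - 1 : ℕ) : ℝ) ≤ ((2 ^ M : ℕ) : ℝ) := by exact_mod_cast Nat.sub_le _ _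
    refine this.trans (le_of_eq ?_)
    push_cast
    rfl
  have h6 : (C * x ^ 2 / ex2 q X (-e) (-f)) ^ (2 ^ M - 1) ≤
      ex2 q X (2 ^ M * (2 * a + e)) (2 ^ M * (C + 2 * b + f)) := by
    refine (ex2_pow_le (2 ^ M - 1) h5.le h1).trans (ex2_le hq hX0 ?_ ?_)
    · exact mul_le_mul_of_nonneg_right h8 (by positivity)
    · exact mul_le_mul_of_nonneg_right h8 (by positivity)
  rw [lt_div_iff₀ (by positivity)]
  have h10 : C < ex2 q X 0 (C + 1) := by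
    unfold ex2
    have h12 := add_one_le_exp C
    have h11 : exp C ≤ exp (0 * q + (C + 1) * X) := exp_le_exp.2 (by nlinarith)
    linarith
  have h13 := ex2_pos (q := q) (X := X) (-(2 ^ M * (2 * a + e)))
    (-(C + 1 + 2 ^ M * (C + 2 * b + f)))
  calc C * ex2 q X (-(2 ^ M * (2 * a + e))) (-(C + 1 + 2 ^ M * (C + 2 * b + f))) *
        (C * x ^ 2 / ex2 q X (-e) (-f)) ^ (2 ^ M - 1)
      ≤ C * ex2 q X (-(2 ^ M * (2 * a + e))) (-(C + 1 + 2 ^ M * (C + 2 * b + f))) *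
        ex2 q X (2 ^ M * (2 * a + e)) (2 ^ M * (C + 2 * b + f)) :=
        mul_le_mul_of_nonneg_left h6 (by positivity)
    _ = C * ex2 q X 0 (-(C + 1)) := by
      rw [mul_assoc, ex2_mul]
      ring_nf
    _ < ex2 q X 0 (C + 1) * ex2 q X 0 (-(C + 1)) :=
      mul_lt_mul_of_pos_right h10 (ex2_pos _ _)
    _ = 1 := by
      rw [ex2_mul, add_zero, add_neg_cancel, ex2_zero]

end Pool.CLO37
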