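import Pool.Agent.H37.CLO.Fc2
import Pool.Agent.H35.K2S.Dich

/-!
# The family form: the member

`FamW`: the data of a member. `no_fam`: no family.
-/

set_option autoImplicit false

namespace Pool.CLO37

open Finset Real MvPolynomial
open Pool.Agent.H49.Ent Pool.Agent.H32.Dense Pool.STK Pool.KAF Pool.KAL Pool.KS3 Pool.M3F
open Pool.KJA Pool.KA Pool.K2S Pool.KSAT Pool.PB Pool.STAT Pool.GEN Pool.GEO Pool.IEN Pool.EXS
open Pool.STAT.CLO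
open Pool.KM7 (P2)

/-- **The data of a member** for the family form: the small quantities are at most `X`. -/
structure FamW {m J : ℕ} (F : Fam m J) (A : F.Ω → Prop) (r D K K₀ K' kap W0 W1 Pp sg q : ℕ)
    (c₀ c₁ : ℕ → Fin m) (ρ : Equiv.Perm (Fin (r + 1))) (g0 g1 g ga : ℕ → ℕ) (L S₀ ρq X : ℝ)
    (sh sh₂ Γ N N' : ℕ) (μ e₁ e₀ μ' e₁' : ℝ) {V0 V1 : Type} (z0 : PtT F → V0) (z0' : LnT F → V0)
    (P0 : V0 → ℕ → PN) (z1 : PtT F → V1) (z1' : LnT F → V1) (P1 : V1 → ℕ → PN)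
    (Qh : V1 → MvPolynomial (Option (Fin (r + 1))) ℝ)
    (G : PtT F → ℕ → MvPolynomial (Option (Fin m)) ℝ) : Prop where
  rw0 : RecW F A r K kap W0 W1 Pp sg q c₀ c₁ ρ g0 g1 L z0 z0' P0 z1 z1' P1
  pos : 0 < law F.p A True
  -- the equation of the second window
  Qd : ∀ v, (Qh v).totalDegree ≤ D
  csq : ∀ ω, A ω → CsQ r D W1 Pp g1 (P1 (z1 (ptr F J ω))) (Qh (z1 (ptr F J ω))) ρq
  rq0 : 0 ≤ ρq
  rq : ρq ≤ Real.exp X / ((2 ^ (Pp - W1) : ℕ) : ℝ)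
  -- the orders of the precisions
  wd : ∀ i < r + 1, W0 ≤ wid W0 g0 i + kap ∧ wid W0 g0 i ≤ g0 r
  gap0 : g0 r + Γ ≤ Pp
  gap1 : ∀ i < r + 1, wid W1 g1 i + Γ ≤ Pp
  -- the mixing and the times
  mx1 : MxC N μ (Pool.Agent.H49.Ent.cond F.p A True) (slam F W1) (K2S.Fam.pt F)
    (fun _ => ∑ i, Real.log (ngw W1 Pp g1 (r + 1) i))
    (fun ξ => ybw c₁ r W1 Pp g1 (P1 (z1 ξ)) ξ)
  mu0 : 0 ≤ μ
  tm1 : Real.log ((2 ^ (Pp - W1) : ℕ) : ℝ) - CH (Pool.Agent.H49.Ent.cond F.p A True)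
    (fun ω => tdg W1 Pp (K2S.Fam.pt F ω)) (slam F W1) ≤ e₁
  e10 : 0 ≤ e₁
  tm0 : Real.log ((2 ^ (Pp - W0) : ℕ) : ℝ) - CH (Pool.Agent.H49.Ent.cond F.p A True)
    (fun ω => tdg W0 Pp (K2S.Fam.pt F ω)) (slam F W0) ≤ e₀
  e00 : 0 ≤ e₀
  mx0 : MxC N' μ' (Pool.Agent.H49.Ent.cond F.p A True) (slam F W0) (K2S.Fam.pt F)
    (fun _ => ∑ i, Real.log (ngw W0 (g0 r) g0 (r + 1) i))
    (fun ξ => ybw c₀ r W0 (g0 r) g0 (P0 (z0 ξ)) ξ)
  mu'0 : 0 ≤ μ'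
  tm' : Real.log ((2 ^ (g0 r - W0) : ℕ) : ℝ) - CH (Pool.Agent.H49.Ent.cond F.p A True)
    (fun ω => tdg W0 (g0 r) (K2S.Fam.pt F ω)) (slam F W0) ≤ e₁'
  e'0 : 0 ≤ e₁'
  -- the chain of the first window
  inj : Inj c₀ (r + 1)
  dep : ∀ ξ i, DepC c₀ i (G ξ i)
  dgG : ∀ ξ i, (G ξ i).totalDegree ≤ K₀
  nr : ∀ ω, A ω → Nr K' S₀ (gg W0 ga) (P0 (z0 (ptr F J ω)))
    (sy c₀ (r + 1) ((F.T1 W0 ω : ℝ) / 2 ^ W0) (Gw sg r (G (ptr F J ω)))) (r + 2)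
  ga0 : ∀ l < r, ga l = g l
  gar : ga r ≤ g r + sg
  gas : g r + sg ≤ ga r + sh₂
  g0a : ∀ l < r + 1, g0 l ≤ ga l
  gah : ∀ l < r + 1, ga l ≤ g0 l + sh
  S1 : 1 ≤ S₀
  -- the small quantities
  X1 : 1 ≤ X
  kX : (kap : ℝ) ≤ X
  LX : Real.log (1 + L) ≤ X
  SX : Real.log S₀ ≤ X
  shX : (sh : ℝ) ≤ X
  sh2X : (sh₂ : ℝ) ≤ X
  e0X : e₀ ≤ X
  muX : (N + 1) * (e₁ + 1) + μ ≤ X
  mu'X : (N' + 1) * (e₁' + 1) + μ' ≤ X

theorem zsw_sc {m J : ℕ} {F : Fam m J} {A : F.Ω → Prop} {r K kap W0 W1 Pp sg q : ℕ}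
    {c₀ c₁ : ℕ → Fin m} {ρ : Equiv.Perm (Fin (r + 1))} {g0 g1 : ℕ → ℕ} {L : ℝ} {V0 V1 : Type}
    {z0 : PtT F → V0} {z0' : LnT F → V0} {P0 : V0 → ℕ → PN} {z1 : PtT F → V1} {z1' : LnT F → V1}
    {P1 : V1 → ℕ → PN}
    (H : RecW F A r K kap W0 W1 Pp sg q c₀ c₁ ρ g0 g1 L z0 z0' P0 z1 z1' P1) (ξ : PtT F) :
    zsw c₁ r W1 sg ξ = fun o => 2 ^ (W1 - W0) * zsw c₀ r W0 sg ξ (opm ρ o) := by
  have h1 : (2 : ℝ) ^ (W1 - W0) * 2 ^ W0 = 2 ^ W1 := by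
    rw [← pow_add, Nat.sub_add_cancel H.W01]
  funext o
  cases o with
  | none =>
    show 2 ^ W1 * (px c₁ ξ (r + 1) / 2 ^ sg) =
      2 ^ (W1 - W0) * (2 ^ W0 * (px c₀ ξ (r + 1) / 2 ^ sg))
    rw [← mul_assoc, h1, px_succ, px_succ, H.cr]
  | some i =>
    show 2 ^ W1 * px c₁ ξ i = 2 ^ (W1 - W0) * (2 ^ W0 * px c₀ ξ (ρ i))
    rw [← mul_assoc, h1, H.pxe]

theorem le_nk {Ω Ξ Γ : Type} [Fintype Ω] {Mb : ℕ} {σ : Type} [Fintype σ] {p : Ω → ℝ}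
    {x : Ω → Ξ} {z : Ξ → σ → ℝ} {κ : Ξ → Γ} {h₀ : ℝ} {mn : Fin Mb → MvPolynomial σ ℝ} {γ : Γ}
    {v : Fin Mb → ℝ} {ω : Ω} (h1 : 0 < p ω) (h2 : κ (x ω) = γ) :
    Psi (pol mn v) h₀ (z (x ω)) ≤ Nk p x z κ h₀ mn γ v :=
  le_mx (P := fun ω => 0 < p ω ∧ κ (x ω) = γ) (f := fun ω => Psi (pol mn v) h₀ (z (x ω)))
    ⟨h1, h2⟩

/-- The closed equation is not closed: the last step. -/
theorem fam_end (r D K K₀ K' : ℕ) {C₁ c : ℝ} (hC₁ : 1 ≤ C₁) (hc : 0 < c) (hK' : 1 ≤ K') :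
    ∃ bε : ℝ, 0 ≤ bε ∧ ∀ {m J : ℕ} {F : Fam m J}
    {A : F.Ω → Prop} {kap W0 W1 Pp sg q : ℕ} {c₀ c₁ : ℕ → Fin m} {ρ : Equiv.Perm (Fin (r + 1))}
    {g0 g1 g ga : ℕ → ℕ} {L S₀ ρq X : ℝ} {sh sh₂ Γ N N' : ℕ} {μ e₁ e₀ μ' e₁' : ℝ} {V0 V1 : Type}
    {z0 : PtT F → V0} {z0' : LnT F → V0} {P0 : V0 → ℕ → PN} {z1 : PtT F → V1} {z1' : LnT F → V1}
    {P1 : V1 → ℕ → PN} {Qh : V1 → MvPolynomial (Option (Fin (r + 1))) ℝ}
    {G : PtT F → ℕ → MvPolynomial (Option (Fin m)) ℝ},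
    FamW F A r D K K₀ K' kap W0 W1 Pp sg q c₀ c₁ ρ g0 g1 g ga L S₀ ρq X sh sh₂ Γ N N' μ e₁ e₀ μ'
      e₁' z0 z0' P0 z1 z1' P1 Qh G →
    ∀ (nη : ℕ) (u₀ s₀ h₀ : ℝ), (nη : ℝ) ≤ X → u₀ = 2 ^ W1 / 2 ^ g0 r →
      s₀ = u₀ / (2 ^ q * (1 + ((r + 1 : ℕ) : ℝ) * L)) → 2 ^ W1 / 2 ^ J ≤ h₀ →
      ∀ (vx : PtT F → Fin (nmb (Option (Fin (r + 1))) D) → ℝ)
        (vl : LnT F → Fin (nmb (Option (Fin (r + 1))) D) → ℝ) (B' : F.Ω → Prop),
      c ≤ C₁ * Pe (Pool.Agent.H49.Ent.cond F.p A True) B' →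
      (∀ ω, B' ω →
        0 < Pool.Agent.H49.Ent.cond F.p A True ω ∧
        1 ≤ Nk (Pool.Agent.H49.Ent.cond F.p A True) (K2S.Fam.pt F) (zsw c₁ r W1 sg) z0 s₀
          (mnb (Option (Fin (r + 1))) D) (z0 (ptr F J ω)) (vx (ptr F J ω)) ∧
        Psi (pol (mnb (Option (Fin (r + 1))) D) (vx (ptr F J ω))) h₀
          (zsw c₁ r W1 sg (ptr F J ω)) ≤ ex2 q X (-D) (-bε) ∧
        Nk (Pool.Agent.H49.Ent.cond F.p A True) (K2S.Fam.pt F) (zsw c₁ r W1 sg) z0 s₀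
          (mnb (Option (Fin (r + 1))) D) (z0 (ptr F J ω))
          (vx (ptr F J ω) - vl (slam F W0 ω)) ≤ C₁ * ex2 q X (-D) (-bε)) →
      (∀ B₀ : F.Ω → Prop, Sub B₀ A → c / (2 * C₁) * Pe F.p A ≤ Pe F.p B₀ →
        ∀ (Dx : PtT F → MvPolynomial (Option (Fin m)) ℝ)
          (Dl : LnT F → MvPolynomial (Option (Fin m)) ℝ) (N₀ : ℕ),
        (∀ y, (Dx y).totalDegree ≤ D) → (∀ s, (Dl s).totalDegree ≤ D) →
        (∀ y, DepC c₀ (r + 1) (Dx y)) → (∀ s, DepC c₀ (r + 1) (Dl s)) →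
        (∀ ω, B₀ ω → |eval (bt F ω) (Dx (ptr F J ω))| ≤ 1 / 2 ^ N₀) →
        (∀ ω, B₀ ω → ∀ b, NBx c₀ (G (ptr F J ω)) g W0 (F.t ω) (r + 1) b →
          |eval b (Dx (ptr F J ω)) - eval b (Dl (slam F W0 ω))| ≤ 1 / 2 ^ N₀) →
        ∃ ω, B₀ ω ∧ ∀ b, NBx c₀ (G (ptr F J ω)) g W0 (F.t ω) (r + 1) b →
          |eval b (Dx (ptr F J ω))| ≤ 2 ^ nη / 2 ^ N₀) → False := by
  obtain ⟨C₂, hC₂, Hmix⟩ := mix0_ev r D K
  obtain ⟨C₃, hC₃, Hup⟩ := up_nbx r D K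
  obtain ⟨C₄, hC₄, Hno⟩ := no_both r D K₀
  have hr0 : (0 : ℝ) ≤ r := Nat.cast_nonneg r
  have hD0 : (0 : ℝ) ≤ D := Nat.cast_nonneg D
  have hK0 : (0 : ℝ) ≤ K' := Nat.cast_nonneg K'
  obtain ⟨bH, hbH⟩ : ∃ bH : ℝ, bH = (2 * (3 + (r + 2) * (r + 2)) + (2 * r + 5)) + (r + 2) :=
    ⟨_, rfl⟩
  obtain ⟨t1, ht1⟩ : ∃ t1 : ℝ, t1 = (((K + 1) ^ (r + 2) * D : ℕ) : ℝ) *
    ((K' : ℝ) * (6 * K' + 2)) := ⟨_, rfl⟩
  obtain ⟨t2, ht2⟩ : ∃ t2 : ℝ, t2 = (((K₀ + 1) ^ (r + 2) * D : ℕ) : ℝ) *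
    ((cc K' (r + 2) : ℝ) * (6 * K' + 2) + 1) := ⟨_, rfl⟩
  have hbH0 : 0 ≤ bH := by
    rw [hbH]
    positivity
  have ht10 : 0 ≤ t1 := by
    rw [ht1]
    positivity
  have ht20 : 0 ≤ t2 := by
    rw [ht2]
    positivity
  obtain ⟨k4, hk4⟩ : ∃ k4 : ℝ, k4 = C₄ + t2 + 1 := ⟨_, rfl⟩
  have hk41 : 1 ≤ k4 := by
    rw [hk4]
    linarith
  obtain ⟨bh', hbh'⟩ : ∃ bh' : ℝ, bh' = 2 * C₁ * C₂ / c := ⟨_, rfl⟩
  have hbh'0 : 0 < bh' := by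
    rw [hbh']
    positivity
  refine ⟨C₃ + t1 + bh' + D * bH + C₁ + (2 * k4 + 1), by positivity, ?_⟩
  intro m J F A kap W0 W1 Pp sg q c₀ c₁ ρ g0 g1 g ga L S₀ ρq X sh sh₂ Γ N N' μ e₁ e₀ μ' e₁' V0 V1
    z0 z0' P0 z1 z1' P1 Qh G H nη u₀ s₀ h₀ hnη hu₀ hs₀ hh₀ vx vl B' hB' hB'ω hrel
  obtain ⟨bε, hbε⟩ : ∃ bε : ℝ, bε = C₃ + t1 + bh' + D * bH + C₁ + (2 * k4 + 1) := ⟨_, rfl⟩
  rw [← hbε] at hB'ω
  have hX := H.X1
  have hX0 : 0 ≤ X := by linarith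
  have hXp : 0 < X := by linarith
  have hq0 : (0 : ℝ) ≤ q := Nat.cast_nonneg q
  have hR := H.rw0
  have hL0 := hR.L0
  have hWJ1 : W1 ≤ J := hR.WP.trans hR.PJ
  have hWJ : W0 ≤ J := hR.W01.trans hWJ1
  have hgJ : g0 r ≤ J := hR.g0P.trans hR.PJ
  have hW0g : W0 ≤ g0 r := by
    have h1 := (H.wd 0 (Nat.succ_pos r)).2
    rwa [wid_zero] at h1
  obtain ⟨p, hp⟩ : ∃ p, p = Pool.Agent.H49.Ent.cond F.p A True := ⟨_, rfl⟩
  have hpA : ∀ ω, 0 < p ω → A ω := fun ω hω => cond_supp (by rw [← hp]; exact hω)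
  have hPA : 0 < Pe F.p A := H.pos
  obtain ⟨N₀, hN₀⟩ : ∃ N₀ : ℕ, N₀ = ⌈2 * k4 * X⌉₊ := ⟨_, rfl⟩
  obtain ⟨hN1, hN2⟩ := fc_N (q := (q : ℝ)) hX hk41
  rw [← hN₀] at hN1 hN2
  have h1L : 0 < 1 + ((r + 1 : ℕ) : ℝ) * L := by positivity
  have hu₀0 : 0 < u₀ := by
    rw [hu₀]
    positivity
  have hs₀0 : 0 < s₀ := by
    rw [hs₀]
    positivity
  -- the scale of the leaf
  obtain ⟨hh, hhh⟩ : ∃ hh : ℝ, hh = hsc r kap W0 W1 (g0 r) L := ⟨_, rfl⟩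
  have hhe : hh = clC r kap L * u₀ := by
    rw [hhh, hsc_eq hR.W01 hW0g, hu₀]
  have hclC := clC_ge (r := r) (kap := kap) hL0
  have hs1 : s₀ ≤ u₀ := by
    rw [hs₀]
    refine div_le_self hu₀0.le ?_
    refine one_le_mul_of_one_le_of_one_le (one_le_pow₀ one_le_two) ?_
    have : 0 ≤ ((r + 1 : ℕ) : ℝ) * L := by positivity
    linarith
  have hhh0 : 0 < hh := by
    rw [hhe]
    positivity
  have hshh : s₀ ≤ hh := by
    rw [hhe]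
    nlinarith
  have hus := fc_us (r := r) (q := q) hL0 hX H.LX hu₀0
  rw [← hs₀] at hus
  have hHs : hh / s₀ ≤ ex2 q X 1 bH := by
    rw [hhe, mul_div_assoc]
    refine (ex2_mul_le (ex2_of (q := (q : ℝ)) (num_clC (r := r) hL0 hX H.LX H.kX)) hus
      (by positivity)).trans (le_of_eq ?_)
    rw [hbH]
    ring_nf
  -- the mixing
  obtain ⟨Bd, hBd, hmix⟩ := Hmix (bh' * X) μ' e₁' N' hR H.pos H.wd (fun ξ => zsw_sc hR ξ)
    (by positivity) H.mx0 H.mu'0 H.tm' H.e'0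
  rw [← hp] at hBd hmix hB' hB'ω
  have hp0 : ∀ ω, 0 ≤ p ω := by
    rw [hp]
    exact (isLaw_cond F.isLaw hPA).nonneg
  have hBd2 : Pe p Bd ≤ c / (2 * C₁) := by
    refine hBd.trans ?_
    rw [hbh', ← mul_div_assoc, div_le_div_iff₀ (by positivity) (by positivity)]
    have h1 := H.mu'X
    have h2 : c * (2 * C₁ * C₂ / c * X) = 2 * C₁ * C₂ * X := by field_simp
    rw [h2]
    have h3 : C₂ * ((N' + 1) * (e₁' + 1) + μ') * (2 * C₁) ≤ C₂ * X * (2 * C₁) :=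
      mul_le_mul_of_nonneg_right (mul_le_mul_of_nonneg_left h1 (by linarith)) (by linarith)
    linarith
  obtain ⟨B₀, hB₀⟩ : ∃ B₀ : F.Ω → Prop, B₀ = fun ω => B' ω ∧ ¬ Bd ω := ⟨_, rfl⟩
  have hB₀A : Sub B₀ A := fun ω hω => by
    rw [hB₀] at hω
    exact hpA ω (hB'ω ω hω.1).1
  have hmass : c / (2 * C₁) ≤ Pe p B₀ := by
    have h1 : Pe p B' ≤ Pe p Bd + Pe p B₀ := pe_split hp0 fun ω _ hb => by
      by_cases h : Bd ω
      · exact Or.inl h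
      · refine Or.inr ?_
        rw [hB₀]
        exact ⟨hb, h⟩
    have h2 : c / C₁ ≤ Pe p B' := by
      rw [div_le_iff₀ (by linarith)]
      linarith
    have h3 : c / C₁ = c / (2 * C₁) + c / (2 * C₁) := by field_simp; norm_num
    linarith
  have hmass2 : c / (2 * C₁) * Pe F.p A ≤ Pe F.p B₀ := by
    rw [hp, K2S.Pe_cond, le_div_iff₀ hPA] at hmass
    refine hmass.trans (le_of_eq ?_)
    congr 1
    funext ω
    exact propext ⟨fun h => h.2, fun h => ⟨hB₀A ω h, h⟩⟩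
  have hdeg : ∀ v : Fin (nmb (Option (Fin (r + 1))) D) → ℝ,
      (pol (mnb (Option (Fin (r + 1))) D) v).totalDegree ≤ D := fun v =>
    pol_deg (fun i => deg_mnb i) v
  obtain ⟨Dx, hDx⟩ : ∃ Dx : PtT F → MvPolynomial (Option (Fin m)) ℝ, Dx = fun ξ =>
      Dxp c₀ r W1 sg ρ (pol (mnb (Option (Fin (r + 1))) D) (vx ξ)) := ⟨_, rfl⟩
  obtain ⟨Dl, hDl⟩ : ∃ Dl : LnT F → MvPolynomial (Option (Fin m)) ℝ, Dl = fun l =>
      Dxp c₀ r W1 sg ρ (pol (mnb (Option (Fin (r + 1))) D) (vl l)) := ⟨_, rfl⟩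
  have hown : ∀ ω, B₀ ω → |eval (bt F ω) (Dx (ptr F J ω))| ≤ 1 / 2 ^ N₀ := by
    intro ω hω
    rw [hB₀] at hω
    obtain ⟨h1, h2, h3, h4⟩ := hB'ω ω hω.1
    rw [hDx]
    refine (own_bt hR.pxe hR.cr _ hh₀ ω).trans (h3.trans (le_trans ?_ hN2))
    refine ex2_le hq0 hX0 (by linarith) ?_
    rw [hbε]
    have : 0 ≤ D * bH := by positivity
    linarith
  have htwo : ∀ ω, B₀ ω → ∀ b, NBx c₀ (G (ptr F J ω)) g W0 (F.t ω) (r + 1) b →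
      |eval b (Dx (ptr F J ω)) - eval b (Dl (slam F W0 ω))| ≤ 1 / 2 ^ N₀ := by
    intro ω hω b hb
    rw [hB₀] at hω
    obtain ⟨h1, h2, h3, h4⟩ := hB'ω ω hω.1
    have hωA := hpA ω h1
    rw [hDx, hDl]
    have e1 : eval b (Dxp c₀ r W1 sg ρ (pol (mnb (Option (Fin (r + 1))) D)
        (vx (ptr F J ω)))) - eval b (Dxp c₀ r W1 sg ρ (pol (mnb (Option (Fin (r + 1))) D)
        (vl (slam F W0 ω)))) = eval b (Dxp c₀ r W1 sg ρ (pol (mnb (Option (Fin (r + 1))) D)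
        (vx (ptr F J ω) - vl (slam F W0 ω)))) := by
      have h5 : pol (mnb (Option (Fin (r + 1))) D) (vx (ptr F J ω)) =
          pol (mnb (Option (Fin (r + 1))) D) (vx (ptr F J ω) - vl (slam F W0 ω)) +
          pol (mnb (Option (Fin (r + 1))) D) (vl (slam F W0 ω)) := by
        rw [← pol_add, sub_add_cancel]
      rw [h5]
      unfold Dxp
      rw [map_add, map_add]
      ring
    simp only
    rw [e1]
    have hCε : 0 ≤ C₁ * ex2 q X (-D) (-bε) := by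
      have := ex2_pos (q := (q : ℝ)) (X := X) (-D) (-bε)
      positivity
    have h6 := hmix ω h1 hω.2 _ s₀ (C₁ * ex2 q X (-D) (-bε))
      (hdeg (vx (ptr F J ω) - vl (slam F W0 ω))) hs₀0 (by rw [← hhh]; exact hshh) hCε
      (fun ω' hω' hz => (le_nk (x := K2S.Fam.pt F) (z := zsw c₁ r W1 sg) (κ := z0)
        (γ := z0 (ptr F J ω)) hω' hz).trans h4)
    rw [← hhh] at h6
    have h7 := Hup H.inj (H.dep _) (hR.n0.tri _) (hR.n0.deg _) hL0 hR.W01 hWJ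
      (fun i hi => (H.wd i hi).2) hK' H.S1 (hdeg (vx (ptr F J ω) - vl (slam F W0 ω)))
      (H.nr ω hωA) H.ga0 H.gar H.g0a (by rw [← hhh]; exact h6) b hb
    have hTb : ((2 * (K' : ℝ) * S₀ * 2) ^ K') ^ ((K + 1) ^ (r + 2) * D) ≤ ex2 q X 0 t1 := by
      have h8 : (2 * (K' : ℝ) * S₀ * 2) ^ K' ≤ ex2 q X 0 ((K' : ℝ) * (6 * K' + 2)) :=
        ex2_of ((num_T0 (n := K') hX hK' H.S1 H.SX).trans (le_of_eq (by ring_nf)))
      have h9 := ex2_pow_le ((K + 1) ^ (r + 2) * D) (by have := H.S1; positivity) h8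
      refine h9.trans (le_of_eq ?_)
      rw [ht1, mul_zero]
    have hTb0 : 0 ≤ ((2 * (K' : ℝ) * S₀ * 2) ^ K') ^ ((K + 1) ^ (r + 2) * D) := by
      have := H.S1
      positivity
    have heb : Real.exp (bh' * X) ≤ ex2 q X 0 bh' := by
      unfold ex2
      rw [zero_mul, zero_add]
    exact h7.trans (fc_eps hq0 hX (by linarith) (by linarith) hTb0 hTb (by positivity) hHs
      (exp_pos _).le heb hN2 (le_of_eq hbε.symm))
  obtain ⟨ω, hω, hsm⟩ := hrel B₀ hB₀A hmass2 Dx Dl N₀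
    (fun ξ => by rw [hDx]; exact (deg_Dxp _ _ _ _ _ _).trans (hdeg _))
    (fun l => by rw [hDl]; exact (deg_Dxp _ _ _ _ _ _).trans (hdeg _))
    (fun ξ => by rw [hDx]; exact dep_Dxp _ _ _ _ _ _)
    (fun l => by rw [hDl]; exact dep_Dxp _ _ _ _ _ _) hown htwo
  rw [hDx] at hsm
  rw [hB₀] at hω
  obtain ⟨h1, h2, h3, h4⟩ := hB'ω ω hω.1
  have hωA := hpA ω h1
  have hsq : (1 + ((r + 1 : ℕ) : ℝ) * L) * s₀ ≤ u₀ := by
    rw [hs₀]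
    have h5 : (1 + ((r + 1 : ℕ) : ℝ) * L) * (u₀ / (2 ^ q * (1 + ((r + 1 : ℕ) : ℝ) * L))) =
        u₀ / 2 ^ q := by
      field_simp
    rw [h5]
    exact div_le_self hu₀0.le (one_le_pow₀ one_le_two)
  have h5 := Hno hR.n0 hL0 hWJ hgJ H.inj (H.dep (ptr F J ω)) (H.dgG (ptr F J ω)) hR.pxe hR.cr hs₀0
    (W1 := W1) (fun i hi => hsq.trans (by
      rw [hu₀]
      exact div_le_div_of_nonneg_left (by positivity) (by positivity)
        (pow_le_pow_right₀ one_le_two (H.wd i hi).2))) (by rw [← hu₀]; exact hsq) hpA hK' H.S1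
    H.ga0 H.gah H.gas ω (H.nr ω hωA) (vx (ptr F J ω)) h2 hsm
  have h6 : ((2 * (K' : ℝ) * S₀ * (3 * 2 ^ sh)) ^ cc K' (r + 2) * 2 ^ sh₂) ^
      ((K₀ + 1) ^ (r + 2) * D) ≤ ex2 q X 0 t2 := by
    have h7 : (2 : ℝ) ^ sh₂ ≤ ex2 q X 0 1 := by
      unfold ex2
      refine (two_pow_le_exp sh₂).trans (exp_le_exp.2 ?_)
      have := H.sh2X
      linarith
    have h8 : (2 * (K' : ℝ) * S₀ * (3 * 2 ^ sh)) ^ cc K' (r + 2) ≤
        ex2 q X 0 ((cc K' (r + 2) : ℝ) * (6 * K' + 2)) :=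
      ex2_of ((num_T (n := cc K' (r + 2)) hX hK' H.S1 H.SX H.shX).trans
        (le_of_eq (by ring_nf)))
    have h9 := ex2_mul_le h8 h7 (by positivity)
    refine (ex2_pow_le ((K₀ + 1) ^ (r + 2) * D) (by have := H.S1; positivity) h9).trans
      (le_of_eq ?_)
    rw [ht2, add_zero, mul_zero]
  have h7 := fc_no (q := (q : ℝ)) hX (by linarith : (0 : ℝ) ≤ C₄)
    (by have := H.S1; positivity) h6 hnη (by rw [← hk4]; exact hN1)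
  linarith

/-- **No family**: the coefficient `a` of the depth `q` is independent of the degrees of the
labels. -/
theorem no_fam (r D : ℕ) {c : ℝ} (hc : 0 < c) (hc1 : c ≤ 1) : ∃ a : ℝ, 0 ≤ a ∧
    ∀ K K₀ K' : ℕ, 1 ≤ K' → ∃ κ₁ b : ℝ, 0 < κ₁ ∧ 1 ≤ b ∧ ∀ {m J : ℕ} {F : Fam m J}
    {A : F.Ω → Prop} {kap W0 W1 Pp sg q : ℕ} {c₀ c₁ : ℕ → Fin m} {ρ : Equiv.Perm (Fin (r + 1))}
    {g0 g1 g ga : ℕ → ℕ} {L S₀ ρq X : ℝ} {sh sh₂ Γ N N' : ℕ} {μ e₁ e₀ μ' e₁' : ℝ} {V0 V1 : Type}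
    {z0 : PtT F → V0} {z0' : LnT F → V0} {P0 : V0 → ℕ → PN} {z1 : PtT F → V1} {z1' : LnT F → V1}
    {P1 : V1 → ℕ → PN} {Qh : V1 → MvPolynomial (Option (Fin (r + 1))) ℝ}
    {G : PtT F → ℕ → MvPolynomial (Option (Fin m)) ℝ},
    FamW F A r D K K₀ K' kap W0 W1 Pp sg q c₀ c₁ ρ g0 g1 g ga L S₀ ρq X sh sh₂ Γ N N' μ e₁ e₀ μ'
      e₁' z0 z0' P0 z1 z1' P1 Qh G →
    a * q + b * X ≤ Γ * Real.log 2 →
    ∀ (n₀ nη : ℕ) (β S κ : ℝ)
      (aa : V1 × V0 → (Fin (r + 1) → ℤ) → Fin n₀ → (Fin (r + 1) → ℝ) → ℝ) (E : F.Ω × F.Ω → Prop),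
      Real.log (n₀ + 1) ≤ X → (nη : ℝ) ≤ X → 0 < β →
      β ≤ 2 ^ W1 / 2 ^ g0 r * Real.exp (-(a * q + b * X)) →
      (∀ e, 0 < P2 (Pool.Agent.H49.Ent.cond F.p A True) (slam F W0) e → E e →
        ∃ i, ∀ u ∈ ucube (r + 1),
          |eval (cpt (chiw r W0 W1 Pp q g0 ρ P0 (z0 (ptr F J e.1))
              (ciw c₀ r W0 W1 Pp q g0 P0 z0 (ptr F J e.1))) u)
            (toF (r + 1) W1 (P1 (z1 (ptr F J e.1)) (r + 1))) -
            aa (z1 (ptr F J e.2), z0 (ptr F J e.2)) (ciw c₀ r W0 W1 Pp q g0 P0 z0 (ptr F J e.1))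
              i u| ≤ β) →
      Pe (Pool.Agent.H49.Ent.cond F.p A True)
        (fun ω => ¬ InW F r W0 W1 Pp q c₀ ρ g0 g1 z0 P0 z1 P1 S κ ω) ≤ c / 8 →
      (∀ B₀ : F.Ω → Prop, Sub B₀ A → κ₁ * Pe F.p A ≤ Pe F.p B₀ →
        ∀ (Dx : PtT F → MvPolynomial (Option (Fin m)) ℝ)
          (Dl : LnT F → MvPolynomial (Option (Fin m)) ℝ) (N₀ : ℕ),
        (∀ y, (Dx y).totalDegree ≤ D) → (∀ s, (Dl s).totalDegree ≤ D) →
        (∀ y, DepC c₀ (r + 1) (Dx y)) → (∀ s, DepC c₀ (r + 1) (Dl s)) →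
        (∀ ω, B₀ ω → |eval (bt F ω) (Dx (ptr F J ω))| ≤ 1 / 2 ^ N₀) →
        (∀ ω, B₀ ω → ∀ b, NBx c₀ (G (ptr F J ω)) g W0 (F.t ω) (r + 1) b →
          |eval b (Dx (ptr F J ω)) - eval b (Dl (slam F W0 ω))| ≤ 1 / 2 ^ N₀) →
        ∃ ω, B₀ ω ∧ ∀ b, NBx c₀ (G (ptr F J ω)) g W0 (F.t ω) (r + 1) b →
          |eval b (Dx (ptr F J ω))| ≤ 2 ^ nη / 2 ^ N₀) →
      Pe (P2 (Pool.Agent.H49.Ent.cond F.p A True) (slam F W0)) E < c := by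
  have hr0 : (0 : ℝ) ≤ r := Nat.cast_nonneg r
  have hD0 : (0 : ℝ) ≤ D := Nat.cast_nonneg D
  obtain ⟨M, hM⟩ : ∃ M : ℕ, M = nmb (Option (Fin (r + 1))) D := ⟨_, rfl⟩
  obtain ⟨aR, haR⟩ : ∃ aR : ℝ, aR = 32 * (r + 1) / c := ⟨_, rfl⟩
  obtain ⟨ah, hah⟩ : ∃ ah : ℝ, ah = 64 * D * (r + 1) / c := ⟨_, rfl⟩
  obtain ⟨afl, hafl⟩ : ∃ afl : ℝ, afl = 2 ^ M * (2 * (ah + D * aR) + D) := ⟨_, rfl⟩
  have haR0 : 0 ≤ aR := by
    rw [haR]
    positivity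
  have hah0 : 0 ≤ ah := by
    rw [hah]
    positivity
  have hafl0 : 0 ≤ afl := by
    rw [hafl]
    positivity
  obtain ⟨aB, haB⟩ : ∃ aB : ℝ, aB = (2 * ah + 2 * D * aR + D * (ah + (1 + afl))) + ah + afl :=
    ⟨_, rfl⟩
  have hA1 : 0 ≤ 2 * ah + 2 * D * aR + D * (ah + (1 + afl)) := by positivity
  have haB0 : 0 ≤ aB := by
    rw [haB]
    linarith
  refine ⟨aB + 1 + aR, by linarith, ?_⟩
  intro K K₀ K' hK'
  obtain ⟨C₁, hC₁, Hclo⟩ := fam_clo r D K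
  obtain ⟨bε, hbε0, Hend⟩ := fam_end r D K K₀ K' hC₁ hc hK'
  obtain ⟨bc, hbc⟩ : ∃ bc : ℝ, bc = 2 * (3 + (r + 2) * (r + 2)) + (2 * r + 5) := ⟨_, rfl⟩
  obtain ⟨bR, hbR⟩ : ∃ bR : ℝ, bR = (32 * (C₁ + 3) + 2 * (D + 1)) / c := ⟨_, rfl⟩
  obtain ⟨bh, hbh⟩ : ∃ bh : ℝ, bh = (64 * D * (C₁ + 1) + C₁) / c := ⟨_, rfl⟩
  obtain ⟨bfl, hbfl⟩ : ∃ bfl : ℝ, bfl = C₁ + 1 + 2 ^ M * (C₁ + 2 * (bh + D * bR) + bε) :=
    ⟨_, rfl⟩
  have hC₁0 : 0 < C₁ := by linarith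
  have hbc0 : 0 ≤ bc := by
    rw [hbc]
    positivity
  have hbR0 : 0 ≤ bR := by
    rw [hbR]
    positivity
  have hbh0 : 0 < bh := by
    rw [hbh]
    positivity
  have hbfl0 : 0 ≤ bfl := by
    rw [hbfl]
    positivity
  obtain ⟨bU, hbU⟩ : ∃ bU : ℝ, bU = 2 * C₁ + (r + 2) + bfl := ⟨_, rfl⟩
  have hbU0 : 0 ≤ bU := by
    rw [hbU]
    positivity
  obtain ⟨bB, hbB⟩ : ∃ bB : ℝ, bB = (C₁ + 2 * bh + 2 * D * bR + D * (bh + 1 + bU) + 4) +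
    (2 * C₁ + bh + bfl) := ⟨_, rfl⟩
  have hB1 : 0 ≤ C₁ + 2 * bh + 2 * D * bR + D * (bh + 1 + bU) := by positivity
  have hbB0 : 0 ≤ bB := by
    rw [hbB]
    linarith
  refine ⟨c / (2 * C₁), bB + bc + (r + 2) + 1 + bR, by positivity, by linarith, ?_⟩
  intro m J F A kap W0 W1 Pp sg q c₀ c₁ ρ g0 g1 g ga L S₀ ρq X sh sh₂ Γ N N' μ e₁ e₀ μ' e₁' V0 V1
    z0 z0' P0 z1 z1' P1 Qh G H hgap n₀ nη β S κ aa E hn₀ hnη hβ0 hβ hfam hin hrel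
  by_contra hcon
  push Not at hcon
  have hX := H.X1
  have hX0 : 0 ≤ X := by linarith
  have hq0 : (0 : ℝ) ≤ q := Nat.cast_nonneg q
  have hR := H.rw0
  have hL0 := hR.L0
  have hW0g : W0 ≤ g0 r := by
    have h1 := (H.wd 0 (Nat.succ_pos r)).2
    rwa [wid_zero] at h1
  have h1L : 0 < 1 + ((r + 1 : ℕ) : ℝ) * L := by positivity
  obtain ⟨u₀, hu₀⟩ : ∃ u₀ : ℝ, u₀ = 2 ^ W1 / 2 ^ g0 r := ⟨_, rfl⟩
  obtain ⟨s₀, hs₀⟩ : ∃ s₀ : ℝ, s₀ = u₀ / (2 ^ q * (1 + ((r + 1 : ℕ) : ℝ) * L)) := ⟨_, rfl⟩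
  obtain ⟨h₀, hh₀⟩ : ∃ h₀ : ℝ, h₀ = clC r kap L / ((2 ^ (Pp - W1) : ℕ) : ℝ) := ⟨_, rfl⟩
  have hclC := clC_ge (r := r) (kap := kap) hL0
  have hu₀0 : 0 < u₀ := by
    rw [hu₀]
    positivity
  have hs₀0 : 0 < s₀ := by
    rw [hs₀]
    positivity
  have hh₀0 : 0 < h₀ := by
    rw [hh₀]
    positivity
  have hus := fc_us (r := r) (q := q) hL0 hX H.LX hu₀0
  rw [← hs₀] at hus
  -- the gap
  obtain ⟨G2, hG2⟩ : ∃ G2 : ℝ, G2 = 1 / 2 ^ Γ := ⟨_, rfl⟩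
  have hG20 : 0 < G2 := by
    rw [hG2]
    positivity
  have h2Γ : (2 : ℝ) ^ Γ = Real.exp (Γ * Real.log 2) := by
    rw [mul_comm, Real.exp_mul, Real.exp_log two_pos, Real.rpow_natCast]
  have hG2e : G2 ≤ ex2 q X (-(aB + 1 + aR)) (-(bB + bc + (r + 2) + 1 + bR)) := by
    rw [hG2, h2Γ, one_div, ← Real.exp_neg]
    unfold ex2
    refine Real.exp_le_exp.2 ?_
    linarith
  have hPW : ((2 ^ (Pp - W1) : ℕ) : ℝ) = 2 ^ Pp / 2 ^ W1 := by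
    rw [Nat.cast_pow, Nat.cast_two]
    exact two_pow_sub hR.WP
  have hinv : 1 / ((2 ^ (Pp - W1) : ℕ) : ℝ) ≤ u₀ * G2 := by
    rw [hPW, one_div_div, hu₀, hG2, div_mul_div_comm, mul_one]
    refine div_le_div_of_nonneg_left (by positivity) (by positivity) ?_
    rw [← pow_add]
    exact pow_le_pow_right₀ one_le_two H.gap0
  have hclCe : clC r kap L ≤ ex2 q X 0 bc := ex2_of (by
    rw [hbc]
    exact num_clC (r := r) hL0 hX H.LX H.kX)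
  -- the small numbers
  obtain ⟨z₀, hz₀⟩ : ∃ z₀ : ℝ, z₀ = ex2 q X (-aB) (-bB) := ⟨_, rfl⟩
  have hzh : h₀ / s₀ ≤ z₀ := by
    have h1 : h₀ / s₀ ≤ clC r kap L * (u₀ / s₀) * G2 := by
      have h2 : h₀ ≤ clC r kap L * (u₀ * G2) := by
        rw [hh₀, div_eq_mul_one_div]
        exact mul_le_mul_of_nonneg_left hinv (by linarith)
      refine (div_le_div_of_nonneg_right h2 hs₀0.le).trans (le_of_eq ?_)
      ring
    refine h1.trans ((ex2_mul_le (ex2_mul_le hclCe hus (by positivity)) hG2e hG20.le).trans ?_)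
    rw [hz₀]
    exact ex2_le hq0 hX0 (by linarith) (by linarith)
  have hzr : ρq / s₀ ≤ z₀ := by
    have h1 : ρq / s₀ ≤ Real.exp X * (u₀ / s₀) * G2 := by
      have h2 : ρq ≤ Real.exp X * (u₀ * G2) := by
        refine H.rq.trans ?_
        rw [div_eq_mul_one_div]
        exact mul_le_mul_of_nonneg_left hinv (Real.exp_pos X).le
      refine (div_le_div_of_nonneg_right h2 hs₀0.le).trans (le_of_eq ?_)
      ring
    have h3 : Real.exp X ≤ ex2 q X 0 1 := by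
      unfold ex2
      rw [zero_mul, zero_add, one_mul]
    refine h1.trans ((ex2_mul_le (ex2_mul_le h3 hus (by positivity)) hG2e hG20.le).trans ?_)
    rw [hz₀]
    exact ex2_le hq0 hX0 (by linarith) (by linarith)
  have hzb : β / s₀ ≤ z₀ := by
    have h1 : β / s₀ ≤ u₀ / s₀ *
        ex2 q X (-(aB + 1 + aR)) (-(bB + bc + (r + 2) + 1 + bR)) := by
      have h2 : β ≤ u₀ * ex2 q X (-(aB + 1 + aR)) (-(bB + bc + (r + 2) + 1 + bR)) := by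
        rw [hu₀]
        refine hβ.trans (le_of_eq ?_)
        unfold ex2
        congr 2
        ring
      refine (div_le_div_of_nonneg_right h2 hs₀0.le).trans (le_of_eq ?_)
      ring
    refine h1.trans ((ex2_mul_le hus le_rfl (ex2_pos _ _).le).trans ?_)
    rw [hz₀]
    exact ex2_le hq0 hX0 (by linarith) (by linarith)
  obtain ⟨fl, hfl⟩ : ∃ fl : ℝ, fl = ex2 q X (-afl) (-bfl) := ⟨_, rfl⟩
  have hfl0 : 0 < fl := by
    rw [hfl]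
    exact ex2_pos _ _
  have hfl1 : fl ≤ 1 := by
    rw [hfl]
    exact (ex2_le hq0 hX0 (by linarith) (by linarith)).trans (le_of_eq ex2_zero)
  have h2z : ∀ z, 0 ≤ z → z ≤ z₀ → 2 * C₁ * z ≤ fl := by
    intro z h1 h2
    rw [hfl]
    rw [hz₀] at h2
    exact fc_two hq0 hX hC₁0.le h2 h1 (by linarith) (by linarith)
  obtain ⟨h, hh⟩ : ∃ h : ℝ, h = ah * q + bh * X := ⟨_, rfl⟩
  have hexph : Real.exp h = ex2 q X ah bh := by
    rw [hh]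
    rfl
  obtain ⟨R, hRR⟩ : ∃ R : ℝ, R = ex2 q X aR bR := ⟨_, rfl⟩
  have hR1 : 1 ≤ R := by
    rw [hRR, ← ex2_zero (q := (q : ℝ)) (X := X)]
    exact ex2_le hq0 hX0 haR0 hbR0
  obtain ⟨β₁, hβ₁⟩ : ∃ β₁ : ℝ, β₁ = fl * s₀ / (2 * C₁) := ⟨_, rfl⟩
  have hβ₁0 : 0 < β₁ := by
    rw [hβ₁]
    positivity
  have hzz : ∀ x : ℝ, x = x / s₀ * s₀ := fun x => (div_mul_cancel₀ x hs₀0.ne').symm
  have hle : ∀ x : ℝ, 0 ≤ x → x / s₀ ≤ z₀ → C₁ * x ≤ fl * s₀ / 2 := by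
    intro x h1 h2
    have h3 := h2z (x / s₀) (by positivity) h2
    have h4 := mul_le_mul_of_nonneg_right h3 hs₀0.le
    have h5 : 2 * C₁ * (x / s₀) * s₀ = 2 * (C₁ * x) := by
      rw [mul_assoc, ← hzz x]
      ring
    rw [h5] at h4
    linarith
  have hz₀1 : z₀ ≤ 1 := by
    rw [hz₀]
    exact (ex2_le hq0 hX0 (by linarith) (by linarith)).trans (le_of_eq ex2_zero)
  have hhs : h₀ ≤ s₀ := by
    have := hzh.trans hz₀1
    rwa [div_le_one hs₀0] at this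
  have hs1 : s₀ ≤ u₀ := by
    rw [hs₀]
    refine div_le_self hu₀0.le ?_
    refine one_le_mul_of_one_le_of_one_le (one_le_pow₀ one_le_two) ?_
    have : 0 ≤ ((r + 1 : ℕ) : ℝ) * L := by positivity
    linarith
  have hsq : (1 + ((r + 1 : ℕ) : ℝ) * L) * s₀ = u₀ / 2 ^ q := by
    rw [hs₀]
    field_simp
  obtain ⟨vx, vl, B', hB', hB'ω⟩ := Hclo Qh ρq h₀ u₀ s₀ S κ h μ e₁ e₀ β β₁ fl
    (ex2 q X (-D) (-bε)) ((r + 1) * q + (C₁ + 1) * X) R c N n₀ aa E hR H.pos H.Qd H.csq H.rq0 hh₀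
    hu₀ hhs hs1
    (fun i hi => by
      rw [hsq, hu₀]
      refine div_le_div_of_nonneg_right ?_ (by positivity)
      exact div_le_div_of_nonneg_left (by positivity) (by positivity)
        (pow_le_pow_right₀ one_le_two (H.wd i hi).2))
    (fun i hi => by
      have h1 : (1 + ((r + 1 : ℕ) : ℝ) * L) * h₀ =
          (1 + ((r + 1 : ℕ) : ℝ) * L) * clC r kap L * 2 ^ W1 / 2 ^ Pp := by
        rw [hh₀, hPW]
        field_simp
      rw [h1, div_le_div_iff₀ (by positivity) (by positivity)]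
      have h2 : (1 + ((r + 1 : ℕ) : ℝ) * L) * clC r kap L ≤ 2 ^ Γ := by
        refine (ex2_mul_le (ex2_of (q := (q : ℝ)) (num_L (r := r) hL0 hX H.LX)) hclCe
          (by linarith)).trans ?_
        rw [h2Γ]
        unfold ex2
        refine Real.exp_le_exp.2 (le_trans ?_ hgap)
        have h3 : 0 ≤ (aB + 1 + aR) * q := by positivity
        have h4 : (r + 2 + bc) * X ≤ (bB + bc + (r + 2) + 1 + bR) * X :=
          mul_le_mul_of_nonneg_right (by linarith) hX0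
        linarith
      have h3 : (2 : ℝ) ^ wid W1 g1 i * 2 ^ Γ ≤ 2 ^ Pp := by
        rw [← pow_add]
        exact pow_le_pow_right₀ one_le_two (H.gap1 i hi)
      calc (1 + ((r + 1 : ℕ) : ℝ) * L) * clC r kap L * 2 ^ W1 * 2 ^ wid W1 g1 i ≤
            2 ^ Γ * 2 ^ W1 * 2 ^ wid W1 g1 i := by
            refine mul_le_mul_of_nonneg_right (mul_le_mul_of_nonneg_right h2 (by positivity))
              (by positivity)
        _ = 2 ^ W1 * (2 ^ wid W1 g1 i * 2 ^ Γ) := by ring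
        _ ≤ 2 ^ W1 * 2 ^ Pp := mul_le_mul_of_nonneg_left h3 (by positivity))
    (by rw [hh]; positivity) H.mx1 H.mu0 H.tm1 H.e10 H.tm0 H.e00 hfam hβ0
    (by
      have h1 := hle β hβ0.le hzb
      rw [hβ₁, le_div_iff₀ (by positivity)]
      linarith)
    hR1
    (by
      have h1 : R ≤ 2 ^ Γ := by
        rw [hRR, h2Γ]
        unfold ex2
        refine Real.exp_le_exp.2 (le_trans ?_ hgap)
        have h3 : aR * q ≤ (aB + 1 + aR) * q := mul_le_mul_of_nonneg_right (by linarith) hq0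
        have h4 : bR * X ≤ (bB + bc + (r + 2) + 1 + bR) * X :=
          mul_le_mul_of_nonneg_right (by linarith) hX0
        linarith
      refine h1.trans ?_
      push_cast
      refine pow_le_pow_right₀ one_le_two ?_
      have := H.gap0
      omega)
    hfl1
    (by
      have h1 := hle h₀ hh₀0.le hzh
      have h2 : C₁ * β₁ = fl * s₀ / 2 := by
        rw [hβ₁]
        field_simp
      rw [mul_add, h2]
      linarith)
    (by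
      have h1 : C₁ * Real.exp h * (ρq + h₀) / s₀ =
          C₁ * Real.exp h * (2 * ((ρq / s₀ + h₀ / s₀) / 2)) := by
        field_simp
      rw [h1, hfl]
      refine fc_rho (aB := aB) (bB := bB) hq0 hX hC₁0.le hexph ?_ ?_ (by linarith) (by linarith)
      · rw [← hz₀]
        linarith
      · have h2 := H.rq0
        positivity)
    (by
      have h1 : Real.exp h * (1 + L) * u₀ / β₁ = Real.exp h * (1 + L) * (u₀ / β₁) := by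
        rw [mul_div_assoc]
      rw [h1]
      refine fc_main (a5 := 1 + afl) (bU := bU) (aB := aB) (bB := bB) hq0 hX hC₁0.le hexph hRR hL0
        ?_ (by positivity) ?_ ?_ ?_ (by linarith) (by linarith)
      · have h2 : 1 + L = Real.exp (Real.log (1 + L)) := by
          rw [Real.exp_log (by linarith)]
        rw [h2]
        unfold ex2
        refine Real.exp_le_exp.2 ?_
        have := H.LX
        linarith
      · have h2 : u₀ / β₁ = 2 * C₁ * (u₀ / s₀) * fl⁻¹ := by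
          rw [hβ₁]
          field_simp
        rw [h2, hfl, ex2_inv, neg_neg, neg_neg, hbU]
        refine (ex2_mul_le (ex2_mul_le (ex2_const (q := (q : ℝ)) (by linarith : 0 ≤ 2 * C₁) hX)
          hus (by positivity)) le_rfl (ex2_pos _ _).le).trans (ex2_le hq0 hX0 ?_ le_rfl)
        linarith
      · have h2 := H.rq0
        positivity
      · have h2 : (ρq + h₀ + β) / s₀ = ρq / s₀ + h₀ / s₀ + β / s₀ := by
          rw [add_div, add_div]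
        rw [h2, ← hz₀]
        linarith)
    (ex2_pos _ _)
    ((ex2_le hq0 hX0 (by linarith) (by linarith)).trans (le_of_eq ex2_zero))
    (by
      rw [hfl, hafl, hbfl, ← hM]
      have hRp : 0 < R := by linarith
      refine ex2_fl M hq0 hX hC₁ (by positivity) (by positivity) hD0 hbε0 (by positivity) ?_
      refine (ex2_mul_le hexph.le (ex2_pow_le D hRp.le hRR.le) (by positivity)).trans
        (le_of_eq ?_)
      rfl)
    (by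
      have h1 : C₁ ≤ C₁ * X := le_mul_of_one_le_right hC₁0.le hX
      linarith)
    hc hc1 hcon hin
    (by
      have h1 : Real.log R = aR * q + bR * X := by
        rw [hRR]
        unfold ex2
        rw [Real.log_exp]
      rw [h1, haR, hbR]
      have h2 : c * (32 * (r + 1) / c * q + (32 * (C₁ + 3) + 2 * (D + 1)) / c * X) =
          32 * (r + 1) * q + (32 * (C₁ + 3) + 2 * (D + 1)) * X := by
        field_simp
      rw [h2]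
      have h3 := H.e0X
      have h4 : 2 * ((D : ℝ) + 1) ≤ 2 * (D + 1) * X := le_mul_of_one_le_right (by positivity) hX
      linarith)
    (by
      rw [hh, hah, hbh]
      have h2 : c * (64 * D * (r + 1) / c * q + (64 * D * (C₁ + 1) + C₁) / c * X) =
          64 * D * ((r + 1) * q + (C₁ + 1) * X) + C₁ * X := by
        field_simp
        ring
      rw [h2]
      have h3 := mul_le_mul_of_nonneg_left H.muX hC₁0.le
      linarith)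
  refine Hend H nη u₀ s₀ h₀ hnη hu₀ hs₀ ?_ vx vl B' hB' hB'ω hrel
  have h1 : (2 : ℝ) ^ W1 / 2 ^ J ≤ 2 ^ W1 / 2 ^ Pp :=
    div_le_div_of_nonneg_left (by positivity) (by positivity)
      (pow_le_pow_right₀ one_le_two hR.PJ)
  refine h1.trans ?_
  rw [hh₀, hPW, div_div_eq_mul_div]
  refine div_le_div_of_nonneg_right ?_ (by positivity)
  exact le_mul_of_one_le_left (by positivity) (by linarith)

end Pool.CLO37
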