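import Pool.Agent.H37.CLO.Fc0

/-!
# The family form: the numbers of the member
-/

set_option autoImplicit false

namespace Pool.CLO37

open Finset Real

variable {q X : ℝ}

/-- The condition of the closed equation. -/
lemma fc_main {C ah bh aR bR a5 bU aB bB L U Z R h : ℝ} {D : ℕ} (hq : 0 ≤ q) (hX : 1 ≤ X)
    (hC : 0 ≤ C) (hh : exp h = ex2 q X ah bh) (hR : R = ex2 q X aR bR) (hL : 0 ≤ L)
    (hL1 : 1 + L ≤ ex2 q X 0 1) (hU0 : 0 ≤ U) (hU : U ≤ ex2 q X a5 bU) (hZ0 : 0 ≤ Z)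
    (hZ : Z ≤ 3 * ex2 q X (-aB) (-bB)) (haB : 2 * ah + 2 * D * aR + D * (ah + a5) ≤ aB)
    (hbB : C + 2 * bh + 2 * D * bR + D * (bh + 1 + bU) + 3 < bB) :
    C * (exp h ^ 2 * R ^ (2 * D) * (exp h * (1 + L) * U) ^ D * Z) < 1 := by
  have hX0 : 0 ≤ X := by linarith
  have h1 : exp h ^ 2 ≤ ex2 q X ((2 : ℕ) * ah) ((2 : ℕ) * bh) :=
    ex2_pow_le 2 (exp_pos h).le hh.le
  have hR0 : 0 ≤ R := by
    rw [hR]
    exact (ex2_pos _ _).le
  have h2 : R ^ (2 * D) ≤ ex2 q X ((2 * D : ℕ) * aR) ((2 * D : ℕ) * bR) :=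
    ex2_pow_le (2 * D) hR0 hR.le
  have h3 : exp h * (1 + L) * U ≤ ex2 q X (ah + 0 + a5) (bh + 1 + bU) :=
    ex2_mul_le (ex2_mul_le hh.le hL1 (by linarith)) hU hU0
  have h4 := ex2_pow_le D (by positivity) h3
  have h5 : Z ≤ ex2 q X (0 + -aB) (3 + -bB) :=
    hZ.trans (ex2_mul_le (ex2_const (by norm_num) hX) le_rfl (ex2_pos _ _).le)
  have h6 := ex2_mul_le (ex2_const (q := q) hC hX) (ex2_mul_le (ex2_mul_le (ex2_mul_le h1 h2
    (by positivity)) h4 (by positivity)) h5 hZ0) (by positivity)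
  refine h6.trans_lt (lt_of_lt_of_eq ?_ (ex2_zero (q := q) (X := X)))
  refine ex2_lt hq (by linarith) ?_ ?_
  · push_cast
    linarith
  · push_cast
    linarith

lemma fc_two {C afl bfl aB bB z : ℝ} (hq : 0 ≤ q) (hX : 1 ≤ X) (hC : 0 ≤ C)
    (hz : z ≤ ex2 q X (-aB) (-bB)) (hz0 : 0 ≤ z) (ha : afl ≤ aB) (hb : 2 * C + bfl ≤ bB) :
    2 * C * z ≤ ex2 q X (-afl) (-bfl) := by
  refine (ex2_mul_le (ex2_const (q := q) (by linarith : 0 ≤ 2 * C) hX) hz hz0).trans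
    (ex2_le hq (by linarith) (by linarith) (by linarith))

lemma fc_rho {C ah bh afl bfl aB bB z h : ℝ} (hq : 0 ≤ q) (hX : 1 ≤ X) (hC : 0 ≤ C)
    (hh : exp h = ex2 q X ah bh) (hz : z ≤ ex2 q X (-aB) (-bB)) (hz0 : 0 ≤ z)
    (ha : ah + afl ≤ aB) (hb : 2 * C + bh + bfl ≤ bB) :
    C * exp h * (2 * z) ≤ ex2 q X (-afl) (-bfl) := by
  have h1 : C * exp h * (2 * z) = (2 * C) * exp h * z := by ring
  rw [h1]
  refine (ex2_mul_le (ex2_mul_le (ex2_const (q := q) (by linarith : 0 ≤ 2 * C) hX) hh.le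
    (exp_pos h).le) hz hz0).trans (ex2_le hq (by linarith) (by linarith) (by linarith))

/-- The precision of the relation. -/
lemma fc_eps {C₁ C₃ T H eh bT bH bh' bN bε : ℝ} {D N₀ : ℕ} (hq : 0 ≤ q) (hX : 1 ≤ X)
    (hC₁ : 0 ≤ C₁) (hC₃ : 0 ≤ C₃) (hT0 : 0 ≤ T) (hT : T ≤ ex2 q X 0 bT) (hH0 : 0 ≤ H)
    (hH : H ≤ ex2 q X 1 bH) (he0 : 0 ≤ eh) (heh : eh ≤ ex2 q X 0 bh')
    (hN : ex2 q X 0 (-bN) ≤ 1 / 2 ^ N₀) (hb : C₃ + bT + bh' + D * bH + C₁ + bN ≤ bε) :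
    C₃ * T * (eh * (H ^ D * (C₁ * ex2 q X (-D) (-bε)))) ≤ 1 / 2 ^ N₀ := by
  refine le_trans ?_ hN
  have h1 := ex2_pow_le D hH0 hH
  have h2 := ex2_mul_le (ex2_mul_le (ex2_const (q := q) hC₃ hX) hT hT0) (ex2_mul_le heh
    (ex2_mul_le h1 (ex2_mul_le (ex2_const (q := q) hC₁ hX) (le_refl (ex2 q X (-D) (-bε)))
      (ex2_pos _ _).le) (by have := ex2_pos (q := q) (X := X) (-D) (-bε); positivity))
    (by have := ex2_pos (q := q) (X := X) (-D) (-bε); positivity))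
    (by have := ex2_pos (q := q) (X := X) (-D) (-bε); positivity)
  refine h2.trans (ex2_le hq (by linarith) ?_ ?_)
  · linarith
  · linarith

/-- The number of digits of the relation. -/
lemma fc_N {k : ℝ} (hX : 1 ≤ X) (hk : 1 ≤ k) :
    exp (k * X) < 2 ^ ⌈2 * k * X⌉₊ ∧ ex2 q X 0 (-(2 * k + 1)) ≤ 1 / 2 ^ ⌈2 * k * X⌉₊ := by
  have hkX : 1 ≤ k * X := one_le_mul_of_one_le_of_one_le hk hX
  constructor
  · have h1 : 2 * k * X ≤ (⌈2 * k * X⌉₊ : ℝ) := Nat.le_ceil _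
    have h2 : Real.log 2 > 0.69 := by
      have := Real.log_two_gt_d9
      linarith
    have h3 : (2 : ℝ) ^ ⌈2 * k * X⌉₊ = exp (Real.log 2 * ⌈2 * k * X⌉₊) := by
      rw [Real.exp_mul, Real.exp_log two_pos, Real.rpow_natCast]
    rw [h3, exp_lt_exp]
    nlinarith
  · have h1 : (⌈2 * k * X⌉₊ : ℝ) < 2 * k * X + 1 := Nat.ceil_lt_add_one (by nlinarith)
    have h2 := two_pow_le_exp ⌈2 * k * X⌉₊
    unfold ex2
    rw [zero_mul, zero_add, neg_mul, exp_neg, ← one_div]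
    refine one_div_le_one_div_of_le (by positivity) (h2.trans (exp_le_exp.2 ?_))
    nlinarith

/-- The contradiction. -/
lemma fc_no {C T t : ℝ} {n N₀ : ℕ} (hX : 1 ≤ X) (hC : 0 ≤ C) (hT0 : 0 ≤ T)
    (hT : T ≤ ex2 q X 0 t) (hn : (n : ℝ) ≤ X) (hN : exp ((C + t + 1) * X) < 2 ^ N₀) :
    C * T * (2 ^ n / 2 ^ N₀) < 1 := by
  have h1 : (2 : ℝ) ^ n ≤ ex2 q X 0 1 := by
    unfold ex2
    refine (two_pow_le_exp n).trans (exp_le_exp.2 ?_)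
    linarith
  have h2 := ex2_mul_le (ex2_mul_le (ex2_const (q := q) hC hX) hT hT0) h1 (by positivity)
  have h3 : ex2 q X (0 + 0 + 0) (C + t + 1) = exp ((C + t + 1) * X) := by
    unfold ex2
    ring_nf
  rw [h3] at h2
  rw [← mul_div_assoc, div_lt_one (by positivity)]
  exact h2.trans_lt hN

/-- The scale of the record and the scale of the equation. -/
lemma fc_us {r q : ℕ} {L u₀ : ℝ} (hL : 0 ≤ L) (hX : 1 ≤ X) (h : log (1 + L) ≤ X)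
    (hu : 0 < u₀) :
    u₀ / (u₀ / (2 ^ q * (1 + ((r + 1 : ℕ) : ℝ) * L))) ≤ ex2 q X 1 (r + 2) := by
  have h1 : 0 < 1 + ((r + 1 : ℕ) : ℝ) * L := by positivity
  have h2 : u₀ / (u₀ / (2 ^ q * (1 + ((r + 1 : ℕ) : ℝ) * L))) =
      2 ^ q * (1 + ((r + 1 : ℕ) : ℝ) * L) := by
    field_simp
  rw [h2]
  have h3 := ex2_mul_le (ex2_q (X := X) q) (ex2_of (q := (q : ℝ)) (num_L (r := r) hL hX h))
    h1.le
  refine h3.trans (le_of_eq ?_)
  ring_nf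

end Pool.CLO37
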