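import Mathlib

/-!
# The family form: numbers of the class

`nu_num`: the size of the leaves in the units of the member theorem. `gap_num`, `gap_nat`: the gap.
-/

set_option autoImplicit false

namespace Pool.CLO37

open Real

lemma inv_log_two {x : ℝ} (hx : 0 ≤ x) : x ≤ (3 / 2 * x) * Real.log 2 := by
  have h1 := Real.log_two_gt_d9
  nlinarith

/-- **The size of the leaves.** -/
theorem nu_num {a b C' w P00 P1 cD q φ η' X : ℝ} {J s γ : ℕ} (ha : 0 ≤ a) (hb : 0 ≤ b)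
    (hC : 3 / 2 * a + 1 ≤ C') (hq : 0 ≤ q) (hJ : 0 < J)
    (hs : ⌊(1 - cD / 2 - P1) * J⌋₊ + s = ⌊(1 - cD / 2 - P00) * J⌋₊)
    (hP1 : 0 ≤ 1 - cD / 2 - P1) (hγ : (γ : ℝ) ≤ (1 - cD / 2 + φ) * J) (hX0 : 0 ≤ X)
    (hX : X ≤ η' * J) (hnum : φ + 3 / 2 * b * η' + 1 / J ≤ q) :
    2 ^ ⌊w * J⌋₊ * (2 : ℝ) ^ (-((P00 + (1 - cD / 2 - P1) + C' * q) * (J : ℝ))) / 2 ^ s ≤
      2 ^ ⌊w * J⌋₊ / 2 ^ γ * Real.exp (-(a * (⌊q * J⌋₊ : ℝ) + b * X)) := by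
  have hJ0 : (0 : ℝ) < J := by exact_mod_cast hJ
  have hqJ : (⌊q * J⌋₊ : ℝ) ≤ q * J := Nat.floor_le (by positivity)
  have h1 : (1 - cD / 2 - P00) * J < (⌊(1 - cD / 2 - P00) * J⌋₊ : ℝ) + 1 := Nat.lt_floor_add_one _
  have h2 : (⌊(1 - cD / 2 - P1) * J⌋₊ : ℝ) ≤ (1 - cD / 2 - P1) * J :=
    Nat.floor_le (by positivity)
  have h3 : (⌊(1 - cD / 2 - P1) * J⌋₊ : ℝ) + s = (⌊(1 - cD / 2 - P00) * J⌋₊ : ℝ) := by
    exact_mod_cast hs
  have hsl : (P1 - P00) * J - 1 ≤ s := by linarith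
  obtain ⟨Y, hY⟩ : ∃ Y : ℝ, Y = a * (⌊q * J⌋₊ : ℝ) + b * X := ⟨_, rfl⟩
  have hY0 : 0 ≤ Y := by
    rw [hY]
    positivity
  have hY1 : Y ≤ (a * q + b * η') * J := by
    rw [hY]
    have h4 := mul_le_mul_of_nonneg_left hqJ ha
    have h5 := mul_le_mul_of_nonneg_left hX hb
    linarith
  have hnJ : (φ + 3 / 2 * b * η') * J + 1 ≤ q * J := by
    have h4 := mul_le_mul_of_nonneg_right hnum hJ0.le
    have h5 : (φ + 3 / 2 * b * η' + 1 / J) * J = (φ + 3 / 2 * b * η') * J + 1 := by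
      field_simp
    rw [h5] at h4
    exact h4
  have hCq : (3 / 2 * a + 1) * (q * J) ≤ C' * (q * J) :=
    mul_le_mul_of_nonneg_right hC (by positivity)
  have key : (γ : ℝ) + 3 / 2 * Y ≤ (P00 + (1 - cD / 2 - P1) + C' * q) * J + s := by
    linarith
  -- the powers of two
  have e1 : Real.exp (-Y) = 1 / Real.exp Y := by rw [Real.exp_neg, one_div]
  have e2 : Real.exp Y ≤ (2 : ℝ) ^ (3 / 2 * Y) := by
    rw [Real.rpow_def_of_pos two_pos, Real.exp_le_exp, mul_comm]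
    exact inv_log_two hY0
  have e3 : (2 : ℝ) ^ ((γ : ℝ) + 3 / 2 * Y) ≤
      (2 : ℝ) ^ ((P00 + (1 - cD / 2 - P1) + C' * q) * (J : ℝ) + s) :=
    Real.rpow_le_rpow_of_exponent_le one_le_two key
  rw [Real.rpow_add two_pos, Real.rpow_add two_pos, Real.rpow_natCast, Real.rpow_natCast] at e3
  rw [← hY, e1, Real.rpow_neg (by norm_num : (0 : ℝ) ≤ 2), mul_one_div, mul_div_assoc,
    div_div]
  have hW : (0 : ℝ) < 2 ^ ⌊w * J⌋₊ := by positivity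
  rw [div_eq_mul_inv, div_eq_mul_inv]
  refine mul_le_mul_of_nonneg_left ?_ hW.le
  have hP : (0 : ℝ) < (2 : ℝ) ^ ((P00 + (1 - cD / 2 - P1) + C' * q) * (J : ℝ)) :=
    Real.rpow_pos_of_pos two_pos _
  rw [← mul_inv]
  refine inv_anti₀ (by positivity) ?_
  calc 2 ^ γ * Real.exp Y ≤ 2 ^ γ * (2 : ℝ) ^ (3 / 2 * Y) :=
        mul_le_mul_of_nonneg_left e2 (by positivity)
    _ ≤ _ := e3

/-- **The gap**, in the units of the member theorem. -/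
theorem gap_num {a b C' cD q η' X : ℝ} {J : ℕ} (ha : 0 ≤ a) (hb : 0 ≤ b)
    (hC : 3 / 2 * a + 1 ≤ C') (hq : 0 ≤ q) (hJ : 0 < J) (hqc : C' * q ≤ cD / 8)
    (hX : X ≤ η' * J) (hnum : b * η' + 1 / J ≤ cD / 12) :
    a * (⌊q * J⌋₊ : ℝ) + b * X ≤ (⌊cD / 4 * J⌋₊ : ℝ) * Real.log 2 := by
  have hJ0 : (0 : ℝ) < J := by exact_mod_cast hJ
  have hqJ : (⌊q * J⌋₊ : ℝ) ≤ q * J := Nat.floor_le (by positivity)
  have h1 : cD / 4 * J < (⌊cD / 4 * J⌋₊ : ℝ) + 1 := Nat.lt_floor_add_one _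
  have h2 := Real.log_two_gt_d9
  have h3 := Real.log_two_lt_d9
  have h4 := mul_le_mul_of_nonneg_left hqJ ha
  have h5 := mul_le_mul_of_nonneg_left hX hb
  have h6 : 3 / 2 * a * q ≤ C' * q := mul_le_mul_of_nonneg_right (by linarith) hq
  have h7 : a * (q * J) ≤ cD / 12 * J := by
    have h8 : a * q ≤ cD / 12 := by linarith
    have := mul_le_mul_of_nonneg_right h8 hJ0.le
    linarith
  have h9 : b * (η' * J) + 1 ≤ cD / 12 * J := by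
    have h10 := mul_le_mul_of_nonneg_right hnum hJ0.le
    have h11 : (b * η' + 1 / J) * J = b * (η' * J) + 1 := by field_simp
    rw [h11] at h10
    exact h10
  have h12 : (cD / 4 * J - 1) * Real.log 2 ≤ (⌊cD / 4 * J⌋₊ : ℝ) * Real.log 2 :=
    mul_le_mul_of_nonneg_right (by linarith) (by linarith)
  have hcJ : 0 ≤ cD * J := by
    have : 0 ≤ a * (q * J) := by positivity
    linarith
  nlinarith

lemma gap_nat {cD φ : ℝ} {J γ : ℕ} (hcD : 0 ≤ cD) (hγ : (γ : ℝ) ≤ (1 - cD / 2 + φ) * J)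
    (hφ : φ ≤ cD / 4) : γ + ⌊cD / 4 * J⌋₊ ≤ J := by
  have hJ0 : (0 : ℝ) ≤ J := Nat.cast_nonneg J
  have h1 : (⌊cD / 4 * J⌋₊ : ℝ) ≤ cD / 4 * J := Nat.floor_le (by positivity)
  have h2 : φ * J ≤ cD / 4 * J := mul_le_mul_of_nonneg_right hφ hJ0
  have h3 : (γ : ℝ) + (⌊cD / 4 * J⌋₊ : ℝ) ≤ J := by linarith
  exact_mod_cast h3

end Pool.CLO37
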