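import Mathlib

/-!
# The family form: numbers
-/

set_option autoImplicit false

namespace Pool.CLO37

open Finset Real

lemma fn_log (r q cr n : ℕ) : Real.log ((((2 ^ (q + 1) + 3) ^ (r + 1) : ℕ) : ℝ) *
    (n * 3 ^ cr) + 1) ≤ (r + 1) * (q + 3) + Real.log (n + 1) + 2 * cr := by
  have hl2 := Real.log_two_lt_d9
  have hl3 : Real.log 3 ≤ 2 := by
    have h1 : Real.log 3 ≤ 3 - 1 := Real.log_le_sub_one_of_pos (by norm_num)
    linarith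
  have hr0 : (0 : ℝ) ≤ r := Nat.cast_nonneg r
  have hq0 : (0 : ℝ) ≤ q := Nat.cast_nonneg q
  have hcr0 : (0 : ℝ) ≤ cr := Nat.cast_nonneg cr
  have hNC : Real.log (((2 ^ (q + 1) + 3) ^ (r + 1) : ℕ) : ℝ) ≤ (r + 1) * (q + 3) := by
    push_cast
    rw [Real.log_pow]
    have h1 : (2 : ℝ) ^ (q + 1) + 3 ≤ 2 ^ 3 * 2 ^ q := by
      have : (1 : ℝ) ≤ 2 ^ q := one_le_pow₀ one_le_two
      rw [pow_succ]
      linarith
    have h2 : Real.log ((2 : ℝ) ^ (q + 1) + 3) ≤ q + 3 := by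
      refine (Real.log_le_log (by positivity) h1).trans ?_
      rw [← pow_add, Real.log_pow]
      push_cast
      nlinarith
    have h3 : ((r + 1 : ℕ) : ℝ) = r + 1 := by push_cast; ring
    rw [h3]
    exact mul_le_mul_of_nonneg_left h2 (by linarith)
  have hn0 : (0 : ℝ) ≤ n := Nat.cast_nonneg n
  have h1 : (1 : ℝ) ≤ (((2 ^ (q + 1) + 3) ^ (r + 1) : ℕ) : ℝ) := by
    exact_mod_cast Nat.one_le_pow _ _ (by positivity)
  have h2 : (1 : ℝ) ≤ 3 ^ cr := one_le_pow₀ (by norm_num)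
  have h3 : (((2 ^ (q + 1) + 3) ^ (r + 1) : ℕ) : ℝ) * (n * 3 ^ cr) + 1 ≤
      (((2 ^ (q + 1) + 3) ^ (r + 1) : ℕ) : ℝ) * ((n + 1) * 3 ^ cr) := by
    have h4 := one_le_mul_of_one_le_of_one_le h1 h2
    linarith
  refine (Real.log_le_log (by positivity) h3).trans ?_
  rw [Real.log_mul (by positivity) (by positivity), Real.log_mul (by positivity)
    (by positivity), Real.log_pow]
  have h4 : (cr : ℝ) * Real.log 3 ≤ 2 * cr := by nlinarith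
  linarith

lemma fn_main {C C₁ C₂ C₃ eh RR X ρq h₀ s₀ β : ℝ} {D : ℕ} (hC₁ : 1 ≤ C₁) (hC₂ : 1 ≤ C₂)
    (hC₃ : 1 ≤ C₃) (hC : C₃ * C₂ * C₁ ^ D * (C₁ + 1) ≤ C) (heh : 0 ≤ eh) (hRR : 0 ≤ RR)
    (hX : 0 ≤ X) (hρ : 0 ≤ ρq) (hh : 0 ≤ h₀) (hs : 0 < s₀) (hβ : 0 ≤ β)
    (h : C * (eh ^ 2 * RR * X ^ D * ((ρq + h₀ + β) / s₀)) < 1) :
    C₃ * (eh * RR * (C₂ * eh) * (C₁ * X) ^ D * (C₁ * (ρq + h₀) / s₀ + (h₀ + β) / s₀)) < 1 := by
  refine lt_of_le_of_lt ?_ h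
  rw [mul_pow]
  have e2 : C₁ * (ρq + h₀) / s₀ + (h₀ + β) / s₀ ≤ (C₁ + 1) * ((ρq + h₀ + β) / s₀) := by
    rw [← add_div, ← mul_div_assoc]
    refine div_le_div_of_nonneg_right ?_ hs.le
    nlinarith
  have e4 : 0 ≤ eh ^ 2 * RR * X ^ D := by positivity
  have e5 : 0 ≤ (ρq + h₀ + β) / s₀ := by positivity
  calc C₃ * (eh * RR * (C₂ * eh) * (C₁ ^ D * X ^ D) *
      (C₁ * (ρq + h₀) / s₀ + (h₀ + β) / s₀))
      ≤ C₃ * (eh * RR * (C₂ * eh) * (C₁ ^ D * X ^ D) *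
      ((C₁ + 1) * ((ρq + h₀ + β) / s₀))) := by
        refine mul_le_mul_of_nonneg_left ?_ (by linarith)
        exact mul_le_mul_of_nonneg_left e2 (by positivity)
    _ = C₃ * C₂ * C₁ ^ D * (C₁ + 1) * (eh ^ 2 * RR * X ^ D *
        ((ρq + h₀ + β) / s₀)) := by ring
    _ ≤ _ := mul_le_mul_of_nonneg_right hC (by positivity)

lemma fn_R {θ e₀ lR P c : ℝ} {D : ℕ}
    (hθ : 0 ≤ θ) (he : 0 ≤ e₀) (hc : 0 < c) (hc1 : c ≤ 1)
    (h : 32 * (θ + e₀ + 1) + 2 * (D + 1) ≤ c * lR) (hP : c / 2 ≤ P) :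
    16 * (θ + e₀ + 1) ≤ (lR - Real.log (2 * (D + 1))) * P := by
  have hD0 : (0 : ℝ) ≤ D := Nat.cast_nonneg D
  have h1 : Real.log (2 * (D + 1)) ≤ 2 * (D + 1) := by
    have := Real.log_le_sub_one_of_pos (by positivity : (0 : ℝ) < 2 * (D + 1))
    linarith
  have h7 : c * Real.log (2 * (D + 1)) ≤ 2 * (D + 1) := by
    refine (mul_le_mul_of_nonneg_left h1 hc.le).trans ?_
    have : c * (2 * ((D : ℝ) + 1)) ≤ 1 * (2 * ((D : ℝ) + 1)) :=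
      mul_le_mul_of_nonneg_right hc1 (by positivity)
    linarith
  have h4 : 32 * (θ + e₀ + 1) ≤ c * (lR - Real.log (2 * (D + 1))) := by
    rw [mul_sub]
    linarith
  have h6 : 0 ≤ lR - Real.log (2 * (D + 1)) := by
    by_contra hcon
    push Not at hcon
    have := mul_neg_of_pos_of_neg hc hcon
    linarith
  calc 16 * (θ + e₀ + 1) ≤ (lR - Real.log (2 * (D + 1))) * (c / 2) := by linarith
    _ ≤ _ := mul_le_mul_of_nonneg_left hP h6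

lemma fn_h {C C₃ X h P c θ : ℝ} {D : ℕ} (hC : 2 * C₃ ≤ C) (hX : 0 ≤ X) (h0 : 0 ≤ h)
    (h1 : 64 * D * θ + C * X ≤ c * h) (hP : c / 2 ≤ P) : 32 * D * θ + C₃ * X ≤ h * P := by
  have h2 : 2 * C₃ * X ≤ C * X := mul_le_mul_of_nonneg_right hC hX
  calc 32 * D * θ + C₃ * X ≤ h * (c / 2) := by linarith
    _ ≤ _ := mul_le_mul_of_nonneg_left hP h0

lemma fn_s {C₁ eh L u₀ s₀ h₀ : ℝ} (hC₁ : 2 ≤ C₁) (heh : 1 ≤ eh) (hL : 0 ≤ L) (hu : 0 ≤ u₀)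
    (hs : s₀ ≤ u₀) (hh : h₀ ≤ s₀) : h₀ + s₀ ≤ C₁ * eh * (1 + L) * u₀ := by
  have h1 : 1 ≤ eh * (1 + L) := one_le_mul_of_one_le_of_one_le heh (by linarith)
  have h2 : u₀ ≤ eh * (1 + L) * u₀ := by nlinarith
  have h3 : C₁ * eh * (1 + L) * u₀ = C₁ * (eh * (1 + L) * u₀) := by ring
  rw [h3]
  nlinarith

lemma fn_th {C C₃ r cr D q : ℝ} (hC : C₃ + 3 * (r + 1) + 2 * cr + D ≤ C)
    (h3 : 0 ≤ C₃) :
    (r + 1) * (q + 3) + 2 * cr + D ≤ C + (r + 1) * q := by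
  linarith

end Pool.CLO37
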