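import Pool.Agent.H37.CLO.Ps
import Pool.Agent.H37.CLO.Cgo
import Pool.Agent.H86.KJ.Lre

/-!
# Polynomials which are functions of the leaf
-/

set_option autoImplicit false

namespace Pool.CLO37

open Finset Real
open Pool.Agent.H49.Ent Pool.Agent.H32.Dense Pool.STK Pool.KAF Pool.KAL Pool.KS3 Pool.M3F
open Pool.KJA Pool.KA Pool.K2S Pool.KM7

/-- **A polynomial which is a function of the leaf** is not much larger on the leaf than at the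
sample, at the scale of the rounding. -/
theorem one_ev (σ : Type) [Fintype σ] (d D k₀ : ℕ) : ∃ C : ℝ, 1 ≤ C ∧
    ∀ {C₀ : ℝ} {Ω Λ Ξ Z : Type} [Fintype Ω] {p : Ω → ℝ} {lam : Ω → Λ}
      {x : Ω → Ξ} {T : Ξ → ℕ} {z : Ξ → σ → ℝ} {A B : Λ → σ → ℝ} {zx : Ξ → Z} {zl : Λ → Z}
      {Yb : Ξ → Fin d → ℕ} {Ng : Z → Fin d → ℕ} {Φ : Z → σ → MvPolynomial (Fin d) ℝ}
      {M N : ℕ} {μ e₁ h : ℝ} (ι : Type) [Fintype ι] (F : ι → Z → MvPolynomial σ ℝ),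
      1 ≤ C₀ → 1 ≤ M → CLeaf k₀ C₀ M p lam x T z A B zx zl Yb Ng Φ →
      MxC N μ p lam x (fun ξ => ∑ i, Real.log (Ng (zx ξ) i)) Yb → 0 ≤ μ →
      Real.log M - CH p (fun ω => T (x ω)) lam ≤ e₁ → 0 ≤ e₁ → 0 < h →
      (∀ i, ∀ ω, 0 < p ω → (F i (zx (x ω))).totalDegree ≤ D) →
      Pe p (fun ω => ∃ i, ∃ u ∈ ucube d, Real.exp h * Psi (F i (zx (x ω))) (C₀ / M) (z (x ω)) <
        Psi (F i (zx (x ω))) (C₀ / M) (cpt (Φ (zx (x ω))) u)) ≤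
        C * Fintype.card ι * (((N + 1) * (e₁ + 1) + μ) / h) := by
  classical
  obtain ⟨C, hC, H⟩ := lrc_ev σ d D k₀
  refine ⟨C, hC, ?_⟩
  intro C₀ Ω Λ Ξ Z _ p lam x T z A B zx zl Yb Ng Φ M N μ e₁ h ι _ F hC₀ hM hL hmx hμ he₁ he₁0 hh hF
  have hp := hL.inc.isLaw
  have h1 := H C₀ Ω Λ Ξ Z Ω Z ι p lam x T z A B zx zl Yb Ng Φ M N μ e₁ h p x (fun ω => zx (x ω)) F
    hC₀ hM hL hmx hμ he₁ he₁0 hp (fun _ => rfl) hh hF
  have h2 : CH p (fun ω => zx (x ω)) (fun ω => zx (x ω)) = 0 :=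
    CH_eq_zero hp.nonneg fun ω ω' _ _ h => h
  have h3 : 0 ≤ CH p (fun ω => zx (x ω)) x := CH_nonneg hp.nonneg _ _
  rw [h2, zero_sub] at h1
  rw [Pe_eq]
  refine (le_trans (le_of_eq (Finset.sum_congr rfl fun ω _ => ?_)) h1).trans ?_
  · split_ifs <;> rfl
  · have h4 : (2 * D * -CH p (fun ω => zx (x ω)) x + C * ((N + 1) * (e₁ + 1) + μ)) / h ≤
        C * ((N + 1) * (e₁ + 1) + μ) / h := by
      refine div_le_div_of_nonneg_right ?_ hh.le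
      have : 0 ≤ 2 * (D : ℝ) * CH p (fun ω => zx (x ω)) x := by positivity
      linarith
    calc _ ≤ Fintype.card ι * (C * ((N + 1) * (e₁ + 1) + μ) / h) :=
          mul_le_mul_of_nonneg_left h4 (Nat.cast_nonneg _)
      _ = _ := by ring

/-- **The same for the size at a larger scale**. -/
theorem low_ev (σ : Type) [Fintype σ] (d D k₀ : ℕ) : ∃ C : ℝ, 1 ≤ C ∧
    ∀ {C₀ : ℝ} {Ω Λ Ξ Z : Type} [Fintype Ω] {p : Ω → ℝ} {lam : Ω → Λ}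
      {x : Ω → Ξ} {T : Ξ → ℕ} {z : Ξ → σ → ℝ} {A B : Λ → σ → ℝ} {zx : Ξ → Z} {zl : Λ → Z}
      {Yb : Ξ → Fin d → ℕ} {Ng : Z → Fin d → ℕ} {Φ : Z → σ → MvPolynomial (Fin d) ℝ}
      {M N : ℕ} {μ e₁ h s₀ : ℝ} (Q : Z → MvPolynomial σ ℝ),
      1 ≤ C₀ → 1 ≤ M → CLeaf k₀ C₀ M p lam x T z A B zx zl Yb Ng Φ →
      MxC N μ p lam x (fun ξ => ∑ i, Real.log (Ng (zx ξ) i)) Yb → 0 ≤ μ →
      Real.log M - CH p (fun ω => T (x ω)) lam ≤ e₁ → 0 ≤ e₁ → 0 < h → C₀ / M ≤ s₀ →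
      (∀ v, (Q v).totalDegree ≤ D) →
      Pe p (fun ω => ∃ u ∈ ucube d, C * Real.exp h * Psi (Q (zx (x ω))) s₀ (z (x ω)) <
        Psi (Q (zx (x ω))) s₀ (cpt (Φ (zx (x ω))) u)) ≤
        C * (((N + 1) * (e₁ + 1) + μ) / h) := by
  classical
  obtain ⟨C₁, hC₁, H⟩ := one_ev σ d D k₀
  obtain ⟨K, hK, Hj⟩ := psi_jet σ D
  obtain ⟨n, hn⟩ : ∃ n : ℕ, n = (expBox σ D).card := ⟨_, rfl⟩
  have hn0 : (0 : ℝ) ≤ n := Nat.cast_nonneg n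
  have hnK : 0 ≤ n * K := by positivity
  have hnC : 0 ≤ C₁ * n := by positivity
  refine ⟨1 + n * K + C₁ * n, by linarith, ?_⟩
  intro C₀ Ω Λ Ξ Z _ p lam x T z A B zx zl Yb Ng Φ M N μ e₁ h s₀ Q hC₀ hM hL hmx hμ he₁ he₁0 hh
    hs hQ
  have hp := hL.inc.isLaw
  have hM0 : (0 : ℝ) < M := by exact_mod_cast hM
  have hh₀ : 0 < C₀ / M := by positivity
  have h1 := H (expBox σ D) (fun α v => jet (Q v) s₀ (α : σ →₀ ℕ)) hC₀ hM hL hmx hμ he₁ he₁0 hh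
    (fun α ω _ => (totalDegree_jet_le _ _ _).trans (hQ _))
  rw [Fintype.card_coe, ← hn] at h1
  have hX : 0 ≤ ((N + 1) * (e₁ + 1) + μ) / h := by positivity
  refine (pe_mono' hp.nonneg fun ω hω hb => ?_).trans (h1.trans
    (mul_le_mul_of_nonneg_right (by linarith) hX))
  obtain ⟨u, hu, hub⟩ := hb
  by_contra hcon
  push Not at hcon
  have h2 : Psi (Q (zx (x ω))) s₀ (cpt (Φ (zx (x ω))) u) ≤
      n * (Real.exp h * (K * Psi (Q (zx (x ω))) s₀ (z (x ω)))) := by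
    rw [Psi_eq_box _ D (hQ _)]
    have h3 : ∀ α ∈ expBox σ D, |MvPolynomial.eval (cpt (Φ (zx (x ω))) u)
        (jet (Q (zx (x ω))) s₀ α)| ≤ Real.exp h * (K * Psi (Q (zx (x ω))) s₀ (z (x ω))) := by
      intro α hα
      refine (abs_eval_le_Psi _ (C₀ / M) _).trans ((hcon ⟨α, hα⟩ u hu).trans ?_)
      exact mul_le_mul_of_nonneg_left (Hj _ _ _ _ _ (hQ _) hh₀.le hs) (Real.exp_pos h).le
    refine (Finset.sum_le_card_nsmul _ _ _ h3).trans (le_of_eq ?_)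
    rw [nsmul_eq_mul, ← hn]
  have h4 := Psi_nonneg (Q (zx (x ω))) s₀ (z (x ω))
  have h5 : n * (Real.exp h * (K * Psi (Q (zx (x ω))) s₀ (z (x ω)))) ≤
      (1 + n * K + C₁ * n) * Real.exp h * Psi (Q (zx (x ω))) s₀ (z (x ω)) := by
    have h6 : 0 ≤ Real.exp h * Psi (Q (zx (x ω))) s₀ (z (x ω)) :=
      mul_nonneg (Real.exp_pos h).le h4
    nlinarith
  linarith

end Pool.CLO37
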