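import Pool.Agent.H37.CLO.Wch
import Pool.Agent.H37.CLO.Qsd
import Pool.Agent.H37.CLO.Cg2
import Pool.Agent.H5.GEO.ToO
import Pool.Agent.H86.GEO.Prm

/-!
# The family form: preliminaries
-/

set_option autoImplicit false

namespace Pool.CLO37

open Finset Real MvPolynomial
open Pool.Agent.H49.Ent Pool.Agent.H32.Dense Pool.STK Pool.KAF Pool.KAL Pool.KS3 Pool.M3F
open Pool.KJA Pool.KA Pool.K2S Pool.KSAT Pool.PB Pool.STAT Pool.GEN Pool.GEO

/-- The jet size by the value and the jet size at a larger scale. -/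
theorem psi_two (σ : Type) [Fintype σ] (D : ℕ) : ∃ K : ℝ, 1 ≤ K ∧
    ∀ (F : MvPolynomial σ ℝ) (h s : ℝ) (z : σ → ℝ), F.totalDegree ≤ D → 0 < h → h ≤ s →
      Psi F h z ≤ K * (|eval z F| + h / s * Psi F s z) := by
  obtain ⟨K₁, hK₁, H₁⟩ := exists_Psi_le_sup σ D
  obtain ⟨K₂, hK₂, H₂⟩ := psi_move σ D
  have hp2 : (1 : ℝ) ≤ 2 ^ D := one_le_pow₀ one_le_two
  refine ⟨K₁ * (K₁ + K₂ * 2 ^ D), one_le_mul_of_one_le_of_one_le hK₁ (by nlinarith), ?_⟩
  intro F h s z hF hh hhs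
  have hs : 0 < s := hh.trans_le hhs
  have hΨ : 0 ≤ Psi F s z := Psi_nonneg _ _ _
  have h0 : Psi F 0 z ≤ K₁ * |eval z F| := by
    refine H₁ F 0 z _ hF le_rfl fun y hy => ?_
    have : y = z := by
      funext i
      have h1 := hy i
      have h2 := abs_nonneg (y i - z i)
      have h3 : |y i - z i| = 0 := le_antisymm h1 h2
      rw [abs_eq_zero] at h3
      linarith
    rw [this]
  have h1 : Psi F h z ≤ K₁ * (K₁ * |eval z F| + K₂ * (h / s) * (2 ^ D * Psi F s z)) := by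
    refine H₁ F h z _ hF hh.le fun y hy => ?_
    refine (abs_eval_le_Psi F 0 y).trans ?_
    refine (H₂ F 0 h s z y hF le_rfl hs.le hh hhs hy).trans ?_
    refine add_le_add h0 (mul_le_mul_of_nonneg_left ?_ (by positivity))
    exact (Psi_le_of_near F s hs.le z y fun i => (hy i).trans hhs).trans
      (mul_le_mul_of_nonneg_right (pow_le_pow_right₀ one_le_two hF) hΨ)
  refine h1.trans ?_
  rw [mul_assoc K₁ (K₁ + K₂ * 2 ^ D)]
  refine mul_le_mul_of_nonneg_left ?_ (by linarith)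
  have h2 : 0 ≤ |eval z F| := abs_nonneg _
  have h3 : 0 ≤ h / s * Psi F s z := by positivity
  have h4 : 0 ≤ K₂ * 2 ^ D := by positivity
  have h5 : K₂ * (h / s) * (2 ^ D * Psi F s z) = (K₂ * 2 ^ D) * (h / s * Psi F s z) := by ring
  rw [h5]
  nlinarith [mul_nonneg h4 h2, mul_nonneg (by linarith : (0 : ℝ) ≤ K₁) h3]

/-- A polynomial on the doubled cube. -/
theorem cube_grow (d k : ℕ) : ∃ K : ℝ, 1 ≤ K ∧ ∀ (R : MvPolynomial (Fin d) ℝ) (B : ℝ),
    R.totalDegree ≤ k → (∀ u ∈ ucube d, |eval u R| ≤ B) →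
    ∀ u : Fin d → ℝ, (∀ i, |u i| ≤ 2) → |eval u R| ≤ K * B := by
  obtain ⟨K₁, hK₁, hgr⟩ := Pool.M3F.grow d k
  refine ⟨K₁ * (3 * 2) ^ k, one_le_mul_of_one_le_of_one_le hK₁
    (one_le_pow₀ (by norm_num)), ?_⟩
  intro R B hR hB u hu
  have hB0 : 0 ≤ B := (abs_nonneg _).trans (hB (fun _ => 0) fun _ => ⟨le_rfl, zero_le_one⟩)
  refine (hgr R 2 u hR (by norm_num) hu).trans ?_
  refine mul_le_mul_of_nonneg_left ?_ (by positivity)
  refine SML.cs_le _ hB0 ?_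
  intro v hv
  refine hB v fun i => ⟨(hv i).1, ?_⟩
  have := (hv i).2
  linarith

/-! ### The maximal jet size on a chart -/

/-- The maximal jet size. -/
noncomputable def mbs {d : ℕ} {σ : Type} [Fintype σ] (Φ : σ → MvPolynomial (Fin d) ℝ)
    (Q : MvPolynomial σ ℝ) (s : ℝ) : ℝ :=
  Psi Q s (cpt Φ (Classical.choose (exists_max Q s Φ)))

lemma le_mbs {d : ℕ} {σ : Type} [Fintype σ] (Φ : σ → MvPolynomial (Fin d) ℝ)
    (Q : MvPolynomial σ ℝ) (s : ℝ) {u : Fin d → ℝ} (hu : u ∈ ucube d) :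
    Psi Q s (cpt Φ u) ≤ mbs Φ Q s :=
  (Classical.choose_spec (exists_max Q s Φ)).2 u hu

lemma mbs_att {d : ℕ} {σ : Type} [Fintype σ] (Φ : σ → MvPolynomial (Fin d) ℝ)
    (Q : MvPolynomial σ ℝ) (s : ℝ) : ∃ u ∈ ucube d, mbs Φ Q s = Psi Q s (cpt Φ u) :=
  ⟨_, (Classical.choose_spec (exists_max Q s Φ)).1, rfl⟩

end Pool.CLO37
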