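import Pool.Agent.H37.CLO.Fr1
import Pool.Agent.H5.GEO.IncW

/-!
# The family form: the records of two windows
-/

set_option autoImplicit false

namespace Pool.CLO37

open Finset Real MvPolynomial
open Pool.Agent.H49.Ent Pool.Agent.H32.Dense Pool.STK Pool.KAF Pool.KAL Pool.KS3 Pool.M3F
open Pool.KJA Pool.KA Pool.K2S Pool.KSAT Pool.PB Pool.STAT Pool.GEN Pool.GEO Pool.IEN

variable {m J : ℕ} {F : Fam m J}

/-- **The records of the two windows**: the same weight `sg`, the digits `Pp`, the depth `q` of the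
cells. -/
structure RecW (F : Fam m J) (A : F.Ω → Prop) (r K kap W0 W1 Pp sg q : ℕ) (c₀ c₁ : ℕ → Fin m)
    (ρ : Equiv.Perm (Fin (r + 1))) (g0 g1 : ℕ → ℕ) (L : ℝ) {V0 V1 : Type} (z0 : PtT F → V0)
    (z0' : LnT F → V0) (P0 : V0 → ℕ → PN) (z1 : PtT F → V1) (z1' : LnT F → V1)
    (P1 : V1 → ℕ → PN) : Prop where
  n0 : NLabW F c₀ r W0 sg g0 K L A z0 z0' P0
  n1 : NLabW F c₁ r W1 sg g1 K L A z1 z1' P1
  pxe : ∀ (ξ : PtT F) (i : Fin (r + 1)), px c₁ ξ i = px c₀ ξ (ρ i)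
  cr : c₁ r = c₀ r
  L0 : 0 ≤ L
  W01 : W0 ≤ W1
  WP : W1 ≤ Pp
  PJ : Pp ≤ J
  g1P : Pp ≤ g1 r
  g0P : g0 r ≤ Pp
  wd1 : ∀ i < r + 1, W1 ≤ wid W1 g1 i + kap ∧ wid W1 g1 i ≤ Pp
  wd0 : ∀ i < r + 1, wid W0 g0 i + q ≤ Pp

/-- The numbers of steps of the small cells. -/
def n2w (r W0 Pp q : ℕ) (g0 : ℕ → ℕ) (i : Fin (r + 1)) : ℕ := 2 ^ (Pp - wid W0 g0 i - q)

/-- The cell of a point. -/
noncomputable def ciw {V0 : Type} (c₀ : ℕ → Fin m) (r W0 W1 Pp q : ℕ) (g0 : ℕ → ℕ)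
    (P0 : V0 → ℕ → PN) (z0 : PtT F → V0) (ξ : PtT F) : Fin (r + 1) → ℤ :=
  cidx (2 ^ (Pp - W1)) (n2w r W0 Pp q g0) (gsy r W1 (P0 (z0 ξ))) (yun c₀ r W1 ξ)

/-- The chart of a cell, in the order of the second window. -/
noncomputable def chiw {V0 : Type} (r W0 W1 Pp q : ℕ) (g0 : ℕ → ℕ) (ρ : Equiv.Perm (Fin (r + 1)))
    (P0 : V0 → ℕ → PN) (v : V0) (b : Fin (r + 1) → ℤ) (i : Fin (r + 1)) :
    MvPolynomial (Fin (r + 1)) ℝ :=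
  nchi (2 ^ (Pp - W1)) (n2w r W0 Pp q g0) (gsy r W1 (P0 v)) b (ρ i)

/-- The leaf of the target at the first window, in the order of the second window. -/
noncomputable def g0p {V0 : Type} (r W1 : ℕ) (ρ : Equiv.Perm (Fin (r + 1))) (P0 : V0 → ℕ → PN)
    (v : V0) : MvPolynomial (Fin (r + 1)) ℝ := rename ρ.symm (toF (r + 1) W1 (P0 v (r + 1)))

lemma eval_g0p {V0 : Type} {r W1 : ℕ} {ρ : Equiv.Perm (Fin (r + 1))} {P0 : V0 → ℕ → PN}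
    (v : V0) (y : Fin (r + 1) → ℝ) :
    eval y (g0p r W1 ρ P0 v) = eval (fun i => y (ρ.symm i)) (toF (r + 1) W1 (P0 v (r + 1))) := by
  unfold g0p
  rw [eval_rename]
  rfl

lemma n2w_pos (r W0 Pp q : ℕ) (g0 : ℕ → ℕ) (i : Fin (r + 1)) : 1 ≤ n2w r W0 Pp q g0 i :=
  Nat.one_le_two_pow

section rec

variable {A : F.Ω → Prop} {r K kap W0 W1 Pp sg q : ℕ} {c₀ c₁ : ℕ → Fin m}
  {ρ : Equiv.Perm (Fin (r + 1))} {g0 g1 : ℕ → ℕ} {L : ℝ} {V0 V1 : Type} {z0 : PtT F → V0}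
  {z0' : LnT F → V0} {P0 : V0 → ℕ → PN} {z1 : PtT F → V1} {z1' : LnT F → V1} {P1 : V1 → ℕ → PN}

lemma bse_zsw (c : ℕ → Fin m) (r W sg : ℕ) (ξ : PtT F) : bse (zsw c r W sg ξ) = yun c r W ξ := rfl

lemma two_div {a b : ℕ} (h : b ≤ a) : ((2 ^ (a - b) : ℕ) : ℝ) = 2 ^ a / 2 ^ b := by
  push_cast
  exact two_pow_sub h

/-- The width of the cells. -/
lemma n2w_div (hW : W1 ≤ Pp) {i : Fin (r + 1)} (h : wid W0 g0 i + q ≤ Pp) :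
    (n2w r W0 Pp q g0 i : ℝ) / ((2 ^ (Pp - W1) : ℕ) : ℝ) = 2 ^ W1 / 2 ^ wid W0 g0 i / 2 ^ q := by
  unfold n2w
  rw [Nat.sub_sub, two_div h, two_div hW, pow_add]
  have h1 : (0 : ℝ) < 2 ^ Pp := by positivity
  field_simp

lemma RecW.yun1 (H : RecW F A r K kap W0 W1 Pp sg q c₀ c₁ ρ g0 g1 L z0 z0' P0 z1 z1' P1)
    (U : ℕ) (ξ : PtT F) (i : Fin (r + 1)) : yun c₁ r U ξ i = yun c₀ r U ξ (ρ i) := by
  unfold yun
  rw [H.pxe]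

lemma RecW.yun0 (H : RecW F A r K kap W0 W1 Pp sg q c₀ c₁ ρ g0 g1 L z0 z0' P0 z1 z1' P1)
    (U : ℕ) (ξ : PtT F) : (fun i => yun c₁ r U ξ (ρ.symm i)) = yun c₀ r U ξ := by
  funext i
  rw [H.yun1, Equiv.apply_symm_apply]

/-- The point is in its cell. -/
lemma RecW.own (H : RecW F A r K kap W0 W1 Pp sg q c₀ c₁ ρ g0 g1 L z0 z0' P0 z1 z1' P1)
    (ω : F.Ω) : ∃ u ∈ ucube (r + 1),
      cpt (chiw r W0 W1 Pp q g0 ρ P0 (z0 (ptr F J ω)) (ciw c₀ r W0 W1 Pp q g0 P0 z0 (ptr F J ω)))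
        u = yun c₁ r W1 (ptr F J ω) := by
  have h1 : yun c₀ r W1 (ptr F J ω) ∈ ncell (2 ^ (Pp - W1)) (n2w r W0 Pp q g0)
      (gsy r W1 (P0 (z0 (ptr F J ω)))) (ciw c₀ r W0 W1 Pp q g0 P0 z0 (ptr F J ω)) :=
    mem_cidx Nat.one_le_two_pow (n2w_pos r W0 Pp q g0) _
  refine ⟨_, rpos_mem Nat.one_le_two_pow (n2w_pos r W0 Pp q g0) h1, ?_⟩
  have h2 := nchi_rpos (b := ciw c₀ r W0 W1 Pp q g0 P0 z0 (ptr F J ω))
    (M := 2 ^ (Pp - W1)) Nat.one_le_two_pow (n2w_pos r W0 Pp q g0)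
    (gsy_tri (k := r) (W := W1) (H.n0.tri (z0 (ptr F J ω)))) (yun c₀ r W1 (ptr F J ω))
  funext i
  rw [H.yun1]
  exact congrFun h2 (ρ i)

/-- The numbers of the cells. -/
lemma RecW.card (H : RecW F A r K kap W0 W1 Pp sg q c₀ c₁ ρ g0 g1 L z0 z0' P0 z1 z1' P1)
    (hWJ : W0 ≤ J) (v : V0) : ∃ S : Finset (Fin (r + 1) → ℤ),
      S.card ≤ (2 ^ (q + 1) + 3) ^ (r + 1) ∧
      ∀ ω, A ω → z0 (ptr F J ω) = v → ciw c₀ r W0 W1 Pp q g0 P0 z0 (ptr F J ω) ∈ S := by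
  refine ⟨cbox (2 ^ (Pp - W1)) (n2w r W0 Pp q g0) (acs r W1 (P0 v))
    (fun i => 2 ^ W1 / 2 ^ wid W0 g0 i), ?_, ?_⟩
  · refine card_cbox Nat.one_le_two_pow (n2w_pos r W0 Pp q g0) fun i => ?_
    have h1 := n2w_div (r := r) (g0 := g0) (q := q) H.WP (H.wd0 i i.2)
    have hM : (0 : ℝ) < ((2 ^ (Pp - W1) : ℕ) : ℝ) := by positivity
    have hn : (0 : ℝ) < n2w r W0 Pp q g0 i := by exact_mod_cast n2w_pos r W0 Pp q g0 i
    have h2 : ((2 ^ (Pp - W1) : ℕ) : ℝ) * (2 ^ W1 / 2 ^ wid W0 g0 i) / n2w r W0 Pp q g0 i =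
        2 ^ q := by
      rw [div_eq_iff hM.ne'] at h1
      rw [h1]
      field_simp
    rw [h2]
    push_cast
    rw [pow_succ]
    linarith
  · intro ω hω hz
    unfold ciw
    refine mem_cbox Nat.one_le_two_pow (n2w_pos r W0 Pp q g0) fun i => ?_
    have h1 := pos_u H.n0 hWJ hω W1 i
    rw [hz] at h1 ⊢
    refine le_trans (le_of_eq ?_) h1
    congr 1
    refine Fin.cases ?_ (fun j => ?_) i
    · rw [gsy_zero, map_zero, sub_zero]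
      unfold acs
      rw [if_pos (show ((0 : Fin (r + 1)) : ℕ) = 0 from rfl), eval_toF]
      have h2 := H.n0.zero ω hω
      rw [hz] at h2
      have h3 : P0 v ((0 : Fin (r + 1)) : ℕ) = C ((F.T1 W0 ω : ℝ) / 2 ^ W0) := h2
      rw [h2, h3, eval_C, eval_C]
    · rw [gsy_succ]
      unfold acs
      have h5 : ¬ ((Fin.succ j : Fin (r + 1)) : ℕ) = 0 := Nat.succ_ne_zero j
      rw [if_neg h5, sub_zero]
      rfl

end rec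

end Pool.CLO37
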