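import Pool.Agent.H37.CLO.Fr2
import Pool.Agent.H86.GEO.Seg

/-!
# The family form: the two leaves of the target
-/

set_option autoImplicit false

namespace Pool.CLO37

open Finset Real MvPolynomial
open Pool.Agent.H49.Ent Pool.Agent.H32.Dense Pool.STK Pool.KAF Pool.KAL Pool.KS3 Pool.M3F
open Pool.KJA Pool.KA Pool.K2S Pool.KSAT Pool.PB Pool.STAT Pool.GEN Pool.GEO Pool.IEN Pool.EXS

variable {m J : ℕ} {F : Fam m J}

section rec

variable {A : F.Ω → Prop} {r K kap W0 W1 Pp sg q : ℕ} {c₀ c₁ : ℕ → Fin m}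
  {ρ : Equiv.Perm (Fin (r + 1))} {g0 g1 : ℕ → ℕ} {L : ℝ} {V0 V1 : Type} {z0 : PtT F → V0}
  {z0' : LnT F → V0} {P0 : V0 → ℕ → PN} {z1 : PtT F → V1} {z1' : LnT F → V1} {P1 : V1 → ℕ → PN}

/-- The value of the target on a leaf. -/
lemma leaf_val {c : ℕ → Fin m} {W : ℕ} {g : ℕ → ℕ} {B : F.Ω → Prop} {V : Type} {z : PtT F → V}
    {z' : LnT F → V} {P : V → ℕ → PN} (hN : NLabW F c r W sg g K L B z z' P)
    {ω : F.Ω} (hω : B ω) (U : ℕ) :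
    |2 ^ U * (px c (ptr F J ω) (r + 1) / 2 ^ sg) -
      eval (yun c r U (ptr F J ω)) (toF (r + 1) U (P (z (ptr F J ω)) (r + 1)))| ≤
      2 ^ U / 2 ^ g r + 2 ^ U / 2 ^ J := by
  have hU : (0 : ℝ) < 2 ^ U := by positivity
  rw [eval_yun c r U _ le_rfl (hN.tri _ (r + 1)), ← mul_sub, abs_mul, abs_of_pos hU]
  have h1 := mul_le_mul_of_nonneg_left (hN.posN ω hω) hU.le
  refine h1.trans (le_of_eq ?_)
  ring

/-- The value of the leaf near the sample. -/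
lemma leaf_mv {c : ℕ → Fin m} {W : ℕ} {g : ℕ → ℕ} {B : F.Ω → Prop} {V : Type} {z : PtT F → V}
    {z' : LnT F → V} {P : V → ℕ → PN} (hN : NLabW F c r W sg g K L B z z' P) (hL : 0 ≤ L)
    (hWJ : W ≤ J) {ω : F.Ω} (hω : B ω) {U : ℕ} {ε : ℝ} (hε : 0 ≤ ε)
    (hw : ∀ i < r + 1, (1 + ((r + 1 : ℕ) : ℝ) * L) * ε ≤ 2 ^ U / 2 ^ wid W g i)
    {y : Fin (r + 1) → ℝ} (hy : ∀ i, |y i - yun c r U (ptr F J ω) i| ≤ ε) :
    |eval y (toF (r + 1) U (P (z (ptr F J ω)) (r + 1))) -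
      eval (yun c r U (ptr F J ω)) (toF (r + 1) U (P (z (ptr F J ω)) (r + 1)))| ≤
      ((r + 1 : ℕ) : ℝ) * L * ε := by
  refine seg_val (G := fun i : Fin (r + 1) => toF (r + 1) U (P (z (ptr F J ω)) i))
    (triP_toF (hN.tri _)) (w := fun i : Fin (r + 1) => 2 ^ U / 2 ^ wid W g i) hL hε
    (fun i => by positivity) (fun i => hw i i.2) ?_ hL ?_ (fun i => pos_u hN hWJ hω U i) hy
  · intro y' hy' i l
    refine grad_u hN hL hω (fun j => ?_) i.2.le l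
    have h1 := hy' j
    have h2 : (0 : ℝ) < 2 ^ U / 2 ^ wid W g j := by positivity
    linarith
  · intro y' hy' l
    refine grad_u hN hL hω (fun j => ?_) le_rfl l
    have h1 := hy' j
    have h2 : (0 : ℝ) < 2 ^ U / 2 ^ wid W g j := by positivity
    linarith

/-- The natural coordinates near the sample. -/
lemma leaf_cov {c : ℕ → Fin m} {W : ℕ} {g : ℕ → ℕ} {B : F.Ω → Prop} {V : Type} {z : PtT F → V}
    {z' : LnT F → V} {P : V → ℕ → PN} (hN : NLabW F c r W sg g K L B z z' P) (hL : 0 ≤ L)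
    (hWJ : W ≤ J) {ω : F.Ω} (hω : B ω) {U : ℕ} {ε : ℝ} (hε : 0 ≤ ε)
    (hw : ∀ i < r + 1, (1 + ((r + 1 : ℕ) : ℝ) * L) * ε ≤ 2 ^ U / 2 ^ wid W g i)
    {y : Fin (r + 1) → ℝ} (hy : ∀ i, |y i - yun c r U (ptr F J ω) i| ≤ ε) (i : Fin (r + 1)) :
    |(y i - eval y (gsy r U (P (z (ptr F J ω))) i)) -
      (yun c r U (ptr F J ω) i - eval (yun c r U (ptr F J ω))
        (gsy r U (P (z (ptr F J ω))) i))| ≤ (1 + ((r + 1 : ℕ) : ℝ) * L) * ε := by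
  have h1 := (seg_box (G := fun i : Fin (r + 1) => toF (r + 1) U (P (z (ptr F J ω)) i))
    (triP_toF (hN.tri _)) (w := fun i : Fin (r + 1) => 2 ^ U / 2 ^ wid W g i) hL hε
    (fun i => by positivity) (fun i => hw i i.2) (by
      intro y' hy' i l
      refine grad_u hN hL hω (fun j => ?_) i.2.le l
      have h1 := hy' j
      have h2 : (0 : ℝ) < 2 ^ U / 2 ^ wid W g j := by positivity
      linarith) (fun i => pos_u hN hWJ hω U i) hy i).1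
  refine le_trans (le_of_eq ?_) h1
  congr 1
  refine Fin.cases ?_ (fun j => ?_) i
  · have h3 : P (z (ptr F J ω)) ((0 : Fin (r + 1)) : ℕ) = C ((F.T1 W ω : ℝ) / 2 ^ W) :=
      hN.zero ω hω
    rw [gsy_zero, map_zero, map_zero, h3, eval_toF, eval_toF, eval_C, eval_C]
    ring
  · rw [gsy_succ]
    rfl

/-- The difference of the leaves. -/
noncomputable def dfp (r W1 : ℕ) (ρ : Equiv.Perm (Fin (r + 1))) (P0 : V0 → ℕ → PN)
    (P1 : V1 → ℕ → PN) (v : V1 × V0) : MvPolynomial (Fin (r + 1)) ℝ :=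
  toF (r + 1) W1 (P1 v.1 (r + 1)) - g0p r W1 ρ P0 v.2

lemma deg_g0p {v : V0} (h : (P0 v (r + 1)).totalDegree ≤ K) :
    (g0p r W1 ρ P0 v).totalDegree ≤ K :=
  (totalDegree_rename_le _ _).trans ((deg_toF _).trans h)

lemma deg_dfp {v : V1 × V0} (h0 : (P0 v.2 (r + 1)).totalDegree ≤ K)
    (h1 : (P1 v.1 (r + 1)).totalDegree ≤ K) : (dfp r W1 ρ P0 P1 v).totalDegree ≤ K :=
  (totalDegree_sub _ _).trans (max_le ((deg_toF _).trans h1) (deg_g0p h0))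

/-- The difference of the leaves near the sample. -/
lemma RecW.dfp_own (H : RecW F A r K kap W0 W1 Pp sg q c₀ c₁ ρ g0 g1 L z0 z0' P0 z1 z1' P1)
    {ω : F.Ω} (hω : A ω) {ε : ℝ} (hε : 0 ≤ ε)
    (hw0 : ∀ i < r + 1, (1 + ((r + 1 : ℕ) : ℝ) * L) * ε ≤ 2 ^ W1 / 2 ^ wid W0 g0 i)
    (hw1 : ∀ i < r + 1, (1 + ((r + 1 : ℕ) : ℝ) * L) * ε ≤ 2 ^ W1 / 2 ^ wid W1 g1 i)
    {y : Fin (r + 1) → ℝ} (hy : ∀ i, |y i - yun c₁ r W1 (ptr F J ω) i| ≤ ε) :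
    |eval y (dfp r W1 ρ P0 P1 (z1 (ptr F J ω), z0 (ptr F J ω)))| ≤
      2 * (((r + 1 : ℕ) : ℝ) * L * ε) + 4 * (2 ^ W1 / 2 ^ g0 r) := by
  have hy0 : ∀ i, |(fun i => y (ρ.symm i)) i - yun c₀ r W1 (ptr F J ω) i| ≤ ε := by
    intro i
    have h1 := hy (ρ.symm i)
    rw [H.yun1, Equiv.apply_symm_apply] at h1
    exact h1
  have hW1 : W1 ≤ J := H.WP.trans H.PJ
  have a1 := leaf_mv H.n1 H.L0 hW1 hω hε hw1 hy
  have a0 := leaf_mv H.n0 H.L0 (H.W01.trans hW1) hω hε hw0 hy0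
  have b1 := leaf_val H.n1 hω W1
  have b0 := leaf_val H.n0 hω W1
  have e1 : px c₁ (ptr F J ω) (r + 1) = px c₀ (ptr F J ω) (r + 1) := by
    rw [px_succ, px_succ, H.cr]
  rw [e1] at b1
  have hU : (0 : ℝ) ≤ 2 ^ W1 := by positivity
  have hg : ∀ n : ℕ, g0 r ≤ n → (2 : ℝ) ^ W1 / 2 ^ n ≤ 2 ^ W1 / 2 ^ g0 r := fun n hn =>
    div_le_div_of_nonneg_left hU (by positivity) (pow_le_pow_right₀ one_le_two hn)
  have c1 := hg (g1 r) (H.g0P.trans H.g1P)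
  have c2 := hg J (H.g0P.trans H.PJ)
  unfold dfp
  rw [map_sub, eval_g0p]
  rw [abs_le] at a1 a0 b1 b0 ⊢
  constructor <;> linarith [a1.1, a1.2, a0.1, a0.2, b1.1, b1.2, b0.1, b0.2]

end rec

end Pool.CLO37
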