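import Pool.Agent.H37.CLO.Fr3

/-!
# The family form: the geometry of the records
-/

set_option autoImplicit false

namespace Pool.CLO37

open Finset Real MvPolynomial
open Pool.Agent.H49.Ent Pool.Agent.H32.Dense Pool.STK Pool.KAF Pool.KAL Pool.KS3 Pool.M3F
open Pool.KJA Pool.KA Pool.K2S Pool.KSAT Pool.PB Pool.STAT Pool.GEN Pool.GEO Pool.IEN

variable {m J : ℕ} {F : Fam m J}

/-- The good samples. -/
structure GdW (F : Fam m J) (r W0 W1 Pp sg q : ℕ) (c₀ c₁ : ℕ → Fin m)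
    (ρ : Equiv.Perm (Fin (r + 1))) (g0 g1 : ℕ → ℕ) {V0 V1 : Type} (z0 : PtT F → V0)
    (P0 : V0 → ℕ → PN) (z1 : PtT F → V1) (P1 : V1 → ℕ → PN)
    (Qh : V1 → MvPolynomial (Option (Fin (r + 1))) ℝ) (h₀ s₀ H₁ h₂ S κ : ℝ) (ω : F.Ω) : Prop where
  inb : InB F c₀ r W1 Pp (wid W0 g0) g1 ρ (gsy r W1 (P0 (z0 (ptr F J ω))))
    (acs r W1 (P0 (z0 (ptr F J ω)))) (P1 (z1 (ptr F J ω))) S κ (1 / 2 ^ q) ω
  low : ∀ u ∈ ucube (r + 1), Psi (Qh (z1 (ptr F J ω))) s₀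
    (cpt (chw (r + 1) W1 Pp g1 (P1 (z1 (ptr F J ω)))) u) ≤
      H₁ * Psi (Qh (z1 (ptr F J ω))) s₀ (zsw c₁ r W1 sg (ptr F J ω))
  spr : ∀ u ∈ ucube (r + 1),
    Psi (rename some (dfp r W1 ρ P0 P1 (z1 (ptr F J ω), z0 (ptr F J ω)))) h₀
      (cpt (chw (r + 1) W1 Pp g1 (P1 (z1 (ptr F J ω)))) u) ≤
      Real.exp h₂ * Psi (rename some (dfp r W1 ρ P0 P1 (z1 (ptr F J ω), z0 (ptr F J ω)))) h₀
        (zsw c₁ r W1 sg (ptr F J ω))

lemma eval_ren_some {d : ℕ} (R : MvPolynomial (Fin d) ℝ) (z : Option (Fin d) → ℝ) :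
    eval z (rename some R) = eval (bse z) R := by
  rw [eval_rename]
  rfl

theorem geo_w (r D K : ℕ) : ∃ C : ℝ, 2 ≤ C ∧ ∀ {m J : ℕ} {F : Fam m J} {A : F.Ω → Prop}
    {kap W0 W1 Pp sg q : ℕ} {c₀ c₁ : ℕ → Fin m} {ρ : Equiv.Perm (Fin (r + 1))} {g0 g1 : ℕ → ℕ}
    {L : ℝ} {V0 V1 : Type} {z0 : PtT F → V0} {z0' : LnT F → V0} {P0 : V0 → ℕ → PN}
    {z1 : PtT F → V1} {z1' : LnT F → V1} {P1 : V1 → ℕ → PN}
    (Qh : V1 → MvPolynomial (Option (Fin (r + 1))) ℝ) (ρq s₀ H₁ h₂ S κ : ℝ),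
    RecW F A r K kap W0 W1 Pp sg q c₀ c₁ ρ g0 g1 L z0 z0' P0 z1 z1' P1 →
    (∀ v, (Qh v).totalDegree ≤ D) →
    (∀ ω, A ω → CsQ r D W1 Pp g1 (P1 (z1 (ptr F J ω))) (Qh (z1 (ptr F J ω))) ρq) → 0 ≤ ρq →
    0 < h₂ →
    clC r kap L / ((2 ^ (Pp - W1) : ℕ) : ℝ) ≤ s₀ →
    s₀ ≤ 2 ^ W1 / 2 ^ g0 r →
    (∀ i < r + 1, (1 + ((r + 1 : ℕ) : ℝ) * L) * s₀ ≤ 2 ^ W1 / 2 ^ wid W0 g0 i / 2 ^ q) →
    (∀ i < r + 1, (1 + ((r + 1 : ℕ) : ℝ) * L) * (clC r kap L / ((2 ^ (Pp - W1) : ℕ) : ℝ)) ≤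
      2 ^ W1 / 2 ^ wid W1 g1 i) →
    GeoOK (Pool.Agent.H49.Ent.cond F.p A True) (slam F W0) (K2S.Fam.pt F) (zsw c₁ r W1 sg)
      (fun ξ => (z1 ξ, z0 ξ)) (fun v : V1 × V0 => chw (r + 1) W1 Pp g1 (P1 v.1))
      (clC r kap L / ((2 ^ (Pp - W1) : ℕ) : ℝ)) z0 z0' Prod.snd
      (ciw c₀ r W0 W1 Pp q g0 P0 z0) (chiw r W0 W1 Pp q g0 ρ P0)
      (fun v : V1 × V0 => toF (r + 1) W1 (P1 v.1 (r + 1))) (fun v => Qh v.1)
      (fun v => mbs (chw (r + 1) W1 Pp g1 (P1 v.1)) (Qh v.1) s₀)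
      (fun v y => eval y (g0p r W1 ρ P0 v))
      (GdW F r W0 W1 Pp sg q c₀ c₁ ρ g0 g1 z0 P0 z1 P1 Qh
        (clC r kap L / ((2 ^ (Pp - W1) : ℕ) : ℝ)) s₀ H₁ h₂ S κ)
      ((K + 1) ^ (r + 1)) D ((2 ^ (q + 1) + 3) ^ (r + 1)) s₀
      (C * Real.exp h₂ * (1 + L) * (2 ^ W1 / 2 ^ g0 r))
      (C * (ρq + clC r kap L / ((2 ^ (Pp - W1) : ℕ) : ℝ)) / s₀) H₁ := by
  classical
  obtain ⟨Kp, hKp, Hp⟩ := exists_Psi_le_sup (Option (Fin (r + 1))) K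
  obtain ⟨Kg, hKg, Hg⟩ := cube_grow (r + 1) ((K + 1) ^ (r + 1) * K)
  obtain ⟨Kt, hKt, Ht⟩ := psi_two (Option (Fin (r + 1))) D
  obtain ⟨d, hd⟩ : ∃ d : ℝ, d = ((r + 1 : ℕ) : ℝ) := ⟨_, rfl⟩
  have hd1 : 1 ≤ d := by
    rw [hd]
    exact_mod_cast Nat.succ_le_succ (Nat.zero_le r)
  have hD0 : (0 : ℝ) ≤ D := Nat.cast_nonneg D
  obtain ⟨C, hC⟩ : ∃ C : ℝ, C = 4 * (2 * Kg * (Kp * (2 * d + 4)) + d) + Kt * (D + 1) := ⟨_, rfl⟩
  have hX : 0 ≤ Kg * (Kp * (2 * d + 4)) := by positivity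
  have hY : 1 ≤ Kt * (D + 1) := one_le_mul_of_one_le_of_one_le hKt (by linarith)
  refine ⟨C, by rw [hC]; nlinarith, ?_⟩
  intro m J F A kap W0 W1 Pp sg q c₀ c₁ ρ g0 g1 L V0 V1 z0 z0' P0 z1 z1' P1 Qh ρq s₀ H₁ h₂ S κ
    H hQd hQ hρq hh₂ hhs hsu hsw hhw1
  obtain ⟨p, hp⟩ : ∃ p, p = Pool.Agent.H49.Ent.cond F.p A True := ⟨_, rfl⟩
  obtain ⟨M, hM⟩ : ∃ M : ℝ, M = ((2 ^ (Pp - W1) : ℕ) : ℝ) := ⟨_, rfl⟩
  obtain ⟨h₀, hh₀⟩ : ∃ h₀ : ℝ, h₀ = clC r kap L / M := ⟨_, rfl⟩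
  obtain ⟨u₀, hu₀⟩ : ∃ u₀ : ℝ, u₀ = 2 ^ W1 / 2 ^ g0 r := ⟨_, rfl⟩
  rw [← hp, ← hM, ← hh₀, ← hu₀]
  rw [← hM, ← hh₀] at hhs hhw1
  rw [← hu₀] at hsu
  have hpA : ∀ ω, 0 < p ω → A ω := fun ω hω => cond_supp (by rw [← hp]; exact hω)
  have hM0 : 0 < M := by
    rw [hM]
    positivity
  have hC₀ : 2 ≤ clC r kap L := clC_ge H.L0
  have hh₀0 : 0 < h₀ := by
    rw [hh₀]
    positivity
  have hs₀ : 0 < s₀ := hh₀0.trans_le hhs
  have hu₀0 : 0 < u₀ := by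
    rw [hu₀]
    positivity
  have hL0 := H.L0
  have hdL : 1 ≤ 1 + d * L := by
    have : 0 ≤ d * L := by positivity
    linarith
  have hsw0 : ∀ i < r + 1, (1 + ((r + 1 : ℕ) : ℝ) * L) * s₀ ≤ 2 ^ W1 / 2 ^ wid W0 g0 i := by
    intro i hi
    refine (hsw i hi).trans (div_le_self (by positivity) (one_le_pow₀ one_le_two))
  have hhw0 : ∀ i < r + 1, (1 + ((r + 1 : ℕ) : ℝ) * L) * h₀ ≤ 2 ^ W1 / 2 ^ wid W0 g0 i := by
    intro i hi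
    refine le_trans ?_ (hsw0 i hi)
    rw [← hd]
    exact mul_le_mul_of_nonneg_left hhs (by linarith)
  have hW1J : W1 ≤ J := H.WP.trans H.PJ
  have hW0J : W0 ≤ J := H.W01.trans hW1J
  have hexp1 : 1 ≤ Real.exp h₂ := Real.one_le_exp hh₂.le
  have hKle : K ≤ (K + 1) ^ (r + 1) := by
    refine (Nat.le_succ K).trans ?_
    exact Nat.le_self_pow (Nat.succ_ne_zero r) (K + 1)
  have hbse : ∀ ω, bse (zsw c₁ r W1 sg (K2S.Fam.pt F ω)) = yun c₁ r W1 (ptr F J ω) := fun ω => rfl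
  -- the cell is in the own box
  have hins : ∀ ω, GdW F r W0 W1 Pp sg q c₀ c₁ ρ g0 g1 z0 P0 z1 P1 Qh h₀ s₀ H₁ h₂ S κ ω →
      ∀ u ∈ ucube (r + 1), ∃ u' ∈ ucube (r + 1), cbw (r + 1) W1 Pp g1 (P1 (z1 (ptr F J ω))) u' =
        cpt (chiw r W0 W1 Pp q g0 ρ P0 (z0 (ptr F J ω))
          (ciw c₀ r W0 W1 Pp q g0 P0 z0 (ptr F J ω))) u := by
    intro ω hgd u hu
    have h1 : yun c₀ r W1 (ptr F J ω) ∈ ncell (2 ^ (Pp - W1)) (n2w r W0 Pp q g0)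
        (gsy r W1 (P0 (z0 (ptr F J ω)))) (ciw c₀ r W0 W1 Pp q g0 P0 z0 (ptr F J ω)) :=
      mem_cidx Nat.one_le_two_pow (n2w_pos r W0 Pp q g0) _
    have h2 := nchi_mem (b := ciw c₀ r W0 W1 Pp q g0 P0 z0 (ptr F J ω))
      (M := 2 ^ (Pp - W1)) Nat.one_le_two_pow (n2w_pos r W0 Pp q g0)
      (gsy_tri (k := r) (W := W1) (H.n0.tri (z0 (ptr F J ω)))) hu
    obtain ⟨u', hu', h3, -⟩ := hgd.inb.inc (yun c₀ r W1 (ptr F J ω)) (n2w r W0 Pp q g0)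
      (ciw c₀ r W0 W1 Pp q g0 P0 z0 (ptr F J ω)) (fun i => by
        unfold yun
        rw [sub_self, abs_zero]
        positivity) (fun i => by
        unfold n2w
        have h4 := H.wd0 i i.2
        rw [two_div (by omega), one_div, mul_comm, ← div_eq_mul_inv]
        push_cast
        exact le_rfl) h1 _ h2
    refine ⟨u', hu', ?_⟩
    rw [h3]
    rfl
  -- the difference of the leaves on the cell
  have hdeg : ∀ ω, (dfp r W1 ρ P0 P1 (z1 (ptr F J ω), z0 (ptr F J ω))).totalDegree ≤ K :=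
    fun ω => deg_dfp (H.n0.deg _ _) (H.n1.deg _ _)
  obtain ⟨B, hB⟩ : ∃ B : ℝ, B = Real.exp h₂ * (Kp * (2 * d + 4)) * ((1 + L) * u₀) := ⟨_, rfl⟩
  have hdf : ∀ ω, 0 < p ω → GdW F r W0 W1 Pp sg q c₀ c₁ ρ g0 g1 z0 P0 z1 P1 Qh h₀ s₀ H₁ h₂ S κ ω →
      ∀ u ∈ ucube (r + 1), |eval (cpt (chiw r W0 W1 Pp q g0 ρ P0 (z0 (ptr F J ω))
        (ciw c₀ r W0 W1 Pp q g0 P0 z0 (ptr F J ω))) u)
        (dfp r W1 ρ P0 P1 (z1 (ptr F J ω), z0 (ptr F J ω)))| ≤ B := by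
    intro ω hω hgd u hu
    obtain ⟨R, hR⟩ : ∃ R, R = dfp r W1 ρ P0 P1 (z1 (ptr F J ω), z0 (ptr F J ω)) := ⟨_, rfl⟩
    obtain ⟨u', hu', h1⟩ := hins ω hgd u hu
    have h2 := hgd.spr u' hu'
    rw [cpt_chw (H.n1.tri _), h1, ← hR] at h2
    obtain ⟨y, hy⟩ : ∃ y, y = cpt (chiw r W0 W1 Pp q g0 ρ P0 (z0 (ptr F J ω))
      (ciw c₀ r W0 W1 Pp q g0 P0 z0 (ptr F J ω))) u := ⟨_, rfl⟩
    rw [← hR, ← hy]
    rw [← hy] at h2
    have h3 := abs_eval_le_Psi (rename some R) h₀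
      (lpt (toF (r + 1) W1 (P1 (z1 (ptr F J ω)) (r + 1))) y)
    rw [eval_ren_some] at h3
    have h4 : bse (lpt (toF (r + 1) W1 (P1 (z1 (ptr F J ω)) (r + 1))) y) = y := rfl
    rw [h4] at h3
    have h5 : Psi (rename some R) h₀ (zsw c₁ r W1 sg (ptr F J ω)) ≤
        Kp * (2 * (d * L * h₀) + 4 * u₀) := by
      refine Hp _ _ _ _ ((totalDegree_rename_le _ _).trans (by rw [hR]; exact hdeg ω)) hh₀0.le
        fun y hy => ?_
      rw [eval_ren_some, hR, hd, hu₀]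
      exact H.dfp_own (hpA ω hω) hh₀0.le hhw0 hhw1 fun i => hy (some i)
    have h6 : 2 * (d * L * h₀) + 4 * u₀ ≤ (2 * d + 4) * ((1 + L) * u₀) := by
      have h7 : d * L * h₀ ≤ d * L * u₀ :=
        mul_le_mul_of_nonneg_left (hhs.trans hsu) (by positivity)
      have h8 : 0 ≤ L * u₀ := by positivity
      have h9 : 0 ≤ d * u₀ := by positivity
      nlinarith
    rw [hB]
    have h7 : Real.exp h₂ * Psi (rename some R) h₀ (zsw c₁ r W1 sg (ptr F J ω)) ≤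
        Real.exp h₂ * (Kp * ((2 * d + 4) * ((1 + L) * u₀))) := by
      refine mul_le_mul_of_nonneg_left (h5.trans ?_) (by positivity)
      exact mul_le_mul_of_nonneg_left h6 (by linarith)
    refine (h3.trans (h2.trans h7)).trans (le_of_eq ?_)
    ring
  have hB0 : 0 ≤ B := by
    rw [hB]
    positivity
  -- the same on the enlarged cell
  have hdf2 : ∀ ω, 0 < p ω →
      GdW F r W0 W1 Pp sg q c₀ c₁ ρ g0 g1 z0 P0 z1 P1 Qh h₀ s₀ H₁ h₂ S κ ω →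
      ∀ u : Fin (r + 1) → ℝ, (∀ i, |u i| ≤ 2) →
        |eval (cpt (chiw r W0 W1 Pp q g0 ρ P0 (z0 (ptr F J ω))
        (ciw c₀ r W0 W1 Pp q g0 P0 z0 (ptr F J ω))) u)
        (dfp r W1 ρ P0 P1 (z1 (ptr F J ω), z0 (ptr F J ω)))| ≤ Kg * B := by
    intro ω hω hgd u hu
    have h1 := Hg (bind₁ (chiw r W0 W1 Pp q g0 ρ P0 (z0 (ptr F J ω))
      (ciw c₀ r W0 W1 Pp q g0 P0 z0 (ptr F J ω)))
        (dfp r W1 ρ P0 P1 (z1 (ptr F J ω), z0 (ptr F J ω)))) B (by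
          refine (SML.totalDegree_bind_le _ ((K + 1) ^ (r + 1)) (fun i => ?_) _).trans
            (Nat.mul_le_mul_left _ (hdeg ω))
          exact deg_nchi (fun i => gsy_deg (H.n0.deg _) i) _ _) (fun u hu => by
          rw [Pool.M3F.eval_bind]
          exact hdf ω hω hgd u hu) u hu
    rw [Pool.M3F.eval_bind] at h1
    exact h1
  have hCB : 2 * Kg * B + d * L * s₀ ≤ C * Real.exp h₂ * (1 + L) * u₀ / 4 := by
    have h1 : d * L * s₀ ≤ d * (Real.exp h₂ * ((1 + L) * u₀)) := by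
      have h2 : L * s₀ ≤ (1 + L) * u₀ := by nlinarith
      have h3 : 0 ≤ (1 + L) * u₀ := by positivity
      have h4 : (1 + L) * u₀ ≤ Real.exp h₂ * ((1 + L) * u₀) := by nlinarith
      rw [mul_assoc]
      exact mul_le_mul_of_nonneg_left (h2.trans h4) (by linarith)
    have h5 : 0 ≤ Kt * (D + 1) * (Real.exp h₂ * ((1 + L) * u₀)) := by positivity
    rw [hB, hC]
    nlinarith
  -- the enlarged cell contains the neighbourhood of the sample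
  have hcov : ∀ ω, 0 < p ω → ∀ y : Fin (r + 1) → ℝ,
      (∀ i, |y i - yun c₁ r W1 (ptr F J ω) i| ≤ s₀) → ∃ u : Fin (r + 1) → ℝ, (∀ i, |u i| ≤ 2) ∧
        cpt (chiw r W0 W1 Pp q g0 ρ P0 (z0 (ptr F J ω))
          (ciw c₀ r W0 W1 Pp q g0 P0 z0 (ptr F J ω))) u = y := by
    intro ω hω y hy
    have hy0 : ∀ i, |(fun i => y (ρ.symm i)) i - yun c₀ r W1 (ptr F J ω) i| ≤ s₀ := by
      intro i
      have h1 := hy (ρ.symm i)
      rw [H.yun1, Equiv.apply_symm_apply] at h1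
      exact h1
    obtain ⟨u, hu, h1⟩ := cov_nchi (M := 2 ^ (Pp - W1)) (N := n2w r W0 Pp q g0)
      (G := gsy r W1 (P0 (z0 (ptr F J ω)))) (y := yun c₀ r W1 (ptr F J ω))
      (y' := fun i => y (ρ.symm i)) (b := ciw c₀ r W0 W1 Pp q g0 P0 z0 (ptr F J ω))
      Nat.one_le_two_pow (n2w_pos r W0 Pp q g0) (gsy_tri (H.n0.tri _))
      (mem_cidx Nat.one_le_two_pow (n2w_pos r W0 Pp q g0) _) (fun i => by
        refine (leaf_cov H.n0 hL0 hW0J (hpA ω hω) hs₀.le hsw0 hy0 i).trans ?_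
        rw [n2w_div H.WP (H.wd0 i i.2)]
        exact hsw i i.2)
    refine ⟨u, hu, ?_⟩
    funext i
    have h2 := congrFun h1 (ρ i)
    simp only [Equiv.symm_apply_apply] at h2
    exact h2
  -- the derivative
  have hder : ∀ v : V1, csC (chw (r + 1) W1 Pp g1 (P1 v)) (pN 1 (Qh v)) ≤
      D * mbs (chw (r + 1) W1 Pp g1 (P1 v)) (Qh v) s₀ / s₀ := by
    intro v
    have hmb : 0 ≤ mbs (chw (r + 1) W1 Pp g1 (P1 v)) (Qh v) s₀ :=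
      (Psi_nonneg _ _ _).trans (le_mbs _ _ _ (u := fun _ => 0) fun _ => ⟨le_rfl, zero_le_one⟩)
    refine csC_le _ _ (by positivity) fun u hu => ?_
    rw [le_div_iff₀ hs₀, mul_comm]
    have h1 := Psi_pderiv_le (Qh v) s₀ hs₀.le (cpt (chw (r + 1) W1 Pp g1 (P1 v)) u) none
    have h2 := abs_eval_le_Psi (pN 1 (Qh v)) s₀ (cpt (chw (r + 1) W1 Pp g1 (P1 v)) u)
    refine (mul_le_mul_of_nonneg_left h2 hs₀.le).trans (h1.trans ?_)
    exact mul_le_mul (by exact_mod_cast hQd v) (le_mbs _ _ _ hu) (Psi_nonneg _ _ _) hD0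
  refine
    { cls := fun ω hω => H.n0.cls ω (hpA ω hω)
      fac := fun ω hω => rfl
      degN := fun ω hω => (deg_toF _).trans ((H.n1.deg _ _).trans hKle)
      degχ := fun ω hω i => deg_nchi (fun i => gsy_deg (H.n0.deg _) i) _ _
      own := fun ω hω => H.own ω
      pos := ?_
      card := fun v => by
        obtain ⟨S, h1, h2⟩ := H.card hW0J v
        exact ⟨S, h1, fun ω hω hz => h2 ω (hpA ω hω) hz⟩
      QD := fun v => hQd _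
      ins := ?_
      Q0 := ?_
      MBp := ?_
      eq := ?_
      upp := fun ω hω hgd u hu => le_mbs _ _ _ hu
      low := ?_
      spr := ?_
      lip := ?_
      cov := fun ω hω hgd y hy => hcov ω hω y hy }
  · intro ω hω
    have h1 := leaf_val H.n1 (hpA ω hω) W1
    have h2 : ∀ n : ℕ, Pp ≤ n → (2 : ℝ) ^ W1 / 2 ^ n ≤ 1 / M := by
      intro n hn
      have h3 : (1 : ℝ) / M = 2 ^ W1 / 2 ^ Pp := by
        rw [hM, two_div H.WP]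
        field_simp
      rw [h3]
      exact div_le_div_of_nonneg_left (by positivity) (by positivity)
        (pow_le_pow_right₀ one_le_two hn)
    have h3 := h2 (g1 r) H.g1P
    have h4 := h2 J H.PJ
    have h5 : 2 * (1 / M) ≤ h₀ := by
      rw [hh₀, mul_one_div]
      exact div_le_div_of_nonneg_right hC₀ hM0.le
    exact h1.trans (by linarith)
  · intro ω hω hgd u hu
    obtain ⟨u', hu', h1⟩ := hins ω hgd u hu
    have h2 := cpt_chw (W := W1) (P₀ := Pp) (g := g1) (H.n1.tri (z1 (ptr F J ω))) u'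
    rw [h1] at h2
    exact ⟨u', hu', h2⟩
  · intro ω hω hgd h0
    have h1 := (hQ ω (hpA ω hω)).pos
    have h2 : Qh (z1 (ptr F J ω)) = 0 := h0
    rw [h2] at h1
    refine absurd h1 (not_lt.2 (csC_le _ _ le_rfl fun u hu => ?_))
    have h3 : pN 1 (0 : MvPolynomial (Option (Fin (r + 1))) ℝ) = 0 := map_zero _
    rw [h3, map_zero, abs_zero]
  · intro ω hω hgd
    have h1 := (hQ ω (hpA ω hω)).pos.trans_le (hder _)
    by_contra hcon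
    push Not at hcon
    have h2 : D * mbs (chw (r + 1) W1 Pp g1 (P1 (z1 (ptr F J ω)))) (Qh (z1 (ptr F J ω))) s₀ ≤ 0 :=
      mul_nonpos_of_nonneg_of_nonpos hD0 hcon
    have h3 := div_nonpos_of_nonpos_of_nonneg h2 hs₀.le
    linarith
  · intro ω hω hgd u hu
    obtain ⟨v, hv⟩ : ∃ v, v = z1 (ptr F J ω) := ⟨_, rfl⟩
    have h1 := hQ ω (hpA ω hω)
    rw [← hv] at h1
    change Psi (Qh (z1 (ptr F J ω))) h₀
      (cpt (chw (r + 1) W1 Pp g1 (P1 (z1 (ptr F J ω)))) u) ≤ C * (ρq + h₀) / s₀ *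
        mbs (chw (r + 1) W1 Pp g1 (P1 (z1 (ptr F J ω)))) (Qh (z1 (ptr F J ω))) s₀
    rw [← hv]
    obtain ⟨mb, hmb⟩ : ∃ mb, mb = mbs (chw (r + 1) W1 Pp g1 (P1 v)) (Qh v) s₀ := ⟨_, rfl⟩
    have h2 := Ht (Qh v) h₀ s₀ (cpt (chw (r + 1) W1 Pp g1 (P1 v)) u) (hQd v) hh₀0 hhs
    have h3 := (le_csC (chw (r + 1) W1 Pp g1 (P1 v)) (Qh v) hu).trans h1.low
    have h4 := mul_le_mul_of_nonneg_left (hder v) hρq
    have h5 := le_mbs (chw (r + 1) W1 Pp g1 (P1 v)) (Qh v) s₀ hu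
    rw [← hmb] at h4 h5 ⊢
    have hmb0 : 0 ≤ mb := (Psi_nonneg _ _ _).trans h5
    refine h2.trans ?_
    have h6 : |eval (cpt (chw (r + 1) W1 Pp g1 (P1 v)) u) (Qh v)| +
        h₀ / s₀ * Psi (Qh v) s₀ (cpt (chw (r + 1) W1 Pp g1 (P1 v)) u) ≤
        (D + 1) * ((ρq + h₀) / s₀ * mb) := by
      have h7 : h₀ / s₀ * Psi (Qh v) s₀ (cpt (chw (r + 1) W1 Pp g1 (P1 v)) u) ≤
          h₀ / s₀ * mb := mul_le_mul_of_nonneg_left h5 (by positivity)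
      have h8 : ρq * (D * mb / s₀) = D * (ρq / s₀ * mb) := by ring
      rw [h8] at h4
      have h9 : (ρq + h₀) / s₀ * mb = ρq / s₀ * mb + h₀ / s₀ * mb := by ring
      rw [h9]
      have h10 : 0 ≤ ρq / s₀ * mb := by positivity
      have h11 : 0 ≤ h₀ / s₀ * mb := by positivity
      nlinarith
    have h7 : Kt * (D + 1) ≤ C := by
      rw [hC]
      nlinarith
    calc Kt * (|eval (cpt (chw (r + 1) W1 Pp g1 (P1 v)) u) (Qh v)| +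
        h₀ / s₀ * Psi (Qh v) s₀ (cpt (chw (r + 1) W1 Pp g1 (P1 v)) u))
        ≤ Kt * ((D + 1) * ((ρq + h₀) / s₀ * mb)) := mul_le_mul_of_nonneg_left h6 (by linarith)
      _ = Kt * (D + 1) * ((ρq + h₀) / s₀ * mb) := by ring
      _ ≤ C * ((ρq + h₀) / s₀ * mb) := mul_le_mul_of_nonneg_right h7 (by positivity)
      _ = _ := by ring
  · intro ω hω hgd
    obtain ⟨u, hu, h1⟩ := mbs_att (chw (r + 1) W1 Pp g1 (P1 (z1 (ptr F J ω))))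
      (Qh (z1 (ptr F J ω))) s₀
    change mbs (chw (r + 1) W1 Pp g1 (P1 (z1 (ptr F J ω)))) (Qh (z1 (ptr F J ω))) s₀ ≤ _
    rw [h1]
    exact hgd.low u hu
  · intro ω hω hgd u hu
    have h1 := hdf ω hω hgd u hu
    unfold dfp at h1
    rw [map_sub] at h1
    have h2 : 0 ≤ d * L * s₀ := by positivity
    have h3 : B ≤ 2 * Kg * B := by nlinarith
    refine h1.trans ?_
    linarith
  · intro ω hω hgd y hy
    obtain ⟨u, hu, h1⟩ := hcov ω hω y hy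
    obtain ⟨ub, hub, h2⟩ := H.own ω
    have h3 := hdf2 ω hω hgd u hu
    have h4 := hdf ω hω hgd ub hub
    rw [h1] at h3
    rw [h2] at h4
    have hy0 : ∀ i, |(fun i => y (ρ.symm i)) i - yun c₀ r W1 (ptr F J ω) i| ≤ s₀ := by
      intro i
      have h1 := hy (ρ.symm i)
      rw [hbse, H.yun1, Equiv.apply_symm_apply] at h1
      exact h1
    have h5 := leaf_mv H.n0 hL0 hW0J (hpA ω hω) hs₀.le hsw0 hy0
    rw [hbse]
    unfold dfp at h3 h4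
    rw [map_sub, eval_g0p] at h3 h4
    rw [H.yun0] at h4
    have h6 : B ≤ Kg * B := by nlinarith
    rw [← hd] at h5
    refine le_trans ?_ (le_trans (by linarith : Kg * B + B + d * L * s₀ ≤
      2 * Kg * B + d * L * s₀) hCB)
    change |eval y (toF (r + 1) W1 (P1 (z1 (ptr F J ω)) (r + 1))) -
      eval (yun c₁ r W1 (ptr F J ω)) (toF (r + 1) W1 (P1 (z1 (ptr F J ω)) (r + 1)))| ≤ _
    rw [abs_le] at h3 h4 h5 ⊢
    constructor <;> linarith [h3.1, h3.2, h4.1, h4.2, h5.1, h5.2]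

end Pool.CLO37
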