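import Pool.Agent.H37.CLO.Fr4

/-!
# The family form: the bad samples
-/

set_option autoImplicit false

namespace Pool.CLO37

open Finset Real MvPolynomial
open Pool.Agent.H49.Ent Pool.Agent.H32.Dense Pool.STK Pool.KAF Pool.KAL Pool.KS3 Pool.M3F
open Pool.KJA Pool.KA Pool.K2S Pool.KSAT Pool.PB Pool.STAT Pool.GEN Pool.GEO Pool.IEN

variable {m J : ℕ} {F : Fam m J}

section rec

variable {A : F.Ω → Prop} {r K kap W0 W1 Pp sg q : ℕ} {c₀ c₁ : ℕ → Fin m}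
  {ρ : Equiv.Perm (Fin (r + 1))} {g0 g1 : ℕ → ℕ} {L : ℝ} {V0 V1 : Type} {z0 : PtT F → V0}
  {z0' : LnT F → V0} {P0 : V0 → ℕ → PN} {z1 : PtT F → V1} {z1' : LnT F → V1} {P1 : V1 → ℕ → PN}

/-- The label of the second window, together with the label of the first one. -/
theorem RecW.pair (H : RecW F A r K kap W0 W1 Pp sg q c₀ c₁ ρ g0 g1 L z0 z0' P0 z1 z1' P1)
    (hA : ∃ ω, A ω) : ∃ zl : LnT F → V1 × V0,
      NLabW F c₁ r W1 sg g1 K L A (fun ξ => (z1 ξ, z0 ξ)) zl (fun v => P1 v.1) := by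
  classical
  obtain ⟨ω₀, hω₀⟩ := hA
  obtain ⟨par, hpar⟩ : ∃ par : LnT F → V0, par = fun l =>
      if h : ∃ ω, A ω ∧ slam F W1 ω = l then z0' (slam F W0 (Classical.choose h))
      else z0' (slam F W0 ω₀) := ⟨_, rfl⟩
  have hp : ∀ ω, A ω → par (slam F W1 ω) = z0' (slam F W0 ω) := by
    intro ω hω
    have h : ∃ ω', A ω' ∧ slam F W1 ω' = slam F W1 ω := ⟨ω, hω, rfl⟩
    rw [hpar]
    dsimp only
    rw [dif_pos h]
    congr 1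
    exact slam_of H.W01 (H.WP.trans H.PJ) (Classical.choose_spec h).2
  exact ⟨fun l => (z1' l, par l),
    { deg := fun v i => H.n1.deg v.1 i
      tri := fun v => H.n1.tri v.1
      cls := fun ω hω => Prod.ext (H.n1.cls ω hω) (by
        show z0 (ptr F J ω) = par (slam F W1 ω)
        rw [hp ω hω, H.n0.cls ω hω])
      zero := fun ω hω => H.n1.zero ω hω
      pos := fun ω hω => H.n1.pos ω hω
      posN := fun ω hω => H.n1.posN ω hω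
      grad := fun ω hω => H.n1.grad ω hω }⟩

end rec

/-- **The bad samples** are few. -/
theorem gdw_ev (r D K : ℕ) : ∃ C : ℝ, 1 ≤ C ∧ ∀ {m J : ℕ} {F : Fam m J} {A : F.Ω → Prop}
    {kap W0 W1 Pp sg q : ℕ} {c₀ c₁ : ℕ → Fin m} {ρ : Equiv.Perm (Fin (r + 1))} {g0 g1 : ℕ → ℕ}
    {L : ℝ} {V0 V1 : Type} {z0 : PtT F → V0} {z0' : LnT F → V0} {P0 : V0 → ℕ → PN}
    {z1 : PtT F → V1} {z1' : LnT F → V1} {P1 : V1 → ℕ → PN}
    (Qh : V1 → MvPolynomial (Option (Fin (r + 1))) ℝ) (s₀ S κ h μ e₁ : ℝ) (N : ℕ),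
    RecW F A r K kap W0 W1 Pp sg q c₀ c₁ ρ g0 g1 L z0 z0' P0 z1 z1' P1 → 0 < law F.p A True →
    (∀ v, (Qh v).totalDegree ≤ D) →
    clC r kap L / ((2 ^ (Pp - W1) : ℕ) : ℝ) ≤ s₀ → 0 < h →
    MxC N μ (Pool.Agent.H49.Ent.cond F.p A True) (slam F W1) (K2S.Fam.pt F)
      (fun _ => ∑ i, Real.log (ngw W1 Pp g1 (r + 1) i))
      (fun ξ => ybw c₁ r W1 Pp g1 (P1 (z1 ξ)) ξ) → 0 ≤ μ →
    Real.log ((2 ^ (Pp - W1) : ℕ) : ℝ) - CH (Pool.Agent.H49.Ent.cond F.p A True)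
      (fun ω => tdg W1 Pp (K2S.Fam.pt F ω)) (slam F W1) ≤ e₁ → 0 ≤ e₁ →
    Pe (Pool.Agent.H49.Ent.cond F.p A True) (fun ω => InB F c₀ r W1 Pp (wid W0 g0) g1 ρ
        (gsy r W1 (P0 (z0 (ptr F J ω)))) (acs r W1 (P0 (z0 (ptr F J ω))))
        (P1 (z1 (ptr F J ω))) S κ (1 / 2 ^ q) ω ∧
      ¬ GdW F r W0 W1 Pp sg q c₀ c₁ ρ g0 g1 z0 P0 z1 P1 Qh
        (clC r kap L / ((2 ^ (Pp - W1) : ℕ) : ℝ)) s₀ (C * Real.exp h) h S κ ω) ≤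
      C * (((N + 1) * (e₁ + 1) + μ) / h) := by
  classical
  obtain ⟨C₁, hC₁, H₁⟩ := low_ev (Option (Fin (r + 1))) (r + 1) D ((K + 1) ^ (r + 1 + 1) + 1)
  obtain ⟨C₂, hC₂, H₂⟩ := one_ev (Option (Fin (r + 1))) (r + 1) K ((K + 1) ^ (r + 1 + 1) + 1)
  refine ⟨C₁ + C₂, by linarith, ?_⟩
  intro m J F A kap W0 W1 Pp sg q c₀ c₁ ρ g0 g1 L V0 V1 z0 z0' P0 z1 z1' P1 Qh s₀ S κ h μ e₁ N
    H hA hQd hhs hh hmx hμ he₁ he₁0
  obtain ⟨p, hp⟩ : ∃ p, p = Pool.Agent.H49.Ent.cond F.p A True := ⟨_, rfl⟩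
  have hpA : ∀ ω, 0 < p ω → A ω := fun ω hω => cond_supp (by rw [← hp]; exact hω)
  have hexA : ∃ ω, A ω := by
    by_contra hcon
    push Not at hcon
    refine absurd hA (not_lt.2 (le_of_eq ?_))
    unfold law
    exact Finset.sum_eq_zero fun ω _ => by
      rw [if_neg]
      intro h1
      exact hcon ω (of_eq_true h1)
  obtain ⟨zl, hN⟩ := H.pair hexA
  have hcl := cleaf_w (kap := kap) hN H.L0 hA H.PJ H.WP H.g1P H.wd1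
  rw [← hp] at hcl hmx he₁ ⊢
  have hp0 : ∀ ω, 0 ≤ p ω := hcl.inc.isLaw.nonneg
  have hC₀ : 1 ≤ clC r kap L := by
    have := clC_ge (r := r) (kap := kap) H.L0
    linarith
  have hM1 : 1 ≤ 2 ^ (Pp - W1) := Nat.one_le_two_pow
  have h1 := H₁ (fun v : V1 × V0 => Qh v.1) hC₀ hM1 hcl hmx hμ he₁ he₁0 hh hhs
    (fun v => hQd v.1)
  have h2 := H₂ Unit (fun _ v => rename some (dfp r W1 ρ P0 P1 v)) hC₀ hM1 hcl hmx hμ he₁ he₁0 hh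
    (fun _ ω _ => (totalDegree_rename_le _ _).trans (deg_dfp (H.n0.deg _ _) (H.n1.deg _ _)))
  rw [Fintype.card_unit, Nat.cast_one, mul_one] at h2
  have hE : 0 < Real.exp h := Real.exp_pos h
  have hX : 0 ≤ ((N + 1) * (e₁ + 1) + μ) / h := by positivity
  refine le_trans ?_ (le_of_eq (add_mul C₁ C₂ (((N + 1) * (e₁ + 1) + μ) / h)).symm)
  refine (pe_split hp0 (Q := fun ω => ∃ u ∈ ucube (r + 1), C₁ * Real.exp h *
    Psi (Qh (z1 (K2S.Fam.pt F ω))) s₀ (zsw c₁ r W1 sg (K2S.Fam.pt F ω)) <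
      Psi (Qh (z1 (K2S.Fam.pt F ω))) s₀
        (cpt (chw (r + 1) W1 Pp g1 (P1 (z1 (K2S.Fam.pt F ω)))) u))
    (S := fun ω => ∃ _ : Unit, ∃ u ∈ ucube (r + 1), Real.exp h *
      Psi (rename some (dfp r W1 ρ P0 P1 (z1 (K2S.Fam.pt F ω), z0 (K2S.Fam.pt F ω))))
        (clC r kap L / ((2 ^ (Pp - W1) : ℕ) : ℝ)) (zsw c₁ r W1 sg (K2S.Fam.pt F ω)) <
      Psi (rename some (dfp r W1 ρ P0 P1 (z1 (K2S.Fam.pt F ω), z0 (K2S.Fam.pt F ω))))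
        (clC r kap L / ((2 ^ (Pp - W1) : ℕ) : ℝ))
        (cpt (chw (r + 1) W1 Pp g1 (P1 (z1 (K2S.Fam.pt F ω)))) u)) ?_).trans (add_le_add h1 h2)
  intro ω hω hb
  by_contra hcon
  push Not at hcon
  obtain ⟨c1, c2⟩ := hcon
  refine hb.2 ⟨hb.1, fun u hu => ?_, fun u hu => c2 () u hu⟩
  have h3 : Psi (Qh (z1 (ptr F J ω))) s₀ (cpt (chw (r + 1) W1 Pp g1 (P1 (z1 (ptr F J ω)))) u) ≤
      C₁ * Real.exp h * Psi (Qh (z1 (ptr F J ω))) s₀ (zsw c₁ r W1 sg (ptr F J ω)) := c1 u hu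
  refine h3.trans (mul_le_mul_of_nonneg_right ?_ (Psi_nonneg _ _ _))
  exact mul_le_mul_of_nonneg_right (by linarith) hE.le

end Pool.CLO37
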