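import Pool.Agent.H37.CLO.Fr5
import Pool.Agent.H37.CLO.Fnu
import Pool.Agent.H15.KM7.Pair

/-!
# The family form: the closed equation
-/

set_option autoImplicit false

namespace Pool.CLO37

open Finset Real MvPolynomial
open Pool.Agent.H49.Ent Pool.Agent.H32.Dense Pool.STK Pool.KAF Pool.KAL Pool.KS3 Pool.M3F
open Pool.KJA Pool.KA Pool.K2S Pool.KSAT Pool.PB Pool.STAT Pool.GEN Pool.GEO Pool.IEN Pool.KM7

/-- The two couplings are the same. -/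
theorem cp_eq_P2 {Ω Λ : Type} [Fintype Ω] (p : Ω → ℝ) (g : Ω → Λ) : cp p g = P2 p g := by
  classical
  funext v
  unfold cp P2 glue
  split_ifs with h1
  · rw [h1]
  · rfl

/-- Events of one sample, for the coupling. -/
theorem pe_cp_one {Ω Λ : Type} [Fintype Ω] {p : Ω → ℝ} (hp : ∀ ω, 0 ≤ p ω) (g : Ω → Λ)
    (S : Ω → Prop) : Pe (cp p g) (fun v => S v.1) = Pe p S ∧
      Pe (cp p g) (fun v => S v.2) = Pe p S := by
  classical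
  constructor
  · simp_rw [Pe_eq]
    rw [Fintype.sum_prod_type]
    refine Finset.sum_congr rfl fun ω _ => ?_
    by_cases h : S ω
    · simp only [h, if_true]
      exact cp_fst hp ω
    · simp [h]
  · simp_rw [Pe_eq]
    rw [Fintype.sum_prod_type_right]
    refine Finset.sum_congr rfl fun ω _ => ?_
    by_cases h : S ω
    · simp only [h, if_true]
      exact cp_snd hp ω
    · simp [h]

variable {m J : ℕ}

/-- The bad samples of the inclusion. -/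
def InW (F : Fam m J) (r W0 W1 Pp q : ℕ) (c₀ : ℕ → Fin m)
    (ρ : Equiv.Perm (Fin (r + 1))) (g0 g1 : ℕ → ℕ) {V0 V1 : Type} (z0 : PtT F → V0)
    (P0 : V0 → ℕ → PN) (z1 : PtT F → V1) (P1 : V1 → ℕ → PN) (S κ : ℝ) (ω : F.Ω) : Prop :=
  InB F c₀ r W1 Pp (wid W0 g0) g1 ρ (gsy r W1 (P0 (z0 (ptr F J ω))))
    (acs r W1 (P0 (z0 (ptr F J ω)))) (P1 (z1 (ptr F J ω))) S κ (1 / 2 ^ q) ω

/-- **The closed equation** at the first window. -/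
theorem fam_clo (r D K : ℕ) : ∃ C : ℝ, 1 ≤ C ∧ ∀ {m J : ℕ} {F : Fam m J} {A : F.Ω → Prop}
    {kap W0 W1 Pp sg q : ℕ} {c₀ c₁ : ℕ → Fin m} {ρ : Equiv.Perm (Fin (r + 1))} {g0 g1 : ℕ → ℕ}
    {L : ℝ} {V0 V1 : Type} {z0 : PtT F → V0} {z0' : LnT F → V0} {P0 : V0 → ℕ → PN}
    {z1 : PtT F → V1} {z1' : LnT F → V1} {P1 : V1 → ℕ → PN}
    (Qh : V1 → MvPolynomial (Option (Fin (r + 1))) ℝ)
    (ρq h₀ u₀ s₀ S κ h μ e₁ e₀ β β₁ fl ε θ R c : ℝ) (N n₀ : ℕ)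
    (a : V1 × V0 → (Fin (r + 1) → ℤ) → Fin n₀ → (Fin (r + 1) → ℝ) → ℝ) (E : F.Ω × F.Ω → Prop),
    RecW F A r K kap W0 W1 Pp sg q c₀ c₁ ρ g0 g1 L z0 z0' P0 z1 z1' P1 → 0 < law F.p A True →
    (∀ v, (Qh v).totalDegree ≤ D) →
    (∀ ω, A ω → CsQ r D W1 Pp g1 (P1 (z1 (ptr F J ω))) (Qh (z1 (ptr F J ω))) ρq) → 0 ≤ ρq →
    h₀ = clC r kap L / ((2 ^ (Pp - W1) : ℕ) : ℝ) → u₀ = 2 ^ W1 / 2 ^ g0 r → h₀ ≤ s₀ → s₀ ≤ u₀ →
    (∀ i < r + 1, (1 + ((r + 1 : ℕ) : ℝ) * L) * s₀ ≤ 2 ^ W1 / 2 ^ wid W0 g0 i / 2 ^ q) →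
    (∀ i < r + 1, (1 + ((r + 1 : ℕ) : ℝ) * L) * h₀ ≤ 2 ^ W1 / 2 ^ wid W1 g1 i) → 0 < h →
    MxC N μ (Pool.Agent.H49.Ent.cond F.p A True) (slam F W1) (K2S.Fam.pt F)
      (fun _ => ∑ i, Real.log (ngw W1 Pp g1 (r + 1) i))
      (fun ξ => ybw c₁ r W1 Pp g1 (P1 (z1 ξ)) ξ) → 0 ≤ μ →
    Real.log ((2 ^ (Pp - W1) : ℕ) : ℝ) - CH (Pool.Agent.H49.Ent.cond F.p A True)
      (fun ω => tdg W1 Pp (K2S.Fam.pt F ω)) (slam F W1) ≤ e₁ → 0 ≤ e₁ →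
    Real.log ((2 ^ (Pp - W0) : ℕ) : ℝ) - CH (Pool.Agent.H49.Ent.cond F.p A True)
      (fun ω => tdg W0 Pp (K2S.Fam.pt F ω)) (slam F W0) ≤ e₀ → 0 ≤ e₀ →
    (∀ e, 0 < P2 (Pool.Agent.H49.Ent.cond F.p A True) (slam F W0) e → E e →
      ∃ i, ∀ u ∈ ucube (r + 1),
        |eval (cpt (chiw r W0 W1 Pp q g0 ρ P0 (z0 (ptr F J e.1))
            (ciw c₀ r W0 W1 Pp q g0 P0 z0 (ptr F J e.1))) u)
          (toF (r + 1) W1 (P1 (z1 (ptr F J e.1)) (r + 1))) -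
          a (z1 (ptr F J e.2), z0 (ptr F J e.2)) (ciw c₀ r W0 W1 Pp q g0 P0 z0 (ptr F J e.1))
            i u| ≤ β) →
    0 < β → β ≤ β₁ → 1 ≤ R → R ≤ ((2 ^ (Pp - W0) : ℕ) : ℝ) → fl ≤ 1 → C * (h₀ + β₁) ≤ fl * s₀ →
    C * Real.exp h * (ρq + h₀) / s₀ ≤ fl →
    C * (Real.exp h ^ 2 * R ^ (2 * D) * (Real.exp h * (1 + L) * u₀ / β₁) ^ D *
      ((ρq + h₀ + β) / s₀)) < 1 →
    0 < ε → ε ≤ 1 →
    C * fl < CLO37.sg (C * (Real.exp h * R ^ D) ^ 2 / ε) (nmb (Option (Fin (r + 1))) D) →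
    C + Real.log (n₀ + 1) + (r + 1) * q ≤ θ → 0 < c → c ≤ 1 →
    c ≤ Pe (P2 (Pool.Agent.H49.Ent.cond F.p A True) (slam F W0)) E →
    Pe (Pool.Agent.H49.Ent.cond F.p A True)
      (fun ω => ¬ InW F r W0 W1 Pp q c₀ ρ g0 g1 z0 P0 z1 P1 S κ ω) ≤ c / 8 →
    32 * (θ + e₀ + 1) + 2 * (D + 1) ≤ c * Real.log R →
    64 * D * θ + C * ((N + 1) * (e₁ + 1) + μ) ≤ c * h →
    ∃ (vx : PtT F → Fin (nmb (Option (Fin (r + 1))) D) → ℝ)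
      (vl : LnT F → Fin (nmb (Option (Fin (r + 1))) D) → ℝ) (B' : F.Ω → Prop),
      c ≤ C * Pe (Pool.Agent.H49.Ent.cond F.p A True) B' ∧ ∀ ω, B' ω →
        0 < Pool.Agent.H49.Ent.cond F.p A True ω ∧
        1 ≤ Nk (Pool.Agent.H49.Ent.cond F.p A True) (K2S.Fam.pt F) (zsw c₁ r W1 sg) z0 s₀
          (mnb (Option (Fin (r + 1))) D) (z0 (ptr F J ω)) (vx (ptr F J ω)) ∧
        Psi (pol (mnb (Option (Fin (r + 1))) D) (vx (ptr F J ω))) h₀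
          (zsw c₁ r W1 sg (ptr F J ω)) ≤ ε ∧
        Nk (Pool.Agent.H49.Ent.cond F.p A True) (K2S.Fam.pt F) (zsw c₁ r W1 sg) z0 s₀
          (mnb (Option (Fin (r + 1))) D) (z0 (ptr F J ω))
          (vx (ptr F J ω) - vl (slam F W0 ω)) ≤ C * ε := by
  classical
  obtain ⟨C₁, hC₁, Hgeo⟩ := geo_w r D K
  obtain ⟨C₂, hC₂, Hbad⟩ := gdw_ev r D K
  obtain ⟨C₃, hC₃, Hclo⟩ := clo_geo (r + 1) D ((K + 1) ^ (r + 1 + 1) + 1) ((K + 1) ^ (r + 1))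
  obtain ⟨cr, hcr⟩ : ∃ cr : ℕ, cr = Fintype.card (Fin (r + 1) →
    Fin ((K + 1) ^ (r + 1) * (K + 1) ^ (r + 1) + 1)) := ⟨_, rfl⟩
  obtain ⟨C, hC⟩ : ∃ C : ℝ, C = C₃ * C₂ * C₁ ^ D * (C₁ + 1) + C₁ * C₂ + 64 * C₂ + 16 * C₃ +
    2 * (D + 1) + 3 * (r + 1) + 2 * cr := ⟨_, rfl⟩
  have hD0 : (0 : ℝ) ≤ D := Nat.cast_nonneg D
  have hr0 : (0 : ℝ) ≤ r := Nat.cast_nonneg r
  have hcr0 : (0 : ℝ) ≤ cr := Nat.cast_nonneg cr
  have hC₁0 : 0 < C₁ := by linarith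
  have hC₂0 : 0 < C₂ := by linarith
  have hC₃0 : 0 < C₃ := by linarith
  have hA1 : 0 < C₃ * C₂ * C₁ ^ D * (C₁ + 1) := by positivity
  have hA2 : 0 < C₁ * C₂ := by positivity
  have hC1 : 1 ≤ C := by
    rw [hC]
    linarith
  have hCall : C₃ + 3 * ((r : ℝ) + 1) + 2 * cr + D ≤ C := by
    rw [hC]
    linarith
  have hC64 : 64 * C₂ ≤ C := by
    rw [hC]
    linarith
  have hC12 : C₁ * C₂ ≤ C := by
    rw [hC]
    linarith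
  have hCm : C₃ * C₂ * C₁ ^ D * (C₁ + 1) ≤ C := by
    rw [hC]
    linarith
  have hC16 : 16 * C₃ ≤ C := by
    rw [hC]
    linarith
  have hCD : 16 * C₃ + 2 * (D + 1) ≤ C := by
    rw [hC]
    linarith
  have hC3 : C₃ ≤ C := by linarith
  clear hA1 hA2
  refine ⟨C, hC1, ?_⟩
  clear hC
  intro m J F A kap W0 W1 Pp sg q c₀ c₁ ρ g0 g1 L V0 V1 z0 z0' P0 z1 z1' P1 Qh ρq h₀ u₀ s₀ S κ h μ
    e₁ e₀ β β₁ fl ε θ R c N n₀ a E H hA hQd hQ hρq hh₀ hu₀ hhs hsu hsw hhw1 hh hmx hμ he₁ he₁0 he₀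
    he₀0 hgeo hβ hββ hR hRM hfl1 hflβ hflρ hsm hε hε1 hflsg hθ hc0 hc1 hE hIn hpr1 hpr2
  obtain ⟨p, hp⟩ : ∃ p, p = Pool.Agent.H49.Ent.cond F.p A True := ⟨_, rfl⟩
  have hpA : ∀ ω, 0 < p ω → A ω := fun ω hω => cond_supp (by rw [← hp]; exact hω)
  have hexA : ∃ ω, A ω := by
    by_contra hcon
    push Not at hcon
    refine absurd hA (not_lt.2 (le_of_eq ?_))
    unfold law
    exact Finset.sum_eq_zero fun ω _ => by
      rw [if_neg]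
      intro h1
      exact hcon ω (of_eq_true h1)
  obtain ⟨zl, hN⟩ := H.pair hexA
  have hcl := cleaf_w (kap := kap) hN H.L0 hA H.PJ H.WP H.g1P H.wd1
  have hG := Hgeo Qh ρq s₀ (C₂ * Real.exp h) h S κ H hQd hQ hρq hh (by rw [← hh₀]; exact hhs)
    (by rw [← hu₀]; exact hsu) hsw (by rw [← hh₀]; exact hhw1)
  have hB := Hbad Qh s₀ S κ h μ e₁ N H hA hQd (by rw [← hh₀]; exact hhs) hh hmx hμ he₁ he₁0
  rw [← hh₀, ← hu₀] at hG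
  rw [← hh₀] at hB
  rw [← hp] at hcl hmx he₁ he₀ hgeo hE hIn hG hB ⊢
  obtain ⟨Gd, hGd⟩ : ∃ Gd, Gd = GdW F r W0 W1 Pp sg q c₀ c₁ ρ g0 g1 z0 P0 z1 P1 Qh h₀ s₀
    (C₂ * Real.exp h) h S κ := ⟨_, rfl⟩
  rw [← hGd] at hG
  have hpl : IsLaw p := hcl.inc.isLaw
  have hp0 : ∀ ω, 0 ≤ p ω := hpl.nonneg
  have hC₀ : 2 ≤ clC r kap L := clC_ge H.L0
  have hM0 : (0 : ℝ) < ((2 ^ (Pp - W1) : ℕ) : ℝ) := by positivity
  have hh₀0 : 0 < h₀ := by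
    rw [hh₀]
    positivity
  have hs₀ : 0 < s₀ := hh₀0.trans_le hhs
  have hu₀0 : 0 < u₀ := by
    rw [hu₀]
    positivity
  have hL0 := H.L0
  have hexp : 1 ≤ Real.exp h := Real.one_le_exp hh.le
  have hexp0 : 0 < Real.exp h := Real.exp_pos h
  have hβ₁ : 0 < β₁ := hβ.trans_le hββ
  have hR0 : 0 < R := by linarith
  have hX : 0 ≤ (N + 1) * (e₁ + 1) + μ := by positivity
  have hθ0 : 0 ≤ θ := by
    refine le_trans ?_ hθ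
    have : 0 ≤ Real.log (n₀ + 1) := Real.log_nonneg (by
      have : (0 : ℝ) ≤ n₀ := Nat.cast_nonneg _
      linarith)
    positivity
  have hfl0 : 0 < fl := by
    by_contra hcon
    push Not at hcon
    have h1 : fl * s₀ ≤ 0 := mul_nonpos_of_nonpos_of_nonneg hcon hs₀.le
    have h2 : 0 < C * (h₀ + β₁) := by positivity
    linarith
  -- the bad samples
  have hbad : Pe p (fun ω => ¬ Gd ω) ≤ c / 4 := by
    have h1 : Pe p (fun ω => ¬ Gd ω) ≤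
        Pe p (fun ω => ¬ InW F r W0 W1 Pp q c₀ ρ g0 g1 z0 P0 z1 P1 S κ ω) + c / 64 := by
      refine (pe_split hp0 (fun ω hω hb => ?_)).trans (add_le_add le_rfl (hB.trans ?_))
      · by_cases hi : InW F r W0 W1 Pp q c₀ ρ g0 g1 z0 P0 z1 P1 S κ ω
        · rw [hGd] at hb
          exact Or.inr ⟨hi, hb⟩
        · exact Or.inl hi
      · rw [← mul_div_assoc, div_le_iff₀ hh]
        have h3 : 64 * C₂ * ((N + 1) * (e₁ + 1) + μ) ≤ C * ((N + 1) * (e₁ + 1) + μ) :=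
          mul_le_mul_of_nonneg_right hC64 hX
        have h4 : 0 ≤ (D : ℝ) * θ := mul_nonneg hD0 hθ0
        linarith only [h3, hpr2, h4]
    linarith
  obtain ⟨E', hE'⟩ : ∃ E' : F.Ω × F.Ω → Prop, E' = fun v => E v.swap ∧ Gd v.1 ∧ Gd v.2 :=
    ⟨_, rfl⟩
  obtain ⟨rr, hrr⟩ : ∃ rr, rr = cp p (slam F W0) := ⟨_, rfl⟩
  have hrr0 : ∀ v, 0 ≤ rr v := by
    rw [hrr]
    exact cp_nonneg hp0
  have hE1 : c / 2 ≤ Pe rr E' := by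
    have h1 : Pe rr (fun v => E v.swap) = Pe (P2 p (slam F W0)) E := by
      rw [hrr, pe_swap, cp_eq_P2]
    have h2 : Pe rr (fun v => E v.swap) ≤ Pe rr E' + Pe rr (fun v => ¬ Gd v.1 ∨ ¬ Gd v.2) := by
      refine pe_split hrr0 fun v hv h3 => ?_
      by_cases hg : Gd v.1 ∧ Gd v.2
      · left
        rw [hE']
        exact ⟨h3, hg⟩
      · right
        by_contra hcon
        push Not at hcon
        exact hg hcon
    have h3 : Pe rr (fun v => ¬ Gd v.1 ∨ ¬ Gd v.2) ≤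
        Pe rr (fun v => ¬ Gd v.1) + Pe rr (fun v => ¬ Gd v.2) :=
      pe_split hrr0 fun v hv h3 => h3
    have h4 := pe_cp_one hp0 (slam F W0) (fun ω => ¬ Gd ω)
    rw [← hrr] at h4
    rw [h4.1, h4.2] at h3
    linarith
  have hlog : ∀ n : ℕ, Real.log ((((2 ^ (q + 1) + 3) ^ (r + 1) : ℕ) : ℝ) * (n * 3 ^
      Fintype.card (Fin (r + 1) → Fin ((K + 1) ^ (r + 1) * (K + 1) ^ (r + 1) + 1))) + 1) ≤
      (r + 1) * (q + 3) + Real.log (n + 1) + 2 * cr := by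
    intro n
    have h1 := fn_log r q cr n
    rw [hcr] at h1 ⊢
    exact h1
  have hq0 : (0 : ℝ) ≤ q := Nat.cast_nonneg q
  have hCq : (r + 1) * (q + 3) + 2 * cr + D ≤ C + (r + 1) * q :=
    fn_th hCall hC₃0.le
  have hn₀1 : 0 ≤ Real.log ((n₀ : ℝ) + 1) := Real.log_nonneg (by
    have : (0 : ℝ) ≤ n₀ := Nat.cast_nonneg _
    linarith)
  have hθ1 := (hlog n₀).trans (by linarith : _ ≤ θ)
  have hθ2 := (hlog D).trans (by
    have h1 : Real.log ((D : ℝ) + 1) ≤ D := by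
      have := Real.log_le_sub_one_of_pos (by linarith : (0 : ℝ) < D + 1)
      linarith
    linarith : _ ≤ θ)
  have hE0 : 0 < Pe rr E' := by linarith
  have k1 : ∀ ω, 0 < p ω → tdg W0 Pp (K2S.Fam.pt F ω) < 2 ^ (Pp - W0) := fun ω _ =>
    Nat.mod_lt _ (by positivity)
  have k2 : ∀ ω, 0 < p ω → ∀ o, |zsw c₁ r W1 sg (K2S.Fam.pt F ω) o -
      (avp c₁ r W0 W1 sg (slam F W0 ω) o + (tdg W0 Pp (K2S.Fam.pt F ω) : ℝ) *
        (bvw c₁ r sg (slam F W0 ω) o / ((2 ^ (Pp - W1) : ℕ) : ℝ)))| ≤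
      clC r kap L / ((2 ^ (Pp - W1) : ℕ) : ℝ) := by
    intro ω hω o
    have h1 := near_p (F := F) c₁ r W0 W1 Pp sg H.W01 H.WP H.PJ ω o
    have h2 : (tdg W0 Pp (K2S.Fam.pt F ω) : ℝ) *
        (bvw c₁ r sg (slam F W0 ω) o / ((2 ^ (Pp - W1) : ℕ) : ℝ)) =
        (tdg W0 Pp (ptr F J ω) : ℝ) / ((2 ^ (Pp - W1) : ℕ) : ℝ) * bvw c₁ r sg (slam F W0 ω) o := by
      rw [mul_div_assoc', div_mul_eq_mul_div]
      rfl
    rw [h2]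
    refine h1.trans (div_le_div_of_nonneg_right hC₀ hM0.le)
  have k3 : ∀ v, 0 < cp p (slam F W0) v → E' v → Gd v.1 ∧ Gd v.2 := fun v _ hv => by
    rw [hE'] at hv
    exact hv.2
  have k4 : ∀ v, 0 < cp p (slam F W0) v → E' v → ∃ i, ∀ u ∈ ucube (r + 1),
      |eval (cpt (chiw r W0 W1 Pp q g0 ρ P0 (z0 (K2S.Fam.pt F v.2))
          (ciw c₀ r W0 W1 Pp q g0 P0 z0 (K2S.Fam.pt F v.2))) u)
        (toF (r + 1) W1 (P1 (z1 (K2S.Fam.pt F v.2), z0 (K2S.Fam.pt F v.2)).1 (r + 1))) -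
        a (z1 (K2S.Fam.pt F v.1), z0 (K2S.Fam.pt F v.1))
          (ciw c₀ r W0 W1 Pp q g0 P0 z0 (K2S.Fam.pt F v.2)) i u| ≤ β := by
    intro v hv hEv
    rw [hE'] at hEv
    have h1 := cp_pos hp0 hv
    refine hgeo v.swap ?_ hEv.1
    rw [P2_pos hpl]
    exact ⟨h1.2.1, h1.1, h1.2.2.symm⟩
  have k5 : clC r kap L / ((2 ^ (Pp - W1) : ℕ) : ℝ) + s₀ ≤
      C₁ * Real.exp h * (1 + L) * u₀ := by
    rw [← hh₀]
    exact fn_s hC₁ hexp hL0 hu₀0.le hsu hhs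
  have k6 : 0 ≤ C₁ * (ρq + h₀) / s₀ := by positivity
  have k7 : 0 ≤ C₂ * Real.exp h := by positivity
  have k8 : C₃ * (clC r kap L / ((2 ^ (Pp - W1) : ℕ) : ℝ) + β₁) ≤ fl * s₀ := by
    rw [← hh₀]
    exact (mul_le_mul_of_nonneg_right hC3 (by positivity)).trans hflβ
  have k9 : C₁ * (ρq + h₀) / s₀ * (C₂ * Real.exp h) ≤ fl := by
    refine le_trans ?_ hflρ
    have h1 : C₁ * (ρq + h₀) / s₀ * (C₂ * Real.exp h) =
        C₁ * C₂ * (Real.exp h * (ρq + h₀) / s₀) := by ring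
    have h2 : C * Real.exp h * (ρq + h₀) / s₀ = C * (Real.exp h * (ρq + h₀) / s₀) := by ring
    rw [h1, h2]
    exact mul_le_mul_of_nonneg_right hC12 (by positivity)
  have k10 : C₃ * (Real.exp h * R ^ (2 * D) * (C₂ * Real.exp h) *
      (C₁ * Real.exp h * (1 + L) * u₀ / β₁) ^ D * (C₁ * (ρq + h₀) / s₀ +
        (clC r kap L / ((2 ^ (Pp - W1) : ℕ) : ℝ) + β) / s₀)) < 1 := by
    rw [← hh₀]
    have e1 : C₁ * Real.exp h * (1 + L) * u₀ / β₁ =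
        C₁ * (Real.exp h * (1 + L) * u₀ / β₁) := by ring
    rw [e1]
    exact fn_main (by linarith only [hC₁]) hC₂ hC₃ hCm hexp0.le (by positivity) (by positivity)
      hρq hh₀0.le hs₀ hβ.le hsm
  have k11 : C₃ * fl < CLO37.sg (C₃ * (Real.exp h * R ^ D) ^ 2 / ε)
      (nmb (Option (Fin (r + 1))) D) := by
    refine lt_of_le_of_lt (mul_le_mul_of_nonneg_right hC3 hfl0.le) (hflsg.trans_le ?_)
    unfold CLO37.sg
    refine one_div_le_one_div_of_le (by positivity) ?_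
    refine pow_le_pow_left₀ (by positivity) ?_ _
    refine div_le_div_of_nonneg_right ?_ hε.le
    exact mul_le_mul_of_nonneg_right hC3 (by positivity)
  have k12 : 16 * (θ + e₀ + 1) ≤
      (Real.log R - Real.log (2 * (D + 1))) * Pe (cp p (slam F W0)) E' := by
    rw [← hrr]
    exact fn_R hθ0 he₀0 hc0 hc1 hpr1 hE1
  have k13 : 32 * D * θ + C₃ * ((N + 1) * (e₁ + 1) + μ) ≤ h * Pe (cp p (slam F W0)) E' := by
    rw [← hrr]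
    exact fn_h (by linarith only [hC16, hC₃0]) hX hh.le hpr2 hE1
  have hE0' : 0 < Pe (cp p (slam F W0)) E' := by
    rw [← hrr]
    exact hE0
  have hC₀1 : 1 ≤ clC r kap L := by linarith only [hC₀]
  subst hh₀
  have hfin := Hclo (C₀ := clC r kap L) (Ω := F.Ω) (Λ := LnT F) (Λ₀ := LnT F) (Ξ := PtT F)
    (Z := V1 × V0) (Z₀ := V0) (Ci := Fin (r + 1) → ℤ) (p := p) (lam := slam F W1)
    (lam₀ := slam F W0) (x := K2S.Fam.pt F) (T := tdg W1 Pp) (T₀ := tdg W0 Pp)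
    (z := zsw c₁ r W1 sg) (A := avw c₁ r W1 sg) (B := bvw c₁ r sg)
    (A₀ := avp c₁ r W0 W1 sg)
    (B₀ := fun l i => bvw c₁ r sg l i / ((2 ^ (Pp - W1) : ℕ) : ℝ))
    (zx := fun ξ => (z1 ξ, z0 ξ)) (zl := zl) (Yb := fun ξ => ybw c₁ r W1 Pp g1 (P1 (z1 ξ)) ξ)
    (Ng := fun _ => ngw W1 Pp g1 (r + 1)) (Φ := fun v : V1 × V0 => chw (r + 1) W1 Pp g1 (P1 v.1))
    (M := 2 ^ (Pp - W1)) (M₀ := 2 ^ (Pp - W0)) (N := N) (NC := (2 ^ (q + 1) + 3) ^ (r + 1))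
    (n₀ := n₀) (μ := μ) (e₁ := e₁) (e₀ := e₀) (h := h) (R := R) (a := a) (E := E')
    (β := β) (β₁ := β₁) (fl := fl) (ε := ε) (θ := θ)
    hC₀1 Nat.one_le_two_pow hcl hmx hμ he₁ he₁0 hh hG k1 k2 he₀ he₀0 k3 k4 hβ hββ hs₀ k5 k6 k7
    hR hRM hfl1 k8 k9 k10 hε hε1 k11 hθ1 hθ2 hE0' k12 k13
  obtain ⟨vx, vl, B', hB1, hB2⟩ := hfin
  refine ⟨vx, vl, B', ?_, fun ω hω => ?_⟩
  · rw [← hrr] at hB1
    have h1 : 0 ≤ Pe p B' := pe_nonneg' hp0 _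
    have h2 : 16 * C₃ * Pe p B' ≤ C * Pe p B' := mul_le_mul_of_nonneg_right hC16 h1
    have h5 : 0 ≤ C₃ * Pe p B' := by positivity
    linarith only [hB1, hE1, h2, h5, hc0]
  · obtain ⟨h1, h2, h3, h4⟩ := hB2 ω hω
    exact ⟨h1, h2, h3, h4.trans (mul_le_mul_of_nonneg_right hC3 hε.le)⟩

end Pool.CLO37
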