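import Pool.Agent.H37.CLO.Lne
import Pool.Agent.H37.CLO.Clu
import Pool.Agent.H37.M3F.Lab

/-!
# The code of a point: its cell and the rounded leaf over the cell
-/

set_option autoImplicit false

namespace Pool.CLO37

open Finset Real
open Pool.Agent.H49.Ent Pool.Agent.H32.Dense Pool.STK Pool.KAF Pool.KAL Pool.KS3 Pool.M3F
open Pool.KJA Pool.KA Pool.K2S

/-- **The geometry of the leaves and of the cells.** The leaf `v = zx ξ` of the short line is the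
graph of `gN v`; `ζ ξ` is the label of the long line, `ci ξ` the index of the cell of the point,
`χ` the chart of the cell; `Q v` is an equation of the leaf. `Gd`: the good samples. -/
structure GeoOK {Ω Λ₀ Ξ Z Z₀ Ci : Type} {d : ℕ} (p : Ω → ℝ) (lam₀ : Ω → Λ₀) (x : Ω → Ξ)
    (z : Ξ → Option (Fin d) → ℝ) (zx : Ξ → Z)
    (Φ : Z → Option (Fin d) → MvPolynomial (Fin d) ℝ) (h₀ : ℝ) (ζ : Ξ → Z₀) (ζl : Λ₀ → Z₀)
    (pz : Z → Z₀) (ci : Ξ → Ci) (χ : Z₀ → Ci → Fin d → MvPolynomial (Fin d) ℝ)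
    (gN : Z → MvPolynomial (Fin d) ℝ) (Q : Z → MvPolynomial (Option (Fin d)) ℝ) (MB : Z → ℝ)
    (g₀ : Z₀ → (Fin d → ℝ) → ℝ) (Gd : Ω → Prop) (k₁ D NC : ℕ) (s₀ s₁ ρ H₁ : ℝ) : Prop where
  cls : ∀ ω, 0 < p ω → ζ (x ω) = ζl (lam₀ ω)
  fac : ∀ ω, 0 < p ω → ζ (x ω) = pz (zx (x ω))
  degN : ∀ ω, 0 < p ω → (gN (zx (x ω))).totalDegree ≤ k₁
  degχ : ∀ ω, 0 < p ω → ∀ i, (χ (ζ (x ω)) (ci (x ω)) i).totalDegree ≤ k₁
  own : ∀ ω, 0 < p ω → ∃ u ∈ ucube d, cpt (χ (ζ (x ω)) (ci (x ω))) u = bse (z (x ω))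
  pos : ∀ ω, 0 < p ω → |z (x ω) none - MvPolynomial.eval (bse (z (x ω))) (gN (zx (x ω)))| ≤ h₀
  card : ∀ z₀ : Z₀, ∃ S : Finset Ci, S.card ≤ NC ∧ ∀ ω, 0 < p ω → ζ (x ω) = z₀ → ci (x ω) ∈ S
  QD : ∀ v, (Q v).totalDegree ≤ D
  ins : ∀ ω, 0 < p ω → Gd ω → ∀ u ∈ ucube d, ∃ u' ∈ ucube d, cpt (Φ (zx (x ω))) u' =
    lpt (gN (zx (x ω))) (cpt (χ (ζ (x ω)) (ci (x ω))) u)
  Q0 : ∀ ω, 0 < p ω → Gd ω → Q (zx (x ω)) ≠ 0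
  MBp : ∀ ω, 0 < p ω → Gd ω → 0 < MB (zx (x ω))
  eq : ∀ ω, 0 < p ω → Gd ω → ∀ u ∈ ucube d,
    Psi (Q (zx (x ω))) h₀ (cpt (Φ (zx (x ω))) u) ≤ ρ * MB (zx (x ω))
  upp : ∀ ω, 0 < p ω → Gd ω → ∀ u ∈ ucube d,
    Psi (Q (zx (x ω))) s₀ (cpt (Φ (zx (x ω))) u) ≤ MB (zx (x ω))
  low : ∀ ω, 0 < p ω → Gd ω → MB (zx (x ω)) ≤ H₁ * Psi (Q (zx (x ω))) s₀ (z (x ω))
  spr : ∀ ω, 0 < p ω → Gd ω → ∀ u ∈ ucube d,
    |MvPolynomial.eval (cpt (χ (ζ (x ω)) (ci (x ω))) u) (gN (zx (x ω))) -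
      g₀ (ζ (x ω)) (cpt (χ (ζ (x ω)) (ci (x ω))) u)| ≤ s₁ / 2
  lip : ∀ ω, 0 < p ω → Gd ω → ∀ y : Fin d → ℝ, (∀ i, |y i - bse (z (x ω)) i| ≤ s₀) →
    |MvPolynomial.eval y (gN (zx (x ω))) -
      MvPolynomial.eval (bse (z (x ω))) (gN (zx (x ω)))| ≤ s₁ / 4
  cov : ∀ ω, 0 < p ω → Gd ω → ∀ y : Fin d → ℝ, (∀ i, |y i - bse (z (x ω)) i| ≤ s₀) →
    ∃ u : Fin d → ℝ, (∀ i, |u i| ≤ 2) ∧ cpt (χ (ζ (x ω)) (ci (x ω))) u = y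

/-- The code: the label, the cell, the rounded values of the leaf on a grid of the cell. -/
noncomputable def kap {Ξ Z Z₀ Ci : Type} {d : ℕ} (zx : Ξ → Z) (ζ : Ξ → Z₀) (ci : Ξ → Ci)
    (χ : Z₀ → Ci → Fin d → MvPolynomial (Fin d) ℝ) (gN : Z → MvPolynomial (Fin d) ℝ) (K₂ : ℕ)
    (β : ℝ) (ξ : Ξ) : Z₀ × Ci × ((Fin d → Fin (K₂ + 1)) → ℤ) :=
  (ζ ξ, ci ξ, fun a => ⌊MvPolynomial.eval (cpt (χ (ζ ξ) (ci ξ)) (grp K₂ a)) (gN (zx ξ)) / β⌋)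

section

variable {Ω Λ₀ Ξ Z Z₀ Ci : Type} [Fintype Ω] {d : ℕ} {p : Ω → ℝ} {lam₀ : Ω → Λ₀} {x : Ω → Ξ}
  {z : Ξ → Option (Fin d) → ℝ} {zx : Ξ → Z}
  {Φ : Z → Option (Fin d) → MvPolynomial (Fin d) ℝ} {h₀ : ℝ} {ζ : Ξ → Z₀} {ζl : Λ₀ → Z₀}
  {pz : Z → Z₀} {ci : Ξ → Ci} {χ : Z₀ → Ci → Fin d → MvPolynomial (Fin d) ℝ}
  {gN : Z → MvPolynomial (Fin d) ℝ} {Q : Z → MvPolynomial (Option (Fin d)) ℝ} {MB : Z → ℝ}
  {g₀ : Z₀ → (Fin d → ℝ) → ℝ} {Gd : Ω → Prop} {k₁ D NC : ℕ} {s₀ s₁ ρ H₁ : ℝ}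

omit [Fintype Ω] in
lemma abs_le_floor {a b β : ℝ} (hβ : 0 < β) (h : ⌊a / β⌋ = ⌊b / β⌋) : |a - b| ≤ β := by
  have h1 := Int.floor_le (a / β)
  have h2 := Int.lt_floor_add_one (a / β)
  have h3 := Int.floor_le (b / β)
  have h4 := Int.lt_floor_add_one (b / β)
  rw [h] at h1 h2
  have h5 : |a / β - b / β| ≤ 1 := by
    rw [abs_le]
    constructor <;> linarith
  rw [← sub_div, abs_div, abs_of_pos hβ, div_le_one hβ] at h5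
  exact h5

/-- Two samples with the same code have the same leaf over the cell, up to the rounding. -/
theorem kap_near (d k₁ : ℕ) : ∃ Kg : ℝ, 1 ≤ Kg ∧
    ∀ {Ω Λ₀ Ξ Z Z₀ Ci : Type} [Fintype Ω] {p : Ω → ℝ} {lam₀ : Ω → Λ₀} {x : Ω → Ξ}
      {z : Ξ → Option (Fin d) → ℝ} {zx : Ξ → Z}
      {Φ : Z → Option (Fin d) → MvPolynomial (Fin d) ℝ} {h₀ : ℝ} {ζ : Ξ → Z₀} {ζl : Λ₀ → Z₀}
      {pz : Z → Z₀} {ci : Ξ → Ci} {χ : Z₀ → Ci → Fin d → MvPolynomial (Fin d) ℝ}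
      {gN : Z → MvPolynomial (Fin d) ℝ} {Q : Z → MvPolynomial (Option (Fin d)) ℝ} {MB : Z → ℝ}
      {g₀ : Z₀ → (Fin d → ℝ) → ℝ} {Gd : Ω → Prop} {D NC : ℕ} {s₀ s₁ ρ H₁ β : ℝ},
      GeoOK p lam₀ x z zx Φ h₀ ζ ζl pz ci χ gN Q MB g₀ Gd k₁ D NC s₀ s₁ ρ H₁ → 0 < β →
      ∀ ω ω', 0 < p ω → Gd ω → 0 < p ω' →
        kap zx ζ ci χ gN (k₁ * k₁) β (x ω') = kap zx ζ ci χ gN (k₁ * k₁) β (x ω) →
        (∀ u ∈ ucube d, |MvPolynomial.eval (cpt (χ (ζ (x ω)) (ci (x ω))) u) (gN (zx (x ω'))) -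
          MvPolynomial.eval (cpt (χ (ζ (x ω)) (ci (x ω))) u) (gN (zx (x ω)))| ≤ Kg * β) ∧
        ∃ u ∈ ucube d, ∀ o, |z (x ω') o - cpt (Φ (zx (x ω))) u o| ≤ h₀ + Kg * β := by
  classical
  obtain ⟨Kg, hKg, H⟩ := grd_coef (Fin d) (k₁ * k₁)
  refine ⟨Kg, hKg, ?_⟩
  intro Ω Λ₀ Ξ Z Z₀ Ci _ p lam₀ x z zx Φ h₀ ζ ζl pz ci χ gN Q MB g₀ Gd D NC s₀ s₁ ρ H₁ β hG hβ
    ω ω' hω hgω hω' hκ
  have e1 : ζ (x ω') = ζ (x ω) := (Prod.ext_iff.1 hκ).1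
  have e2 : ci (x ω') = ci (x ω) := (Prod.ext_iff.1 (Prod.ext_iff.1 hκ).2).1
  have e3 := (Prod.ext_iff.1 (Prod.ext_iff.1 hκ).2).2
  have hdiff : ∀ u ∈ ucube d, |MvPolynomial.eval (cpt (χ (ζ (x ω)) (ci (x ω))) u)
      (gN (zx (x ω'))) - MvPolynomial.eval (cpt (χ (ζ (x ω)) (ci (x ω))) u)
        (gN (zx (x ω)))| ≤ Kg * β := by
    intro u hu
    obtain ⟨P, hP⟩ : ∃ P : MvPolynomial (Fin d) ℝ, P =
      MvPolynomial.bind₁ (χ (ζ (x ω)) (ci (x ω))) (gN (zx (x ω')) - gN (zx (x ω))) := ⟨_, rfl⟩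
    have hev : ∀ u, MvPolynomial.eval u P =
        MvPolynomial.eval (cpt (χ (ζ (x ω)) (ci (x ω))) u) (gN (zx (x ω'))) -
        MvPolynomial.eval (cpt (χ (ζ (x ω)) (ci (x ω))) u) (gN (zx (x ω))) := by
      intro u
      rw [hP, Pool.M3F.eval_bind, map_sub]
    have hPd : P.totalDegree ≤ k₁ * k₁ := by
      rw [hP]
      refine (SML.totalDegree_bind_le _ k₁ (hG.degχ ω hω) _).trans ?_
      refine Nat.mul_le_mul_left _ ?_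
      exact (MvPolynomial.totalDegree_sub _ _).trans (max_le (hG.degN ω' hω') (hG.degN ω hω))
    have h1 := H P β hPd fun a => by
      rw [hev]
      refine abs_le_floor hβ ?_
      have := congrFun e3 a
      dsimp only [kap] at this
      rw [e1, e2] at this
      exact this
    rw [← hev]
    refine (abs_eval_le_coefSum P u fun i => ?_).trans h1
    rw [abs_of_nonneg (hu i).1]
    exact (hu i).2
  refine ⟨hdiff, ?_⟩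
  obtain ⟨u, hu, hub⟩ := hG.own ω' hω'
  rw [e1, e2] at hub
  obtain ⟨u', hu', hu'Φ⟩ := hG.ins ω hω hgω u hu
  refine ⟨u', hu', fun o => ?_⟩
  rw [hu'Φ]
  have hh₀ : 0 ≤ h₀ := (abs_nonneg _).trans (hG.pos ω hω)
  have hKβ : 0 ≤ Kg * β := by positivity
  cases o with
  | some i =>
    change |z (x ω') (some i) - cpt (χ (ζ (x ω)) (ci (x ω))) u i| ≤ _
    have : z (x ω') (some i) = cpt (χ (ζ (x ω)) (ci (x ω))) u i := by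
      rw [hub]
      rfl
    rw [this, sub_self, abs_zero]
    linarith
  | none =>
    change |z (x ω') none - MvPolynomial.eval (cpt (χ (ζ (x ω)) (ci (x ω))) u)
      (gN (zx (x ω)))| ≤ _
    have h1 := hdiff u hu
    have h2 := hG.pos ω' hω'
    rw [← hub] at h2
    have e4 : z (x ω') none - MvPolynomial.eval (cpt (χ (ζ (x ω)) (ci (x ω))) u) (gN (zx (x ω))) =
        (z (x ω') none - MvPolynomial.eval (cpt (χ (ζ (x ω)) (ci (x ω))) u) (gN (zx (x ω')))) +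
        (MvPolynomial.eval (cpt (χ (ζ (x ω)) (ci (x ω))) u) (gN (zx (x ω'))) -
        MvPolynomial.eval (cpt (χ (ζ (x ω)) (ci (x ω))) u) (gN (zx (x ω)))) := by ring
    rw [e4]
    exact (abs_add_le _ _).trans (add_le_add h2 h1)

end

end Pool.CLO37
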