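import Pool.Agent.H37.CLO.Aub

/-!
# The greedy element of a norm

`Free ν σ B`: the norm `ν` is at least `σ` times the maximum norm on the span of the basis vectors
`i ∈ B`. `grd`: if not everything is free there are a free set `B` and `j ∉ B` such that
`insert j B` is not free at the next threshold. `grd_el`: the element `e_j + u`, `u` in the span of
`B`, of small norm; `grd_uniq`: it is unique up to a small error.
-/

set_option autoImplicit false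

namespace Pool.CLO37

open Finset

variable {M : ℕ}

/-- The norm is at least `σ` times the maximum norm on the span of the basis vectors in `B`. -/
def Free (ν : (Fin M → ℝ) → ℝ) (σ : ℝ) (B : Finset (Fin M)) : Prop :=
  ∀ v : Fin M → ℝ, (∀ i ∉ B, v i = 0) → σ * ‖v‖ ≤ ν v

theorem grd {ν : (Fin M → ℝ) → ℝ} (h : Nrm ν) (σ : ℕ → ℝ) (hM : ¬ Free ν (σ M) univ) :
    ∃ (k : ℕ) (B : Finset (Fin M)) (j : Fin M), k < M ∧ j ∉ B ∧ Free ν (σ k) B ∧
      ¬ Free ν (σ (k + 1)) (insert j B) := by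
  classical
  obtain ⟨P, hP⟩ : ∃ P : ℕ → Prop, P = fun k => ∃ B : Finset (Fin M), B.card = k ∧
    Free ν (σ k) B := ⟨_, rfl⟩
  have h0 : P 0 := by
    rw [hP]
    refine ⟨∅, rfl, fun v hv => ?_⟩
    have : v = 0 := funext fun i => hv i (by simp)
    rw [this, norm_zero, mul_zero, h.zero]
  have h1 : ¬ P M := by
    rw [hP]
    rintro ⟨B, hB, hf⟩
    have : B = univ := by
      rw [← Finset.card_eq_iff_eq_univ, hB, Fintype.card_fin]
    rw [this] at hf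
    exact hM hf
  have h2 : ∃ k, k < M ∧ P k ∧ ¬ P (k + 1) := by
    by_contra hcon
    push Not at hcon
    have h3 : ∀ k ≤ M, P k := by
      intro k
      induction k with
      | zero => exact fun _ => h0
      | succ k ih => exact fun hk => hcon k (by omega) (ih (by omega))
    exact h1 (h3 M le_rfl)
  obtain ⟨k, hk, hPk, hPk1⟩ := h2
  rw [hP] at hPk hPk1
  obtain ⟨B, hB, hf⟩ := hPk
  obtain ⟨j, hj⟩ : ∃ j, j ∉ B := by
    by_contra hcon
    push Not at hcon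
    have : B = univ := Finset.eq_univ_iff_forall.2 hcon
    rw [this, Finset.card_univ, Fintype.card_fin] at hB
    omega
  refine ⟨k, B, j, hk, hj, hf, fun hf' => hPk1 ⟨insert j B, ?_, hf'⟩⟩
  rw [Finset.card_insert_of_notMem hj, hB]

/-- The coefficient vector has the form `e_j + u` with `u` in the span of `B`. -/
def Frm (B : Finset (Fin M)) (j : Fin M) (v : Fin M → ℝ) : Prop :=
  v j = 1 ∧ ∀ i ∉ B, i ≠ j → v i = 0

theorem Frm.one_le {B : Finset (Fin M)} {j : Fin M} {v : Fin M → ℝ} (h : Frm B j v) :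
    1 ≤ ‖v‖ := by
  have := norm_le_pi_norm v j
  rwa [h.1, norm_one] at this

theorem grd_el {ν : (Fin M → ℝ) → ℝ} (h : Nrm ν) {C₀ σ σ' : ℝ} (hC : ∀ v, ν v ≤ C₀ * ‖v‖)
    (hC₀ : 1 ≤ C₀) (hσ0 : 0 < σ) (hσ1 : σ ≤ 1) (hσ' : 0 ≤ σ') (hσσ : σ' ≤ σ / 2)
    {B : Finset (Fin M)} {j : Fin M} (hf : Free ν σ B)
    (hnf : ¬ Free ν σ' (insert j B)) :
    ∃ v, Frm B j v ∧ ν v ≤ 2 * C₀ * σ' / σ ∧ ‖v‖ ≤ 2 * C₀ / σ := by
  classical
  unfold Free at hnf
  push Not at hnf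
  obtain ⟨v, hv, hlt⟩ := hnf
  obtain ⟨w, hw⟩ : ∃ w : Fin M → ℝ, w = v - Pi.single j (v j) := ⟨_, rfl⟩
  have hwj : w j = 0 := by rw [hw]; simp
  have hwB : ∀ i ∉ B, w i = 0 := by
    intro i hi
    rcases eq_or_ne i j with h1 | h1
    · rw [h1, hwj]
    · rw [hw, Pi.sub_apply, Pi.single_eq_of_ne h1, sub_zero]
      exact hv i (by simp [h1, hi])
  have h1 : σ * ‖w‖ ≤ ν w := hf w hwB
  have hs : ν (Pi.single j (v j)) ≤ C₀ * |v j| := by
    refine (hC _).trans ?_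
    rw [Pi.norm_single, Real.norm_eq_abs]
  have h2 : ν w ≤ ν v + C₀ * |v j| := by
    rw [hw]
    exact (h.sub _ _).trans (by linarith)
  have h3 : ‖v‖ ≤ max |v j| ‖w‖ := by
    rw [pi_norm_le_iff_of_nonneg (le_max_of_le_left (abs_nonneg _))]
    intro i
    rcases eq_or_ne i j with h4 | h4
    · rw [h4, Real.norm_eq_abs]
      exact le_max_left _ _
    · refine le_trans ?_ (le_max_right _ _)
      have : v i = w i := by rw [hw, Pi.sub_apply, Pi.single_eq_of_ne h4, sub_zero]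
      rw [this]
      exact norm_le_pi_norm w i
  have hCσ : 1 ≤ 2 * C₀ / σ := by
    rw [le_div_iff₀ hσ0]
    linarith
  have h4 : ‖v‖ ≤ 2 * C₀ / σ * |v j| := by
    rcases le_total ‖w‖ |v j| with h5 | h5
    · refine h3.trans ?_
      rw [max_eq_left h5]
      nlinarith [abs_nonneg (v j)]
    · rw [max_eq_right h5] at h3
      have h6 : σ * ‖w‖ ≤ σ' * ‖w‖ + C₀ * |v j| := by
        have : σ' * ‖v‖ ≤ σ' * ‖w‖ := mul_le_mul_of_nonneg_left h3 hσ'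
        linarith
      have h7 : σ / 2 * ‖w‖ ≤ C₀ * |v j| := by
        have : σ' * ‖w‖ ≤ σ / 2 * ‖w‖ := mul_le_mul_of_nonneg_right hσσ (norm_nonneg _)
        linarith
      refine h3.trans ?_
      rw [div_mul_eq_mul_div, le_div_iff₀ hσ0]
      linarith
  have hvj : v j ≠ 0 := by
    intro h5
    rw [h5, abs_zero, mul_zero] at h4
    have h6 : ‖v‖ = 0 := le_antisymm h4 (norm_nonneg _)
    rw [h6, mul_zero] at hlt
    exact absurd (h.nonneg v) (not_le.2 hlt)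
  have hvj0 : 0 < |v j| := abs_pos.2 hvj
  refine ⟨(v j)⁻¹ • v, ⟨?_, fun i hi hij => ?_⟩, ?_, ?_⟩
  · rw [Pi.smul_apply, smul_eq_mul, inv_mul_cancel₀ hvj]
  · rw [Pi.smul_apply, hv i (by simp [hij, hi]), smul_zero]
  · rw [h.smul, abs_inv, inv_mul_le_iff₀ hvj0]
    refine hlt.le.trans ?_
    calc σ' * ‖v‖ ≤ σ' * (2 * C₀ / σ * |v j|) := mul_le_mul_of_nonneg_left h4 hσ'
      _ = |v j| * (2 * C₀ * σ' / σ) := by ring
  · rw [norm_smul, norm_inv, Real.norm_eq_abs, inv_mul_le_iff₀ hvj0]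
    linarith

theorem grd_uniq {ν : (Fin M → ℝ) → ℝ} (h : Nrm ν) {σ ε ε' : ℝ} (hσ : 0 < σ)
    {B : Finset (Fin M)} {j : Fin M} (hf : Free ν σ B) {v w : Fin M → ℝ}
    (hv : Frm B j v) (hw : Frm B j w) (h1 : ν v ≤ ε) (h2 : ν w ≤ ε') :
    ‖v - w‖ ≤ (ε + ε') / σ := by
  have h3 : σ * ‖v - w‖ ≤ ν (v - w) := by
    refine hf _ fun i hi => ?_
    rcases eq_or_ne i j with h4 | h4
    · rw [h4, Pi.sub_apply, hv.1, hw.1, sub_self]
    · rw [Pi.sub_apply, hv.2 i hi h4, hw.2 i hi h4, sub_zero]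
  rw [le_div_iff₀ hσ]
  have := h.sub v w
  linarith

/-- **The common element of two norms.** The point side has the norm `νx`, the line side the norm
`νl`; they are equal up to the factor `H`; `(k, B, j)` is the choice of the line side. -/
theorem grd_two {νx νl : (Fin M → ℝ) → ℝ} (hl : Nrm νl) {C₀ H σ σ' : ℝ}
    (hC : ∀ v, νl v ≤ C₀ * ‖v‖) (hC₀ : 1 ≤ C₀) (hH : 1 ≤ H) (hσ0 : 0 < σ) (hσ1 : σ ≤ 1)
    (hσ' : 0 ≤ σ') (hσσ : σ' ≤ σ / 2) {B : Finset (Fin M)} {j : Fin M}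
    (hf : Free νl σ B) (hnf : ¬ Free νl σ' (insert j B))
    (hxl : ∀ v, νx v ≤ H * νl v) (hlx : ∀ v, νl v ≤ H * νx v) :
    (∃ v, Frm B j v ∧ νl v ≤ 2 * C₀ * σ' / σ ∧ ‖v‖ ≤ 2 * C₀ / σ) ∧
    (∃ v, Frm B j v ∧ νx v ≤ H * (2 * C₀ * σ' / σ) ∧ ‖v‖ ≤ 2 * C₀ / σ) ∧
    ∀ v w, Frm B j v → Frm B j w → νl v ≤ 2 * C₀ * σ' / σ → νx w ≤ H * (2 * C₀ * σ' / σ) →
      ‖v - w‖ ≤ (1 + H * H) * (2 * C₀ * σ' / σ) / σ := by
  obtain ⟨v, h1, h2, h3⟩ := grd_el hl hC hC₀ hσ0 hσ1 hσ' hσσ hf hnf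
  refine ⟨⟨v, h1, h2, h3⟩, ⟨v, h1, (hxl v).trans (mul_le_mul_of_nonneg_left h2 (by linarith)), h3⟩,
    fun v w hv hw h4 h5 => ?_⟩
  have h6 : νl w ≤ H * (H * (2 * C₀ * σ' / σ)) :=
    (hlx w).trans (mul_le_mul_of_nonneg_left h5 (by linarith))
  refine (grd_uniq hl hσ0 hf hv hw h4 h6).trans (le_of_eq ?_)
  ring

end Pool.CLO37
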