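import Pool.Agent.H37.CLO.Rev

/-!
# The reverse count
-/

set_option autoImplicit false

namespace Pool.CLO37

open Finset Real
open Pool.Agent.H49.Ent Pool.Agent.H32.Dense Pool.STK Pool.KAF Pool.KAL Pool.KS3 Pool.M3F
open Pool.KJA Pool.KA Pool.K2S

/-- **The reverse count**: given the label of the second sample and the cell, the leaves of the
first samples over the cell form few clusters. -/
theorem rev_cnt (d D k₁ : ℕ) : ∃ Kr : ℝ, 1 ≤ Kr ∧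
    ∀ {Ω Λ₀ Ξ Z Z₀ Ci : Type} [Fintype Ω] {p : Ω → ℝ} {lam₀ : Ω → Λ₀} {x : Ω → Ξ}
      {z : Ξ → Option (Fin d) → ℝ} {zx : Ξ → Z}
      {Φ : Z → Option (Fin d) → MvPolynomial (Fin d) ℝ} {h₀ : ℝ} {ζ : Ξ → Z₀} {ζl : Λ₀ → Z₀}
      {pz : Z → Z₀} {ci : Ξ → Ci} {χ : Z₀ → Ci → Fin d → MvPolynomial (Fin d) ℝ}
      {gN : Z → MvPolynomial (Fin d) ℝ} {Q : Z → MvPolynomial (Option (Fin d)) ℝ} {MB : Z → ℝ}
      {g₀ : Z₀ → (Fin d → ℝ) → ℝ} {Gd : Ω → Prop} {NC : ℕ} {s₀ s₁ ρ H₁ β γ Hl : ℝ}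
      {E : Ω × Ω → Prop},
      IsLaw p → GeoOK p lam₀ x z zx Φ h₀ ζ ζl pz ci χ gN Q MB g₀ Gd k₁ D NC s₀ s₁ ρ H₁ → 0 < β →
      0 ≤ h₀ → 0 ≤ s₀ → 0 < s₁ → h₀ + s₀ ≤ s₁ → 0 ≤ γ → 0 ≤ Hl →
      Hl * (Kr * (s₁ / β) ^ D * γ) < 1 →
      (∀ v, 0 < cp p lam₀ v → E v → Gd v.1 ∧ Gd v.2) →
      (∀ v, 0 < cp p lam₀ v → E v → ∀ u ∈ ucube d, |MvPolynomial.eval (lpt (gN (zx (x v.1)))
        (cpt (χ (ζ (x v.1)) (ci (x v.1))) u)) (Q (zx (x v.2)))| ≤ γ * MB (zx (x v.2))) →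
      (∀ v, 0 < cp p lam₀ v → E v →
        MB (zx (x v.2)) ≤ Hl * Psi (Q (zx (x v.2))) s₀ (z (x v.1))) →
      ∀ K₂ : ℕ, CH (cp p lam₀) (cod x (kap zx ζ ci χ gN K₂ β) E Prod.fst) (fun v => zx (x v.2)) ≤
        Real.log (NC * (D * 3 ^ Fintype.card (Fin d → Fin (K₂ + 1))) + 1) := by
  classical
  obtain ⟨Kr, hKr, H⟩ := rev_sep d D k₁
  refine ⟨Kr, hKr, ?_⟩
  intro Ω Λ₀ Ξ Z Z₀ Ci _ p lam₀ x z zx Φ h₀ ζ ζl pz ci χ gN Q MB g₀ Gd NC s₀ s₁ ρ H₁ β γ Hl E hp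
    hG hβ hh₀ hs₀ hs₁ hhs hγ hHl hsm hgood hleaf hlow K₂
  have hp0 := hp.nonneg
  have hne : Nonempty Ω := by
    by_contra hcon
    rw [not_nonempty_iff] at hcon
    have := hp.sum_one
    rw [Finset.univ_eq_empty, Finset.sum_empty] at this
    exact zero_ne_one this
  choose S hS1 hS2 using hG.card
  -- the samples over a cell
  obtain ⟨mem, hmem⟩ : ∃ mem : Z → Ci → Ω → Prop, mem = fun w c ω₁ =>
    ∃ ω₂, 0 < cp p lam₀ (ω₁, ω₂) ∧ E (ω₁, ω₂) ∧ zx (x ω₂) = w ∧ ci (x ω₁) = c := ⟨_, rfl⟩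
  obtain ⟨Sep, hSep⟩ : ∃ Sep : Z → Ci → Ω → Ω → Prop, Sep = fun w c ω ω' => ∃ u ∈ ucube d,
    β < |MvPolynomial.eval (cpt (χ (pz w) c) u) (gN (zx (x ω))) -
      MvPolynomial.eval (cpt (χ (pz w) c) u) (gN (zx (x ω')))| := ⟨_, rfl⟩
  have hcl : ∀ w c, ∃ R : Fin D → Ω, ∀ a ∈ Finset.univ.filter (mem w c), ∃ i,
      ¬ Sep w c a (R i) := by
    intro w c
    refine cluster (Finset.univ.filter (mem w c)) (Sep w c) ?_ ?_ D ?_
    · intro a b hab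
      rw [hSep] at hab ⊢
      obtain ⟨u, hu, h1⟩ := hab
      refine ⟨u, hu, ?_⟩
      rwa [abs_sub_comm]
    · intro a ha
      rw [hSep] at ha
      obtain ⟨u, hu, h1⟩ := ha
      rw [sub_self, abs_zero] at h1
      linarith
    · intro f hf
      by_contra hcon
      push Not at hcon
      have hf1 : ∀ j, mem w c (f j) := fun j => (Finset.mem_filter.1 (hf j)).2
      rw [hmem] at hf1
      choose g hg1 hg2 hg3 hg4 using hf1
      have hpf : ∀ j, 0 < p (f j) := fun j => (cp_pos hp0 (hg1 j)).1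
      have hpg : ∀ j, 0 < p (g j) := fun j => (cp_pos hp0 (hg1 j)).2.1
      have hfg : ∀ j, lam₀ (f j) = lam₀ (g j) := fun j => (cp_pos hp0 (hg1 j)).2.2
      have hζ : ∀ j, ζ (x (f j)) = pz w := by
        intro j
        rw [hG.cls _ (hpf j), hfg, ← hG.cls _ (hpg j), hG.fac _ (hpg j), hg3]
      have hgd : ∀ j, Gd (f j) := fun j => (hgood _ (hg1 j) (hg2 j)).1
      have e1 := H (χ (pz w) c) (fun j => gN (zx (x (f j)))) (Q w) (g₀ (pz w)) (z (x (f 0))) h₀ s₀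
        s₁ β (γ * MB w) (fun i => by
          have := hG.degχ _ (hpf 0) i
          rwa [hζ, hg4] at this) (fun j => hG.degN _ (hpf j)) (hG.QD w) hh₀ hs₀ hs₁ hhs hβ
        (mul_nonneg hγ (by
          have := hG.MBp _ (hpg 0) (hgood _ (hg1 0) (hg2 0)).2
          rw [hg3] at this
          exact this.le)) (fun j u hu => by
          have := hG.spr _ (hpf j) (hgd j) u hu
          rwa [hζ, hg4] at this) (fun j u hu => by
          have := hleaf _ (hg1 j) (hg2 j) u hu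
          simp only at this
          rwa [hζ, hg4, hg3] at this) (fun i j hij => by
          have := hcon i j hij
          rw [hSep] at this
          obtain ⟨u, hu, h1⟩ := this
          exact ⟨u, hu, h1.le⟩) (hG.pos _ (hpf 0)) (hG.lip _ (hpf 0) (hgd 0)) (fun y hy => by
          have := hG.cov _ (hpf 0) (hgd 0) y hy
          rwa [hζ, hg4] at this)
      have e2 := hlow _ (hg1 0) (hg2 0)
      simp only at e2
      rw [hg3] at e2
      have e3 := hG.MBp _ (hpg 0) (hgood _ (hg1 0) (hg2 0)).2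
      rw [hg3] at e3
      have e4 : MB w ≤ Hl * (Kr * (s₁ / β) ^ D * γ) * MB w :=
        calc MB w ≤ Hl * Psi (Q w) s₀ (z (x (f 0))) := e2
          _ ≤ Hl * (Kr * (s₁ / β) ^ D * (γ * MB w)) := mul_le_mul_of_nonneg_left e1 hHl
          _ = _ := by ring
      nlinarith
  choose R hR using hcl
  refine cnt_le (cp_isLaw hp) (kap zx ζ ci χ gN K₂ β) x zx pz Prod.fst Prod.snd E D NC S hS1
    (fun w c i a' => ⌊MvPolynomial.eval (cpt (χ (pz w) c) (grp K₂ a'))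
      (gN (zx (x (R w c i)))) / β⌋) fun v hv hEv => ?_
  obtain ⟨p1, p2, p3⟩ := cp_pos hp0 hv
  have e1 : ζ (x v.1) = pz (zx (x v.2)) := by
    rw [hG.cls _ p1, p3, ← hG.cls _ p2, hG.fac _ p2]
  refine ⟨e1, hS2 _ v.1 p1 e1, ?_⟩
  obtain ⟨i, hi⟩ := hR (zx (x v.2)) (ci (x v.1)) v.1 (Finset.mem_filter.2 ⟨Finset.mem_univ _, by
    rw [hmem]
    exact ⟨v.2, hv, hEv, rfl, rfl⟩⟩)
  rw [hSep] at hi
  push Not at hi
  refine ⟨i, fun a' => floor_near hβ ?_⟩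
  have := hi _ (grp_ucube K₂ a')
  rw [← e1] at this
  simp only [kap]
  rw [← e1]
  exact this

end Pool.CLO37
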