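import Pool.Agent.H37.CLO.Cnt

/-!
# The leaves of the first samples over a cell, given the label of the second one
-/

set_option autoImplicit false

namespace Pool.CLO37

open Finset Real
open Pool.Agent.H49.Ent Pool.Agent.H32.Dense Pool.STK Pool.KAF Pool.KAL Pool.KS3 Pool.M3F
open Pool.KJA Pool.KA Pool.K2S

lemma abs_eval_two {σ : Type} [Fintype σ] (P : MvPolynomial σ ℝ) {k : ℕ} (hk : P.totalDegree ≤ k)
    (y : σ → ℝ) (hy : ∀ i, |y i| ≤ 2) : |MvPolynomial.eval y P| ≤ 2 ^ k * coefSum P := by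
  have h1 := abs_eval_le_Psi_of_near P 2 (by norm_num) (fun _ => 0) y fun i => by
    rw [sub_zero]
    exact hy i
  have h2 := Psi_radius_le P 1 2 (by norm_num) (fun _ => 0)
  rw [one_mul] at h2
  have h3 : Psi P 1 (fun _ => 0) = coefSum P := by
    unfold Psi
    rw [shf_zero_one]
  rw [h3] at h2
  have h4 : (2 : ℝ) ^ P.totalDegree ≤ 2 ^ k := pow_le_pow_right₀ (by norm_num) hk
  exact (h1.trans h2).trans (mul_le_mul_of_nonneg_right h4 (coefSum_nonneg _))

lemma eval_bnd {σ τ : Type} (f : σ → MvPolynomial τ ℝ) (P : MvPolynomial σ ℝ) (x : τ → ℝ) :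
    MvPolynomial.eval x (MvPolynomial.bind₁ f P) =
      MvPolynomial.eval (fun i => MvPolynomial.eval x (f i)) P := by
  induction P using MvPolynomial.induction_on with
  | C a => simp
  | add p q hp hq => simp only [map_add, hp, hq]
  | mul_X p k hp => simp [hp]

section

variable {d : ℕ}

/-- The coordinates of the passage to the leaf `g` over the cell. -/
noncomputable def rvm (χ : Fin d → MvPolynomial (Fin d) ℝ) (g : MvPolynomial (Fin d) ℝ) (s₁ : ℝ)
    (o : Option (Fin d)) : MvPolynomial (Option (Fin d)) ℝ :=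
  o.elim (MvPolynomial.rename some (MvPolynomial.bind₁ χ g) +
    MvPolynomial.C s₁ * MvPolynomial.X none) fun i => MvPolynomial.rename some (χ i)

/-- The equation near the leaf `g` over the cell. -/
noncomputable def rvp (χ : Fin d → MvPolynomial (Fin d) ℝ) (g : MvPolynomial (Fin d) ℝ) (s₁ : ℝ)
    (Q : MvPolynomial (Option (Fin d)) ℝ) : MvPolynomial (Option (Fin d)) ℝ :=
  MvPolynomial.bind₁ (rvm χ g s₁) Q

lemma eval_rename_some (P : MvPolynomial (Fin d) ℝ) (ν : ℝ) (u : Fin d → ℝ) :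
    MvPolynomial.eval (fun o : Option (Fin d) => o.elim ν u) (MvPolynomial.rename some P) =
      MvPolynomial.eval u P := by
  rw [MvPolynomial.eval_rename]
  rfl

lemma eval_rvp (χ : Fin d → MvPolynomial (Fin d) ℝ) (g : MvPolynomial (Fin d) ℝ) (s₁ : ℝ)
    (Q : MvPolynomial (Option (Fin d)) ℝ) (ν : ℝ) (u : Fin d → ℝ) :
    MvPolynomial.eval (fun o : Option (Fin d) => o.elim ν u) (rvp χ g s₁ Q) =
      MvPolynomial.eval (fun o : Option (Fin d) =>
        o.elim (MvPolynomial.eval (cpt χ u) g + s₁ * ν) (cpt χ u)) Q := by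
  unfold rvp
  rw [eval_bnd]
  congr 2
  funext o
  cases o with
  | none =>
    change MvPolynomial.eval _ (MvPolynomial.rename some (MvPolynomial.bind₁ χ g) +
      MvPolynomial.C s₁ * MvPolynomial.X none) = _
    rw [map_add, map_mul, MvPolynomial.eval_C, MvPolynomial.eval_X, eval_rename_some,
      Pool.M3F.eval_bind]
    rfl
  | some i => exact eval_rename_some _ _ _

lemma deg_rvm {χ : Fin d → MvPolynomial (Fin d) ℝ} {g : MvPolynomial (Fin d) ℝ} {s₁ : ℝ} {k₁ : ℕ}
    (hχ : ∀ i, (χ i).totalDegree ≤ k₁) (hg : g.totalDegree ≤ k₁) (o : Option (Fin d)) :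
    (rvm χ g s₁ o).totalDegree ≤ k₁ * k₁ + k₁ + 1 := by
  cases o with
  | none =>
    change (MvPolynomial.rename some (MvPolynomial.bind₁ χ g) +
      MvPolynomial.C s₁ * MvPolynomial.X none).totalDegree ≤ _
    refine (MvPolynomial.totalDegree_add _ _).trans (max_le ?_ ?_)
    · refine (MvPolynomial.totalDegree_rename_le _ _).trans ?_
      refine (SML.totalDegree_bind_le _ k₁ hχ _).trans ?_
      have : k₁ * g.totalDegree ≤ k₁ * k₁ := Nat.mul_le_mul_left _ hg
      omega
    · refine (MvPolynomial.totalDegree_mul _ _).trans ?_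
      rw [MvPolynomial.totalDegree_C, MvPolynomial.totalDegree_X]
      omega
  | some i =>
    change (MvPolynomial.rename some (χ i)).totalDegree ≤ _
    refine (MvPolynomial.totalDegree_rename_le _ _).trans ?_
    have := hχ i
    omega

lemma aeval_C_eval (u : Fin d → ℝ) (P : MvPolynomial (Fin d) ℝ) :
    MvPolynomial.aeval (fun i => Polynomial.C (u i)) P = Polynomial.C (MvPolynomial.eval u P) := by
  induction P using MvPolynomial.induction_on with
  | C a => simp
  | add p q hp hq => simp only [map_add, hp, hq]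
  | mul_X p k hp => simp [hp]

lemma natDegree_fxu_rvp {χ : Fin d → MvPolynomial (Fin d) ℝ} {g : MvPolynomial (Fin d) ℝ} {s₁ : ℝ}
    {Q : MvPolynomial (Option (Fin d)) ℝ} {D : ℕ} (hQ : Q.totalDegree ≤ D) (u : Fin d → ℝ) :
    (fxu u (rvp χ g s₁ Q)).natDegree ≤ D := by
  unfold fxu rvp
  rw [MvPolynomial.aeval_bind₁]
  have h1 := MvPolynomial.aeval_natDegree_le (m := D) (n := 1) Q hQ
    (fun o : Option (Fin d) => MvPolynomial.aeval
      (fun o : Option (Fin d) => o.elim Polynomial.X fun i => Polynomial.C (u i))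
      (rvm χ g s₁ o)) (fun o => by
      cases o with
      | none =>
        change (MvPolynomial.aeval
          (fun o : Option (Fin d) => o.elim Polynomial.X fun i => Polynomial.C (u i))
          (MvPolynomial.rename some (MvPolynomial.bind₁ χ g) +
            MvPolynomial.C s₁ * MvPolynomial.X none)).natDegree ≤ 1
        rw [map_add, map_mul, MvPolynomial.aeval_rename, MvPolynomial.aeval_X]
        refine (Polynomial.natDegree_add_le _ _).trans (max_le ?_ ?_)
        · change (MvPolynomial.aeval (fun i => Polynomial.C (u i)) _).natDegree ≤ 1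
          rw [aeval_C_eval, Polynomial.natDegree_C]
          exact Nat.zero_le _
        · rw [MvPolynomial.algHom_C]
          change (Polynomial.C s₁ * Polynomial.X).natDegree ≤ 1
          exact (Polynomial.natDegree_C_mul_le _ _).trans Polynomial.natDegree_X_le
      | some i =>
        change (MvPolynomial.aeval
          (fun o : Option (Fin d) => o.elim Polynomial.X fun i => Polynomial.C (u i))
          (MvPolynomial.rename some (χ i))).natDegree ≤ 1
        rw [MvPolynomial.aeval_rename]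
        change (MvPolynomial.aeval (fun i => Polynomial.C (u i)) _).natDegree ≤ 1
        rw [aeval_C_eval, Polynomial.natDegree_C]
        exact Nat.zero_le _)
  rwa [mul_one] at h1

end

/-- **The equation is small at all points near the leaves**, if it is small on separated
leaves. -/
theorem rev_sep (d D k₁ : ℕ) : ∃ Kr : ℝ, 1 ≤ Kr ∧
    ∀ (χ : Fin d → MvPolynomial (Fin d) ℝ) (g : Fin (D + 1) → MvPolynomial (Fin d) ℝ)
      (Q : MvPolynomial (Option (Fin d)) ℝ) (g₀ : (Fin d → ℝ) → ℝ) (z : Option (Fin d) → ℝ)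
      (h₀ s₀ s₁ β γ : ℝ),
      (∀ i, (χ i).totalDegree ≤ k₁) → (∀ j, (g j).totalDegree ≤ k₁) → Q.totalDegree ≤ D →
      0 ≤ h₀ → 0 ≤ s₀ → 0 < s₁ → h₀ + s₀ ≤ s₁ → 0 < β → 0 ≤ γ →
      (∀ j, ∀ u ∈ ucube d, |MvPolynomial.eval (cpt χ u) (g j) - g₀ (cpt χ u)| ≤ s₁ / 2) →
      (∀ j, ∀ u ∈ ucube d, |MvPolynomial.eval (lpt (g j) (cpt χ u)) Q| ≤ γ) →
      (∀ i j, i ≠ j → ∃ u ∈ ucube d,
        β ≤ |MvPolynomial.eval (cpt χ u) (g i) - MvPolynomial.eval (cpt χ u) (g j)|) →
      |z none - MvPolynomial.eval (bse z) (g 0)| ≤ h₀ →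
      (∀ y : Fin d → ℝ, (∀ i, |y i - bse z i| ≤ s₀) →
        |MvPolynomial.eval y (g 0) - MvPolynomial.eval (bse z) (g 0)| ≤ s₁ / 4) →
      (∀ y : Fin d → ℝ, (∀ i, |y i - bse z i| ≤ s₀) →
        ∃ u : Fin d → ℝ, (∀ i, |u i| ≤ 2) ∧ cpt χ u = y) →
      Psi Q s₀ z ≤ Kr * (s₁ / β) ^ D * γ := by
  classical
  obtain ⟨k, hk⟩ : ∃ k : ℕ, k = (k₁ * k₁ + k₁ + 1) * D + k₁ * k₁ := ⟨_, rfl⟩
  obtain ⟨K₁, hK₁, H₁⟩ := clu d k D
  obtain ⟨K₂, hK₂, H₂⟩ := grd_coef (Option (Fin d)) k
  obtain ⟨K₃, hK₃, H₃⟩ := exists_Psi_le_sup (Option (Fin d)) D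
  have hp2 : (1 : ℝ) ≤ 2 ^ k := one_le_pow₀ one_le_two
  refine ⟨K₃ * (2 ^ k * (K₂ * K₁)), one_le_mul_of_one_le_of_one_le hK₃
    (one_le_mul_of_one_le_of_one_le hp2 (one_le_mul_of_one_le_of_one_le hK₂ hK₁)), ?_⟩
  intro χ g Q g₀ z h₀ s₀ s₁ β γ hχ hg hQ hh₀ hs₀ hs₁ hhs hβ hγ hspr hQg hsep hz hlip hcov
  obtain ⟨R, hR⟩ : ∃ R, R = rvp χ (g 0) s₁ Q := ⟨_, rfl⟩
  obtain ⟨φ, hφ⟩ : ∃ φ : Fin (D + 1) → MvPolynomial (Fin d) ℝ, φ = fun j =>
    MvPolynomial.C (1 / s₁) * (MvPolynomial.bind₁ χ (g j) - MvPolynomial.bind₁ χ (g 0)) :=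
    ⟨_, rfl⟩
  have hφe : ∀ j u, MvPolynomial.eval u (φ j) =
      (MvPolynomial.eval (cpt χ u) (g j) - MvPolynomial.eval (cpt χ u) (g 0)) / s₁ := by
    intro j u
    rw [hφ]
    simp only [map_mul, map_sub, MvPolynomial.eval_C, Pool.M3F.eval_bind]
    ring
  have hbd : ∀ j, (MvPolynomial.bind₁ χ (g j)).totalDegree ≤ k₁ * k₁ := fun j =>
    (SML.totalDegree_bind_le _ k₁ hχ _).trans (Nat.mul_le_mul_left _ (hg j))
  have hRd : R.totalDegree ≤ k := by
    rw [hR]
    unfold rvp
    refine (SML.totalDegree_bind_le _ (k₁ * k₁ + k₁ + 1) (deg_rvm hχ (hg 0)) _).trans ?_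
    rw [hk]
    exact (Nat.mul_le_mul_left _ hQ).trans (Nat.le_add_right _ _)
  have hev : ∀ u j, MvPolynomial.eval (fun o : Option (Fin d) =>
      o.elim (MvPolynomial.eval u (φ j)) u) R = MvPolynomial.eval (lpt (g j) (cpt χ u)) Q := by
    intro u j
    rw [hR, eval_rvp, hφe]
    congr 2
    funext o
    cases o with
    | none =>
      change MvPolynomial.eval (cpt χ u) (g 0) + s₁ * _ = MvPolynomial.eval (cpt χ u) (g j)
      rw [mul_div_cancel₀ _ hs₁.ne']
      ring
    | some i => rfl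
  have h1 := H₁ R φ (β / s₁) γ hRd (fun u => by
    rw [hR]
    exact natDegree_fxu_rvp hQ u) (fun j => by
    rw [hφ]
    refine (MvPolynomial.totalDegree_mul _ _).trans ?_
    rw [MvPolynomial.totalDegree_C, zero_add]
    refine (MvPolynomial.totalDegree_sub _ _).trans (max_le ?_ ?_)
    · exact (hbd j).trans (by rw [hk]; exact Nat.le_add_left _ _)
    · exact (hbd 0).trans (by rw [hk]; exact Nat.le_add_left _ _)) (by positivity) hγ
    (fun j u hu => by
      rw [hφe, abs_div, abs_of_pos hs₁, div_le_one hs₁]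
      have a1 := abs_le.1 (hspr j u hu)
      have a2 := abs_le.1 (hspr 0 u hu)
      rw [abs_le]
      constructor <;> linarith [a1.1, a1.2, a2.1, a2.2])
    (fun j u hu => by
      rw [hev]
      exact hQg j u hu)
    (fun i j hij => by
      obtain ⟨u, hu, h2⟩ := hsep i j hij
      refine ⟨u, hu, ?_⟩
      rw [hφe, hφe, ← sub_div, abs_div, abs_of_pos hs₁]
      refine div_le_div_of_nonneg_right ?_ hs₁.le
      refine h2.trans (le_of_eq ?_)
      congr 1
      ring)
  obtain ⟨M, hM⟩ : ∃ M : ℝ, M = K₁ * (s₁ / β) ^ D * γ := ⟨_, rfl⟩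
  have hM0 : 0 ≤ M := by
    rw [hM]
    positivity
  rw [one_div_div, ← hM] at h1
  have h2 : coefSum R ≤ K₂ * M := H₂ R M hRd fun a => by
    have h3 := h1 (fun i => grp k a (some i)) (fun i => grp_mem k a (some i)) (grp k a none) (by
      have := grp_mem k a none
      rw [abs_of_nonneg this.1]
      linarith [this.2])
    have e : (fun o : Option (Fin d) => o.elim (grp k a none) fun i => grp k a (some i)) =
        grp k a := by
      funext o
      cases o <;> rfl
    rwa [e] at h3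
  have h3 : Psi Q s₀ z ≤ K₃ * (2 ^ k * (K₂ * M)) := H₃ Q s₀ z _ hQ hs₀ fun y hy => by
    obtain ⟨u, hu, huy⟩ := hcov (bse y) fun i => hy (some i)
    obtain ⟨ν, hν⟩ : ∃ ν : ℝ, ν = (y none - MvPolynomial.eval (bse y) (g 0)) / s₁ := ⟨_, rfl⟩
    have hν2 : |ν| ≤ 2 := by
      rw [hν, abs_div, abs_of_pos hs₁, div_le_iff₀ hs₁]
      have b1 := abs_le.1 (hy none)
      have b2 := abs_le.1 hz
      have b3 := abs_le.1 (hlip (bse y) fun i => hy (some i))
      rw [abs_le]
      constructor <;> linarith [b1.1, b1.2, b2.1, b2.2, b3.1, b3.2]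
    have e1 : MvPolynomial.eval y Q =
        MvPolynomial.eval (fun o : Option (Fin d) => o.elim ν u) R := by
      rw [hR, eval_rvp, huy]
      congr 2
      funext o
      cases o with
      | none =>
        change y none = MvPolynomial.eval (bse y) (g 0) + s₁ * ν
        rw [hν, mul_div_cancel₀ _ hs₁.ne']
        ring
      | some i => rfl
    rw [e1]
    refine (abs_eval_two R hRd _ fun o => ?_).trans
      (mul_le_mul_of_nonneg_left h2 (by positivity))
    cases o with
    | none => exact hν2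
    | some i => exact hu i
  refine h3.trans (le_of_eq ?_)
  rw [hM]
  ring

end Pool.CLO37
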