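import Pool.Agent.H37.CLO.Clf
import Pool.Agent.H37.CLO.Geo
import Pool.Agent.H86.GEO.Def
import Pool.Agent.H86.GEO.Seg

/-!
# The cells of the chart of the long window, in the units of the short window
-/

set_option autoImplicit false

namespace Pool.CLO37

open Finset Real MvPolynomial
open Pool.Agent.H49.Ent Pool.Agent.H32.Dense Pool.STK Pool.KAF Pool.KAL Pool.KS3 Pool.M3F
open Pool.KJA Pool.KA Pool.K2S Pool.KSAT Pool.PB Pool.STAT Pool.GEN

variable {m J : ℕ} {F : Fam m J}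

/-- The scaled base point. -/
noncomputable def yun (c : ℕ → Fin m) (r U : ℕ) (ξ : PtT F) (i : Fin (r + 1)) : ℝ :=
  2 ^ U * px c ξ i.val

lemma unF_yun (c : ℕ → Fin m) (r U : ℕ) (ξ : PtT F) {i : ℕ} (hi : i < r + 1) :
    unF (r + 1) U (yun c r U ξ) i = px c ξ i := by
  unfold unF yun
  rw [dif_pos hi]
  have : (2 : ℝ) ^ U ≠ 0 := by positivity
  field_simp

lemma eval_yun (c : ℕ → Fin m) (r U : ℕ) (ξ : PtT F) {P : PN} {i : ℕ} (hi : i ≤ r + 1)
    (hP : P.vars ⊆ range i) :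
    eval (yun c r U ξ) (toF (r + 1) U P) = 2 ^ U * eval (px c ξ) P := by
  rw [eval_toF]
  congr 1
  exact (eval_eq_unF (hP.trans (Finset.range_mono hi)) (fun _ => rfl)).symm

section lab

variable {c : ℕ → Fin m} {r W sg : ℕ} {g : ℕ → ℕ} {K : ℕ} {L : ℝ} {B : F.Ω → Prop} {V : Type}
  {z : PtT F → V} {z' : LnT F → V} {P : V → ℕ → PN}

/-- The gradients in other units. -/
lemma grad_u (hN : NLabW F c r W sg g K L B z z' P) (hL : 0 ≤ L) {ω : F.Ω} (hω : B ω) {U : ℕ}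
    {y : Fin (r + 1) → ℝ} (hy : ∀ i : Fin (r + 1),
      |y i - eval y (toF (r + 1) U (P (z (ptr F J ω)) i))| ≤ 4 * (2 ^ U / 2 ^ wid W g i)) {i : ℕ}
    (hi : i ≤ r + 1) (l : Fin (r + 1)) :
    |eval y (pderiv l (toF (r + 1) U (P (z (ptr F J ω)) i)))| ≤ L := by
  have hU : (0 : ℝ) < 2 ^ U := by positivity
  rw [eval_pderiv_toF]
  rcases Nat.lt_or_ge l.val i with h1 | h1
  · refine hN.grad ω hω (unF (r + 1) U y) (fun j hj => ?_) i hi l.val h1
    have h2 := hy ⟨j, hj⟩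
    rw [eval_toF] at h2
    have e1 : unF (r + 1) U y j = y ⟨j, hj⟩ / 2 ^ U := by
      unfold unF
      rw [dif_pos hj]
    have e2 : unF (r + 1) U y j - eval (unF (r + 1) U y) (P (z (ptr F J ω)) j) =
        (y ⟨j, hj⟩ - 2 ^ U * eval (unF (r + 1) U y) (P (z (ptr F J ω)) j)) / 2 ^ U := by
      rw [e1]
      field_simp
    rw [e2, abs_div, abs_of_pos hU, div_le_iff₀ hU]
    refine h2.trans (le_of_eq ?_)
    ring
  · have h2 : pderiv l.val (P (z (ptr F J ω)) i) = 0 := by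
      refine pderiv_eq_zero_of_notMem_vars fun h3 => ?_
      have := mem_range.1 (hN.tri _ _ h3)
      omega
    rw [h2, map_zero, abs_zero]
    exact hL

/-- The samples are in the natural box. -/
lemma pos_u (hN : NLabW F c r W sg g K L B z z' P) (hWJ : W ≤ J) {ω : F.Ω} (hω : B ω) (U : ℕ)
    (i : Fin (r + 1)) :
    |yun c r U (ptr F J ω) i - eval (yun c r U (ptr F J ω))
      (toF (r + 1) U (P (z (ptr F J ω)) i))| ≤ 2 ^ U / 2 ^ wid W g i := by
  have hU : (0 : ℝ) < 2 ^ U := by positivity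
  rw [eval_yun c r U _ i.2.le (hN.tri _ i)]
  have h1 := pos_w hN hWJ hω i.2
  unfold yun
  rw [← mul_sub, abs_mul, abs_of_pos hU, div_eq_mul_one_div]
  exact mul_le_mul_of_nonneg_left h1 hU.le

end lab

/-! ### The cells -/

section cells

variable {d : ℕ} {M : ℕ} {N : Fin d → ℕ} {G : Fin d → MvPolynomial (Fin d) ℝ}

/-- The index of the cell of a point. -/
noncomputable def cidx (M : ℕ) (N : Fin d → ℕ) (G : Fin d → MvPolynomial (Fin d) ℝ)
    (y : Fin d → ℝ) : Fin d → ℤ := nidx N (ndg M G y)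

/-- A point is in its cell. -/
lemma mem_cidx (hM : 1 ≤ M) (hN : ∀ i, 1 ≤ N i) (y : Fin d → ℝ) :
    y ∈ ncell M N G (cidx M N G y) := by
  intro i
  have hM0 : (0 : ℝ) < M := by exact_mod_cast hM
  have hN0 : (0 : ℤ) < N i := by exact_mod_cast hN i
  obtain ⟨n, hn⟩ : ∃ n : ℤ, n = ndg M G y i := ⟨_, rfl⟩
  have h1 : (n : ℝ) ≤ M * (y i - eval y (G i)) := by
    rw [hn]
    exact Int.floor_le _
  have h2 : (M : ℝ) * (y i - eval y (G i)) < n + 1 := by
    rw [hn]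
    exact Int.lt_floor_add_one _
  have h3 : cidx M N G y i * (N i : ℤ) ≤ n := by
    unfold cidx nidx
    rw [← hn]
    exact Int.ediv_mul_le _ hN0.ne'
  have h4 : n < (cidx M N G y i + 1) * (N i : ℤ) := by
    unfold cidx nidx
    rw [← hn]
    exact Int.lt_ediv_add_one_mul_self _ hN0
  have h3' : (cidx M N G y i : ℝ) * N i ≤ n := by exact_mod_cast h3
  have h4' : (n : ℝ) + 1 ≤ (cidx M N G y i + 1) * N i := by exact_mod_cast h4
  constructor
  · rw [div_le_iff₀ hM0]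
    linarith
  · rw [← add_div, le_div_iff₀ hM0]
    linarith

/-- The indices of the cells of a box. -/
noncomputable def cbox (M : ℕ) (N : Fin d → ℕ) (ce w : Fin d → ℝ) : Finset (Fin d → ℤ) :=
  Fintype.piFinset fun i => Finset.Icc (⌊M * (ce i - w i) / N i⌋ - 1) (⌊M * (ce i + w i) / N i⌋)

lemma mem_cbox (hM : 1 ≤ M) (hN : ∀ i, 1 ≤ N i) {ce w : Fin d → ℝ} {y : Fin d → ℝ}
    (hy : ∀ i, |y i - eval y (G i) - ce i| ≤ w i) : cidx M N G y ∈ cbox M N ce w := by
  unfold cbox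
  rw [Fintype.mem_piFinset]
  intro i
  have hM0 : (0 : ℝ) < M := by exact_mod_cast hM
  have hN0 : (0 : ℝ) < N i := by exact_mod_cast hN i
  obtain ⟨h1, h2⟩ := mem_cidx (G := G) hM hN y i
  have h3 := abs_le.1 (hy i)
  rw [Finset.mem_Icc]
  constructor
  · rw [sub_le_iff_le_add, Int.floor_le_iff]
    rw [div_lt_iff₀ hN0]
    have h4 : y i - eval y (G i) ≤ ((cidx M N G y i : ℝ) + 1) * N i / M := by
      refine h2.trans (le_of_eq ?_)
      ring
    rw [le_div_iff₀ hM0] at h4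
    push_cast
    nlinarith [h3.1]
  · rw [Int.le_floor, le_div_iff₀ hN0]
    rw [div_le_iff₀ hM0] at h1
    nlinarith [h3.2]

lemma card_cbox (hM : 1 ≤ M) (hN : ∀ i, 1 ≤ N i) {ce w : Fin d → ℝ} {Q : ℕ}
    (hQ : ∀ i, 2 * (M * w i / N i) + 3 ≤ Q) : (cbox M N ce w).card ≤ Q ^ d := by
  unfold cbox
  rw [Fintype.card_piFinset]
  have h1 : ∀ i ∈ (Finset.univ : Finset (Fin d)),
      (Finset.Icc (⌊M * (ce i - w i) / N i⌋ - 1) (⌊M * (ce i + w i) / N i⌋)).card ≤ Q := by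
    intro i _
    rw [Int.card_Icc]
    have hM0 : (0 : ℝ) < M := by exact_mod_cast hM
    have hN0 : (0 : ℝ) < N i := by exact_mod_cast hN i
    have h2 := Int.lt_floor_add_one (M * (ce i - w i) / N i)
    have h3 := Int.floor_le (M * (ce i + w i) / N i)
    have h4 : (M : ℝ) * (ce i + w i) / N i - M * (ce i - w i) / N i = 2 * (M * w i / N i) := by
      field_simp
      ring
    have h5 : ((⌊M * (ce i + w i) / N i⌋ + 1 - (⌊M * (ce i - w i) / N i⌋ - 1) : ℤ) : ℝ) ≤ Q := by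
      push_cast
      have := hQ i
      linarith
    have h6 : ⌊M * (ce i + w i) / N i⌋ + 1 - (⌊M * (ce i - w i) / N i⌋ - 1) ≤ (Q : ℤ) := by
      exact_mod_cast h5
    omega
  refine (Finset.prod_le_pow_card _ _ _ h1).trans (le_of_eq ?_)
  rw [Finset.card_univ, Fintype.card_fin]

/-- The degree of the chart. -/
lemma deg_nchi {K : ℕ} (hK : ∀ i, (G i).totalDegree ≤ K) (b : Fin d → ℤ) (i : Fin d) :
    (nchi M N G b i).totalDegree ≤ (K + 1) ^ d :=
  deg_chiN G (ncor M N b) (nwid M N) K hK d i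

/-- The neighbourhood of a point is in the chart of its cell, enlarged. -/
lemma cov_nchi (hM : 1 ≤ M) (hN : ∀ i, 1 ≤ N i) (hG : TriP G) {y y' : Fin d → ℝ}
    {b : Fin d → ℤ} (hy : y ∈ ncell M N G b)
    (h : ∀ i, |(y' i - eval y' (G i)) - (y i - eval y (G i))| ≤ (N i : ℝ) / M) :
    ∃ u : Fin d → ℝ, (∀ i, |u i| ≤ 2) ∧ cpt (nchi M N G b) u = y' := by
  refine ⟨rpos M N G b y', fun i => ?_, nchi_rpos hM hN hG y'⟩
  have hM0 : (0 : ℝ) < M := by exact_mod_cast hM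
  have hN0 : (0 : ℝ) < N i := by exact_mod_cast hN i
  have hw : 0 < (N i : ℝ) / M := by positivity
  have h1 := rpos_mem hM hN hy i
  have h2 : |rpos M N G b y' i - rpos M N G b y i| ≤ 1 := by
    unfold rpos
    rw [← sub_div, abs_div, abs_of_pos hw, div_le_one hw]
    refine le_trans (le_of_eq ?_) (h i)
    congr 1
    ring
  rw [abs_le] at h2 ⊢
  constructor <;> linarith [h1.1, h1.2, h2.1, h2.2]

end cells

end Pool.CLO37
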